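import Pool.Agent.S3.W3.Ratio
import Pool.Agent.S3.W2.FlatSw
import Pool.Agent.S3.Ck.Cos

/-!
# Two vertices with two half twists: a slide from the data of the edge
-/

set_option autoImplicit false

namespace Pool.Agent.S3.T2

open Complex Set
open Pool.Agent.H25.RK (gdv)

/-- The value of (E3) of a slot. -/
noncomputable def X3 (θ xc b μ a : ℝ) : ℝ :=
  μ * bl θ (2 / 5) - 49 / 50 * BP b (gdv (UU xc θ)) (vl θ a)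

/-- (E3) from the base `r` on: `c` for the small angles, `o` for the large ones. -/
def E3C (θ xc b μ r c o : ℝ) : Prop := ∀ a, r ≤ a → a ≤ 2 / 5 →
  (Real.tan θ ^ 2 ≤ 5779 / 10000 → X3 θ xc b μ a ≤ c) ∧
  (5779 / 10000 < Real.tan θ ^ 2 → X3 θ xc b μ a ≤ o)

/-- The data of a slot of an edge between two inner vertices with two half twists. -/
structure Sl22 (θ θ' xc xc' b μ : ℝ) : Prop where
  t0 : 1 / 4 ≤ Real.tan θ ^ 2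
  t1 : Real.tan θ ^ 2 ≤ 757 / 1000
  b0 : 0 ≤ b
  j : Ck.J3 (Real.tan θ ^ 2) (Real.tan θ' ^ 2)
  e1 : ∀ a ∈ Ioc (29 / 100 : ℝ) (2 / 5),
    rl b (gdv (UU xc θ)) (qq (UU xc θ) (UU xc' (-θ'))) θ a ≤ cE a * S2l θ a
  x0 : E3C θ xc b μ (29 / 100) (63 / 1000) (3 / 50)
  x1 : E3C θ xc b μ (59 / 200) (123 / 2000) (29 / 500)
  x2 : E3C θ xc b μ (31 / 100) (567 / 10000) (11 / 200)
  x3 : E3C θ xc b μ (643 / 2000) (33 / 625) (13 / 250)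
  x4 : E3C θ xc b μ (67 / 200) (479 / 10000) (23 / 500)
  x5 : E3C θ xc b μ (71 / 200) (401 / 10000) (21 / 500)
  x6 : E3C θ xc b μ (3 / 8) (147 / 5000) (7 / 200)
  x7 : E3C θ xc b μ (39 / 100) (19 / 1000) (3 / 100)
  p0 : ∀ a, 0 ≤ a → a ≤ 1 / 25 → 31 / 1000 ≤ 49 / 50 * BP b (gdv (UU xc θ)) (vl θ a)
  p0' : ∀ a, 0 ≤ a → a ≤ 1 / 25 → 127 / 200 ≤ Real.tan θ ^ 2 →
    17 / 500 ≤ 49 / 50 * BP b (gdv (UU xc θ)) (vl θ a)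
  p1 : ∀ a, 0 ≤ a → a ≤ 2 / 25 → 1 / 50 ≤ 49 / 50 * BP b (gdv (UU xc θ)) (vl θ a)
  p2 : ∀ a, 0 ≤ a → a ≤ 3 / 25 → 1 / 100 ≤ 49 / 50 * BP b (gdv (UU xc θ)) (vl θ a)

/-- The heights of a box. -/
def KR (a0 w0 w1 p0 p1 s0 s1 klo khi : ℝ) : Prop := ∀ {θ θ' : ℝ} {w : ℂ},
  Pr θ θ' (vl θ a0) w → w.im = bl θ' w.re → w0 ≤ w.re → w.re ≤ w1 →
  p0 ≤ Real.tan θ' ^ 2 → Real.tan θ' ^ 2 ≤ p1 → s0 ≤ Real.tan θ ^ 2 → Real.tan θ ^ 2 ≤ s1 →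
  klo * Real.tan θ ≤ Real.sinh (Real.pi * (yv (vl θ a0) w).im) ∧
    Real.sinh (Real.pi * (yv (vl θ a0) w).im) ≤ khi * Real.tan θ

/-- The conclusion on the edge function at a pair of points. -/
def FlP (Φ : ℂ → ℂ → ℂ) (θ θ' xc xc' b b' v1 v1' μ μ' : ℝ) (v w : ℂ) : Prop :=
  ∃ H : ℝ, |H| ≤ 1 ∧ (Side (yv (cmp v1 v) (cmp v1' w)) H ∨
      ∀ Y ∈ Set.uIcc 0 H, EE (.op (cmp v1 v)) (.op ((starRingEnd ℂ) (cmp v1' w))) ((Y : ℂ) * I) <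
        LM Φ θ θ' b b' xc xc' v1 v1' μ μ' v w) ∧ ∀ t ∈ Set.Icc (0 : ℝ) (1 / 2),
      EE (.op (cmp v1 v)) (.op ((starRingEnd ℂ) (cmp v1' w))) ((t : ℂ) + H * I) <
        LM Φ θ θ' b b' xc xc' v1 v1' μ μ' v w

section

variable {Φ : ℂ → ℂ → ℂ} {θ θ' xc xc' b b' v1 v1' μ μ' : ℝ} {v w : ℂ}

/-- Exchange of the two vertices. -/
theorem FlP.swap (H : OO Φ θ θ' xc xc' b b' v1 v1') (hv : v ∈ G0 θ v1) (hv0 : 0 ≤ v.re)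
    (hw : w ∈ G0 θ' v1') (hw0 : 0 ≤ w.re) (h : FlP Φ θ θ' xc xc' b b' v1 v1' μ μ' v w) :
    FlP (fun v w => Φ w v) θ' θ xc' xc b' b v1' v1 μ' μ w v := by
  obtain ⟨H1, h1, h2, h3⟩ := h
  have hp := H.pr hv hv0 hw hw0
  refine ⟨-H1, by rwa [abs_neg], ?_, ?_⟩
  · rcases h2 with h2 | h2
    · left
      rw [yv_swap hp]
      exact h2.conj
    · right
      intro Y hY
      rw [H.LM_swap, ← conj_vert Y, EE_sw]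
      apply h2
      rw [Set.mem_uIcc] at hY ⊢
      rcases hY with hY | hY
      · exact Or.inr ⟨by linarith [hY.2], by linarith [hY.1]⟩
      · exact Or.inl ⟨by linarith [hY.2], by linarith [hY.1]⟩
  · intro t ht
    rw [H.LM_swap, ← conj_hor, EE_sw]
    exact h3 t ht

theorem Pr_vl {a : ℝ} (h : Pr θ θ' v w) (h0 : 0 ≤ a) (h1 : a ≤ 2 / 5) : Pr θ θ' (vl θ a) w := by
  refine ⟨⟨by rw [vl_re]; exact h0, by rw [vl_re]; exact h1, ?_, ?_⟩, h.hw, h.hθ, h.hθ', h.S⟩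
  · rw [vl_im]
    exact bl_nonneg h.hθ.pos.le h.hθ.lt (by rw [abs_of_nonneg h0]; linarith)
  · rw [vl_im, vl_re]

theorem Cert22.go {a0 w0 w1 p0 p1 s0 s1 klo khi x0 D0 D1 e0 e1 : ℝ}
    (C : Cert22 a0 w0 w1 p0 p1 s0 s1 klo khi x0 D0 D1 e0 e1)
    (kr : KR a0 w0 w1 p0 p1 s0 s1 klo khi) (hk : 0 < klo)
    (H : OO Φ θ θ' xc xc' b b' (2 / 5) (2 / 5)) (S : Sl22 θ θ' xc xc' b μ)
    (S' : Sl22 θ' θ xc' xc b' μ')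
    (hs0 : s0 ≤ Real.tan θ ^ 2) (hs1 : Real.tan θ ^ 2 ≤ s1)
    (hp0 : p0 ≤ Real.tan θ' ^ 2) (hp1 : Real.tan θ' ^ 2 ≤ p1)
    (hw : w0 ≤ w.re) (hw' : w.re ≤ w1) (hwl : w.im = bl θ' w.re)
    (ha : 29 / 100 ≤ a0) (ha0 : a0 ≤ 2 / 5) {s0' s1' K e3 bp : ℝ}
    (hs0' : s0' ≤ Real.tan θ ^ 2) (hs1' : Real.tan θ ^ 2 ≤ s1')
    (N : NumM s0' s1' a0 x0 D0 D1 e0 e1 K (e3 - bp))
    (hX : X3 θ xc b μ a0 ≤ e3) (hbp : bp ≤ 49 / 50 * BP b' (gdv (UU xc' θ')) w)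
    (hbase : ∀ t ∈ Icc (0 : ℝ) (1 / 2),
      EE (.op (vl θ a0)) (.op ((starRingEnd ℂ) w))
          ((t : ℂ) + ((yv (vl θ a0) w).im : ℂ) * I) <
        LM Φ θ θ' b b' xc xc' (2 / 5) (2 / 5) μ μ' (vl θ a0) w -
          (49 / 50 * BP b (gdv (UU xc θ)) (vl θ a0) + 49 / 50 * BP b' (gdv (UU xc' θ')) w))
    (h3 : Ph3R (2 / 5) θ (yv (vl θ a0) w).im K ((starRingEnd ℂ) w))
    (hEnd : ∀ v : ℂ, v ∈ G0 θ (2 / 5) → 0 ≤ v.re → Real.pi * (v.im + w.im) <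
      LM Φ θ θ' b b' xc xc' (2 / 5) (2 / 5) μ μ' v w) (hv : v ∈ G0 θ (2 / 5)) (hva : a0 ≤ v.re) :
    FlP Φ θ θ' xc xc' b b' (2 / 5) (2 / 5) μ μ' v w := by
  have w0' : 0 ≤ w.re := C.hw.trans hw
  have w1' : w.re ≤ a0 := hw'.trans C.hw'
  have w2 : w.re ≤ 2 / 5 := w1'.trans ha0
  have ec : cmp (2 / 5) w = w := if_pos w2
  have hG : w ∈ G0 θ' (2 / 5) := Or.inl ⟨by rwa [abs_of_nonneg w0'], hwl⟩
  have hv0 : 0 ≤ v.re := by linarith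
  have hp := H.pr hv hv0 hG w0'
  rw [ec] at hp
  have hp' := Pr_vl hp (a := a0) (by linarith) ha0
  obtain ⟨k1, k2⟩ := kr hp' hwl hw hw' hp0 hp1 hs0 hs1
  have htp : 0 < Real.tan θ := Real.tan_pos_of_pos_of_lt_pi_div_two H.hθ.pos H.hθ.lt
  have hpi := Real.pi_pos
  have hh : 0 < (yv (vl θ a0) w).im := by
    have h1 : 0 < Real.sinh (Real.pi * (yv (vl θ a0) w).im) :=
      lt_of_lt_of_le (mul_pos hk htp) k1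
    have h2 := Real.sinh_pos_iff.1 h1
    exact (pos_iff_pos_of_mul_pos h2).1 hpi
  obtain ⟨c1, c2, c3, c4⟩ := H.crit0
  have n1 : 0 ≤ BP b (gdv (UU xc θ)) (vl θ a0) := BP_nonneg H.hθ.pos.le H.hθ.lt
    H.hs.b0.le (by rw [vl_re]; linarith) (by rw [vl_re]; linarith) c1 c2
    (by rw [vl_im, vl_re]) (line_im_bl H.hθ.abs)
  have n2 : 0 ≤ BP b' (gdv (UU xc' θ')) w := BP_nonneg H.hθ'.pos.le H.hθ'.lt
    H.hs.b0'.le w0' (by linarith) c3 c4 hwl (line_im_bl H.hθ'.abs)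
  have t1 := S.t1
  have t1' := S'.t1
  obtain ⟨h, a1, a2, a3⟩ := C.slideR le_rfl (by norm_num) H (w := w) (μ := μ) (μ' := μ') (K := K) (E3 := e3 - bp)
    (h0 := (yv (vl θ a0) w).im)
    (B := 49 / 50 * BP b (gdv (UU xc θ)) (vl θ a0) + 49 / 50 * BP b' (gdv (UU xc' θ')) w)
    hs0 hs1 hs0' hs1' hp0 hp1 (by linarith) (by linarith) hw hw' hwl ha0 hh k1 k2 (by linarith)
    hbase N S.e1 (by unfold X3 at hX; linarith) h3 hEnd v hv hva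
  rw [← ec] at a2 a3
  refine ⟨h, a1, Or.inr ?_, ?_⟩
  · rw [ec] at a2 ⊢
    exact a2
  · rw [ec] at a3 ⊢
    exact a3

end

end Pool.Agent.S3.T2
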