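import Pool.Agent.S3.W2.SlideN

/-!
# A slide from its certificates: piecewise constants, two base margins
-/

set_option autoImplicit false

namespace Pool.Agent.S3.T2

open Complex Set
open Pool.Agent.S3.NI
open Pool.Agent.H25.RK (gdv gdv_re_lt gdv_hasDerivAt)

/-- A concave quadratic is positive between two points where it is positive. -/
theorem quad_pos {A B C s0 s1 s : ℝ} (hC : 0 ≤ C) (h0 : s0 ≤ s) (h1 : s ≤ s1)
    (p0 : 0 < A + B * s0 - C * s0 ^ 2) (p1 : 0 < A + B * s1 - C * s1 ^ 2) :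
    0 < A + B * s - C * s ^ 2 := by
  rcases h0.eq_or_lt with e | h0'
  · rw [← e]; exact p0
  · rcases h1.eq_or_lt with e | h1'
    · rw [e]; exact p1
    · have q : (s1 - s0) * (A + B * s - C * s ^ 2) = (s1 - s) * (A + B * s0 - C * s0 ^ 2) +
        (s - s0) * (A + B * s1 - C * s1 ^ 2) + C * ((s - s0) * (s1 - s) * (s1 - s0)) := by ring
      have p2 : 0 ≤ C * ((s - s0) * (s1 - s) * (s1 - s0)) := by
        apply mul_nonneg hC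
        apply mul_nonneg (mul_nonneg (by linarith) (by linarith)) (by linarith)
      have p3 := mul_pos (sub_pos.2 h1') p0
      have p4 := mul_pos (sub_pos.2 h0') p1
      have : 0 < (s1 - s0) * (A + B * s - C * s ^ 2) := by rw [q]; linarith
      exact (pos_iff_pos_of_mul_pos this).1 (by linarith)

/-- An affine function between two points. -/
theorem lin_le {A B s0 s1 s c : ℝ} (h0 : s0 ≤ s) (h1 : s ≤ s1) (p0 : c ≤ A + B * s0)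
    (p1 : c ≤ A + B * s1) : c ≤ A + B * s := by
  rcases le_total 0 B with hB | hB
  · exact p0.trans (by nlinarith)
  · exact p1.trans (by nlinarith)

/-- The numerical conditions of a slide. -/
structure NumM (s0 s1 a0 x0 D0 D1 e0 e1 K E3 : ℝ) : Prop where
  n0 : e0 - e1 * s0 ≤ D0 - D1 * s0
  n0' : e0 - e1 * s1 ≤ D0 - D1 * s1
  n1 : 1 / 100000 ≤ D0 - D1 * s0
  n1' : 1 / 100000 ≤ D0 - D1 * s1
  n2 : E3 + 1 / 100000 < 2 * (x0 - a0) * (D0 - D1 * s0) + 2 * (e0 - e1 * s0) * (2 / 5 - x0) +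
    K / 2 * (1013 / 10000 * (954 / 10000 * s0 - 31 / 10000 * s0 ^ 2))
  n2' : E3 + 1 / 100000 < 2 * (x0 - a0) * (D0 - D1 * s1) + 2 * (e0 - e1 * s1) * (2 / 5 - x0) +
    K / 2 * (1013 / 10000 * (954 / 10000 * s1 - 31 / 10000 * s1 ^ 2))
  n4 : 1 / 100000 < 2 * (D0 - D1 * s0) * (x0 - a0) + 2 * (e0 - e1 * s0) * (2 / 5 - x0)
  n4' : 1 / 100000 < 2 * (D0 - D1 * s1) * (x0 - a0) + 2 * (e0 - e1 * s1) * (2 / 5 - x0)
  hK : 0 ≤ K
  ha : a0 ≤ x0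
  hx : x0 ≤ 2 / 5
  a0' : 29 / 100 ≤ a0

theorem NumM.fin {s0 s1 a0 x0 D0 D1 e0 e1 K E3 s β2 m B : ℝ} (N : NumM s0 s1 a0 x0 D0 D1 e0 e1 K E3)
    (h0 : s0 ≤ s) (h1 : s ≤ s1)
    (hβ : 1013 / 10000 * (954 / 10000 * s - 31 / 10000 * s ^ 2) ≤ β2) (h3 : m - B ≤ E3) :
    m < B + 2 * (D0 - D1 * s - 1 / 100000) * (x0 - a0) +
      2 * (e0 - e1 * s - 1 / 100000) * (2 / 5 - x0) + K * β2 / 2 := by
  have hK := N.hK
  have hx := N.hx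
  have ha := N.ha
  have ha0 := N.a0'
  have n2 := N.n2
  have n2' := N.n2'
  have q := quad_pos (A := 2 * (x0 - a0) * D0 + 2 * e0 * (2 / 5 - x0) - (E3 + 1 / 100000))
    (B := -(2 * (x0 - a0) * D1) - 2 * e1 * (2 / 5 - x0) + K / 2 * (1013 / 10000 * (954 / 10000)))
    (C := K / 2 * (1013 / 10000 * (31 / 10000))) (by positivity) h0 h1 (by linarith) (by linarith)
  have q2 : K * (1013 / 10000 * (954 / 10000 * s - 31 / 10000 * s ^ 2)) ≤ K * β2 :=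
    mul_le_mul_of_nonneg_left hβ hK
  have q3 : (2 / 5 - a0) * (2 / 100000) ≤ 1 / 100000 := by linarith
  nlinarith

theorem NumM.E {s0 s1 a0 x0 D0 D1 e0 e1 K E3 s B : ℝ} (N : NumM s0 s1 a0 x0 D0 D1 e0 e1 K E3)
    (h0 : s0 ≤ s) (h1 : s ≤ s1) (hB : 0 ≤ B) :
    0 < B + 2 * (D0 - D1 * s - 1 / 100000) * (x0 - a0) +
      2 * (e0 - e1 * s - 1 / 100000) * (2 / 5 - x0) := by
  have hx := N.hx
  have ha := N.ha
  have ha0 := N.a0'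
  have n4 := N.n4
  have n4' := N.n4'
  have q := quad_pos (A := 2 * (x0 - a0) * D0 + 2 * e0 * (2 / 5 - x0) - 1 / 100000)
    (B := -(2 * (x0 - a0) * D1) - 2 * e1 * (2 / 5 - x0)) (C := 0) le_rfl h0 h1
    (by linarith) (by linarith)
  have q3 : (2 / 5 - a0) * (2 / 100000) ≤ 1 / 100000 := by linarith
  nlinarith

/-- Phase 1 on a piece. -/
def Ph1 (θ h0 : ℝ) (W : ℂ) (c D0 D1 lo hi : ℝ) : Prop :=
  ∀ a, lo ≤ a → a ≤ hi →
    Real.tanh (Real.pi * h0) ≤ 19 / 20 * Real.tanh (Real.pi * bl θ a) →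
    ∀ t ∈ Ico (1 / 200 : ℝ) (1 / 2),
    gPd ((t : ℂ) + (h0 : ℂ) * I) (vl θ a) W =
      ‖cos (Real.pi * ((t : ℂ) + (h0 : ℂ) * I))‖ ^ 4 →
    c * S2l θ a + D0 - D1 * Real.tan θ ^ 2 ≤ Ml ((t : ℂ) + (h0 : ℂ) * I) (vl θ a) (Tl θ a)

/-- Phase 2 on a piece. -/
def Ph2 (θ : ℝ) (W : ℂ) (c e0 e1 lo hi : ℝ) : Prop :=
  ∀ a, lo ≤ a → a ≤ hi → ∀ t ∈ Ico (1 / 200 : ℝ) (1 / 2),
    gPd ((t : ℂ) + (hgt (19 / 20) (bl θ a) : ℂ) * I) (vl θ a) W =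
      ‖cos (Real.pi * ((t : ℂ) + (hgt (19 / 20) (bl θ a) : ℂ) * I))‖ ^ 4 →
    c * S2l θ a + e0 - e1 * Real.tan θ ^ 2 ≤
      Ml ((t : ℂ) + (hgt (19 / 20) (bl θ a) : ℂ) * I) (vl θ a) (Tl θ a) -
      rp (19 / 20) (bl θ a) * Tl θ a / 2 *
        (eY ((t : ℂ) + (hgt (19 / 20) (bl θ a) : ℂ) * I) (vl θ a) W).im

theorem Ph1.vac {θ h0 : ℝ} {W : ℂ} {c D0 D1 lo hi : ℝ} (h : hi < lo) :
    Ph1 θ h0 W c D0 D1 lo hi := fun _ h1 h2 => by linarith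

theorem Ph2.vac {θ : ℝ} {W : ℂ} {c e0 e1 lo hi : ℝ} (h : hi < lo) :
    Ph2 θ W c e0 e1 lo hi := fun _ h1 h2 => by linarith

/-- The constant of (E1). -/
noncomputable def cE (a : ℝ) : ℝ := if a ≤ 37 / 100 then 4 / 3 else if a ≤ 19 / 50 then 7 / 5 else 3 / 2

/-- The statements of phase 3. -/
structure Ph3 (θ h0 K : ℝ) (W : ℂ) : Prop where
  a : ∀ ρ : ℝ, 7 / 10 ≤ ρ → ρ ≤ 19 / 20 → ∀ η ∈ Ioc (0 : ℝ) (bl θ (2 / 5)), hgt ρ η ≤ h0 →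
      ∀ t ∈ Ico (1 / 200 : ℝ) (1 / 2),
      gPd ((t : ℂ) + (hgt ρ η : ℂ) * I) (vv η) W =
        ‖cos (Real.pi * ((t : ℂ) + (hgt ρ η : ℂ) * I))‖ ^ 4 →
      K * η < (he ((t : ℂ) + (hgt ρ η : ℂ) * I + vv η) - he ((t : ℂ) + (hgt ρ η : ℂ) * I - vv η)).im -
        rp ρ η * (eY ((t : ℂ) + (hgt ρ η : ℂ) * I) (vv η) W).im
  b : ∀ h1 : ℝ, 0 < h1 → h1 ≤ h0 → ∀ η ∈ Ioc (0 : ℝ) (bl θ (2 / 5)),
      Real.tanh (Real.pi * h1) ≤ 7 / 10 * Real.tanh (Real.pi * η) →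
      ∀ t ∈ Ico (1 / 200 : ℝ) (1 / 2),
      gPd ((t : ℂ) + (h1 : ℂ) * I) (vv η) W =
        ‖cos (Real.pi * ((t : ℂ) + (h1 : ℂ) * I))‖ ^ 4 →
      K * η < (he ((t : ℂ) + (h1 : ℂ) * I + vv η) - he ((t : ℂ) + (h1 : ℂ) * I - vv η)).im

section

variable {Φ : ℂ → ℂ → ℂ} {θ θ' xc xc' b b' v1' μ μ' : ℝ} {w : ℂ}

/-- **A slide from its certificates.** -/
theorem OO.slideM (H : OO Φ θ θ' xc xc' b b' (2 / 5) v1') {s0 s1 : ℝ}
    (hs0 : s0 ≤ Real.tan θ ^ 2) (hs1 : Real.tan θ ^ 2 ≤ s1) (ht : Real.tan θ ^ 2 ≤ 923 / 1000)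
    (ht' : Real.tan θ' ^ 2 ≤ 923 / 1000) (hw : w ∈ G0 θ' v1')
    (hw0 : 0 ≤ w.re) {a0 x0 D0 D1 e0 e1 K E3 h0 k2 P0 B : ℝ} (hwa : (cmp v1' w).re ≤ a0)
    (hh : 0 < h0) (hk : 0 ≤ k2)
    (hk2 : Real.sinh (Real.pi * h0) ≤ k2 * Real.tan θ) (hP : Real.tan (Real.pi * x0) ≤ P0)
    (hn : k2 ^ 2 * (1 + P0 ^ 2) + 39 / 400 * k2 ^ 2 ≤ 361 / 400) (hB : 0 ≤ B)
    (hbase : ∀ t ∈ Icc (0 : ℝ) (1 / 2),
      EE (.op (vl θ a0)) (.op ((starRingEnd ℂ) (cmp v1' w))) ((t : ℂ) + (h0 : ℂ) * I) <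
        LM Φ θ θ' b b' xc xc' (2 / 5) v1' μ μ' (vl θ a0) w - B)
    (N : NumM s0 s1 a0 x0 D0 D1 e0 e1 K E3)
    (p1 : Ph1 θ h0 ((starRingEnd ℂ) (cmp v1' w)) (4 / 3) D0 D1 a0 (37 / 100))
    (p2 : Ph1 θ h0 ((starRingEnd ℂ) (cmp v1' w)) (7 / 5) D0 D1 (max a0 (37 / 100)) (19 / 50))
    (p3 : Ph1 θ h0 ((starRingEnd ℂ) (cmp v1' w)) (3 / 2) D0 D1 (max a0 (19 / 50)) (2 / 5))
    (q1 : Ph2 θ ((starRingEnd ℂ) (cmp v1' w)) (4 / 3) e0 e1 x0 (37 / 100))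
    (q2 : Ph2 θ ((starRingEnd ℂ) (cmp v1' w)) (7 / 5) e0 e1 (max x0 (37 / 100)) (19 / 50))
    (q3 : x0 < 2 / 5 → Ph2 θ ((starRingEnd ℂ) (cmp v1' w)) (3 / 2) e0 e1 (max x0 (19 / 50)) (2 / 5))
    (hE1 : ∀ a ∈ Ioc (29 / 100) (2 / 5),
      rl b (gdv (UU xc θ)) (qq (UU xc θ) (UU xc' (-θ'))) θ a ≤ cE a * S2l θ a)
    (hE3 : μ * bl θ (2 / 5) - B ≤ E3)
    (h3 : Ph3 θ h0 K ((starRingEnd ℂ) (cmp v1' w)))
    (hEnd : ∀ v : ℂ, v ∈ G0 θ (2 / 5) → 0 ≤ v.re → Real.pi * (v.im + w.im) <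
      LM Φ θ θ' b b' xc xc' (2 / 5) v1' μ μ' v w) :
    ∀ v : ℂ, v ∈ G0 θ (2 / 5) → a0 ≤ v.re → ∃ h : ℝ, |h| ≤ 1 ∧
      (∀ Y ∈ Set.uIcc 0 h, EE (.op (cmp (2 / 5) v)) (.op ((starRingEnd ℂ) (cmp v1' w)))
        ((Y : ℂ) * I) < LM Φ θ θ' b b' xc xc' (2 / 5) v1' μ μ' v w) ∧
      ∀ t ∈ Icc (0 : ℝ) (1 / 2),
        EE (.op (cmp (2 / 5) v)) (.op ((starRingEnd ℂ) (cmp v1' w))) ((t : ℂ) + h * I) <
          LM Φ θ θ' b b' xc xc' (2 / 5) v1' μ μ' v w := by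
  have hx := N.hx
  have ha := N.ha
  have ha0 := N.a0'
  obtain ⟨s, hs⟩ : ∃ s, s = Real.tan θ ^ 2 := ⟨_, rfl⟩
  have ht1 : Real.tan θ ^ 2 ≤ 1 := by linarith
  have hbl := bl25_sq H.hθ.pos H.hθ.lt ht1
  have mD : 1 / 100000 ≤ D0 - D1 * s := by
    have := lin_le (A := D0) (B := -D1) (c := 1 / 100000) hs0 hs1 (by linarith [N.n1])
      (by linarith [N.n1'])
    rw [hs]; linarith
  have mE : e0 - e1 * s ≤ D0 - D1 * s := by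
    have := lin_le (A := D0 - e0) (B := e1 - D1) (c := 0) hs0 hs1 (by linarith [N.n0])
      (by linarith [N.n0'])
    rw [hs]; linarith
  have hS0 : ∀ a, 0 < a → a < 1 / 2 → 0 < Real.cos (Real.pi * a) := fun a h0 h1 =>
    cos_pi_pos (by rw [abs_of_pos h0]; exact h1)
  rw [← hs] at hbl
  refine H.slideH ht1 ht' hw hw0 (a0 := a0) (am := x0) (x0 := x0)
    (Da := D0 - D1 * s - 1 / 100000) (Db := D0 - D1 * s - 1 / 100000)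
    (D2 := e0 - e1 * s - 1 / 100000) (B := B) (K := K) (h0 := h0)
    (E := B + 2 * (D0 - D1 * s - 1 / 100000) * (x0 - a0) +
      2 * (D0 - D1 * s - 1 / 100000) * (x0 - x0) + 2 * (e0 - e1 * s - 1 / 100000) * (2 / 5 - x0))
    (Or.inl ht) ha0 ha le_rfl hx hwa hh
    (tanh_le_bl H.hθ.pos H.hθ.lt ht1 hh.le hk hk2 (by linarith) (by linarith) hP hn)
    hbase ?_ ?_ h3.a h3.b hB ?_ (by linarith) ?_ rfl ?_ N.hK ?_ hEnd
  · intro a ha1 h1 t ht2 hg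
    have k1 := hE1 a ⟨by linarith [ha1.1], ha1.2⟩
    have key : cE a * S2l θ a + D0 - D1 * Real.tan θ ^ 2 ≤
        Ml ((t : ℂ) + (h0 : ℂ) * I) (vl θ a) (Tl θ a) := by
      unfold cE
      split_ifs with c1 c2
      · exact p1 a ha1.1.le c1 h1 t ht2 hg
      · push Not at c1
        exact p2 a (max_le ha1.1.le c1.le) c2 h1 t ht2 hg
      · push Not at c2
        exact p3 a (max_le ha1.1.le c2.le) ha1.2 h1 t ht2 hg
    rw [← hs] at key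
    split_ifs <;> linarith
  · intro a ha1 _ t ht2 hg
    have k1 := hE1 a ⟨by linarith [ha1.1], ha1.2⟩
    have key : cE a * S2l θ a + e0 - e1 * Real.tan θ ^ 2 ≤
        Ml ((t : ℂ) + (hgt (19 / 20) (bl θ a) : ℂ) * I) (vl θ a) (Tl θ a) -
        rp (19 / 20) (bl θ a) * Tl θ a / 2 *
          (eY ((t : ℂ) + (hgt (19 / 20) (bl θ a) : ℂ) * I) (vl θ a)
            ((starRingEnd ℂ) (cmp v1' w))).im := by
      unfold cE
      split_ifs with c1 c2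
      · exact q1 a ha1.1.le c1 t ht2 hg
      · push Not at c1
        exact q2 a (max_le ha1.1.le c1.le) c2 t ht2 hg
      · push Not at c2
        exact q3 (by linarith [ha1.1, ha1.2]) a (max_le ha1.1.le c2.le) ha1.2 t ht2 hg
    rw [← hs] at key
    linarith
  · have : 0 ≤ 2 * (D0 - D1 * s - 1 / 100000) * (x0 - a0) :=
      mul_nonneg (by linarith) (by linarith)
    linarith
  · have : 0 ≤ 2 * (D0 - D1 * s - 1 / 100000) * (x0 - a0) :=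
      mul_nonneg (by linarith) (by linarith)
    have : 0 ≤ 2 * (D0 - D1 * s - 1 / 100000) * (2 / 5 - x0) :=
      mul_nonneg (by linarith) (by linarith)
    linarith
  · have := N.E hs0 hs1 hB
    rw [← hs] at this
    rw [sub_self, mul_zero]
    linarith
  · have := N.fin (β2 := bl θ (2 / 5) ^ 2) hs0 hs1 (by rw [← hs]; exact hbl) hE3
    rw [← hs] at this
    rw [sub_self, mul_zero]
    linarith

end

end Pool.Agent.S3.T2
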