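import Pool.Agent.S3.W2.PG
import Pool.Agent.S3.W3.SlideM

/-!
# A slide of two vertices with two half twists from its certificates
-/

set_option autoImplicit false

namespace Pool.Agent.S3.T2

open Complex Set
open Pool.Agent.S3.NI
open Pool.Agent.H25.RK (gdv gdv_re_lt gdv_hasDerivAt)

theorem le_tan_num {a P : ℝ} (hP : 0 < P) (ha0 : 0 < a) (ha1 : a < 1 / 2)
    (h : 3141593 / 1000000 * (1 / 2 - a) ≤ 1 / P * (105 + 55 * (1 / P) ^ 2) /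
      (105 + 90 * (1 / P) ^ 2 + 9 * (1 / P) ^ 4)) : P ≤ Real.tan (Real.pi * a) := by
  refine le_tan_of hP ha0 ha1 (le_trans ?_ h)
  have := Real.pi_lt_d6
  apply mul_le_mul_of_nonneg_right _ (by linarith)
  linarith

theorem tan_le_num {a P : ℝ} (hP : 0 < P) (ha0 : 0 < a) (ha1 : a < 1 / 2)
    (h : 1 / P * (15 + 4 * (1 / P) ^ 2) / (15 + 9 * (1 / P) ^ 2) ≤
      3141592 / 1000000 * (1 / 2 - a)) : Real.tan (Real.pi * a) ≤ P := by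
  refine tan_le_of hP ha0 ha1 (h.trans ?_)
  have := Real.pi_gt_d6
  apply mul_le_mul_of_nonneg_right _ (by linarith)
  linarith

theorem Ph1.of_cert {P : P1.Par} {cn cd d0 d1 w0 w1 w2 w3 n : ℕ} {A B C D : N}
    (hc : cert1 P cn cd d0 d1 w0 w1 w2 w3 n A B C D = true)
    {al ah : ℝ} (hA : TA al ah A) {θ h : ℝ} {W : ℂ} (hθ0 : 0 < θ) (hθ1 : θ < Real.pi / 2)
    (hs0 : (P.slo : ℝ) / 1073741824 ≤ Real.tan θ ^ 2)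
    (hs1 : Real.tan θ ^ 2 ≤ (P.shi : ℝ) / 1073741824) (h0 : 0 < h)
    (hk0 : (P.klo : ℝ) / 1073741824 * Real.tan θ ^ 2 ≤ Real.sinh (Real.pi * h) ^ 2)
    (hk1 : Real.sinh (Real.pi * h) ^ 2 ≤ (P.khi : ℝ) / 1073741824 * Real.tan θ ^ 2)
    (hr : Mem (cc W).re P.r) (hi : Mem (cc W).im P.i) :
    Ph1 θ h W ((cn : ℝ) / cd) ((d0 : ℝ) / 1073741824) ((d1 : ℝ) / 1073741824) al ah :=
  fun _ h1 h2 hk _ ht hg => phase1 hc hA hθ0 hθ1 h1 h2 hs0 hs1 h0 hk0 hk1 hk ht hr hi hg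

theorem Ph2.of_cert {P : P2.Par} {w0 w1 w2 n : ℕ} {A B C : N}
    (hc : cert2 P w0 w1 w2 n A B C = true) {al ah : ℝ} (hA : TA al ah A) {θ : ℝ} {W : ℂ}
    (hθ0 : 0 < θ) (hθ1 : θ < Real.pi / 2) (hs0 : (P.slo : ℝ) / 1073741824 ≤ Real.tan θ ^ 2)
    (hs1 : Real.tan θ ^ 2 ≤ (P.shi : ℝ) / 1073741824)
    (v0 : 0 ≤ W.re) (v1 : W.re < 1 / 2) (wi : W.im ≤ 0) (hr : Mem (cc W).re P.r)
    (hi : Mem (cc W).im P.i) :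
    Ph2 θ W ((P.cn : ℝ) / P.cd) (((P.dp : ℝ) - P.dn) / 1073741824)
      (((P.en : ℝ) - P.ep) / 1073741824) al ah := by
  intro a h1 h2 t ht hg
  have := phase2 hc hA hθ0 hθ1 h1 h2 hs0 hs1 ht v0 v1 wi hr hi hg
  refine le_trans (le_of_eq ?_) this
  ring

theorem Ph1.mono {θ h0 : ℝ} {W : ℂ} {c c' D0 D1 D0' D1' lo lo' hi hi' : ℝ}
    (H : Ph1 θ h0 W c D0 D1 lo hi) (h1 : lo ≤ lo') (h2 : hi' ≤ hi) (e1 : c = c') (e2 : D0 = D0')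
    (e3 : D1 = D1') : Ph1 θ h0 W c' D0' D1' lo' hi' := by
  subst e1 e2 e3
  exact fun a ha ha' => H a (h1.trans ha) (ha'.trans h2)

theorem Ph2.mono {θ : ℝ} {W : ℂ} {c c' D0 D1 D0' D1' lo lo' hi hi' : ℝ}
    (H : Ph2 θ W c D0 D1 lo hi) (h1 : lo ≤ lo') (h2 : hi' ≤ hi) (e1 : c = c') (e2 : D0 = D0')
    (e3 : D1 = D1') : Ph2 θ W c' D0' D1' lo' hi' := by
  subst e1 e2 e3
  exact fun a ha ha' => H a (h1.trans ha) (ha'.trans h2)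

/-- The certificates of a box. -/
structure Cert22 (a0 w0 w1 p0 p1 s0 s1 klo khi x0 D0 D1 e0 e1 : ℝ) : Prop where
  k0 : 0 ≤ klo
  k1 : 0 ≤ khi
  hw : 0 ≤ w0
  hw' : w1 ≤ a0
  P0 : ∃ P0 : ℝ, Real.tan (Real.pi * x0) ≤ P0 ∧
    khi ^ 2 * (1 + P0 ^ 2) + 39 / 400 * khi ^ 2 ≤ 361 / 400
  ph : ∀ {θ θ' h0 : ℝ} {w : ℂ}, 0 < θ → θ < Real.pi / 2 → 0 ≤ Real.tan θ' → w0 ≤ w.re →
    w.re ≤ w1 → w.re ≤ 2 / 5 → w.im = bl θ' w.re → 0 ≤ w.im → p0 ≤ Real.tan θ' ^ 2 →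
    Real.tan θ' ^ 2 ≤ p1 → s0 ≤ Real.tan θ ^ 2 → Real.tan θ ^ 2 ≤ s1 → 0 < h0 →
    klo ^ 2 * Real.tan θ ^ 2 ≤ Real.sinh (Real.pi * h0) ^ 2 →
    Real.sinh (Real.pi * h0) ^ 2 ≤ khi ^ 2 * Real.tan θ ^ 2 →
    Ph1 θ h0 ((starRingEnd ℂ) w) (4 / 3) D0 D1 a0 (37 / 100) ∧
    Ph1 θ h0 ((starRingEnd ℂ) w) (7 / 5) D0 D1 (max a0 (37 / 100)) (19 / 50) ∧
    Ph1 θ h0 ((starRingEnd ℂ) w) (3 / 2) D0 D1 (max a0 (19 / 50)) (2 / 5) ∧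
    Ph2 θ ((starRingEnd ℂ) w) (4 / 3) e0 e1 x0 (37 / 100) ∧
    Ph2 θ ((starRingEnd ℂ) w) (7 / 5) e0 e1 (max x0 (37 / 100)) (19 / 50) ∧
    (x0 < 2 / 5 → Ph2 θ ((starRingEnd ℂ) w) (3 / 2) e0 e1 (max x0 (19 / 50)) (2 / 5))

section

variable {Φ : ℂ → ℂ → ℂ} {θ θ' xc xc' b b' μ μ' : ℝ} {w : ℂ}

theorem Cert22.slide {a0 w0 w1 p0 p1 s0 s1 klo khi x0 D0 D1 e0 e1 : ℝ}
    (C : Cert22 a0 w0 w1 p0 p1 s0 s1 klo khi x0 D0 D1 e0 e1)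
    (H : OO Φ θ θ' xc xc' b b' (2 / 5) (2 / 5)) {s0' s1' : ℝ}
    (hs0 : s0 ≤ Real.tan θ ^ 2) (hs1 : Real.tan θ ^ 2 ≤ s1)
    (hs0' : s0' ≤ Real.tan θ ^ 2) (hs1' : Real.tan θ ^ 2 ≤ s1')
    (hp0 : p0 ≤ Real.tan θ' ^ 2) (hp1 : Real.tan θ' ^ 2 ≤ p1)
    (ht : Real.tan θ ^ 2 ≤ 923 / 1000) (ht' : Real.tan θ' ^ 2 ≤ 923 / 1000)
    (hw : w0 ≤ w.re) (hw' : w.re ≤ w1) (hwl : w.im = bl θ' w.re)
    (ha0 : a0 ≤ 2 / 5) {K E3 h0 B : ℝ}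
    (hh : 0 < h0) (hk1 : klo * Real.tan θ ≤ Real.sinh (Real.pi * h0))
    (hk2 : Real.sinh (Real.pi * h0) ≤ khi * Real.tan θ) (hB : 0 ≤ B)
    (hbase : ∀ t ∈ Icc (0 : ℝ) (1 / 2),
      EE (.op (vl θ a0)) (.op ((starRingEnd ℂ) w)) ((t : ℂ) + (h0 : ℂ) * I) <
        LM Φ θ θ' b b' xc xc' (2 / 5) (2 / 5) μ μ' (vl θ a0) w - B)
    (N : NumM s0' s1' a0 x0 D0 D1 e0 e1 K E3)
    (hE1 : ∀ a ∈ Ioc (29 / 100) (2 / 5),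
      rl b (gdv (UU xc θ)) (qq (UU xc θ) (UU xc' (-θ'))) θ a ≤ cE a * S2l θ a)
    (hE3 : μ * bl θ (2 / 5) - B ≤ E3)
    (h3 : Ph3 θ h0 K ((starRingEnd ℂ) w))
    (hEnd : ∀ v : ℂ, v ∈ G0 θ (2 / 5) → 0 ≤ v.re → Real.pi * (v.im + w.im) <
      LM Φ θ θ' b b' xc xc' (2 / 5) (2 / 5) μ μ' v w) :
    ∀ v : ℂ, v ∈ G0 θ (2 / 5) → a0 ≤ v.re → ∃ h : ℝ, |h| ≤ 1 ∧
      (∀ Y ∈ Set.uIcc 0 h, EE (.op (cmp (2 / 5) v)) (.op ((starRingEnd ℂ) w))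
        ((Y : ℂ) * I) < LM Φ θ θ' b b' xc xc' (2 / 5) (2 / 5) μ μ' v w) ∧
      ∀ t ∈ Icc (0 : ℝ) (1 / 2),
        EE (.op (cmp (2 / 5) v)) (.op ((starRingEnd ℂ) w)) ((t : ℂ) + h * I) <
          LM Φ θ θ' b b' xc xc' (2 / 5) (2 / 5) μ μ' v w := by
  have w0' : 0 ≤ w.re := C.hw.trans hw
  have w1' : w.re ≤ a0 := hw'.trans C.hw'
  have w2 : w.re ≤ 2 / 5 := w1'.trans ha0
  have ec : cmp (2 / 5) w = w := if_pos w2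
  have htp : 0 < Real.tan θ := Real.tan_pos_of_pos_of_lt_pi_div_two H.hθ.pos H.hθ.lt
  have htp' : 0 < Real.tan θ' := Real.tan_pos_of_pos_of_lt_pi_div_two H.hθ'.pos H.hθ'.lt
  have hwi : 0 ≤ w.im := by
    rw [hwl]
    exact bl_nonneg H.hθ'.pos.le H.hθ'.lt (by rw [abs_of_nonneg w0']; linarith)
  obtain ⟨P0, hP, hn⟩ := C.P0
  have hk0 := C.k0
  have c1 : klo ^ 2 * Real.tan θ ^ 2 ≤ Real.sinh (Real.pi * h0) ^ 2 := by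
    rw [← mul_pow]
    exact pow_le_pow_left₀ (by positivity) hk1 2
  have c2 : Real.sinh (Real.pi * h0) ^ 2 ≤ khi ^ 2 * Real.tan θ ^ 2 := by
    rw [← mul_pow]
    have hpi := Real.pi_pos
    exact pow_le_pow_left₀ (Real.sinh_nonneg_iff.2 (by positivity)) hk2 2
  obtain ⟨p1, p2, p3, q1, q2, q3⟩ := C.ph H.hθ.pos H.hθ.lt htp'.le hw hw' w2 hwl hwi hp0 hp1
    hs0 hs1 hh c1 c2
  have hG : w ∈ G0 θ' (2 / 5) := Or.inl ⟨by rwa [abs_of_nonneg w0'], hwl⟩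
  have key := H.slideM (w := w) (μ := μ) (μ' := μ') hs0' hs1' ht ht' hG w0' (a0 := a0) (x0 := x0)
    (D0 := D0) (D1 := D1) (e0 := e0) (e1 := e1) (K := K) (E3 := E3) (h0 := h0) (k2 := khi)
    (P0 := P0) (B := B) (by rw [ec]; exact w1') hh C.k1 hk2 hP hn hB (by rw [ec]; exact hbase) N
    (by rw [ec]; exact p1) (by rw [ec]; exact p2) (by rw [ec]; exact p3) (by rw [ec]; exact q1)
    (by rw [ec]; exact q2) (by rw [ec]; exact q3) hE1 hE3 (by rw [ec]; exact h3) hEnd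
  rw [ec] at key
  exact key

end

end Pool.Agent.S3.T2
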