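import Pool.Agent.S3.W3.SlideM

/-!
# Gluing of the pieces of a box
-/

set_option autoImplicit false

namespace Pool.Agent.S3.T2

theorem Ph1.glue {θ h0 : ℝ} {W : ℂ} {c D0 D1 lo mi hi : ℝ} (H : Ph1 θ h0 W c D0 D1 lo mi)
    (H' : Ph1 θ h0 W c D0 D1 mi hi) : Ph1 θ h0 W c D0 D1 lo hi := by
  intro a h1 h2
  rcases le_total a mi with h | h
  · exact H a h1 h
  · exact H' a h h2

theorem Ph2.glue {θ : ℝ} {W : ℂ} {c D0 D1 lo mi hi : ℝ}
    (H : Ph2 θ W c D0 D1 lo mi) (H' : Ph2 θ W c D0 D1 mi hi) : Ph2 θ W c D0 D1 lo hi := by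
  intro a h1 h2
  rcases le_total a mi with h | h
  · exact H a h1 h
  · exact H' a h h2

end Pool.Agent.S3.T2
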