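import Pool.Agent.S3.NIW
import Pool.Agent.S3.W2.Scheme

/-!
# The rectangle of `cos² (π w̄)` for a point on its line

`w = r + i β`, `sinh πβ = S' cos πr`: with `c = cos² πr = 1 - σ²`, `s = S'²`, the real part is
`c (1 - s + 2 s c)`, the square of the imaginary part `4 s c² (1 - c) (1 + s c)`.
-/

set_option autoImplicit false

namespace Pool.Agent.S3.T2

open Complex Pool.Agent.S3.NI

/-- The test: `S` an interval of `s`, `Σ` of `sin πr`, the target `R × I`. -/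
def rt2 (R J S c sc : N) : Bool :=
  Nat.ble R.lo (N.mul c (N.add (N.sub one S) (N.add sc sc))).lo &&
  Nat.ble (N.mul c (N.add (N.sub one S) (N.add sc sc))).hi R.hi &&
  Nat.ble (Nat.mul J.lo J.lo)
    (Nat.mul 4294967296 (N.mul (N.mul sc c) (N.mul (N.sub one c) (N.add one sc))).lo) &&
  Nat.ble (Nat.mul 4294967296 (N.mul (N.mul sc c) (N.mul (N.sub one c) (N.add one sc))).hi)
    (Nat.mul J.hi J.hi)

def rt1 (R J S c : N) : Bool := rt2 R J S c (N.mul S c)

def rt (R J S Z _D : N) : Bool := rt1 R J S (N.sub one (N.sq Z))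

/-- A certificate of a rectangle. -/
def certR (R J : N) (w0 w1 n : ℕ) (S Z : N) : Bool := bbw3 (rt R J) w0 w1 0 n S Z one

theorem rt_sound {R J : N} (S Z D : N) (h : rt R J S Z D = true) (s z d : ℝ) (hs : Mem s S)
    (hz : Mem z Z) (_ : Mem d D) : s ≤ 1 → z ^ 2 ≤ 1 → ∀ x y : ℝ,
      x = (1 - z ^ 2) * (1 - s + (s * (1 - z ^ 2) + s * (1 - z ^ 2))) → 0 ≤ y →
      y ^ 2 = 4 * ((s * (1 - z ^ 2) * (1 - z ^ 2)) * ((1 - (1 - z ^ 2)) * (1 + s * (1 - z ^ 2)))) →
      Mem x R ∧ Mem y J := by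
  intro s1 z1 x y hx hy0 hy
  have s0 := hs.nonneg
  unfold rt rt1 rt2 at h
  rw [Bool.and_eq_true, Bool.and_eq_true, Bool.and_eq_true, Nat.ble_eq, Nat.ble_eq, Nat.ble_eq,
    Nat.ble_eq] at h
  obtain ⟨⟨⟨h1, h2⟩, h3⟩, h4⟩ := h
  have mc : Mem (1 - z ^ 2) (N.sub one (N.sq Z)) := mem_one.sub hz.sq z1
  have msc := hs.mul mc
  have mx := mc.mul (((mem_one.sub hs s1)).add (msc.add msc))
  have c0 : 0 ≤ 1 - z ^ 2 := by linarith
  have mq := (msc.mul mc).mul ((mem_one.sub mc (by nlinarith [sq_nonneg z])).mul (mem_one.add msc))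
  rw [← hx] at mx
  constructor
  · constructor
    · exact le_trans (by exact_mod_cast h1) mx.1
    · exact le_trans mx.2 (by exact_mod_cast h2)
  · obtain ⟨q, hq⟩ : ∃ q, q = (s * (1 - z ^ 2) * (1 - z ^ 2)) *
      ((1 - (1 - z ^ 2)) * (1 + s * (1 - z ^ 2))) := ⟨_, rfl⟩
    rw [← hq] at mq hy
    have h3' : ((J.lo : ℝ)) * J.lo ≤ 4294967296 * ((N.mul (N.mul (N.mul S (N.sub one (N.sq Z)))
        (N.sub one (N.sq Z))) (N.mul (N.sub one (N.sub one (N.sq Z)))
        (N.add one (N.mul S (N.sub one (N.sq Z)))))).lo : ℝ) := by exact_mod_cast h3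
    have h4' : 4294967296 * ((N.mul (N.mul (N.mul S (N.sub one (N.sq Z)))
        (N.sub one (N.sq Z))) (N.mul (N.sub one (N.sub one (N.sq Z)))
        (N.add one (N.mul S (N.sub one (N.sq Z)))))).hi : ℝ) ≤ ((J.hi : ℝ)) * J.hi := by
      exact_mod_cast h4
    have l0 : (0 : ℝ) ≤ J.lo := J.lo.cast_nonneg
    have l1 : (0 : ℝ) ≤ J.hi := J.hi.cast_nonneg
    constructor
    · have : (J.lo : ℝ) ^ 2 ≤ (y * 1073741824) ^ 2 := by
        calc (J.lo : ℝ) ^ 2 = J.lo * J.lo := by ring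
          _ ≤ _ := h3'
          _ ≤ 4294967296 * (q * 1073741824) := by
            apply mul_le_mul_of_nonneg_left mq.1 (by norm_num)
          _ = (4 * q) * 1073741824 ^ 2 := by ring
          _ = _ := by rw [← hy]; ring
      exact (pow_le_pow_iff_left₀ l0 (by positivity) two_ne_zero).1 this
    · have : (y * 1073741824) ^ 2 ≤ (J.hi : ℝ) ^ 2 := by
        calc (y * 1073741824) ^ 2 = (4 * q) * 1073741824 ^ 2 := by rw [← hy]; ring
          _ = 4294967296 * (q * 1073741824) := by ring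
          _ ≤ _ := mul_le_mul_of_nonneg_left mq.2 (by norm_num)
          _ ≤ J.hi * J.hi := h4'
          _ = _ := by ring
      exact (pow_le_pow_iff_left₀ (by positivity) l1 two_ne_zero).1 this

/-- **The rectangle.** -/
theorem rect_of {R J : N} {w0 w1 n : ℕ} {S Z : N} (hc : certR R J w0 w1 n S Z = true) {θ' : ℝ}
    {w : ℂ} (hS : Mem (Real.tan θ' ^ 2) S) (hZ : Mem (Real.sin (Real.pi * w.re)) Z)
    (h1 : Real.tan θ' ^ 2 ≤ 1) (hθ0 : 0 ≤ Real.tan θ') (r0 : 0 ≤ w.re) (r1 : w.re < 1 / 2)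
    (hw : w.im = bl θ' w.re) :
    Mem (cc ((starRingEnd ℂ) w)).re R ∧ Mem (cc ((starRingEnd ℂ) w)).im J := by
  have hpi := Real.pi_pos
  have e : (starRingEnd ℂ) w = (w.re : ℂ) + ((-w.im : ℝ) : ℂ) * I := by
    apply Complex.ext <;> simp
  obtain ⟨c, hcd⟩ : ∃ c, c = Real.cos (Real.pi * w.re) := ⟨_, rfl⟩
  obtain ⟨z, hz⟩ : ∃ z, z = Real.sin (Real.pi * w.re) := ⟨_, rfl⟩
  have hcz : c ^ 2 = 1 - z ^ 2 := by
    have := Real.sin_sq_add_cos_sq (Real.pi * w.re)
    rw [hcd, hz]; linarith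
  have c0 : 0 < c := by
    rw [hcd]
    exact cos_pi_pos (by rw [abs_of_nonneg r0]; exact r1)
  have z0 : 0 ≤ z := by
    rw [hz]
    exact Real.sin_nonneg_of_nonneg_of_le_pi (by positivity) (by nlinarith)
  have hsh : Real.sinh (Real.pi * w.im) = Real.tan θ' * c := by
    rw [hw, sinh_pi_bl, hcd]
  have hch := Real.cosh_sq (Real.pi * w.im)
  have ch0 := Real.cosh_pos (Real.pi * w.im)
  rw [hsh] at hch
  have key := bbw3_sound (rt_sound (R := R) (J := J)) w0 w1 0 n S Z one hc (Real.tan θ' ^ 2) z 1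
    hS (by rw [hz]; exact hZ) mem_one h1 (by nlinarith)
  rw [e]
  refine key _ _ ?_ ?_ ?_
  · rw [cc_re, show Real.pi * -w.im = -(Real.pi * w.im) by ring, Real.sinh_neg,
      hsh, ← hcd, ← hcz]
    ring
  · rw [cc_im, show Real.pi * -w.im = -(Real.pi * w.im) by ring, Real.cosh_neg, Real.sinh_neg,
      hsh, ← hcd, ← hz]
    have : 0 ≤ c * Real.cosh (Real.pi * w.im) * (z * (Real.tan θ' * c)) := by positivity
    nlinarith
  · rw [cc_im, show Real.pi * -w.im = -(Real.pi * w.im) by ring, Real.cosh_neg, Real.sinh_neg,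
      hsh, ← hcd, ← hz, ← hcz]
    calc (-(2 * (z * c) * (-(Real.tan θ' * c) * Real.cosh (Real.pi * w.im)))) ^ 2 =
        4 * z ^ 2 * c ^ 4 * Real.tan θ' ^ 2 * Real.cosh (Real.pi * w.im) ^ 2 := by ring
      _ = _ := by
        rw [hch, show z ^ 2 = 1 - c ^ 2 by linarith]
        ring

end Pool.Agent.S3.T2
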