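import Pool.Agent.S3.Hz.Main
import Pool.Agent.S3.W3.Cert
import Pool.Agent.S3.W3.Glue
import Pool.Agent.S3.W3.Rect

/-!
# Two vertices with two half twists: box 15 (generated)
-/

set_option autoImplicit false

namespace Pool.Agent.S3.T2

open Complex Pool.Agent.S3.NI

def c22P15 : P1.Par := ⟨⟨1096290402, 1440961528⟩, ⟨277025390, 571230651⟩, 483183820, 812822561, 109951162, 164995464⟩

theorem c22R15 : certR ⟨1096290402, 1440961528⟩ ⟨277025390, 571230651⟩ 1 1 24 ⟨268435456, 526133494⟩ (rng 248689 368126 1000000) = true := by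
  decide +kernel

theorem c22A15_0 : TA (29 / 100) (117 / 400) ⟨1383702044, 1411243912⟩ :=
  ⟨by norm_num, by norm_num, le_tan_num (by norm_num) (by norm_num) (by norm_num) (by norm_num),
    tan_le_num (by norm_num) (by norm_num) (by norm_num) (by norm_num)⟩

theorem c22C15_0 : cert1 c22P15 4 3 503584915 579820585 4 15 10 5 34 ⟨1383702044, 1411243912⟩ ⟨404079718, 505338330⟩
    ⟨8375186, 1073741824⟩ ⟨225358349, 346608186⟩ = true := by
  decide +kernel

theorem c22A15_1 : TA (117 / 400) (59 / 200) ⟨1406432350, 1434105629⟩ :=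
  ⟨by norm_num, by norm_num, le_tan_num (by norm_num) (by norm_num) (by norm_num) (by norm_num),
    tan_le_num (by norm_num) (by norm_num) (by norm_num) (by norm_num)⟩

theorem c22C15_1 : cert1 c22P15 4 3 503584915 579820585 4 15 10 5 34 ⟨1406432350, 1434105629⟩ ⟨400539203, 501319982⟩
    ⟨8375186, 1073741824⟩ ⟨225358349, 346608186⟩ = true := by
  decide +kernel

theorem c22A15_2 : TA (59 / 200) (3 / 10) ⟨1429630026, 1481365907⟩ :=
  ⟨by norm_num, by norm_num, le_tan_num (by norm_num) (by norm_num) (by norm_num) (by norm_num),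
    tan_le_num (by norm_num) (by norm_num) (by norm_num) (by norm_num)⟩

theorem c22C15_2 : cert1 c22P15 4 3 503584915 579820585 4 15 10 5 34 ⟨1429630026, 1481365907⟩ ⟨393337087, 497251171⟩
    ⟨8375186, 1073741824⟩ ⟨225358349, 346608186⟩ = true := by
  decide +kernel

theorem c22A15_3 : TA (3 / 10) (31 / 100) ⟨1477500938, 1582569517⟩ :=
  ⟨by norm_num, by norm_num, le_tan_num (by norm_num) (by norm_num) (by norm_num) (by norm_num),
    tan_le_num (by norm_num) (by norm_num) (by norm_num) (by norm_num)⟩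

theorem c22C15_3 : cert1 c22P15 4 3 503584915 579820585 4 15 10 5 34 ⟨1477500938, 1582569517⟩ ⟨378453132, 488960867⟩
    ⟨8375186, 1073741824⟩ ⟨225358349, 346608186⟩ = true := by
  decide +kernel

theorem c22A15_4 : TA (31 / 100) (33 / 100) ⟨1579710709, 1816998310⟩ :=
  ⟨by norm_num, by norm_num, le_tan_num (by norm_num) (by norm_num) (by norm_num) (by norm_num),
    tan_le_num (by norm_num) (by norm_num) (by norm_num) (by norm_num)⟩

theorem c22C15_4 : cert1 c22P15 4 3 503584915 579820585 4 15 10 5 34 ⟨1579710709, 1816998310⟩ ⟨346806479, 471761297⟩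
    ⟨8375186, 1073741824⟩ ⟨225358349, 346608186⟩ = true := by
  decide +kernel

theorem c22A15_5 : TA (33 / 100) (37 / 100) ⟨1815491331, 2481598799⟩ :=
  ⟨by norm_num, by norm_num, le_tan_num (by norm_num) (by norm_num) (by norm_num) (by norm_num),
    tan_le_num (by norm_num) (by norm_num) (by norm_num) (by norm_num)⟩

theorem c22C15_5 : cert1 c22P15 4 3 503584915 579820585 4 15 10 5 34 ⟨1815491331, 2481598799⟩ ⟨276390561, 434833323⟩
    ⟨8375186, 1073741824⟩ ⟨225358349, 346608186⟩ = true := by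
  decide +kernel

theorem c22A15_6 : TA (37 / 100) (19 / 50) ⟨2481256305, 2712177144⟩ :=
  ⟨by norm_num, by norm_num, le_tan_num (by norm_num) (by norm_num) (by norm_num) (by norm_num),
    tan_le_num (by norm_num) (by norm_num) (by norm_num) (by norm_num)⟩

theorem c22C15_6 : cert1 c22P15 7 5 503584915 579820585 4 15 10 5 34 ⟨2481256305, 2712177144⟩ ⟨257406112, 350678837⟩
    ⟨8375186, 1073741824⟩ ⟨225358349, 346608186⟩ = true := by
  decide +kernel

theorem c22A15_7 : TA (19 / 50) (2 / 5) ⟨2711953937, 3304720923⟩ :=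
  ⟨by norm_num, by norm_num, le_tan_num (by norm_num) (by norm_num) (by norm_num) (by norm_num),
    tan_le_num (by norm_num) (by norm_num) (by norm_num) (by norm_num)⟩

theorem c22C15_7 : cert1 c22P15 3 2 503584915 579820585 4 15 10 5 34 ⟨2711953937, 3304720923⟩ ⟨217942954, 327519776⟩
    ⟨8375186, 1073741824⟩ ⟨225358349, 346608186⟩ = true := by
  decide +kernel

def c22Q15_4 : P2.Par := ⟨⟨1096290402, 1440961528⟩, ⟨277025390, 571230651⟩, 483183820, 812822561, 4, 3, 0, 117037859, 0, 0⟩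

theorem c22B15_0 : TA (363 / 1000) (37 / 100) ⟨2338760296, 2481598799⟩ :=
  ⟨by norm_num, by norm_num, le_tan_num (by norm_num) (by norm_num) (by norm_num) (by norm_num),
    tan_le_num (by norm_num) (by norm_num) (by norm_num) (by norm_num)⟩

theorem c22D15_0 : cert2 c22Q15_4 20 100 50 30 ⟨2338760296, 2481598799⟩ ⟨276390561, 366393596⟩ ⟨8375186, 1073741824⟩ = true := by
  decide +kernel

def c22Q15_7 : P2.Par := ⟨⟨1096290402, 1440961528⟩, ⟨277025390, 571230651⟩, 483183820, 812822561, 7, 5, 0, 117037859, 0, 0⟩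

theorem c22B15_1 : TA (37 / 100) (19 / 50) ⟨2481256305, 2712177144⟩ :=
  ⟨by norm_num, by norm_num, le_tan_num (by norm_num) (by norm_num) (by norm_num) (by norm_num),
    tan_le_num (by norm_num) (by norm_num) (by norm_num) (by norm_num)⟩

theorem c22D15_1 : cert2 c22Q15_7 20 100 50 30 ⟨2481256305, 2712177144⟩ ⟨257406112, 350678837⟩ ⟨8375186, 1073741824⟩ = true := by
  decide +kernel

def c22Q15_3 : P2.Par := ⟨⟨1096290402, 1440961528⟩, ⟨277025390, 571230651⟩, 483183820, 812822561, 3, 2, 0, 117037859, 0, 0⟩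

theorem c22B15_2 : TA (19 / 50) (39 / 100) ⟨2711953937, 2982569043⟩ :=
  ⟨by norm_num, by norm_num, le_tan_num (by norm_num) (by norm_num) (by norm_num) (by norm_num),
    tan_le_num (by norm_num) (by norm_num) (by norm_num) (by norm_num)⟩

theorem c22D15_2 : cert2 c22Q15_3 20 100 50 30 ⟨2711953937, 2982569043⟩ ⟨237914443, 327519776⟩ ⟨8375186, 1073741824⟩ = true := by
  decide +kernel

theorem c22B15_3 : TA (39 / 100) (2 / 5) ⟨2982428000, 3304720923⟩ :=
  ⟨by norm_num, by norm_num, le_tan_num (by norm_num) (by norm_num) (by norm_num) (by norm_num),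
    tan_le_num (by norm_num) (by norm_num) (by norm_num) (by norm_num)⟩

theorem c22D15_3 : cert2 c22Q15_3 20 100 50 30 ⟨2982428000, 3304720923⟩ ⟨217942954, 303546499⟩ ⟨8375186, 1073741824⟩ = true := by
  decide +kernel

/-- The box: `re w ∈ [2/25, 3/25]`, `tan² θ' ∈ [1/4, 49/100]`, `tan² θ ∈ [9/20, 757/1000]`, base `29/100`. -/
theorem c22_15 : Cert22 (29 / 100) (2 / 25) (3 / 25) (1 / 4) (49 / 100) (9 / 20) (757 / 1000) (8 / 25) (49 / 125) (363 / 1000)
    (503584915 / 1073741824) (579820585 / 1073741824) (-117037859 / 1073741824) (0 / 1) where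
  k0 := by norm_num
  k1 := by norm_num
  hw := by norm_num
  hw' := by norm_num
  P0 := ⟨(2339215147 / 1073741824), tan_le_num (by norm_num) (by norm_num) (by norm_num) (by norm_num), by norm_num⟩
  ph := by
    intro θ θ' h0 w hθ0 hθ1 hθ' r0 r1 r2 hwl hwi t0 t1 u0 u1 hh k0 k1
    have mS : Mem (Real.tan θ' ^ 2) ⟨268435456, 526133494⟩ := ⟨le_trans (by norm_num)
      (mul_le_mul_of_nonneg_right t0 (by norm_num)), (mul_le_mul_of_nonneg_right t1
        (by norm_num)).trans (by norm_num)⟩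
    have mZ : Mem (Real.sin (Real.pi * w.re)) (rng 248689 368126 1000000) :=
      Hz.w_mem_sin (x1 := (314159 / 1250000)) (x2 := (11781 / 31250)) (by norm_num) r0 r1 (by norm_num) (by norm_num)
        (by norm_num) (by norm_num) (by norm_num) (by norm_num) (by norm_num) (by norm_num)
    obtain ⟨mr, mi⟩ := rect_of c22R15 mS mZ (by linarith) hθ' (by linarith) (by linarith) hwl
    have us0 : ((c22P15.slo : ℕ) : ℝ) / 1073741824 ≤ Real.tan θ ^ 2 :=
      le_trans (by norm_num [c22P15]) u0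
    have us1 : Real.tan θ ^ 2 ≤ ((c22P15.shi : ℕ) : ℝ) / 1073741824 :=
      u1.trans (by norm_num [c22P15])
    have hk0 : ((c22P15.klo : ℕ) : ℝ) / 1073741824 * Real.tan θ ^ 2 ≤
        Real.sinh (Real.pi * h0) ^ 2 :=
      le_trans (mul_le_mul_of_nonneg_right (by norm_num [c22P15]) (sq_nonneg _)) k0
    have hk1 : Real.sinh (Real.pi * h0) ^ 2 ≤
        ((c22P15.khi : ℕ) : ℝ) / 1073741824 * Real.tan θ ^ 2 :=
      k1.trans (mul_le_mul_of_nonneg_right (by norm_num [c22P15]) (sq_nonneg _))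
    have v0 : 0 ≤ ((starRingEnd ℂ) w).re := by rw [conj_re]; linarith
    have v1 : ((starRingEnd ℂ) w).re < 1 / 2 := by rw [conj_re]; linarith
    have vi : ((starRingEnd ℂ) w).im ≤ 0 := by rw [conj_im]; linarith
    refine ⟨?_, ?_, ?_, ?_, ?_, ?_⟩
    · exact (Ph1.glue (Ph1.of_cert c22C15_0 c22A15_0 hθ0 hθ1 us0 us1 hh hk0 hk1 mr mi)
        (Ph1.glue (Ph1.of_cert c22C15_1 c22A15_1 hθ0 hθ1 us0 us1 hh hk0 hk1 mr mi)
        (Ph1.glue (Ph1.of_cert c22C15_2 c22A15_2 hθ0 hθ1 us0 us1 hh hk0 hk1 mr mi)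
        (Ph1.glue (Ph1.of_cert c22C15_3 c22A15_3 hθ0 hθ1 us0 us1 hh hk0 hk1 mr mi)
        (Ph1.glue (Ph1.of_cert c22C15_4 c22A15_4 hθ0 hθ1 us0 us1 hh hk0 hk1 mr mi)
        (Ph1.of_cert c22C15_5 c22A15_5 hθ0 hθ1 us0 us1 hh hk0 hk1 mr mi)))))).mono
        (by norm_num) (by norm_num) (by norm_num) (by norm_num) (by norm_num)
    · exact (Ph1.of_cert c22C15_6 c22A15_6 hθ0 hθ1 us0 us1 hh hk0 hk1 mr mi).mono
        (by norm_num) (by norm_num) (by norm_num) (by norm_num) (by norm_num)
    · exact (Ph1.of_cert c22C15_7 c22A15_7 hθ0 hθ1 us0 us1 hh hk0 hk1 mr mi).mono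
        (by norm_num) (by norm_num) (by norm_num) (by norm_num) (by norm_num)
    · exact (Ph2.of_cert c22D15_0 c22B15_0 hθ0 hθ1 (by simpa [c22Q15_4, c22P15] using us0)
        (by simpa [c22Q15_4, c22P15] using us1) v0 v1 vi (by simpa [c22Q15_4, c22P15] using mr)
        (by simpa [c22Q15_4, c22P15] using mi)).mono
        (by norm_num) (by norm_num) (by norm_num [c22Q15_4]) (by norm_num [c22Q15_4])
        (by norm_num [c22Q15_4])
    · exact (Ph2.of_cert c22D15_1 c22B15_1 hθ0 hθ1 (by simpa [c22Q15_7, c22P15] using us0)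
        (by simpa [c22Q15_7, c22P15] using us1) v0 v1 vi (by simpa [c22Q15_7, c22P15] using mr)
        (by simpa [c22Q15_7, c22P15] using mi)).mono
        (by norm_num) (by norm_num) (by norm_num [c22Q15_7]) (by norm_num [c22Q15_7])
        (by norm_num [c22Q15_7])
    · intro _; exact (Ph2.glue (Ph2.of_cert c22D15_2 c22B15_2 hθ0 hθ1 (by simpa [c22Q15_3, c22P15] using us0)
        (by simpa [c22Q15_3, c22P15] using us1) v0 v1 vi (by simpa [c22Q15_3, c22P15] using mr)
        (by simpa [c22Q15_3, c22P15] using mi))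
        (Ph2.of_cert c22D15_3 c22B15_3 hθ0 hθ1 (by simpa [c22Q15_3, c22P15] using us0)
        (by simpa [c22Q15_3, c22P15] using us1) v0 v1 vi (by simpa [c22Q15_3, c22P15] using mr)
        (by simpa [c22Q15_3, c22P15] using mi))).mono
        (by norm_num) (by norm_num) (by norm_num [c22Q15_3]) (by norm_num [c22Q15_3])
        (by norm_num [c22Q15_3])

end Pool.Agent.S3.T2
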