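import Pool.Agent.S3.Hz.Main
import Pool.Agent.S3.W3.Cert
import Pool.Agent.S3.W3.Glue
import Pool.Agent.S3.W3.Rect

/-!
# Two vertices with two half twists: box 16 (generated)
-/

set_option autoImplicit false

namespace Pool.Agent.S3.T2

open Complex Pool.Agent.S3.NI

def c22P16 : P1.Par := ⟨⟨1258425417, 1568736805⟩, ⟨423054278, 678604833⟩, 268435456, 483183821, 124124554, 174385336⟩

theorem c22R16 : certR ⟨1258425417, 1568736805⟩ ⟨423054278, 678604833⟩ 1 1 24 ⟨526133493, 681826059⟩ (rng 248689 368126 1000000) = true := by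
  decide +kernel

theorem c22A16_0 : TA (29 / 100) (59 / 200) ⟨1383702044, 1434105629⟩ :=
  ⟨by norm_num, by norm_num, le_tan_num (by norm_num) (by norm_num) (by norm_num) (by norm_num),
    tan_le_num (by norm_num) (by norm_num) (by norm_num) (by norm_num)⟩

theorem c22C16_0 : cert1 c22P16 4 3 373662155 85899346 4 15 10 5 34 ⟨1383702044, 1434105629⟩ ⟨308227642, 408393292⟩
    ⟨8375186, 1073741824⟩ ⟨179954290, 280216887⟩ = true := by
  decide +kernel

theorem c22A16_1 : TA (59 / 200) (3 / 10) ⟨1429630026, 1481365907⟩ :=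
  ⟨by norm_num, by norm_num, le_tan_num (by norm_num) (by norm_num) (by norm_num) (by norm_num),
    tan_le_num (by norm_num) (by norm_num) (by norm_num) (by norm_num)⟩

theorem c22C16_1 : cert1 c22P16 4 3 373662155 85899346 4 15 10 5 34 ⟨1429630026, 1481365907⟩ ⟨302330446, 401229443⟩
    ⟨8375186, 1073741824⟩ ⟨179954290, 280216887⟩ = true := by
  decide +kernel

theorem c22A16_2 : TA (3 / 10) (61 / 200) ⟨1477500938, 1530799362⟩ :=
  ⟨by norm_num, by norm_num, le_tan_num (by norm_num) (by norm_num) (by norm_num) (by norm_num),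
    tan_le_num (by norm_num) (by norm_num) (by norm_num) (by norm_num)⟩

theorem c22C16_2 : cert1 c22P16 4 3 373662155 85899346 4 15 10 5 34 ⟨1477500938, 1530799362⟩ ⟨296323143, 393920116⟩
    ⟨8375186, 1073741824⟩ ⟨179954290, 280216887⟩ = true := by
  decide +kernel

theorem c22A16_3 : TA (61 / 200) (31 / 100) ⟨1527470639, 1582569517⟩ :=
  ⟨by norm_num, by norm_num, le_tan_num (by norm_num) (by norm_num) (by norm_num) (by norm_num),
    tan_le_num (by norm_num) (by norm_num) (by norm_num) (by norm_num)⟩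

theorem c22C16_3 : cert1 c22P16 4 3 373662155 85899346 4 15 10 5 34 ⟨1527470639, 1582569517⟩ ⟨290207689, 386464860⟩
    ⟨8375186, 1073741824⟩ ⟨179954290, 280216887⟩ = true := by
  decide +kernel

theorem c22A16_4 : TA (31 / 100) (63 / 200) ⟨1579710709, 1636858603⟩ :=
  ⟨by norm_num, by norm_num, le_tan_num (by norm_num) (by norm_num) (by norm_num) (by norm_num),
    tan_le_num (by norm_num) (by norm_num) (by norm_num) (by norm_num)⟩

theorem c22C16_4 : cert1 c22P16 4 3 373662155 85899346 4 15 10 5 34 ⟨1579710709, 1636858603⟩ ⟨283986045, 378863418⟩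
    ⟨8375186, 1073741824⟩ ⟨179954290, 280216887⟩ = true := by
  decide +kernel

theorem c22A16_5 : TA (63 / 200) (8 / 25) ⟨1634410669, 1693870078⟩ :=
  ⟨by norm_num, by norm_num, le_tan_num (by norm_num) (by norm_num) (by norm_num) (by norm_num),
    tan_le_num (by norm_num) (by norm_num) (by norm_num) (by norm_num)⟩

theorem c22C16_5 : cert1 c22P16 4 3 373662155 85899346 4 15 10 5 34 ⟨1634410669, 1693870078⟩ ⟨277660173, 371115729⟩
    ⟨8375186, 1073741824⟩ ⟨179954290, 280216887⟩ = true := by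
  decide +kernel

theorem c22A16_6 : TA (8 / 25) (33 / 100) ⟨1691780553, 1816998310⟩ :=
  ⟨by norm_num, by norm_num, le_tan_num (by norm_num) (by norm_num) (by norm_num) (by norm_num),
    tan_le_num (by norm_num) (by norm_num) (by norm_num) (by norm_num)⟩

theorem c22C16_6 : cert1 c22P16 4 3 373662155 85899346 4 15 10 5 34 ⟨1691780553, 1816998310⟩ ⟨264703634, 363221927⟩
    ⟨8375186, 1073741824⟩ ⟨179954290, 280216887⟩ = true := by
  decide +kernel

theorem c22A16_7 : TA (33 / 100) (7 / 20) ⟨1815491331, 2108042865⟩ :=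
  ⟨by norm_num, by norm_num, le_tan_num (by norm_num) (by norm_num) (by norm_num) (by norm_num),
    tan_le_num (by norm_num) (by norm_num) (by norm_num) (by norm_num)⟩

theorem c22C16_7 : cert1 c22P16 4 3 373662155 85899346 4 15 10 5 34 ⟨1815491331, 2108042865⟩ ⟨237627465, 346997505⟩
    ⟨8375186, 1073741824⟩ ⟨179954290, 280216887⟩ = true := by
  decide +kernel

theorem c22A16_8 : TA (7 / 20) (37 / 100) ⟨2107295321, 2481598799⟩ :=
  ⟨by norm_num, by norm_num, le_tan_num (by norm_num) (by norm_num) (by norm_num) (by norm_num),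
    tan_le_num (by norm_num) (by norm_num) (by norm_num) (by norm_num)⟩

theorem c22C16_8 : cert1 c22P16 4 3 373662155 85899346 4 15 10 5 34 ⟨2107295321, 2481598799⟩ ⟨209111384, 312823274⟩
    ⟨8375186, 1073741824⟩ ⟨179954290, 280216887⟩ = true := by
  decide +kernel

theorem c22A16_9 : TA (37 / 100) (19 / 50) ⟨2481256305, 2712177144⟩ :=
  ⟨by norm_num, by norm_num, le_tan_num (by norm_num) (by norm_num) (by norm_num) (by norm_num),
    tan_le_num (by norm_num) (by norm_num) (by norm_num) (by norm_num)⟩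

theorem c22C16_9 : cert1 c22P16 7 5 373662155 85899346 4 15 10 5 34 ⟨2481256305, 2712177144⟩ ⟨194357385, 276420566⟩
    ⟨8375186, 1073741824⟩ ⟨179954290, 280216887⟩ = true := by
  decide +kernel

theorem c22A16_10 : TA (19 / 50) (2 / 5) ⟨2711953937, 3304720923⟩ :=
  ⟨by norm_num, by norm_num, le_tan_num (by norm_num) (by norm_num) (by norm_num) (by norm_num),
    tan_le_num (by norm_num) (by norm_num) (by norm_num) (by norm_num)⟩

theorem c22C16_10 : cert1 c22P16 3 2 373662155 85899346 4 15 10 5 34 ⟨2711953937, 3304720923⟩ ⟨163953064, 257423375⟩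
    ⟨8375186, 1073741824⟩ ⟨179954290, 280216887⟩ = true := by
  decide +kernel

def c22Q16_4 : P2.Par := ⟨⟨1258425417, 1568736805⟩, ⟨423054278, 678604833⟩, 268435456, 483183821, 4, 3, 0, 39728447, 0, 300647711⟩

theorem c22B16_0 : TA (359 / 1000) (37 / 100) ⟨2263307295, 2481598799⟩ :=
  ⟨by norm_num, by norm_num, le_tan_num (by norm_num) (by norm_num) (by norm_num) (by norm_num),
    tan_le_num (by norm_num) (by norm_num) (by norm_num) (by norm_num)⟩

theorem c22D16_0 : cert2 c22Q16_4 20 100 50 30 ⟨2263307295, 2481598799⟩ ⟨209111384, 296711079⟩ ⟨8375186, 1073741824⟩ = true := by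
  decide +kernel

def c22Q16_7 : P2.Par := ⟨⟨1258425417, 1568736805⟩, ⟨423054278, 678604833⟩, 268435456, 483183821, 7, 5, 0, 39728447, 0, 300647711⟩

theorem c22B16_1 : TA (37 / 100) (19 / 50) ⟨2481256305, 2712177144⟩ :=
  ⟨by norm_num, by norm_num, le_tan_num (by norm_num) (by norm_num) (by norm_num) (by norm_num),
    tan_le_num (by norm_num) (by norm_num) (by norm_num) (by norm_num)⟩

theorem c22D16_1 : cert2 c22Q16_7 20 100 50 30 ⟨2481256305, 2712177144⟩ ⟨194357385, 276420566⟩ ⟨8375186, 1073741824⟩ = true := by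
  decide +kernel

def c22Q16_3 : P2.Par := ⟨⟨1258425417, 1568736805⟩, ⟨423054278, 678604833⟩, 268435456, 483183821, 3, 2, 0, 39728447, 0, 300647711⟩

theorem c22B16_2 : TA (19 / 50) (2 / 5) ⟨2711953937, 3304720923⟩ :=
  ⟨by norm_num, by norm_num, le_tan_num (by norm_num) (by norm_num) (by norm_num) (by norm_num),
    tan_le_num (by norm_num) (by norm_num) (by norm_num) (by norm_num)⟩

theorem c22D16_2 : cert2 c22Q16_3 20 100 50 30 ⟨2711953937, 3304720923⟩ ⟨163953064, 257423375⟩ ⟨8375186, 1073741824⟩ = true := by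
  decide +kernel

/-- The box: `re w ∈ [2/25, 3/25]`, `tan² θ' ∈ [49/100, 127/200]`, `tan² θ ∈ [1/4, 9/20]`, base `29/100`. -/
theorem c22_16 : Cert22 (29 / 100) (2 / 25) (3 / 25) (49 / 100) (127 / 200) (1 / 4) (9 / 20) (17 / 50) (403 / 1000) (359 / 1000)
    (373662155 / 1073741824) (42949673 / 536870912) (-39728447 / 1073741824) (300647711 / 1073741824) where
  k0 := by norm_num
  k1 := by norm_num
  hw := by norm_num
  hw' := by norm_num
  P0 := ⟨(282979921 / 134217728), tan_le_num (by norm_num) (by norm_num) (by norm_num) (by norm_num), by norm_num⟩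
  ph := by
    intro θ θ' h0 w hθ0 hθ1 hθ' r0 r1 r2 hwl hwi t0 t1 u0 u1 hh k0 k1
    have mS : Mem (Real.tan θ' ^ 2) ⟨526133493, 681826059⟩ := ⟨le_trans (by norm_num)
      (mul_le_mul_of_nonneg_right t0 (by norm_num)), (mul_le_mul_of_nonneg_right t1
        (by norm_num)).trans (by norm_num)⟩
    have mZ : Mem (Real.sin (Real.pi * w.re)) (rng 248689 368126 1000000) :=
      Hz.w_mem_sin (x1 := (314159 / 1250000)) (x2 := (11781 / 31250)) (by norm_num) r0 r1 (by norm_num) (by norm_num)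
        (by norm_num) (by norm_num) (by norm_num) (by norm_num) (by norm_num) (by norm_num)
    obtain ⟨mr, mi⟩ := rect_of c22R16 mS mZ (by linarith) hθ' (by linarith) (by linarith) hwl
    have us0 : ((c22P16.slo : ℕ) : ℝ) / 1073741824 ≤ Real.tan θ ^ 2 :=
      le_trans (by norm_num [c22P16]) u0
    have us1 : Real.tan θ ^ 2 ≤ ((c22P16.shi : ℕ) : ℝ) / 1073741824 :=
      u1.trans (by norm_num [c22P16])
    have hk0 : ((c22P16.klo : ℕ) : ℝ) / 1073741824 * Real.tan θ ^ 2 ≤
        Real.sinh (Real.pi * h0) ^ 2 :=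
      le_trans (mul_le_mul_of_nonneg_right (by norm_num [c22P16]) (sq_nonneg _)) k0
    have hk1 : Real.sinh (Real.pi * h0) ^ 2 ≤
        ((c22P16.khi : ℕ) : ℝ) / 1073741824 * Real.tan θ ^ 2 :=
      k1.trans (mul_le_mul_of_nonneg_right (by norm_num [c22P16]) (sq_nonneg _))
    have v0 : 0 ≤ ((starRingEnd ℂ) w).re := by rw [conj_re]; linarith
    have v1 : ((starRingEnd ℂ) w).re < 1 / 2 := by rw [conj_re]; linarith
    have vi : ((starRingEnd ℂ) w).im ≤ 0 := by rw [conj_im]; linarith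
    refine ⟨?_, ?_, ?_, ?_, ?_, ?_⟩
    · exact (Ph1.glue (Ph1.of_cert c22C16_0 c22A16_0 hθ0 hθ1 us0 us1 hh hk0 hk1 mr mi)
        (Ph1.glue (Ph1.of_cert c22C16_1 c22A16_1 hθ0 hθ1 us0 us1 hh hk0 hk1 mr mi)
        (Ph1.glue (Ph1.of_cert c22C16_2 c22A16_2 hθ0 hθ1 us0 us1 hh hk0 hk1 mr mi)
        (Ph1.glue (Ph1.of_cert c22C16_3 c22A16_3 hθ0 hθ1 us0 us1 hh hk0 hk1 mr mi)
        (Ph1.glue (Ph1.of_cert c22C16_4 c22A16_4 hθ0 hθ1 us0 us1 hh hk0 hk1 mr mi)
        (Ph1.glue (Ph1.of_cert c22C16_5 c22A16_5 hθ0 hθ1 us0 us1 hh hk0 hk1 mr mi)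
        (Ph1.glue (Ph1.of_cert c22C16_6 c22A16_6 hθ0 hθ1 us0 us1 hh hk0 hk1 mr mi)
        (Ph1.glue (Ph1.of_cert c22C16_7 c22A16_7 hθ0 hθ1 us0 us1 hh hk0 hk1 mr mi)
        (Ph1.of_cert c22C16_8 c22A16_8 hθ0 hθ1 us0 us1 hh hk0 hk1 mr mi))))))))).mono
        (by norm_num) (by norm_num) (by norm_num) (by norm_num) (by norm_num)
    · exact (Ph1.of_cert c22C16_9 c22A16_9 hθ0 hθ1 us0 us1 hh hk0 hk1 mr mi).mono
        (by norm_num) (by norm_num) (by norm_num) (by norm_num) (by norm_num)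
    · exact (Ph1.of_cert c22C16_10 c22A16_10 hθ0 hθ1 us0 us1 hh hk0 hk1 mr mi).mono
        (by norm_num) (by norm_num) (by norm_num) (by norm_num) (by norm_num)
    · exact (Ph2.of_cert c22D16_0 c22B16_0 hθ0 hθ1 (by simpa [c22Q16_4, c22P16] using us0)
        (by simpa [c22Q16_4, c22P16] using us1) v0 v1 vi (by simpa [c22Q16_4, c22P16] using mr)
        (by simpa [c22Q16_4, c22P16] using mi)).mono
        (by norm_num) (by norm_num) (by norm_num [c22Q16_4]) (by norm_num [c22Q16_4])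
        (by norm_num [c22Q16_4])
    · exact (Ph2.of_cert c22D16_1 c22B16_1 hθ0 hθ1 (by simpa [c22Q16_7, c22P16] using us0)
        (by simpa [c22Q16_7, c22P16] using us1) v0 v1 vi (by simpa [c22Q16_7, c22P16] using mr)
        (by simpa [c22Q16_7, c22P16] using mi)).mono
        (by norm_num) (by norm_num) (by norm_num [c22Q16_7]) (by norm_num [c22Q16_7])
        (by norm_num [c22Q16_7])
    · intro _; exact (Ph2.of_cert c22D16_2 c22B16_2 hθ0 hθ1 (by simpa [c22Q16_3, c22P16] using us0)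
        (by simpa [c22Q16_3, c22P16] using us1) v0 v1 vi (by simpa [c22Q16_3, c22P16] using mr)
        (by simpa [c22Q16_3, c22P16] using mi)).mono
        (by norm_num) (by norm_num) (by norm_num [c22Q16_3]) (by norm_num [c22Q16_3])
        (by norm_num [c22Q16_3])

end Pool.Agent.S3.T2
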