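import Pool.Agent.S3.Hz.Main
import Pool.Agent.S3.W3.Cert
import Pool.Agent.S3.W3.Glue
import Pool.Agent.S3.W3.Rect

/-!
# Two vertices with two half twists: box 17 (generated)
-/

set_option autoImplicit false

namespace Pool.Agent.S3.T2

open Complex Pool.Agent.S3.NI

def c22P17 : P1.Par := ⟨⟨1258425417, 1568736805⟩, ⟨423054278, 678604833⟩, 483183820, 740881859, 136847321, 180496001⟩

theorem c22R17 : certR ⟨1258425417, 1568736805⟩ ⟨423054278, 678604833⟩ 1 1 24 ⟨526133493, 681826059⟩ (rng 248689 368126 1000000) = true := by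
  decide +kernel

theorem c22A17_0 : TA (29 / 100) (117 / 400) ⟨1383702044, 1411243912⟩ :=
  ⟨by norm_num, by norm_num, le_tan_num (by norm_num) (by norm_num) (by norm_num) (by norm_num),
    tan_le_num (by norm_num) (by norm_num) (by norm_num) (by norm_num)⟩

theorem c22C17_0 : cert1 c22P17 4 3 588410520 601295421 4 15 10 5 34 ⟨1383702044, 1411243912⟩ ⟨404079718, 487256982⟩
    ⟨8375186, 1073741824⟩ ⟨250071693, 346161143⟩ = true := by
  decide +kernel

theorem c22A17_1 : TA (117 / 400) (59 / 200) ⟨1406432350, 1434105629⟩ :=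
  ⟨by norm_num, by norm_num, le_tan_num (by norm_num) (by norm_num) (by norm_num) (by norm_num),
    tan_le_num (by norm_num) (by norm_num) (by norm_num) (by norm_num)⟩

theorem c22C17_1 : cert1 c22P17 4 3 588410520 601295421 4 15 10 5 34 ⟨1406432350, 1434105629⟩ ⟨400539203, 483305878⟩
    ⟨8375186, 1073741824⟩ ⟨250071693, 346161143⟩ = true := by
  decide +kernel

theorem c22A17_2 : TA (59 / 200) (3 / 10) ⟨1429630026, 1481365907⟩ :=
  ⟨by norm_num, by norm_num, le_tan_num (by norm_num) (by norm_num) (by norm_num) (by norm_num),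
    tan_le_num (by norm_num) (by norm_num) (by norm_num) (by norm_num)⟩

theorem c22C17_2 : cert1 c22P17 4 3 588410520 601295421 4 15 10 5 34 ⟨1429630026, 1481365907⟩ ⟨393337087, 479307058⟩
    ⟨8375186, 1073741824⟩ ⟨250071693, 346161143⟩ = true := by
  decide +kernel

theorem c22A17_3 : TA (3 / 10) (31 / 100) ⟨1477500938, 1582569517⟩ :=
  ⟨by norm_num, by norm_num, le_tan_num (by norm_num) (by norm_num) (by norm_num) (by norm_num),
    tan_le_num (by norm_num) (by norm_num) (by norm_num) (by norm_num)⟩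

theorem c22C17_3 : cert1 c22P17 4 3 588410520 601295421 4 15 10 5 34 ⟨1477500938, 1582569517⟩ ⟨378453132, 471165222⟩
    ⟨8375186, 1073741824⟩ ⟨250071693, 346161143⟩ = true := by
  decide +kernel

theorem c22A17_4 : TA (31 / 100) (33 / 100) ⟨1579710709, 1816998310⟩ :=
  ⟨by norm_num, by norm_num, le_tan_num (by norm_num) (by norm_num) (by norm_num) (by norm_num),
    tan_le_num (by norm_num) (by norm_num) (by norm_num) (by norm_num)⟩

theorem c22C17_4 : cert1 c22P17 4 3 588410520 601295421 4 15 10 5 34 ⟨1579710709, 1816998310⟩ ⟨346806479, 454298194⟩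
    ⟨8375186, 1073741824⟩ ⟨250071693, 346161143⟩ = true := by
  decide +kernel

theorem c22A17_5 : TA (33 / 100) (37 / 100) ⟨1815491331, 2481598799⟩ :=
  ⟨by norm_num, by norm_num, le_tan_num (by norm_num) (by norm_num) (by norm_num) (by norm_num),
    tan_le_num (by norm_num) (by norm_num) (by norm_num) (by norm_num)⟩

theorem c22C17_5 : cert1 c22P17 4 3 588410520 601295421 4 15 10 5 34 ⟨1815491331, 2481598799⟩ ⟨276390561, 418190798⟩
    ⟨8375186, 1073741824⟩ ⟨250071693, 346161143⟩ = true := by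
  decide +kernel

theorem c22A17_6 : TA (37 / 100) (19 / 50) ⟨2481256305, 2712177144⟩ :=
  ⟨by norm_num, by norm_num, le_tan_num (by norm_num) (by norm_num) (by norm_num) (by norm_num),
    tan_le_num (by norm_num) (by norm_num) (by norm_num) (by norm_num)⟩

theorem c22C17_6 : cert1 c22P17 7 5 588410520 601295421 4 15 10 5 34 ⟨2481256305, 2712177144⟩ ⟨257406112, 336392183⟩
    ⟨8375186, 1073741824⟩ ⟨250071693, 346161143⟩ = true := by
  decide +kernel

theorem c22A17_7 : TA (19 / 50) (2 / 5) ⟨2711953937, 3304720923⟩ :=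
  ⟨by norm_num, by norm_num, le_tan_num (by norm_num) (by norm_num) (by norm_num) (by norm_num),
    tan_le_num (by norm_num) (by norm_num) (by norm_num) (by norm_num)⟩

theorem c22C17_7 : cert1 c22P17 3 2 588410520 601295421 4 15 10 5 34 ⟨2711953937, 3304720923⟩ ⟨217942954, 313985582⟩
    ⟨8375186, 1073741824⟩ ⟨250071693, 346161143⟩ = true := by
  decide +kernel

def c22Q17_4 : P2.Par := ⟨⟨1258425417, 1568736805⟩, ⟨423054278, 678604833⟩, 483183820, 740881859, 4, 3, 0, 155692564, 0, 42949673⟩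

theorem c22B17_0 : TA (89 / 250) (37 / 100) ⟨2209290182, 2481598799⟩ :=
  ⟨by norm_num, by norm_num, le_tan_num (by norm_num) (by norm_num) (by norm_num) (by norm_num),
    tan_le_num (by norm_num) (by norm_num) (by norm_num) (by norm_num)⟩

theorem c22D17_0 : cert2 c22Q17_4 20 100 50 30 ⟨2209290182, 2481598799⟩ ⟨276390561, 366465417⟩ ⟨8375186, 1073741824⟩ = true := by
  decide +kernel

def c22Q17_7 : P2.Par := ⟨⟨1258425417, 1568736805⟩, ⟨423054278, 678604833⟩, 483183820, 740881859, 7, 5, 0, 155692564, 0, 42949673⟩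

theorem c22B17_1 : TA (37 / 100) (19 / 50) ⟨2481256305, 2712177144⟩ :=
  ⟨by norm_num, by norm_num, le_tan_num (by norm_num) (by norm_num) (by norm_num) (by norm_num),
    tan_le_num (by norm_num) (by norm_num) (by norm_num) (by norm_num)⟩

theorem c22D17_1 : cert2 c22Q17_7 20 100 50 30 ⟨2481256305, 2712177144⟩ ⟨257406112, 336392183⟩ ⟨8375186, 1073741824⟩ = true := by
  decide +kernel

def c22Q17_3 : P2.Par := ⟨⟨1258425417, 1568736805⟩, ⟨423054278, 678604833⟩, 483183820, 740881859, 3, 2, 0, 155692564, 0, 42949673⟩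

theorem c22B17_2 : TA (19 / 50) (2 / 5) ⟨2711953937, 3304720923⟩ :=
  ⟨by norm_num, by norm_num, le_tan_num (by norm_num) (by norm_num) (by norm_num) (by norm_num),
    tan_le_num (by norm_num) (by norm_num) (by norm_num) (by norm_num)⟩

theorem c22D17_2 : cert2 c22Q17_3 20 100 50 30 ⟨2711953937, 3304720923⟩ ⟨217942954, 313985582⟩ ⟨8375186, 1073741824⟩ = true := by
  decide +kernel

/-- The box: `re w ∈ [2/25, 3/25]`, `tan² θ' ∈ [49/100, 127/200]`, `tan² θ ∈ [9/20, 69/100]`, base `29/100`. -/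
theorem c22_17 : Cert22 (29 / 100) (2 / 25) (3 / 25) (49 / 100) (127 / 200) (9 / 20) (69 / 100) (357 / 1000) (41 / 100) (89 / 250)
    (73551315 / 134217728) (601295421 / 1073741824) (-38923141 / 268435456) (42949673 / 1073741824) where
  k0 := by norm_num
  k1 := by norm_num
  hw := by norm_num
  hw' := by norm_num
  P0 := ⟨(552471811 / 268435456), tan_le_num (by norm_num) (by norm_num) (by norm_num) (by norm_num), by norm_num⟩
  ph := by
    intro θ θ' h0 w hθ0 hθ1 hθ' r0 r1 r2 hwl hwi t0 t1 u0 u1 hh k0 k1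
    have mS : Mem (Real.tan θ' ^ 2) ⟨526133493, 681826059⟩ := ⟨le_trans (by norm_num)
      (mul_le_mul_of_nonneg_right t0 (by norm_num)), (mul_le_mul_of_nonneg_right t1
        (by norm_num)).trans (by norm_num)⟩
    have mZ : Mem (Real.sin (Real.pi * w.re)) (rng 248689 368126 1000000) :=
      Hz.w_mem_sin (x1 := (314159 / 1250000)) (x2 := (11781 / 31250)) (by norm_num) r0 r1 (by norm_num) (by norm_num)
        (by norm_num) (by norm_num) (by norm_num) (by norm_num) (by norm_num) (by norm_num)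
    obtain ⟨mr, mi⟩ := rect_of c22R17 mS mZ (by linarith) hθ' (by linarith) (by linarith) hwl
    have us0 : ((c22P17.slo : ℕ) : ℝ) / 1073741824 ≤ Real.tan θ ^ 2 :=
      le_trans (by norm_num [c22P17]) u0
    have us1 : Real.tan θ ^ 2 ≤ ((c22P17.shi : ℕ) : ℝ) / 1073741824 :=
      u1.trans (by norm_num [c22P17])
    have hk0 : ((c22P17.klo : ℕ) : ℝ) / 1073741824 * Real.tan θ ^ 2 ≤
        Real.sinh (Real.pi * h0) ^ 2 :=
      le_trans (mul_le_mul_of_nonneg_right (by norm_num [c22P17]) (sq_nonneg _)) k0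
    have hk1 : Real.sinh (Real.pi * h0) ^ 2 ≤
        ((c22P17.khi : ℕ) : ℝ) / 1073741824 * Real.tan θ ^ 2 :=
      k1.trans (mul_le_mul_of_nonneg_right (by norm_num [c22P17]) (sq_nonneg _))
    have v0 : 0 ≤ ((starRingEnd ℂ) w).re := by rw [conj_re]; linarith
    have v1 : ((starRingEnd ℂ) w).re < 1 / 2 := by rw [conj_re]; linarith
    have vi : ((starRingEnd ℂ) w).im ≤ 0 := by rw [conj_im]; linarith
    refine ⟨?_, ?_, ?_, ?_, ?_, ?_⟩
    · exact (Ph1.glue (Ph1.of_cert c22C17_0 c22A17_0 hθ0 hθ1 us0 us1 hh hk0 hk1 mr mi)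
        (Ph1.glue (Ph1.of_cert c22C17_1 c22A17_1 hθ0 hθ1 us0 us1 hh hk0 hk1 mr mi)
        (Ph1.glue (Ph1.of_cert c22C17_2 c22A17_2 hθ0 hθ1 us0 us1 hh hk0 hk1 mr mi)
        (Ph1.glue (Ph1.of_cert c22C17_3 c22A17_3 hθ0 hθ1 us0 us1 hh hk0 hk1 mr mi)
        (Ph1.glue (Ph1.of_cert c22C17_4 c22A17_4 hθ0 hθ1 us0 us1 hh hk0 hk1 mr mi)
        (Ph1.of_cert c22C17_5 c22A17_5 hθ0 hθ1 us0 us1 hh hk0 hk1 mr mi)))))).mono
        (by norm_num) (by norm_num) (by norm_num) (by norm_num) (by norm_num)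
    · exact (Ph1.of_cert c22C17_6 c22A17_6 hθ0 hθ1 us0 us1 hh hk0 hk1 mr mi).mono
        (by norm_num) (by norm_num) (by norm_num) (by norm_num) (by norm_num)
    · exact (Ph1.of_cert c22C17_7 c22A17_7 hθ0 hθ1 us0 us1 hh hk0 hk1 mr mi).mono
        (by norm_num) (by norm_num) (by norm_num) (by norm_num) (by norm_num)
    · exact (Ph2.of_cert c22D17_0 c22B17_0 hθ0 hθ1 (by simpa [c22Q17_4, c22P17] using us0)
        (by simpa [c22Q17_4, c22P17] using us1) v0 v1 vi (by simpa [c22Q17_4, c22P17] using mr)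
        (by simpa [c22Q17_4, c22P17] using mi)).mono
        (by norm_num) (by norm_num) (by norm_num [c22Q17_4]) (by norm_num [c22Q17_4])
        (by norm_num [c22Q17_4])
    · exact (Ph2.of_cert c22D17_1 c22B17_1 hθ0 hθ1 (by simpa [c22Q17_7, c22P17] using us0)
        (by simpa [c22Q17_7, c22P17] using us1) v0 v1 vi (by simpa [c22Q17_7, c22P17] using mr)
        (by simpa [c22Q17_7, c22P17] using mi)).mono
        (by norm_num) (by norm_num) (by norm_num [c22Q17_7]) (by norm_num [c22Q17_7])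
        (by norm_num [c22Q17_7])
    · intro _; exact (Ph2.of_cert c22D17_2 c22B17_2 hθ0 hθ1 (by simpa [c22Q17_3, c22P17] using us0)
        (by simpa [c22Q17_3, c22P17] using us1) v0 v1 vi (by simpa [c22Q17_3, c22P17] using mr)
        (by simpa [c22Q17_3, c22P17] using mi)).mono
        (by norm_num) (by norm_num) (by norm_num [c22Q17_3]) (by norm_num [c22Q17_3])
        (by norm_num [c22Q17_3])

end Pool.Agent.S3.T2
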