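import Pool.Agent.S3.W3.Box
import Pool.Agent.S3.W3.C10
import Pool.Agent.S3.W3.C11
import Pool.Agent.S3.W3.C12
import Pool.Agent.S3.W3.C13
import Pool.Agent.S3.W3.C14
import Pool.Agent.S3.W3.C15
import Pool.Agent.S3.W3.C16
import Pool.Agent.S3.W3.C17
import Pool.Agent.S3.W3.C18
import Pool.Agent.S3.W3.C19
import Pool.Agent.S3.Hz.R22b_1
import Pool.Agent.S3.Hz.R22b_2

/-!
# Two vertices with two half twists: the boxes 10 to 19 (generated)
-/

set_option autoImplicit false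

namespace Pool.Agent.S3.T2

theorem bx22_10 : BoxOK (29 / 100) (3 / 50) (2 / 25) (127 / 200) (69 / 100) (1 / 4) (21 / 50) (56 / 5) (63 / 1000) (3 / 50) (1 / 50) :=
  BoxOK.small c22_10 (KR.of fun H => Hz.h22b_10 H) (by norm_num) (by constructor <;> norm_num) (by norm_num)

theorem bx22_11 : BoxOK (29 / 100) (3 / 50) (2 / 25) (127 / 200) (69 / 100) (21 / 50) (3 / 5) (56 / 5) (63 / 1000) (3 / 50) (1 / 50) :=
  BoxOK.both c22_11 (KR.of fun H => Hz.h22b_11 H) (by norm_num)
    (by constructor <;> norm_num) (by constructor <;> norm_num)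

theorem bx22_12 : BoxOK (29 / 100) (3 / 50) (2 / 25) (69 / 100) (757 / 1000) (1 / 4) (7 / 20) (56 / 5) (63 / 1000) (3 / 50) (1 / 50) :=
  BoxOK.small c22_12 (KR.of fun H => Hz.h22b_12 H) (by norm_num) (by constructor <;> norm_num) (by norm_num)

theorem bx22_13 : BoxOK (29 / 100) (3 / 50) (2 / 25) (69 / 100) (757 / 1000) (7 / 20) (9 / 20) (56 / 5) (63 / 1000) (3 / 50) (1 / 50) :=
  BoxOK.small c22_13 (KR.of fun H => Hz.h22b_13 H) (by norm_num) (by constructor <;> norm_num) (by norm_num)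

theorem bx22_14 : BoxOK (29 / 100) (2 / 25) (3 / 25) (1 / 4) (49 / 100) (1 / 4) (9 / 20) 14 (63 / 1000) (3 / 50) (1 / 100) :=
  BoxOK.small c22_14 (KR.of fun H => Hz.h22b_14 H) (by norm_num) (by constructor <;> norm_num) (by norm_num)

theorem bx22_15 : BoxOK (29 / 100) (2 / 25) (3 / 25) (1 / 4) (49 / 100) (9 / 20) (757 / 1000) 14 (63 / 1000) (3 / 50) (1 / 100) :=
  BoxOK.both c22_15 (KR.of fun H => Hz.h22b_15 H) (by norm_num)
    (by constructor <;> norm_num) (by constructor <;> norm_num)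

theorem bx22_16 : BoxOK (29 / 100) (2 / 25) (3 / 25) (49 / 100) (127 / 200) (1 / 4) (9 / 20) 14 (63 / 1000) (3 / 50) (1 / 100) :=
  BoxOK.small c22_16 (KR.of fun H => Hz.h22b_16 H) (by norm_num) (by constructor <;> norm_num) (by norm_num)

theorem bx22_17 : BoxOK (29 / 100) (2 / 25) (3 / 25) (49 / 100) (127 / 200) (9 / 20) (69 / 100) 14 (63 / 1000) (3 / 50) (1 / 100) :=
  BoxOK.both c22_17 (KR.of fun H => Hz.h22b_17 H) (by norm_num)
    (by constructor <;> norm_num) (by constructor <;> norm_num)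

theorem bx22_18 : BoxOK (29 / 100) (2 / 25) (1 / 10) (127 / 200) (69 / 100) (1 / 4) (21 / 50) 14 (63 / 1000) (3 / 50) (1 / 100) :=
  BoxOK.small c22_18 (KR.of fun H => Hz.h22b_18 H) (by norm_num) (by constructor <;> norm_num) (by norm_num)

theorem bx22_19 : BoxOK (29 / 100) (2 / 25) (1 / 10) (127 / 200) (69 / 100) (21 / 50) (3 / 5) 14 (63 / 1000) (3 / 50) (1 / 100) :=
  BoxOK.both c22_19 (KR.of fun H => Hz.h22b_19 H) (by norm_num)
    (by constructor <;> norm_num) (by constructor <;> norm_num)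

end Pool.Agent.S3.T2
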