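import Pool.Agent.S3.Hz.Main
import Pool.Agent.S3.W3.Cert
import Pool.Agent.S3.W3.Glue
import Pool.Agent.S3.W3.Rect

/-!
# Two vertices with two half twists: box 20 (generated)
-/

set_option autoImplicit false

namespace Pool.Agent.S3.T2

open Complex Pool.Agent.S3.NI

def c22P20 : P1.Par := ⟨⟨1512902230, 1676110988⟩, ⟨533649686, 678604833⟩, 268435456, 375809639, 153420526, 181377543⟩

theorem c22R20 : certR ⟨1512902230, 1676110988⟩ ⟨533649686, 678604833⟩ 1 1 24 ⟨740881858, 812822561⟩ (rng 248689 309018 1000000) = true := by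
  decide +kernel

theorem c22A20_0 : TA (29 / 100) (31 / 100) ⟨1383702044, 1582569517⟩ :=
  ⟨by norm_num, by norm_num, le_tan_num (by norm_num) (by norm_num) (by norm_num) (by norm_num),
    tan_le_num (by norm_num) (by norm_num) (by norm_num) (by norm_num)⟩

theorem c22C20_0 : cert1 c22P20 4 3 375809638 0 4 15 10 5 34 ⟨1383702044, 1582569517⟩ ⟨290207689, 366101696⟩
    ⟨8375186, 1073741824⟩ ⟨199406945, 253689592⟩ = true := by
  decide +kernel

theorem c22A20_1 : TA (31 / 100) (8 / 25) ⟨1579710709, 1693870078⟩ :=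
  ⟨by norm_num, by norm_num, le_tan_num (by norm_num) (by norm_num) (by norm_num) (by norm_num),
    tan_le_num (by norm_num) (by norm_num) (by norm_num) (by norm_num)⟩

theorem c22C20_1 : cert1 c22P20 4 3 375809638 0 4 15 10 5 34 ⟨1579710709, 1693870078⟩ ⟨277660173, 338846339⟩
    ⟨8375186, 1073741824⟩ ⟨199406945, 253689592⟩ = true := by
  decide +kernel

theorem c22A20_2 : TA (8 / 25) (33 / 100) ⟨1691780553, 1816998310⟩ :=
  ⟨by norm_num, by norm_num, le_tan_num (by norm_num) (by norm_num) (by norm_num) (by norm_num),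
    tan_le_num (by norm_num) (by norm_num) (by norm_num) (by norm_num)⟩

theorem c22C20_2 : cert1 c22P20 4 3 375809638 0 4 15 10 5 34 ⟨1691780553, 1816998310⟩ ⟨264703634, 324483872⟩
    ⟨8375186, 1073741824⟩ ⟨199406945, 253689592⟩ = true := by
  decide +kernel

theorem c22A20_3 : TA (33 / 100) (17 / 50) ⟨1815491331, 1954132144⟩ :=
  ⟨by norm_num, by norm_num, le_tan_num (by norm_num) (by norm_num) (by norm_num) (by norm_num),
    tan_le_num (by norm_num) (by norm_num) (by norm_num) (by norm_num)⟩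

theorem c22C20_3 : cert1 c22P20 4 3 375809638 0 4 15 10 5 34 ⟨1815491331, 1954132144⟩ ⟨251353985, 309637180⟩
    ⟨8375186, 1073741824⟩ ⟨199406945, 253689592⟩ = true := by
  decide +kernel

theorem c22A20_4 : TA (17 / 50) (7 / 20) ⟨1953061593, 2108042865⟩ :=
  ⟨by norm_num, by norm_num, le_tan_num (by norm_num) (by norm_num) (by norm_num) (by norm_num),
    tan_le_num (by norm_num) (by norm_num) (by norm_num) (by norm_num)⟩

theorem c22C20_4 : cert1 c22P20 4 3 375809638 0 4 15 10 5 34 ⟨1953061593, 2108042865⟩ ⟨237627465, 294313706⟩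
    ⟨8375186, 1073741824⟩ ⟨199406945, 253689592⟩ = true := by
  decide +kernel

theorem c22A20_5 : TA (7 / 20) (37 / 100) ⟨2107295321, 2481598799⟩ :=
  ⟨by norm_num, by norm_num, le_tan_num (by norm_num) (by norm_num) (by norm_num) (by norm_num),
    tan_le_num (by norm_num) (by norm_num) (by norm_num) (by norm_num)⟩

theorem c22C20_5 : cert1 c22P20 4 3 375809638 0 4 15 10 5 34 ⟨2107295321, 2481598799⟩ ⟨209111384, 278523444⟩
    ⟨8375186, 1073741824⟩ ⟨199406945, 253689592⟩ = true := by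
  decide +kernel

theorem c22A20_6 : TA (37 / 100) (19 / 50) ⟨2481256305, 2712177144⟩ :=
  ⟨by norm_num, by norm_num, le_tan_num (by norm_num) (by norm_num) (by norm_num) (by norm_num),
    tan_le_num (by norm_num) (by norm_num) (by norm_num) (by norm_num)⟩

theorem c22C20_6 : cert1 c22P20 7 5 375809638 0 4 15 10 5 34 ⟨2481256305, 2712177144⟩ ⟨194357385, 245595233⟩
    ⟨8375186, 1073741824⟩ ⟨199406945, 253689592⟩ = true := by
  decide +kernel

theorem c22A20_7 : TA (19 / 50) (2 / 5) ⟨2711953937, 3304720923⟩ :=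
  ⟨by norm_num, by norm_num, le_tan_num (by norm_num) (by norm_num) (by norm_num) (by norm_num),
    tan_le_num (by norm_num) (by norm_num) (by norm_num) (by norm_num)⟩

theorem c22C20_7 : cert1 c22P20 3 2 375809638 0 4 15 10 5 34 ⟨2711953937, 3304720923⟩ ⟨163953064, 228489988⟩
    ⟨8375186, 1073741824⟩ ⟨199406945, 253689592⟩ = true := by
  decide +kernel

def c22Q20_4 : P2.Par := ⟨⟨1512902230, 1676110988⟩, ⟨533649686, 678604833⟩, 268435456, 375809639, 4, 3, 0, 32212255, 0, 343597384⟩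

theorem c22B20_0 : TA (89 / 250) (37 / 100) ⟨2209290182, 2481598799⟩ :=
  ⟨by norm_num, by norm_num, le_tan_num (by norm_num) (by norm_num) (by norm_num) (by norm_num),
    tan_le_num (by norm_num) (by norm_num) (by norm_num) (by norm_num)⟩

theorem c22D20_0 : cert2 c22Q20_4 20 100 50 30 ⟨2209290182, 2481598799⟩ ⟨209111384, 268830336⟩ ⟨8375186, 1073741824⟩ = true := by
  decide +kernel

def c22Q20_7 : P2.Par := ⟨⟨1512902230, 1676110988⟩, ⟨533649686, 678604833⟩, 268435456, 375809639, 7, 5, 0, 32212255, 0, 343597384⟩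

theorem c22B20_1 : TA (37 / 100) (19 / 50) ⟨2481256305, 2712177144⟩ :=
  ⟨by norm_num, by norm_num, le_tan_num (by norm_num) (by norm_num) (by norm_num) (by norm_num),
    tan_le_num (by norm_num) (by norm_num) (by norm_num) (by norm_num)⟩

theorem c22D20_1 : cert2 c22Q20_7 20 100 50 30 ⟨2481256305, 2712177144⟩ ⟨194357385, 245595233⟩ ⟨8375186, 1073741824⟩ = true := by
  decide +kernel

def c22Q20_3 : P2.Par := ⟨⟨1512902230, 1676110988⟩, ⟨533649686, 678604833⟩, 268435456, 375809639, 3, 2, 0, 32212255, 0, 343597384⟩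

theorem c22B20_2 : TA (19 / 50) (2 / 5) ⟨2711953937, 3304720923⟩ :=
  ⟨by norm_num, by norm_num, le_tan_num (by norm_num) (by norm_num) (by norm_num) (by norm_num),
    tan_le_num (by norm_num) (by norm_num) (by norm_num) (by norm_num)⟩

theorem c22D20_2 : cert2 c22Q20_3 20 100 50 30 ⟨2711953937, 3304720923⟩ ⟨163953064, 228489988⟩ ⟨8375186, 1073741824⟩ = true := by
  decide +kernel

/-- The box: `re w ∈ [2/25, 1/10]`, `tan² θ' ∈ [69/100, 757/1000]`, `tan² θ ∈ [1/4, 7/20]`, base `29/100`. -/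
theorem c22_20 : Cert22 (29 / 100) (2 / 25) (1 / 10) (69 / 100) (757 / 1000) (1 / 4) (7 / 20) (189 / 500) (411 / 1000) (89 / 250)
    (187904819 / 536870912) (0 / 1) (-32212255 / 1073741824) (42949673 / 134217728) where
  k0 := by norm_num
  k1 := by norm_num
  hw := by norm_num
  hw' := by norm_num
  P0 := ⟨(552471811 / 268435456), tan_le_num (by norm_num) (by norm_num) (by norm_num) (by norm_num), by norm_num⟩
  ph := by
    intro θ θ' h0 w hθ0 hθ1 hθ' r0 r1 r2 hwl hwi t0 t1 u0 u1 hh k0 k1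
    have mS : Mem (Real.tan θ' ^ 2) ⟨740881858, 812822561⟩ := ⟨le_trans (by norm_num)
      (mul_le_mul_of_nonneg_right t0 (by norm_num)), (mul_le_mul_of_nonneg_right t1
        (by norm_num)).trans (by norm_num)⟩
    have mZ : Mem (Real.sin (Real.pi * w.re)) (rng 248689 309018 1000000) :=
      Hz.w_mem_sin (x1 := (314159 / 1250000)) (x2 := (3927 / 12500)) (by norm_num) r0 r1 (by norm_num) (by norm_num)
        (by norm_num) (by norm_num) (by norm_num) (by norm_num) (by norm_num) (by norm_num)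
    obtain ⟨mr, mi⟩ := rect_of c22R20 mS mZ (by linarith) hθ' (by linarith) (by linarith) hwl
    have us0 : ((c22P20.slo : ℕ) : ℝ) / 1073741824 ≤ Real.tan θ ^ 2 :=
      le_trans (by norm_num [c22P20]) u0
    have us1 : Real.tan θ ^ 2 ≤ ((c22P20.shi : ℕ) : ℝ) / 1073741824 :=
      u1.trans (by norm_num [c22P20])
    have hk0 : ((c22P20.klo : ℕ) : ℝ) / 1073741824 * Real.tan θ ^ 2 ≤
        Real.sinh (Real.pi * h0) ^ 2 :=
      le_trans (mul_le_mul_of_nonneg_right (by norm_num [c22P20]) (sq_nonneg _)) k0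
    have hk1 : Real.sinh (Real.pi * h0) ^ 2 ≤
        ((c22P20.khi : ℕ) : ℝ) / 1073741824 * Real.tan θ ^ 2 :=
      k1.trans (mul_le_mul_of_nonneg_right (by norm_num [c22P20]) (sq_nonneg _))
    have v0 : 0 ≤ ((starRingEnd ℂ) w).re := by rw [conj_re]; linarith
    have v1 : ((starRingEnd ℂ) w).re < 1 / 2 := by rw [conj_re]; linarith
    have vi : ((starRingEnd ℂ) w).im ≤ 0 := by rw [conj_im]; linarith
    refine ⟨?_, ?_, ?_, ?_, ?_, ?_⟩
    · exact (Ph1.glue (Ph1.of_cert c22C20_0 c22A20_0 hθ0 hθ1 us0 us1 hh hk0 hk1 mr mi)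
        (Ph1.glue (Ph1.of_cert c22C20_1 c22A20_1 hθ0 hθ1 us0 us1 hh hk0 hk1 mr mi)
        (Ph1.glue (Ph1.of_cert c22C20_2 c22A20_2 hθ0 hθ1 us0 us1 hh hk0 hk1 mr mi)
        (Ph1.glue (Ph1.of_cert c22C20_3 c22A20_3 hθ0 hθ1 us0 us1 hh hk0 hk1 mr mi)
        (Ph1.glue (Ph1.of_cert c22C20_4 c22A20_4 hθ0 hθ1 us0 us1 hh hk0 hk1 mr mi)
        (Ph1.of_cert c22C20_5 c22A20_5 hθ0 hθ1 us0 us1 hh hk0 hk1 mr mi)))))).mono
        (by norm_num) (by norm_num) (by norm_num) (by norm_num) (by norm_num)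
    · exact (Ph1.of_cert c22C20_6 c22A20_6 hθ0 hθ1 us0 us1 hh hk0 hk1 mr mi).mono
        (by norm_num) (by norm_num) (by norm_num) (by norm_num) (by norm_num)
    · exact (Ph1.of_cert c22C20_7 c22A20_7 hθ0 hθ1 us0 us1 hh hk0 hk1 mr mi).mono
        (by norm_num) (by norm_num) (by norm_num) (by norm_num) (by norm_num)
    · exact (Ph2.of_cert c22D20_0 c22B20_0 hθ0 hθ1 (by simpa [c22Q20_4, c22P20] using us0)
        (by simpa [c22Q20_4, c22P20] using us1) v0 v1 vi (by simpa [c22Q20_4, c22P20] using mr)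
        (by simpa [c22Q20_4, c22P20] using mi)).mono
        (by norm_num) (by norm_num) (by norm_num [c22Q20_4]) (by norm_num [c22Q20_4])
        (by norm_num [c22Q20_4])
    · exact (Ph2.of_cert c22D20_1 c22B20_1 hθ0 hθ1 (by simpa [c22Q20_7, c22P20] using us0)
        (by simpa [c22Q20_7, c22P20] using us1) v0 v1 vi (by simpa [c22Q20_7, c22P20] using mr)
        (by simpa [c22Q20_7, c22P20] using mi)).mono
        (by norm_num) (by norm_num) (by norm_num [c22Q20_7]) (by norm_num [c22Q20_7])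
        (by norm_num [c22Q20_7])
    · intro _; exact (Ph2.of_cert c22D20_2 c22B20_2 hθ0 hθ1 (by simpa [c22Q20_3, c22P20] using us0)
        (by simpa [c22Q20_3, c22P20] using us1) v0 v1 vi (by simpa [c22Q20_3, c22P20] using mr)
        (by simpa [c22Q20_3, c22P20] using mi)).mono
        (by norm_num) (by norm_num) (by norm_num [c22Q20_3]) (by norm_num [c22Q20_3])
        (by norm_num [c22Q20_3])

end Pool.Agent.S3.T2
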