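import Pool.Agent.S3.Hz.Main
import Pool.Agent.S3.W3.Cert
import Pool.Agent.S3.W3.Glue
import Pool.Agent.S3.W3.Rect

/-!
# Two vertices with two half twists: box 25 (generated)
-/

set_option autoImplicit false

namespace Pool.Agent.S3.T2

open Complex Pool.Agent.S3.NI

def c22P25 : P1.Par := ⟨⟨1393716887, 1566589322⟩, ⟨634581417, 765577921⟩, 375809638, 483183821, 151801324, 179616607⟩

theorem c22R25 : certR ⟨1393716887, 1566589322⟩ ⟨634581417, 765577921⟩ 1 1 24 ⟨740881858, 812822561⟩ (rng 309016 368126 1000000) = true := by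
  decide +kernel

theorem c22A25_0 : TA (29 / 100) (31 / 100) ⟨1383702044, 1582569517⟩ :=
  ⟨by norm_num, by norm_num, le_tan_num (by norm_num) (by norm_num) (by norm_num) (by norm_num),
    tan_le_num (by norm_num) (by norm_num) (by norm_num) (by norm_num)⟩

theorem c22C25_0 : cert1 c22P25 4 3 466003952 386547057 4 15 10 5 34 ⟨1383702044, 1582569517⟩ ⟨338468966, 408393292⟩
    ⟨8375186, 1073741824⟩ ⟨233149410, 284098781⟩ = true := by
  decide +kernel

theorem c22A25_1 : TA (31 / 100) (33 / 100) ⟨1579710709, 1816998310⟩ :=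
  ⟨by norm_num, by norm_num, le_tan_num (by norm_num) (by norm_num) (by norm_num) (by norm_num),
    tan_le_num (by norm_num) (by norm_num) (by norm_num) (by norm_num)⟩

theorem c22C25_1 : cert1 c22P25 4 3 466003952 386547057 4 15 10 5 34 ⟨1579710709, 1816998310⟩ ⟨309462674, 378863418⟩
    ⟨8375186, 1073741824⟩ ⟨233149410, 284098781⟩ = true := by
  decide +kernel

theorem c22A25_2 : TA (33 / 100) (37 / 100) ⟨1815491331, 2481598799⟩ :=
  ⟨by norm_num, by norm_num, le_tan_num (by norm_num) (by norm_num) (by norm_num) (by norm_num),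
    tan_le_num (by norm_num) (by norm_num) (by norm_num) (by norm_num)⟩

theorem c22C25_2 : cert1 c22P25 4 3 466003952 386547057 4 15 10 5 34 ⟨1815491331, 2481598799⟩ ⟨245568175, 346997505⟩
    ⟨8375186, 1073741824⟩ ⟨233149410, 284098781⟩ = true := by
  decide +kernel

theorem c22A25_3 : TA (37 / 100) (19 / 50) ⟨2481256305, 2712177144⟩ :=
  ⟨by norm_num, by norm_num, le_tan_num (by norm_num) (by norm_num) (by norm_num) (by norm_num),
    tan_le_num (by norm_num) (by norm_num) (by norm_num) (by norm_num)⟩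

theorem c22C25_3 : cert1 c22P25 7 5 466003952 386547057 4 15 10 5 34 ⟨2481256305, 2712177144⟩ ⟨228474466, 276420566⟩
    ⟨8375186, 1073741824⟩ ⟨233149410, 284098781⟩ = true := by
  decide +kernel

theorem c22A25_4 : TA (19 / 50) (2 / 5) ⟨2711953937, 3304720923⟩ :=
  ⟨by norm_num, by norm_num, le_tan_num (by norm_num) (by norm_num) (by norm_num) (by norm_num),
    tan_le_num (by norm_num) (by norm_num) (by norm_num) (by norm_num)⟩

theorem c22C25_4 : cert1 c22P25 3 2 466003952 386547057 4 15 10 5 34 ⟨2711953937, 3304720923⟩ ⟨193093567, 257423375⟩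
    ⟨8375186, 1073741824⟩ ⟨233149410, 284098781⟩ = true := by
  decide +kernel

def c22Q25_4 : P2.Par := ⟨⟨1393716887, 1566589322⟩, ⟨634581417, 765577921⟩, 375809638, 483183821, 4, 3, 0, 92341797, 0, 128849019⟩

theorem c22B25_0 : TA (713 / 2000) (37 / 100) ⟨2218146869, 2481598799⟩ :=
  ⟨by norm_num, by norm_num, le_tan_num (by norm_num) (by norm_num) (by norm_num) (by norm_num),
    tan_le_num (by norm_num) (by norm_num) (by norm_num) (by norm_num)⟩

theorem c22D25_0 : cert2 c22Q25_4 20 100 50 30 ⟨2218146869, 2481598799⟩ ⟨245568175, 301231446⟩ ⟨8375186, 1073741824⟩ = true := by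
  decide +kernel

def c22Q25_7 : P2.Par := ⟨⟨1393716887, 1566589322⟩, ⟨634581417, 765577921⟩, 375809638, 483183821, 7, 5, 0, 92341797, 0, 128849019⟩

theorem c22B25_1 : TA (37 / 100) (19 / 50) ⟨2481256305, 2712177144⟩ :=
  ⟨by norm_num, by norm_num, le_tan_num (by norm_num) (by norm_num) (by norm_num) (by norm_num),
    tan_le_num (by norm_num) (by norm_num) (by norm_num) (by norm_num)⟩

theorem c22D25_1 : cert2 c22Q25_7 20 100 50 30 ⟨2481256305, 2712177144⟩ ⟨228474466, 276420566⟩ ⟨8375186, 1073741824⟩ = true := by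
  decide +kernel

def c22Q25_3 : P2.Par := ⟨⟨1393716887, 1566589322⟩, ⟨634581417, 765577921⟩, 375809638, 483183821, 3, 2, 0, 92341797, 0, 128849019⟩

theorem c22B25_2 : TA (19 / 50) (2 / 5) ⟨2711953937, 3304720923⟩ :=
  ⟨by norm_num, by norm_num, le_tan_num (by norm_num) (by norm_num) (by norm_num) (by norm_num),
    tan_le_num (by norm_num) (by norm_num) (by norm_num) (by norm_num)⟩

theorem c22D25_2 : cert2 c22Q25_3 20 100 50 30 ⟨2711953937, 3304720923⟩ ⟨193093567, 257423375⟩ ⟨8375186, 1073741824⟩ = true := by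
  decide +kernel

/-- The box: `re w ∈ [1/10, 3/25]`, `tan² θ' ∈ [69/100, 757/1000]`, `tan² θ ∈ [7/20, 9/20]`, base `29/100`. -/
theorem c22_25 : Cert22 (29 / 100) (1 / 10) (3 / 25) (69 / 100) (757 / 1000) (7 / 20) (9 / 20) (47 / 125) (409 / 1000) (713 / 2000)
    (29125247 / 67108864) (386547057 / 1073741824) (-92341797 / 1073741824) (128849019 / 1073741824) where
  k0 := by norm_num
  k1 := by norm_num
  hw := by norm_num
  hw' := by norm_num
  P0 := ⟨(2218732653 / 1073741824), tan_le_num (by norm_num) (by norm_num) (by norm_num) (by norm_num), by norm_num⟩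
  ph := by
    intro θ θ' h0 w hθ0 hθ1 hθ' r0 r1 r2 hwl hwi t0 t1 u0 u1 hh k0 k1
    have mS : Mem (Real.tan θ' ^ 2) ⟨740881858, 812822561⟩ := ⟨le_trans (by norm_num)
      (mul_le_mul_of_nonneg_right t0 (by norm_num)), (mul_le_mul_of_nonneg_right t1
        (by norm_num)).trans (by norm_num)⟩
    have mZ : Mem (Real.sin (Real.pi * w.re)) (rng 309016 368126 1000000) :=
      Hz.w_mem_sin (x1 := (314159 / 1000000)) (x2 := (11781 / 31250)) (by norm_num) r0 r1 (by norm_num) (by norm_num)
        (by norm_num) (by norm_num) (by norm_num) (by norm_num) (by norm_num) (by norm_num)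
    obtain ⟨mr, mi⟩ := rect_of c22R25 mS mZ (by linarith) hθ' (by linarith) (by linarith) hwl
    have us0 : ((c22P25.slo : ℕ) : ℝ) / 1073741824 ≤ Real.tan θ ^ 2 :=
      le_trans (by norm_num [c22P25]) u0
    have us1 : Real.tan θ ^ 2 ≤ ((c22P25.shi : ℕ) : ℝ) / 1073741824 :=
      u1.trans (by norm_num [c22P25])
    have hk0 : ((c22P25.klo : ℕ) : ℝ) / 1073741824 * Real.tan θ ^ 2 ≤
        Real.sinh (Real.pi * h0) ^ 2 :=
      le_trans (mul_le_mul_of_nonneg_right (by norm_num [c22P25]) (sq_nonneg _)) k0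
    have hk1 : Real.sinh (Real.pi * h0) ^ 2 ≤
        ((c22P25.khi : ℕ) : ℝ) / 1073741824 * Real.tan θ ^ 2 :=
      k1.trans (mul_le_mul_of_nonneg_right (by norm_num [c22P25]) (sq_nonneg _))
    have v0 : 0 ≤ ((starRingEnd ℂ) w).re := by rw [conj_re]; linarith
    have v1 : ((starRingEnd ℂ) w).re < 1 / 2 := by rw [conj_re]; linarith
    have vi : ((starRingEnd ℂ) w).im ≤ 0 := by rw [conj_im]; linarith
    refine ⟨?_, ?_, ?_, ?_, ?_, ?_⟩
    · exact (Ph1.glue (Ph1.of_cert c22C25_0 c22A25_0 hθ0 hθ1 us0 us1 hh hk0 hk1 mr mi)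
        (Ph1.glue (Ph1.of_cert c22C25_1 c22A25_1 hθ0 hθ1 us0 us1 hh hk0 hk1 mr mi)
        (Ph1.of_cert c22C25_2 c22A25_2 hθ0 hθ1 us0 us1 hh hk0 hk1 mr mi))).mono
        (by norm_num) (by norm_num) (by norm_num) (by norm_num) (by norm_num)
    · exact (Ph1.of_cert c22C25_3 c22A25_3 hθ0 hθ1 us0 us1 hh hk0 hk1 mr mi).mono
        (by norm_num) (by norm_num) (by norm_num) (by norm_num) (by norm_num)
    · exact (Ph1.of_cert c22C25_4 c22A25_4 hθ0 hθ1 us0 us1 hh hk0 hk1 mr mi).mono
        (by norm_num) (by norm_num) (by norm_num) (by norm_num) (by norm_num)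
    · exact (Ph2.of_cert c22D25_0 c22B25_0 hθ0 hθ1 (by simpa [c22Q25_4, c22P25] using us0)
        (by simpa [c22Q25_4, c22P25] using us1) v0 v1 vi (by simpa [c22Q25_4, c22P25] using mr)
        (by simpa [c22Q25_4, c22P25] using mi)).mono
        (by norm_num) (by norm_num) (by norm_num [c22Q25_4]) (by norm_num [c22Q25_4])
        (by norm_num [c22Q25_4])
    · exact (Ph2.of_cert c22D25_1 c22B25_1 hθ0 hθ1 (by simpa [c22Q25_7, c22P25] using us0)
        (by simpa [c22Q25_7, c22P25] using us1) v0 v1 vi (by simpa [c22Q25_7, c22P25] using mr)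
        (by simpa [c22Q25_7, c22P25] using mi)).mono
        (by norm_num) (by norm_num) (by norm_num [c22Q25_7]) (by norm_num [c22Q25_7])
        (by norm_num [c22Q25_7])
    · intro _; exact (Ph2.of_cert c22D25_2 c22B25_2 hθ0 hθ1 (by simpa [c22Q25_3, c22P25] using us0)
        (by simpa [c22Q25_3, c22P25] using us1) v0 v1 vi (by simpa [c22Q25_3, c22P25] using mr)
        (by simpa [c22Q25_3, c22P25] using mi)).mono
        (by norm_num) (by norm_num) (by norm_num [c22Q25_3]) (by norm_num [c22Q25_3])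
        (by norm_num [c22Q25_3])

end Pool.Agent.S3.T2
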