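import Pool.Agent.S3.Hz.Main
import Pool.Agent.S3.W3.Cert
import Pool.Agent.S3.W3.Glue
import Pool.Agent.S3.W3.Rect

/-!
# Two vertices with two half twists: box 27 (generated)
-/

set_option autoImplicit false

namespace Pool.Agent.S3.T2

open Complex Pool.Agent.S3.NI

def c22P27 : P1.Par := ⟨⟨1040455827, 1359357150⟩, ⟨570156908, 773094114⟩, 268435456, 740881859, 101199093, 170940773⟩

theorem c22R27 : certR ⟨1040455827, 1359357150⟩ ⟨570156908, 773094114⟩ 1 1 24 ⟨526133493, 681826059⟩ (rng 368124 481757 1000000) = true := by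
  decide +kernel

theorem c22A27_0 : TA (59 / 200) (1481 / 5000) ⟨1429630026, 1445258022⟩ :=
  ⟨by norm_num, by norm_num, le_tan_num (by norm_num) (by norm_num) (by norm_num) (by norm_num),
    tan_le_num (by norm_num) (by norm_num) (by norm_num) (by norm_num)⟩

theorem c22C27_0 : cert1 c22P27 4 3 487478788 493921239 4 15 10 5 34 ⟨1429630026, 1445258022⟩ ⟨306822462, 479307058⟩
    ⟨8375186, 1073741824⟩ ⟨162911266, 337804496⟩ = true := by
  decide +kernel

theorem c22A27_1 : TA (1481 / 5000) (1487 / 5000) ⟨1440936217, 1456529007⟩ :=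
  ⟨by norm_num, by norm_num, le_tan_num (by norm_num) (by norm_num) (by norm_num) (by norm_num),
    tan_le_num (by norm_num) (by norm_num) (by norm_num) (by norm_num)⟩

theorem c22C27_1 : cert1 c22P27 4 3 487478788 493921239 4 15 10 5 34 ⟨1440936217, 1456529007⟩ ⟨305410854, 477370598⟩
    ⟨8375186, 1073741824⟩ ⟨162911266, 337804496⟩ = true := by
  decide +kernel

theorem c22A27_2 : TA (1487 / 5000) (2997 / 10000) ⟨1452356334, 1478470547⟩ :=
  ⟨by norm_num, by norm_num, le_tan_num (by norm_num) (by norm_num) (by norm_num) (by norm_num),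
    tan_le_num (by norm_num) (by norm_num) (by norm_num) (by norm_num)⟩

theorem c22C27_2 : cert1 c22P27 4 3 487478788 493921239 4 15 10 5 34 ⟨1452356334, 1478470547⟩ ⟨302687403, 475423054⟩
    ⟨8375186, 1073741824⟩ ⟨162911266, 337804496⟩ = true := by
  decide +kernel

theorem c22A27_3 : TA (2997 / 10000) (151 / 500) ⟨1474571122, 1500869743⟩ :=
  ⟨by norm_num, by norm_num, le_tan_num (by norm_num) (by norm_num) (by norm_num) (by norm_num),
    tan_le_num (by norm_num) (by norm_num) (by norm_num) (by norm_num)⟩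

theorem c22C27_3 : cert1 c22P27 4 3 487478788 493921239 4 15 10 5 34 ⟨1474571122, 1500869743⟩ ⟨299940628, 471659181⟩
    ⟨8375186, 1073741824⟩ ⟨162911266, 337804496⟩ = true := by
  decide +kernel

theorem c22A27_4 : TA (151 / 500) (761 / 2500) ⟨1497227730, 1524747358⟩ :=
  ⟨by norm_num, by norm_num, le_tan_num (by norm_num) (by norm_num) (by norm_num) (by norm_num),
    tan_le_num (by norm_num) (by norm_num) (by norm_num) (by norm_num)⟩

theorem c22C27_4 : cert1 c22P27 4 3 487478788 493921239 4 15 10 5 34 ⟨1497227730, 1524747358⟩ ⟨297049768, 467854304⟩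
    ⟨8375186, 1073741824⟩ ⟨162911266, 337804496⟩ = true := by
  decide +kernel

theorem c22A27_5 : TA (761 / 2500) (3091 / 10000) ⟨1521357938, 1573070546⟩ :=
  ⟨by norm_num, by norm_num, le_tan_num (by norm_num) (by norm_num) (by norm_num) (by norm_num),
    tan_le_num (by norm_num) (by norm_num) (by norm_num) (by norm_num)⟩

theorem c22C27_5 : cert1 c22P27 4 3 487478788 493921239 4 15 10 5 34 ⟨1521357938, 1573070546⟩ ⟨291316364, 463840092⟩
    ⟨8375186, 1073741824⟩ ⟨162911266, 337804496⟩ = true := by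
  decide +kernel

theorem c22A27_6 : TA (3091 / 10000) (1569 / 5000) ⟨1570131713, 1623588987⟩ :=
  ⟨by norm_num, by norm_num, le_tan_num (by norm_num) (by norm_num) (by norm_num) (by norm_num),
    tan_le_num (by norm_num) (by norm_num) (by norm_num) (by norm_num)⟩

theorem c22C27_6 : cert1 c22P27 4 3 487478788 493921239 4 15 10 5 34 ⟨1570131713, 1623588987⟩ ⟨285488819, 455848337⟩
    ⟨8375186, 1073741824⟩ ⟨162911266, 337804496⟩ = true := by
  decide +kernel

theorem c22A27_7 : TA (1569 / 5000) (202 / 625) ⟨1621047465, 1731890147⟩ :=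
  ⟨by norm_num, by norm_num, le_tan_num (by norm_num) (by norm_num) (by norm_num) (by norm_num),
    tan_le_num (by norm_num) (by norm_num) (by norm_num) (by norm_num)⟩

theorem c22C27_7 : cert1 c22P27 4 3 487478788 493921239 4 15 10 5 34 ⟨1621047465, 1731890147⟩ ⟨273557825, 447682644⟩
    ⟨8375186, 1073741824⟩ ⟨162911266, 337804496⟩ = true := by
  decide +kernel

theorem c22A27_8 : TA (202 / 625) (133 / 400) ⟨1730005234, 1849871973⟩ :=
  ⟨by norm_num, by norm_num, le_tan_num (by norm_num) (by norm_num) (by norm_num) (by norm_num),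
    tan_le_num (by norm_num) (by norm_num) (by norm_num) (by norm_num)⟩

theorem c22C27_8 : cert1 c22P27 4 3 487478788 493921239 4 15 10 5 34 ⟨1730005234, 1849871973⟩ ⟨261402449, 430825339⟩
    ⟨8375186, 1073741824⟩ ⟨162911266, 337804496⟩ = true := by
  decide +kernel

theorem c22A27_9 : TA (133 / 400) (1709 / 5000) ⟨1848486399, 1980506246⟩ :=
  ⟨by norm_num, by norm_num, le_tan_num (by norm_num) (by norm_num) (by norm_num) (by norm_num),
    tan_le_num (by norm_num) (by norm_num) (by norm_num) (by norm_num)⟩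

theorem c22C27_9 : cert1 c22P27 4 3 487478788 493921239 4 15 10 5 34 ⟨1848486399, 1980506246⟩ ⟨248910547, 413452564⟩
    ⟨8375186, 1073741824⟩ ⟨162911266, 337804496⟩ = true := by
  decide +kernel

theorem c22A27_10 : TA (1709 / 5000) (439 / 1250) ⟨1979501369, 2127799144⟩ :=
  ⟨by norm_num, by norm_num, le_tan_num (by norm_num) (by norm_num) (by norm_num) (by norm_num),
    tan_le_num (by norm_num) (by norm_num) (by norm_num) (by norm_num)⟩

theorem c22C27_10 : cert1 c22P27 4 3 487478788 493921239 4 15 10 5 34 ⟨1979501369, 2127799144⟩ ⟨235955745, 395386022⟩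
    ⟨8375186, 1073741824⟩ ⟨162911266, 337804496⟩ = true := by
  decide +kernel

theorem c22A27_11 : TA (439 / 1250) (37 / 100) ⟨2127084042, 2481598799⟩ :=
  ⟨by norm_num, by norm_num, le_tan_num (by norm_num) (by norm_num) (by norm_num) (by norm_num),
    tan_le_num (by norm_num) (by norm_num) (by norm_num) (by norm_num)⟩

theorem c22C27_11 : cert1 c22P27 4 3 487478788 493921239 4 15 10 5 34 ⟨2127084042, 2481598799⟩ ⟨209111384, 376421167⟩
    ⟨8375186, 1073741824⟩ ⟨162911266, 337804496⟩ = true := by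
  decide +kernel

theorem c22A27_12 : TA (37 / 100) (19 / 50) ⟨2481256305, 2712177144⟩ :=
  ⟨by norm_num, by norm_num, le_tan_num (by norm_num) (by norm_num) (by norm_num) (by norm_num),
    tan_le_num (by norm_num) (by norm_num) (by norm_num) (by norm_num)⟩

theorem c22C27_12 : cert1 c22P27 7 5 487478788 493921239 4 15 10 5 34 ⟨2481256305, 2712177144⟩ ⟨194357385, 336392183⟩
    ⟨8375186, 1073741824⟩ ⟨162911266, 337804496⟩ = true := by
  decide +kernel

theorem c22A27_13 : TA (19 / 50) (2 / 5) ⟨2711953937, 3304720923⟩ :=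
  ⟨by norm_num, by norm_num, le_tan_num (by norm_num) (by norm_num) (by norm_num) (by norm_num),
    tan_le_num (by norm_num) (by norm_num) (by norm_num) (by norm_num)⟩

theorem c22C27_13 : cert1 c22P27 3 2 487478788 493921239 4 15 10 5 34 ⟨2711953937, 3304720923⟩ ⟨163953064, 313985582⟩
    ⟨8375186, 1073741824⟩ ⟨162911266, 337804496⟩ = true := by
  decide +kernel

def c22Q27_4 : P2.Par := ⟨⟨1040455827, 1359357150⟩, ⟨570156908, 773094114⟩, 268435456, 740881859, 4, 3, 22548578, 0, 0, 214748365⟩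

theorem c22B27_0 : TA (721 / 2000) (37 / 100) ⟨2291127886, 2481598799⟩ :=
  ⟨by norm_num, by norm_num, le_tan_num (by norm_num) (by norm_num) (by norm_num) (by norm_num),
    tan_le_num (by norm_num) (by norm_num) (by norm_num) (by norm_num)⟩

theorem c22D27_0 : cert2 c22Q27_4 20 100 50 30 ⟨2291127886, 2481598799⟩ ⟨209111384, 356966355⟩ ⟨8375186, 1073741824⟩ = true := by
  decide +kernel

def c22Q27_7 : P2.Par := ⟨⟨1040455827, 1359357150⟩, ⟨570156908, 773094114⟩, 268435456, 740881859, 7, 5, 22548578, 0, 0, 214748365⟩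

theorem c22B27_1 : TA (37 / 100) (19 / 50) ⟨2481256305, 2712177144⟩ :=
  ⟨by norm_num, by norm_num, le_tan_num (by norm_num) (by norm_num) (by norm_num) (by norm_num),
    tan_le_num (by norm_num) (by norm_num) (by norm_num) (by norm_num)⟩

theorem c22D27_1 : cert2 c22Q27_7 20 100 50 30 ⟨2481256305, 2712177144⟩ ⟨194357385, 336392183⟩ ⟨8375186, 1073741824⟩ = true := by
  decide +kernel

def c22Q27_3 : P2.Par := ⟨⟨1040455827, 1359357150⟩, ⟨570156908, 773094114⟩, 268435456, 740881859, 3, 2, 22548578, 0, 0, 214748365⟩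

theorem c22B27_2 : TA (19 / 50) (39 / 100) ⟨2711953937, 2982569043⟩ :=
  ⟨by norm_num, by norm_num, le_tan_num (by norm_num) (by norm_num) (by norm_num) (by norm_num),
    tan_le_num (by norm_num) (by norm_num) (by norm_num) (by norm_num)⟩

theorem c22D27_2 : cert2 c22Q27_3 20 100 50 30 ⟨2711953937, 2982569043⟩ ⟨179297905, 313985582⟩ ⟨8375186, 1073741824⟩ = true := by
  decide +kernel

theorem c22B27_3 : TA (39 / 100) (2 / 5) ⟨2982428000, 3304720923⟩ :=
  ⟨by norm_num, by norm_num, le_tan_num (by norm_num) (by norm_num) (by norm_num) (by norm_num),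
    tan_le_num (by norm_num) (by norm_num) (by norm_num) (by norm_num)⟩

theorem c22D27_3 : cert2 c22Q27_3 20 100 50 30 ⟨2982428000, 3304720923⟩ ⟨163953064, 290832721⟩ ⟨8375186, 1073741824⟩ = true := by
  decide +kernel

/-- The box: `re w ∈ [3/25, 4/25]`, `tan² θ' ∈ [49/100, 127/200]`, `tan² θ ∈ [1/4, 69/100]`, base `59/200`. -/
theorem c22_27 : Cert22 (59 / 200) (3 / 25) (4 / 25) (49 / 100) (127 / 200) (1 / 4) (69 / 100) (307 / 1000) (399 / 1000) (721 / 2000)
    (121869697 / 268435456) (493921239 / 1073741824) (11274289 / 536870912) (214748365 / 1073741824) where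
  k0 := by norm_num
  k1 := by norm_num
  hw := by norm_num
  hw' := by norm_num
  P0 := ⟨(2291629789 / 1073741824), tan_le_num (by norm_num) (by norm_num) (by norm_num) (by norm_num), by norm_num⟩
  ph := by
    intro θ θ' h0 w hθ0 hθ1 hθ' r0 r1 r2 hwl hwi t0 t1 u0 u1 hh k0 k1
    have mS : Mem (Real.tan θ' ^ 2) ⟨526133493, 681826059⟩ := ⟨le_trans (by norm_num)
      (mul_le_mul_of_nonneg_right t0 (by norm_num)), (mul_le_mul_of_nonneg_right t1
        (by norm_num)).trans (by norm_num)⟩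
    have mZ : Mem (Real.sin (Real.pi * w.re)) (rng 368124 481757 1000000) :=
      Hz.w_mem_sin (x1 := (942477 / 2500000)) (x2 := (7854 / 15625)) (by norm_num) r0 r1 (by norm_num) (by norm_num)
        (by norm_num) (by norm_num) (by norm_num) (by norm_num) (by norm_num) (by norm_num)
    obtain ⟨mr, mi⟩ := rect_of c22R27 mS mZ (by linarith) hθ' (by linarith) (by linarith) hwl
    have us0 : ((c22P27.slo : ℕ) : ℝ) / 1073741824 ≤ Real.tan θ ^ 2 :=
      le_trans (by norm_num [c22P27]) u0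
    have us1 : Real.tan θ ^ 2 ≤ ((c22P27.shi : ℕ) : ℝ) / 1073741824 :=
      u1.trans (by norm_num [c22P27])
    have hk0 : ((c22P27.klo : ℕ) : ℝ) / 1073741824 * Real.tan θ ^ 2 ≤
        Real.sinh (Real.pi * h0) ^ 2 :=
      le_trans (mul_le_mul_of_nonneg_right (by norm_num [c22P27]) (sq_nonneg _)) k0
    have hk1 : Real.sinh (Real.pi * h0) ^ 2 ≤
        ((c22P27.khi : ℕ) : ℝ) / 1073741824 * Real.tan θ ^ 2 :=
      k1.trans (mul_le_mul_of_nonneg_right (by norm_num [c22P27]) (sq_nonneg _))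
    have v0 : 0 ≤ ((starRingEnd ℂ) w).re := by rw [conj_re]; linarith
    have v1 : ((starRingEnd ℂ) w).re < 1 / 2 := by rw [conj_re]; linarith
    have vi : ((starRingEnd ℂ) w).im ≤ 0 := by rw [conj_im]; linarith
    refine ⟨?_, ?_, ?_, ?_, ?_, ?_⟩
    · exact (Ph1.glue (Ph1.of_cert c22C27_0 c22A27_0 hθ0 hθ1 us0 us1 hh hk0 hk1 mr mi)
        (Ph1.glue (Ph1.of_cert c22C27_1 c22A27_1 hθ0 hθ1 us0 us1 hh hk0 hk1 mr mi)
        (Ph1.glue (Ph1.of_cert c22C27_2 c22A27_2 hθ0 hθ1 us0 us1 hh hk0 hk1 mr mi)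
        (Ph1.glue (Ph1.of_cert c22C27_3 c22A27_3 hθ0 hθ1 us0 us1 hh hk0 hk1 mr mi)
        (Ph1.glue (Ph1.of_cert c22C27_4 c22A27_4 hθ0 hθ1 us0 us1 hh hk0 hk1 mr mi)
        (Ph1.glue (Ph1.of_cert c22C27_5 c22A27_5 hθ0 hθ1 us0 us1 hh hk0 hk1 mr mi)
        (Ph1.glue (Ph1.of_cert c22C27_6 c22A27_6 hθ0 hθ1 us0 us1 hh hk0 hk1 mr mi)
        (Ph1.glue (Ph1.of_cert c22C27_7 c22A27_7 hθ0 hθ1 us0 us1 hh hk0 hk1 mr mi)
        (Ph1.glue (Ph1.of_cert c22C27_8 c22A27_8 hθ0 hθ1 us0 us1 hh hk0 hk1 mr mi)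
        (Ph1.glue (Ph1.of_cert c22C27_9 c22A27_9 hθ0 hθ1 us0 us1 hh hk0 hk1 mr mi)
        (Ph1.glue (Ph1.of_cert c22C27_10 c22A27_10 hθ0 hθ1 us0 us1 hh hk0 hk1 mr mi)
        (Ph1.of_cert c22C27_11 c22A27_11 hθ0 hθ1 us0 us1 hh hk0 hk1 mr mi)))))))))))).mono
        (by norm_num) (by norm_num) (by norm_num) (by norm_num) (by norm_num)
    · exact (Ph1.of_cert c22C27_12 c22A27_12 hθ0 hθ1 us0 us1 hh hk0 hk1 mr mi).mono
        (by norm_num) (by norm_num) (by norm_num) (by norm_num) (by norm_num)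
    · exact (Ph1.of_cert c22C27_13 c22A27_13 hθ0 hθ1 us0 us1 hh hk0 hk1 mr mi).mono
        (by norm_num) (by norm_num) (by norm_num) (by norm_num) (by norm_num)
    · exact (Ph2.of_cert c22D27_0 c22B27_0 hθ0 hθ1 (by simpa [c22Q27_4, c22P27] using us0)
        (by simpa [c22Q27_4, c22P27] using us1) v0 v1 vi (by simpa [c22Q27_4, c22P27] using mr)
        (by simpa [c22Q27_4, c22P27] using mi)).mono
        (by norm_num) (by norm_num) (by norm_num [c22Q27_4]) (by norm_num [c22Q27_4])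
        (by norm_num [c22Q27_4])
    · exact (Ph2.of_cert c22D27_1 c22B27_1 hθ0 hθ1 (by simpa [c22Q27_7, c22P27] using us0)
        (by simpa [c22Q27_7, c22P27] using us1) v0 v1 vi (by simpa [c22Q27_7, c22P27] using mr)
        (by simpa [c22Q27_7, c22P27] using mi)).mono
        (by norm_num) (by norm_num) (by norm_num [c22Q27_7]) (by norm_num [c22Q27_7])
        (by norm_num [c22Q27_7])
    · intro _; exact (Ph2.glue (Ph2.of_cert c22D27_2 c22B27_2 hθ0 hθ1 (by simpa [c22Q27_3, c22P27] using us0)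
        (by simpa [c22Q27_3, c22P27] using us1) v0 v1 vi (by simpa [c22Q27_3, c22P27] using mr)
        (by simpa [c22Q27_3, c22P27] using mi))
        (Ph2.of_cert c22D27_3 c22B27_3 hθ0 hθ1 (by simpa [c22Q27_3, c22P27] using us0)
        (by simpa [c22Q27_3, c22P27] using us1) v0 v1 vi (by simpa [c22Q27_3, c22P27] using mr)
        (by simpa [c22Q27_3, c22P27] using mi))).mono
        (by norm_num) (by norm_num) (by norm_num [c22Q27_3]) (by norm_num [c22Q27_3])
        (by norm_num [c22Q27_3])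

end Pool.Agent.S3.T2
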