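import Pool.Agent.S3.Hz.Main
import Pool.Agent.S3.W3.Cert
import Pool.Agent.S3.W3.Glue
import Pool.Agent.S3.W3.Rect

/-!
# Two vertices with two half twists: box 28 (generated)
-/

set_option autoImplicit false

namespace Pool.Agent.S3.T2

open Complex Pool.Agent.S3.NI

def c22P28 : P1.Par := ⟨⟨1233729355, 1395864372⟩, ⟨676457349, 778462823⟩, 268435456, 450971567, 127802120, 164995464⟩

theorem c22R28 : certR ⟨1233729355, 1395864372⟩ ⟨676457349, 778462823⟩ 1 1 24 ⟨681826058, 740881859⟩ (rng 368124 425781 1000000) = true := by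
  decide +kernel

theorem c22A28_0 : TA (59 / 200) (761 / 2500) ⟨1429630026, 1524747358⟩ :=
  ⟨by norm_num, by norm_num, le_tan_num (by norm_num) (by norm_num) (by norm_num) (by norm_num),
    tan_le_num (by norm_num) (by norm_num) (by norm_num) (by norm_num)⟩

theorem c22C28_0 : cert1 c22P28 4 3 353261060 0 4 15 10 5 34 ⟨1429630026, 1524747358⟩ ⟨297049768, 389441326⟩
    ⟨8375186, 1073741824⟩ ⟨182524744, 264380744⟩ = true := by
  decide +kernel

theorem c22A28_1 : TA (761 / 2500) (1569 / 5000) ⟨1521357938, 1623588987⟩ :=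
  ⟨by norm_num, by norm_num, le_tan_num (by norm_num) (by norm_num) (by norm_num) (by norm_num),
    tan_le_num (by norm_num) (by norm_num) (by norm_num) (by norm_num)⟩

theorem c22C28_1 : cert1 c22P28 4 3 353261060 0 4 15 10 5 34 ⟨1521357938, 1623588987⟩ ⟨285488819, 375866468⟩
    ⟨8375186, 1073741824⟩ ⟨182524744, 264380744⟩ = true := by
  decide +kernel

theorem c22A28_2 : TA (1569 / 5000) (202 / 625) ⟨1621047465, 1731890147⟩ :=
  ⟨by norm_num, by norm_num, le_tan_num (by norm_num) (by norm_num) (by norm_num) (by norm_num),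
    tan_le_num (by norm_num) (by norm_num) (by norm_num) (by norm_num)⟩

theorem c22C28_2 : cert1 c22P28 4 3 353261060 0 4 15 10 5 34 ⟨1621047465, 1731890147⟩ ⟨273557825, 361799322⟩
    ⟨8375186, 1073741824⟩ ⟨182524744, 264380744⟩ = true := by
  decide +kernel

theorem c22A28_3 : TA (202 / 625) (133 / 400) ⟨1730005234, 1849871973⟩ :=
  ⟨by norm_num, by norm_num, le_tan_num (by norm_num) (by norm_num) (by norm_num) (by norm_num),
    tan_le_num (by norm_num) (by norm_num) (by norm_num) (by norm_num)⟩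

theorem c22C28_3 : cert1 c22P28 4 3 353261060 0 4 15 10 5 34 ⟨1730005234, 1849871973⟩ ⟨261402449, 347240813⟩
    ⟨8375186, 1073741824⟩ ⟨182524744, 264380744⟩ = true := by
  decide +kernel

theorem c22A28_4 : TA (133 / 400) (439 / 1250) ⟨1848486399, 2127799144⟩ :=
  ⟨by norm_num, by norm_num, le_tan_num (by norm_num) (by norm_num) (by norm_num) (by norm_num),
    tan_le_num (by norm_num) (by norm_num) (by norm_num) (by norm_num)⟩

theorem c22C28_4 : cert1 c22P28 4 3 353261060 0 4 15 10 5 34 ⟨1848486399, 2127799144⟩ ⟨235955745, 332356822⟩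
    ⟨8375186, 1073741824⟩ ⟨182524744, 264380744⟩ = true := by
  decide +kernel

theorem c22A28_5 : TA (439 / 1250) (37 / 100) ⟨2127084042, 2481598799⟩ :=
  ⟨by norm_num, by norm_num, le_tan_num (by norm_num) (by norm_num) (by norm_num) (by norm_num),
    tan_le_num (by norm_num) (by norm_num) (by norm_num) (by norm_num)⟩

theorem c22C28_5 : cert1 c22P28 4 3 353261060 0 4 15 10 5 34 ⟨2127084042, 2481598799⟩ ⟨209111384, 301006865⟩
    ⟨8375186, 1073741824⟩ ⟨182524744, 264380744⟩ = true := by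
  decide +kernel

theorem c22A28_6 : TA (37 / 100) (19 / 50) ⟨2481256305, 2712177144⟩ :=
  ⟨by norm_num, by norm_num, le_tan_num (by norm_num) (by norm_num) (by norm_num) (by norm_num),
    tan_le_num (by norm_num) (by norm_num) (by norm_num) (by norm_num)⟩

theorem c22C28_6 : cert1 c22P28 7 5 353261060 0 4 15 10 5 34 ⟨2481256305, 2712177144⟩ ⟨194357385, 267639541⟩
    ⟨8375186, 1073741824⟩ ⟨182524744, 264380744⟩ = true := by
  decide +kernel

theorem c22A28_7 : TA (19 / 50) (2 / 5) ⟨2711953937, 3304720923⟩ :=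
  ⟨by norm_num, by norm_num, le_tan_num (by norm_num) (by norm_num) (by norm_num) (by norm_num),
    tan_le_num (by norm_num) (by norm_num) (by norm_num) (by norm_num)⟩

theorem c22C28_7 : cert1 c22P28 3 2 353261060 0 4 15 10 5 34 ⟨2711953937, 3304720923⟩ ⟨163953064, 249172458⟩
    ⟨8375186, 1073741824⟩ ⟨182524744, 264380744⟩ = true := by
  decide +kernel

def c22Q28_4 : P2.Par := ⟨⟨1233729355, 1395864372⟩, ⟨676457349, 778462823⟩, 268435456, 450971567, 4, 3, 25769804, 0, 0, 257698038⟩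

theorem c22B28_0 : TA (363 / 1000) (37 / 100) ⟨2338760296, 2481598799⟩ :=
  ⟨by norm_num, by norm_num, le_tan_num (by norm_num) (by norm_num) (by norm_num) (by norm_num),
    tan_le_num (by norm_num) (by norm_num) (by norm_num) (by norm_num)⟩

theorem c22D28_0 : cert2 c22Q28_4 20 100 50 30 ⟨2338760296, 2481598799⟩ ⟨209111384, 280273999⟩ ⟨8375186, 1073741824⟩ = true := by
  decide +kernel

def c22Q28_7 : P2.Par := ⟨⟨1233729355, 1395864372⟩, ⟨676457349, 778462823⟩, 268435456, 450971567, 7, 5, 25769804, 0, 0, 257698038⟩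

theorem c22B28_1 : TA (37 / 100) (19 / 50) ⟨2481256305, 2712177144⟩ :=
  ⟨by norm_num, by norm_num, le_tan_num (by norm_num) (by norm_num) (by norm_num) (by norm_num),
    tan_le_num (by norm_num) (by norm_num) (by norm_num) (by norm_num)⟩

theorem c22D28_1 : cert2 c22Q28_7 20 100 50 30 ⟨2481256305, 2712177144⟩ ⟨194357385, 267639541⟩ ⟨8375186, 1073741824⟩ = true := by
  decide +kernel

def c22Q28_3 : P2.Par := ⟨⟨1233729355, 1395864372⟩, ⟨676457349, 778462823⟩, 268435456, 450971567, 3, 2, 25769804, 0, 0, 257698038⟩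

theorem c22B28_2 : TA (19 / 50) (2 / 5) ⟨2711953937, 3304720923⟩ :=
  ⟨by norm_num, by norm_num, le_tan_num (by norm_num) (by norm_num) (by norm_num) (by norm_num),
    tan_le_num (by norm_num) (by norm_num) (by norm_num) (by norm_num)⟩

theorem c22D28_2 : cert2 c22Q28_3 20 100 50 30 ⟨2711953937, 3304720923⟩ ⟨163953064, 249172458⟩ ⟨8375186, 1073741824⟩ = true := by
  decide +kernel

/-- The box: `re w ∈ [3/25, 7/50]`, `tan² θ' ∈ [127/200, 69/100]`, `tan² θ ∈ [1/4, 21/50]`, base `59/200`. -/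
theorem c22_28 : Cert22 (59 / 200) (3 / 25) (7 / 50) (127 / 200) (69 / 100) (1 / 4) (21 / 50) (69 / 200) (49 / 125) (363 / 1000)
    (88315265 / 268435456) (0 / 1) (6442451 / 268435456) (128849019 / 536870912) where
  k0 := by norm_num
  k1 := by norm_num
  hw := by norm_num
  hw' := by norm_num
  P0 := ⟨(2339215147 / 1073741824), tan_le_num (by norm_num) (by norm_num) (by norm_num) (by norm_num), by norm_num⟩
  ph := by
    intro θ θ' h0 w hθ0 hθ1 hθ' r0 r1 r2 hwl hwi t0 t1 u0 u1 hh k0 k1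
    have mS : Mem (Real.tan θ' ^ 2) ⟨681826058, 740881859⟩ := ⟨le_trans (by norm_num)
      (mul_le_mul_of_nonneg_right t0 (by norm_num)), (mul_le_mul_of_nonneg_right t1
        (by norm_num)).trans (by norm_num)⟩
    have mZ : Mem (Real.sin (Real.pi * w.re)) (rng 368124 425781 1000000) :=
      Hz.w_mem_sin (x1 := (942477 / 2500000)) (x2 := (27489 / 62500)) (by norm_num) r0 r1 (by norm_num) (by norm_num)
        (by norm_num) (by norm_num) (by norm_num) (by norm_num) (by norm_num) (by norm_num)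
    obtain ⟨mr, mi⟩ := rect_of c22R28 mS mZ (by linarith) hθ' (by linarith) (by linarith) hwl
    have us0 : ((c22P28.slo : ℕ) : ℝ) / 1073741824 ≤ Real.tan θ ^ 2 :=
      le_trans (by norm_num [c22P28]) u0
    have us1 : Real.tan θ ^ 2 ≤ ((c22P28.shi : ℕ) : ℝ) / 1073741824 :=
      u1.trans (by norm_num [c22P28])
    have hk0 : ((c22P28.klo : ℕ) : ℝ) / 1073741824 * Real.tan θ ^ 2 ≤
        Real.sinh (Real.pi * h0) ^ 2 :=
      le_trans (mul_le_mul_of_nonneg_right (by norm_num [c22P28]) (sq_nonneg _)) k0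
    have hk1 : Real.sinh (Real.pi * h0) ^ 2 ≤
        ((c22P28.khi : ℕ) : ℝ) / 1073741824 * Real.tan θ ^ 2 :=
      k1.trans (mul_le_mul_of_nonneg_right (by norm_num [c22P28]) (sq_nonneg _))
    have v0 : 0 ≤ ((starRingEnd ℂ) w).re := by rw [conj_re]; linarith
    have v1 : ((starRingEnd ℂ) w).re < 1 / 2 := by rw [conj_re]; linarith
    have vi : ((starRingEnd ℂ) w).im ≤ 0 := by rw [conj_im]; linarith
    refine ⟨?_, ?_, ?_, ?_, ?_, ?_⟩
    · exact (Ph1.glue (Ph1.of_cert c22C28_0 c22A28_0 hθ0 hθ1 us0 us1 hh hk0 hk1 mr mi)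
        (Ph1.glue (Ph1.of_cert c22C28_1 c22A28_1 hθ0 hθ1 us0 us1 hh hk0 hk1 mr mi)
        (Ph1.glue (Ph1.of_cert c22C28_2 c22A28_2 hθ0 hθ1 us0 us1 hh hk0 hk1 mr mi)
        (Ph1.glue (Ph1.of_cert c22C28_3 c22A28_3 hθ0 hθ1 us0 us1 hh hk0 hk1 mr mi)
        (Ph1.glue (Ph1.of_cert c22C28_4 c22A28_4 hθ0 hθ1 us0 us1 hh hk0 hk1 mr mi)
        (Ph1.of_cert c22C28_5 c22A28_5 hθ0 hθ1 us0 us1 hh hk0 hk1 mr mi)))))).mono
        (by norm_num) (by norm_num) (by norm_num) (by norm_num) (by norm_num)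
    · exact (Ph1.of_cert c22C28_6 c22A28_6 hθ0 hθ1 us0 us1 hh hk0 hk1 mr mi).mono
        (by norm_num) (by norm_num) (by norm_num) (by norm_num) (by norm_num)
    · exact (Ph1.of_cert c22C28_7 c22A28_7 hθ0 hθ1 us0 us1 hh hk0 hk1 mr mi).mono
        (by norm_num) (by norm_num) (by norm_num) (by norm_num) (by norm_num)
    · exact (Ph2.of_cert c22D28_0 c22B28_0 hθ0 hθ1 (by simpa [c22Q28_4, c22P28] using us0)
        (by simpa [c22Q28_4, c22P28] using us1) v0 v1 vi (by simpa [c22Q28_4, c22P28] using mr)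
        (by simpa [c22Q28_4, c22P28] using mi)).mono
        (by norm_num) (by norm_num) (by norm_num [c22Q28_4]) (by norm_num [c22Q28_4])
        (by norm_num [c22Q28_4])
    · exact (Ph2.of_cert c22D28_1 c22B28_1 hθ0 hθ1 (by simpa [c22Q28_7, c22P28] using us0)
        (by simpa [c22Q28_7, c22P28] using us1) v0 v1 vi (by simpa [c22Q28_7, c22P28] using mr)
        (by simpa [c22Q28_7, c22P28] using mi)).mono
        (by norm_num) (by norm_num) (by norm_num [c22Q28_7]) (by norm_num [c22Q28_7])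
        (by norm_num [c22Q28_7])
    · intro _; exact (Ph2.of_cert c22D28_2 c22B28_2 hθ0 hθ1 (by simpa [c22Q28_3, c22P28] using us0)
        (by simpa [c22Q28_3, c22P28] using us1) v0 v1 vi (by simpa [c22Q28_3, c22P28] using mr)
        (by simpa [c22Q28_3, c22P28] using mi)).mono
        (by norm_num) (by norm_num) (by norm_num [c22Q28_3]) (by norm_num [c22Q28_3])
        (by norm_num [c22Q28_3])

end Pool.Agent.S3.T2
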