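import Pool.Agent.S3.Hz.Main
import Pool.Agent.S3.W3.Cert
import Pool.Agent.S3.W3.Glue
import Pool.Agent.S3.W3.Rect

/-!
# Two vertices with two half twists: box 29 (generated)
-/

set_option autoImplicit false

namespace Pool.Agent.S3.T2

open Complex Pool.Agent.S3.NI

def c22P29 : P1.Par := ⟨⟨1233729355, 1395864372⟩, ⟨676457349, 778462823⟩, 450971566, 644245095, 143049254, 174385336⟩

theorem c22R29 : certR ⟨1233729355, 1395864372⟩ ⟨676457349, 778462823⟩ 1 1 24 ⟨681826058, 740881859⟩ (rng 368124 425781 1000000) = true := by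
  decide +kernel

theorem c22A29_0 : TA (59 / 200) (1569 / 5000) ⟨1429630026, 1623588987⟩ :=
  ⟨by norm_num, by norm_num, le_tan_num (by norm_num) (by norm_num) (by norm_num) (by norm_num),
    tan_le_num (by norm_num) (by norm_num) (by norm_num) (by norm_num)⟩

theorem c22C29_0 : cert1 c22P29 4 3 491773755 429496730 4 15 10 5 34 ⟨1429630026, 1623588987⟩ ⟨361450056, 452880266⟩
    ⟨8375186, 1073741824⟩ ⟨247169441, 319955132⟩ = true := by
  decide +kernel

theorem c22A29_1 : TA (1569 / 5000) (133 / 400) ⟨1621047465, 1849871973⟩ :=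
  ⟨by norm_num, by norm_num, le_tan_num (by norm_num) (by norm_num) (by norm_num) (by norm_num),
    tan_le_num (by norm_num) (by norm_num) (by norm_num) (by norm_num)⟩

theorem c22C29_1 : cert1 c22P29 4 3 491773755 429496730 4 15 10 5 34 ⟨1621047465, 1849871973⟩ ⟨332188459, 422281137⟩
    ⟨8375186, 1073741824⟩ ⟨247169441, 319955132⟩ = true := by
  decide +kernel

theorem c22A29_2 : TA (133 / 400) (37 / 100) ⟨1848486399, 2481598799⟩ :=
  ⟨by norm_num, by norm_num, le_tan_num (by norm_num) (by norm_num) (by norm_num) (by norm_num),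
    tan_le_num (by norm_num) (by norm_num) (by norm_num) (by norm_num)⟩

theorem c22C29_2 : cert1 c22P29 4 3 491773755 429496730 4 15 10 5 34 ⟨1848486399, 2481598799⟩ ⟨267610360, 389329603⟩
    ⟨8375186, 1073741824⟩ ⟨247169441, 319955132⟩ = true := by
  decide +kernel

theorem c22A29_3 : TA (37 / 100) (19 / 50) ⟨2481256305, 2712177144⟩ :=
  ⟨by norm_num, by norm_num, le_tan_num (by norm_num) (by norm_num) (by norm_num) (by norm_num),
    tan_le_num (by norm_num) (by norm_num) (by norm_num) (by norm_num)⟩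

theorem c22C29_3 : cert1 c22P29 7 5 491773755 429496730 4 15 10 5 34 ⟨2481256305, 2712177144⟩ ⟨249155683, 315714764⟩
    ⟨8375186, 1073741824⟩ ⟨247169441, 319955132⟩ = true := by
  decide +kernel

theorem c22A29_4 : TA (19 / 50) (2 / 5) ⟨2711953937, 3304720923⟩ :=
  ⟨by norm_num, by norm_num, le_tan_num (by norm_num) (by norm_num) (by norm_num) (by norm_num),
    tan_le_num (by norm_num) (by norm_num) (by norm_num) (by norm_num)⟩

theorem c22C29_4 : cert1 c22P29 3 2 491773755 429496730 4 15 10 5 34 ⟨2711953937, 3304720923⟩ ⟨210842646, 294439693⟩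
    ⟨8375186, 1073741824⟩ ⟨247169441, 319955132⟩ = true := by
  decide +kernel

def c22Q29_4 : P2.Par := ⟨⟨1233729355, 1395864372⟩, ⟨676457349, 778462823⟩, 450971566, 644245095, 4, 3, 0, 89120571, 0, 42949673⟩

theorem c22B29_0 : TA (359 / 1000) (37 / 100) ⟨2263307295, 2481598799⟩ :=
  ⟨by norm_num, by norm_num, le_tan_num (by norm_num) (by norm_num) (by norm_num) (by norm_num),
    tan_le_num (by norm_num) (by norm_num) (by norm_num) (by norm_num)⟩

theorem c22D29_0 : cert2 c22Q29_4 20 100 50 30 ⟨2263307295, 2481598799⟩ ⟨267610360, 338333622⟩ ⟨8375186, 1073741824⟩ = true := by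
  decide +kernel

def c22Q29_7 : P2.Par := ⟨⟨1233729355, 1395864372⟩, ⟨676457349, 778462823⟩, 450971566, 644245095, 7, 5, 0, 89120571, 0, 42949673⟩

theorem c22B29_1 : TA (37 / 100) (19 / 50) ⟨2481256305, 2712177144⟩ :=
  ⟨by norm_num, by norm_num, le_tan_num (by norm_num) (by norm_num) (by norm_num) (by norm_num),
    tan_le_num (by norm_num) (by norm_num) (by norm_num) (by norm_num)⟩

theorem c22D29_1 : cert2 c22Q29_7 20 100 50 30 ⟨2481256305, 2712177144⟩ ⟨249155683, 315714764⟩ ⟨8375186, 1073741824⟩ = true := by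
  decide +kernel

def c22Q29_3 : P2.Par := ⟨⟨1233729355, 1395864372⟩, ⟨676457349, 778462823⟩, 450971566, 644245095, 3, 2, 0, 89120571, 0, 42949673⟩

theorem c22B29_2 : TA (19 / 50) (2 / 5) ⟨2711953937, 3304720923⟩ :=
  ⟨by norm_num, by norm_num, le_tan_num (by norm_num) (by norm_num) (by norm_num) (by norm_num),
    tan_le_num (by norm_num) (by norm_num) (by norm_num) (by norm_num)⟩

theorem c22D29_2 : cert2 c22Q29_3 20 100 50 30 ⟨2711953937, 3304720923⟩ ⟨210842646, 294439693⟩ ⟨8375186, 1073741824⟩ = true := by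
  decide +kernel

/-- The box: `re w ∈ [3/25, 7/50]`, `tan² θ' ∈ [127/200, 69/100]`, `tan² θ ∈ [21/50, 3/5]`, base `59/200`. -/
theorem c22_29 : Cert22 (59 / 200) (3 / 25) (7 / 50) (127 / 200) (69 / 100) (21 / 50) (3 / 5) (73 / 200) (403 / 1000) (359 / 1000)
    (491773755 / 1073741824) (214748365 / 536870912) (-89120571 / 1073741824) (42949673 / 1073741824) where
  k0 := by norm_num
  k1 := by norm_num
  hw := by norm_num
  hw' := by norm_num
  P0 := ⟨(282979921 / 134217728), tan_le_num (by norm_num) (by norm_num) (by norm_num) (by norm_num), by norm_num⟩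
  ph := by
    intro θ θ' h0 w hθ0 hθ1 hθ' r0 r1 r2 hwl hwi t0 t1 u0 u1 hh k0 k1
    have mS : Mem (Real.tan θ' ^ 2) ⟨681826058, 740881859⟩ := ⟨le_trans (by norm_num)
      (mul_le_mul_of_nonneg_right t0 (by norm_num)), (mul_le_mul_of_nonneg_right t1
        (by norm_num)).trans (by norm_num)⟩
    have mZ : Mem (Real.sin (Real.pi * w.re)) (rng 368124 425781 1000000) :=
      Hz.w_mem_sin (x1 := (942477 / 2500000)) (x2 := (27489 / 62500)) (by norm_num) r0 r1 (by norm_num) (by norm_num)
        (by norm_num) (by norm_num) (by norm_num) (by norm_num) (by norm_num) (by norm_num)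
    obtain ⟨mr, mi⟩ := rect_of c22R29 mS mZ (by linarith) hθ' (by linarith) (by linarith) hwl
    have us0 : ((c22P29.slo : ℕ) : ℝ) / 1073741824 ≤ Real.tan θ ^ 2 :=
      le_trans (by norm_num [c22P29]) u0
    have us1 : Real.tan θ ^ 2 ≤ ((c22P29.shi : ℕ) : ℝ) / 1073741824 :=
      u1.trans (by norm_num [c22P29])
    have hk0 : ((c22P29.klo : ℕ) : ℝ) / 1073741824 * Real.tan θ ^ 2 ≤
        Real.sinh (Real.pi * h0) ^ 2 :=
      le_trans (mul_le_mul_of_nonneg_right (by norm_num [c22P29]) (sq_nonneg _)) k0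
    have hk1 : Real.sinh (Real.pi * h0) ^ 2 ≤
        ((c22P29.khi : ℕ) : ℝ) / 1073741824 * Real.tan θ ^ 2 :=
      k1.trans (mul_le_mul_of_nonneg_right (by norm_num [c22P29]) (sq_nonneg _))
    have v0 : 0 ≤ ((starRingEnd ℂ) w).re := by rw [conj_re]; linarith
    have v1 : ((starRingEnd ℂ) w).re < 1 / 2 := by rw [conj_re]; linarith
    have vi : ((starRingEnd ℂ) w).im ≤ 0 := by rw [conj_im]; linarith
    refine ⟨?_, ?_, ?_, ?_, ?_, ?_⟩
    · exact (Ph1.glue (Ph1.of_cert c22C29_0 c22A29_0 hθ0 hθ1 us0 us1 hh hk0 hk1 mr mi)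
        (Ph1.glue (Ph1.of_cert c22C29_1 c22A29_1 hθ0 hθ1 us0 us1 hh hk0 hk1 mr mi)
        (Ph1.of_cert c22C29_2 c22A29_2 hθ0 hθ1 us0 us1 hh hk0 hk1 mr mi))).mono
        (by norm_num) (by norm_num) (by norm_num) (by norm_num) (by norm_num)
    · exact (Ph1.of_cert c22C29_3 c22A29_3 hθ0 hθ1 us0 us1 hh hk0 hk1 mr mi).mono
        (by norm_num) (by norm_num) (by norm_num) (by norm_num) (by norm_num)
    · exact (Ph1.of_cert c22C29_4 c22A29_4 hθ0 hθ1 us0 us1 hh hk0 hk1 mr mi).mono
        (by norm_num) (by norm_num) (by norm_num) (by norm_num) (by norm_num)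
    · exact (Ph2.of_cert c22D29_0 c22B29_0 hθ0 hθ1 (by simpa [c22Q29_4, c22P29] using us0)
        (by simpa [c22Q29_4, c22P29] using us1) v0 v1 vi (by simpa [c22Q29_4, c22P29] using mr)
        (by simpa [c22Q29_4, c22P29] using mi)).mono
        (by norm_num) (by norm_num) (by norm_num [c22Q29_4]) (by norm_num [c22Q29_4])
        (by norm_num [c22Q29_4])
    · exact (Ph2.of_cert c22D29_1 c22B29_1 hθ0 hθ1 (by simpa [c22Q29_7, c22P29] using us0)
        (by simpa [c22Q29_7, c22P29] using us1) v0 v1 vi (by simpa [c22Q29_7, c22P29] using mr)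
        (by simpa [c22Q29_7, c22P29] using mi)).mono
        (by norm_num) (by norm_num) (by norm_num [c22Q29_7]) (by norm_num [c22Q29_7])
        (by norm_num [c22Q29_7])
    · intro _; exact (Ph2.of_cert c22D29_2 c22B29_2 hθ0 hθ1 (by simpa [c22Q29_3, c22P29] using us0)
        (by simpa [c22Q29_3, c22P29] using us1) v0 v1 vi (by simpa [c22Q29_3, c22P29] using mr)
        (by simpa [c22Q29_3, c22P29] using mi)).mono
        (by norm_num) (by norm_num) (by norm_num [c22Q29_3]) (by norm_num [c22Q29_3])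
        (by norm_num [c22Q29_3])

end Pool.Agent.S3.T2
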