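import Pool.Agent.S3.W3.Box
import Pool.Agent.S3.W3.C20
import Pool.Agent.S3.W3.C21
import Pool.Agent.S3.W3.C22
import Pool.Agent.S3.W3.C23
import Pool.Agent.S3.W3.C24
import Pool.Agent.S3.W3.C25
import Pool.Agent.S3.W3.C26
import Pool.Agent.S3.W3.C27
import Pool.Agent.S3.W3.C28
import Pool.Agent.S3.W3.C29
import Pool.Agent.S3.Hz.R22b_2
import Pool.Agent.S3.Hz.R22b_3

/-!
# Two vertices with two half twists: the boxes 20 to 29 (generated)
-/

set_option autoImplicit false

namespace Pool.Agent.S3.T2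

theorem bx22_20 : BoxOK (29 / 100) (2 / 25) (1 / 10) (69 / 100) (757 / 1000) (1 / 4) (7 / 20) 14 (63 / 1000) (3 / 50) (1 / 100) :=
  BoxOK.small c22_20 (KR.of fun H => Hz.h22b_20 H) (by norm_num) (by constructor <;> norm_num) (by norm_num)

theorem bx22_21 : BoxOK (29 / 100) (2 / 25) (1 / 10) (69 / 100) (757 / 1000) (7 / 20) (9 / 20) 14 (63 / 1000) (3 / 50) (1 / 100) :=
  BoxOK.small c22_21 (KR.of fun H => Hz.h22b_21 H) (by norm_num) (by constructor <;> norm_num) (by norm_num)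

theorem bx22_22 : BoxOK (29 / 100) (1 / 10) (3 / 25) (127 / 200) (69 / 100) (1 / 4) (21 / 50) 14 (63 / 1000) (3 / 50) (1 / 100) :=
  BoxOK.small c22_22 (KR.of fun H => Hz.h22b_22 H) (by norm_num) (by constructor <;> norm_num) (by norm_num)

theorem bx22_23 : BoxOK (29 / 100) (1 / 10) (3 / 25) (127 / 200) (69 / 100) (21 / 50) (3 / 5) 14 (63 / 1000) (3 / 50) (1 / 100) :=
  BoxOK.both c22_23 (KR.of fun H => Hz.h22b_23 H) (by norm_num)
    (by constructor <;> norm_num) (by constructor <;> norm_num)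

theorem bx22_24 : BoxOK (29 / 100) (1 / 10) (3 / 25) (69 / 100) (757 / 1000) (1 / 4) (7 / 20) 14 (63 / 1000) (3 / 50) (1 / 100) :=
  BoxOK.small c22_24 (KR.of fun H => Hz.h22b_24 H) (by norm_num) (by constructor <;> norm_num) (by norm_num)

theorem bx22_25 : BoxOK (29 / 100) (1 / 10) (3 / 25) (69 / 100) (757 / 1000) (7 / 20) (9 / 20) 14 (63 / 1000) (3 / 50) (1 / 100) :=
  BoxOK.small c22_25 (KR.of fun H => Hz.h22b_25 H) (by norm_num) (by constructor <;> norm_num) (by norm_num)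

theorem bx22_26 : BoxOK (59 / 200) (3 / 25) (4 / 25) (1 / 4) (49 / 100) (1 / 4) (757 / 1000) (82 / 5) (123 / 2000) (29 / 500) 0 :=
  BoxOK.both c22_26 (KR.of fun H => Hz.h22b_26 H) (by norm_num)
    (by constructor <;> norm_num) (by constructor <;> norm_num)

theorem bx22_27 : BoxOK (59 / 200) (3 / 25) (4 / 25) (49 / 100) (127 / 200) (1 / 4) (69 / 100) (82 / 5) (123 / 2000) (29 / 500) 0 :=
  BoxOK.both c22_27 (KR.of fun H => Hz.h22b_27 H) (by norm_num)
    (by constructor <;> norm_num) (by constructor <;> norm_num)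

theorem bx22_28 : BoxOK (59 / 200) (3 / 25) (7 / 50) (127 / 200) (69 / 100) (1 / 4) (21 / 50) (82 / 5) (123 / 2000) (29 / 500) 0 :=
  BoxOK.small c22_28 (KR.of fun H => Hz.h22b_28 H) (by norm_num) (by constructor <;> norm_num) (by norm_num)

theorem bx22_29 : BoxOK (59 / 200) (3 / 25) (7 / 50) (127 / 200) (69 / 100) (21 / 50) (3 / 5) (82 / 5) (123 / 2000) (29 / 500) 0 :=
  BoxOK.both c22_29 (KR.of fun H => Hz.h22b_29 H) (by norm_num)
    (by constructor <;> norm_num) (by constructor <;> norm_num)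

end Pool.Agent.S3.T2
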