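import Pool.Agent.S3.W3.Bx0
import Pool.Agent.S3.W3.Bx1
import Pool.Agent.S3.W3.Bx2

/-!
# Two vertices with two half twists: the bins of `re w`, 0 to 2 (generated)
-/

set_option autoImplicit false

namespace Pool.Agent.S3.T2

open Complex Set
open Pool.Agent.H25.RK (gdv)

theorem K22_ge_0 {x : ℝ} (h1 : 0 ≤ x) (h2 : x ≤ 1 / 25) : (81 / 10) ≤ K22 x := by
  unfold K22
  split_ifs <;> first | (exfalso; linarith) | norm_num

theorem K22_ge_1 {x : ℝ} (h1 : 1 / 25 < x) (h2 : x ≤ 2 / 25) : (56 / 5) ≤ K22 x := by
  unfold K22
  split_ifs <;> first | (exfalso; linarith) | norm_num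

theorem K22_ge_2 {x : ℝ} (h1 : 2 / 25 < x) (h2 : x ≤ 3 / 25) : 14 ≤ K22 x := by
  unfold K22
  split_ifs <;> first | (exfalso; linarith) | norm_num

section

variable {Φ : ℂ → ℂ → ℂ} {θ θ' xc xc' b b' : ℝ} {v w : ℂ}

theorem bin22_0 (E : E22 Φ θ θ' xc xc' b b') (hv : v ∈ G0 θ (2 / 5)) (hva : 29 / 100 ≤ v.re)
    (hwl : w.im = bl θ' w.re) (hw1 : 0 ≤ w.re) (hw2 : w.re ≤ 1 / 25) :
    FlP Φ θ θ' xc xc' b b' (2 / 5) (2 / 5) (mu b (2 : ℝ) (2 / 5)) (mu b' (2 : ℝ) (2 / 5)) v w := by
  have hw0 : 0 ≤ w.re := by linarith only [hw1]
  have t0 := E.S.t0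
  have t1 := E.S.t1
  have q0 := E.S'.t0
  have q1 := E.S'.t1
  have hX := E.S.x0
  have hR : R22 (29 / 100) w.re := ⟨by linarith only [hw2], Or.inl ⟨by linarith only [hw2], by norm_num⟩⟩
  have hN : w.re ≤ 1 / 5 ∨ 31 / 100 ≤ (29 / 100 : ℝ) := Or.inl (by linarith only [hw2])
  have hK := K22_ge_0 hw1 hw2
  rcases le_or_gt (Real.tan θ' ^ 2) (49 / 100) with hp2 | hp2
  · exact bx22_0.go E hK (by norm_num) (by norm_num) hX (by norm_num) (le_trans (by norm_num) (E.S'.p0 _ hw0 (by linarith only [hw2]))) hR hN
      (by linarith only [t0]) (by linarith only [t1]) (by linarith only [q0]) (by linarith only [hp2]) hw0 (by linarith only [hw0]) (by linarith only [hw2]) (by linarith only [hw2])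
      hwl hv hva
  · have m1 := E.m1 hp2
    rcases le_or_gt (Real.tan θ' ^ 2) (127 / 200) with hp4 | hp4
    · exact bx22_1.go E hK (by norm_num) (by norm_num) hX (by norm_num) (le_trans (by norm_num) (E.S'.p0 _ hw0 (by linarith only [hw2]))) hR hN
        (by linarith only [t0]) (by linarith only [m1]) (by linarith only [hp2]) (by linarith only [hp4]) hw0 (by linarith only [hw0]) (by linarith only [hw2]) (by linarith only [hw2])
        hwl hv hva
    · have m2 := E.m2 hp4
      rcases le_or_gt (Real.tan θ ^ 2) (21 / 50) with hs6 | hs6
      · exact bx22_2.go E hK (by norm_num) (by norm_num) hX (by norm_num) (le_trans (by norm_num) (E.S'.p0' _ hw0 (by linarith only [hw2]) (by linarith only [hp4]))) hR hN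
          (by linarith only [t0]) (by linarith only [hs6]) (by linarith only [hp4]) (by linarith only [q1]) hw0 (by linarith only [hw0]) (by linarith only [hw2]) (by linarith only [hw2])
          hwl hv hva
      · exact bx22_3.go E hK (by norm_num) (by norm_num) hX (by norm_num) (le_trans (by norm_num) (E.S'.p0' _ hw0 (by linarith only [hw2]) (by linarith only [hp4]))) hR hN
          (by linarith only [hs6]) (by linarith only [m2]) (by linarith only [hp4]) (by linarith only [q1]) hw0 (by linarith only [hw0]) (by linarith only [hw2]) (by linarith only [hw2])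
          hwl hv hva

theorem bin22_1 (E : E22 Φ θ θ' xc xc' b b') (hv : v ∈ G0 θ (2 / 5)) (hva : 29 / 100 ≤ v.re)
    (hwl : w.im = bl θ' w.re) (hw1 : 1 / 25 < w.re) (hw2 : w.re ≤ 2 / 25) :
    FlP Φ θ θ' xc xc' b b' (2 / 5) (2 / 5) (mu b (2 : ℝ) (2 / 5)) (mu b' (2 : ℝ) (2 / 5)) v w := by
  have hw0 : 0 ≤ w.re := by linarith only [hw1]
  have t0 := E.S.t0
  have t1 := E.S.t1
  have q0 := E.S'.t0
  have q1 := E.S'.t1
  have hX := E.S.x0
  have hR : R22 (29 / 100) w.re := ⟨by linarith only [hw2], Or.inl ⟨by linarith only [hw2], by norm_num⟩⟩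
  have hN : w.re ≤ 1 / 5 ∨ 31 / 100 ≤ (29 / 100 : ℝ) := Or.inl (by linarith only [hw2])
  have hK := K22_ge_1 hw1 hw2
  rcases le_or_gt (Real.tan θ' ^ 2) (49 / 100) with hp2 | hp2
  · exact bx22_4.go E hK (by norm_num) (by norm_num) hX (by norm_num) (le_trans (by norm_num) (E.S'.p1 _ hw0 (by linarith only [hw2]))) hR hN
      (by linarith only [t0]) (by linarith only [t1]) (by linarith only [q0]) (by linarith only [hp2]) hw0 (by linarith only [hw1]) (by linarith only [hw2]) (by linarith only [hw2])
      hwl hv hva
  · have m1 := E.m1 hp2
    rcases le_or_gt (Real.tan θ' ^ 2) (127 / 200) with hp4 | hp4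
    · exact bx22_5.go E hK (by norm_num) (by norm_num) hX (by norm_num) (le_trans (by norm_num) (E.S'.p1 _ hw0 (by linarith only [hw2]))) hR hN
        (by linarith only [t0]) (by linarith only [m1]) (by linarith only [hp2]) (by linarith only [hp4]) hw0 (by linarith only [hw1]) (by linarith only [hw2]) (by linarith only [hw2])
        hwl hv hva
    · have m2 := E.m2 hp4
      rcases le_or_gt (Real.tan θ' ^ 2) (69 / 100) with hp6 | hp6
      · rcases le_or_gt (w.re) (3 / 50) with hw8 | hw8
        · rcases le_or_gt (Real.tan θ ^ 2) (21 / 50) with hs10 | hs10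
          · exact bx22_6.go E hK (by norm_num) (by norm_num) hX (by norm_num) (le_trans (by norm_num) (E.S'.p1 _ hw0 (by linarith only [hw8]))) hR hN
              (by linarith only [t0]) (by linarith only [hs10]) (by linarith only [hp4]) (by linarith only [hp6]) hw0 (by linarith only [hw1]) (by linarith only [hw8]) (by linarith only [hw8])
              hwl hv hva
          · exact bx22_7.go E hK (by norm_num) (by norm_num) hX (by norm_num) (le_trans (by norm_num) (E.S'.p1 _ hw0 (by linarith only [hw8]))) hR hN
              (by linarith only [hs10]) (by linarith only [m2]) (by linarith only [hp4]) (by linarith only [hp6]) hw0 (by linarith only [hw1]) (by linarith only [hw8]) (by linarith only [hw8])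
              hwl hv hva
        · rcases le_or_gt (Real.tan θ ^ 2) (21 / 50) with hs10 | hs10
          · exact bx22_10.go E hK (by norm_num) (by norm_num) hX (by norm_num) (le_trans (by norm_num) (E.S'.p1 _ hw0 (by linarith only [hw2]))) hR hN
              (by linarith only [t0]) (by linarith only [hs10]) (by linarith only [hp4]) (by linarith only [hp6]) hw0 (by linarith only [hw8]) (by linarith only [hw2]) (by linarith only [hw2])
              hwl hv hva
          · exact bx22_11.go E hK (by norm_num) (by norm_num) hX (by norm_num) (le_trans (by norm_num) (E.S'.p1 _ hw0 (by linarith only [hw2]))) hR hN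
              (by linarith only [hs10]) (by linarith only [m2]) (by linarith only [hp4]) (by linarith only [hp6]) hw0 (by linarith only [hw8]) (by linarith only [hw2]) (by linarith only [hw2])
              hwl hv hva
      · have m3 := E.m3 hp6
        rcases le_or_gt (w.re) (3 / 50) with hw8 | hw8
        · rcases le_or_gt (Real.tan θ ^ 2) (7 / 20) with hs10 | hs10
          · exact bx22_8.go E hK (by norm_num) (by norm_num) hX (by norm_num) (le_trans (by norm_num) (E.S'.p1 _ hw0 (by linarith only [hw8]))) hR hN
              (by linarith only [t0]) (by linarith only [hs10]) (by linarith only [hp6]) (by linarith only [q1]) hw0 (by linarith only [hw1]) (by linarith only [hw8]) (by linarith only [hw8])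
              hwl hv hva
          · exact bx22_9.go E hK (by norm_num) (by norm_num) hX (by norm_num) (le_trans (by norm_num) (E.S'.p1 _ hw0 (by linarith only [hw8]))) hR hN
              (by linarith only [hs10]) (by linarith only [m3]) (by linarith only [hp6]) (by linarith only [q1]) hw0 (by linarith only [hw1]) (by linarith only [hw8]) (by linarith only [hw8])
              hwl hv hva
        · rcases le_or_gt (Real.tan θ ^ 2) (7 / 20) with hs10 | hs10
          · exact bx22_12.go E hK (by norm_num) (by norm_num) hX (by norm_num) (le_trans (by norm_num) (E.S'.p1 _ hw0 (by linarith only [hw2]))) hR hN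
              (by linarith only [t0]) (by linarith only [hs10]) (by linarith only [hp6]) (by linarith only [q1]) hw0 (by linarith only [hw8]) (by linarith only [hw2]) (by linarith only [hw2])
              hwl hv hva
          · exact bx22_13.go E hK (by norm_num) (by norm_num) hX (by norm_num) (le_trans (by norm_num) (E.S'.p1 _ hw0 (by linarith only [hw2]))) hR hN
              (by linarith only [hs10]) (by linarith only [m3]) (by linarith only [hp6]) (by linarith only [q1]) hw0 (by linarith only [hw8]) (by linarith only [hw2]) (by linarith only [hw2])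
              hwl hv hva

theorem bin22_2 (E : E22 Φ θ θ' xc xc' b b') (hv : v ∈ G0 θ (2 / 5)) (hva : 29 / 100 ≤ v.re)
    (hwl : w.im = bl θ' w.re) (hw1 : 2 / 25 < w.re) (hw2 : w.re ≤ 3 / 25) :
    FlP Φ θ θ' xc xc' b b' (2 / 5) (2 / 5) (mu b (2 : ℝ) (2 / 5)) (mu b' (2 : ℝ) (2 / 5)) v w := by
  have hw0 : 0 ≤ w.re := by linarith only [hw1]
  have t0 := E.S.t0
  have t1 := E.S.t1
  have q0 := E.S'.t0
  have q1 := E.S'.t1
  have hX := E.S.x0
  have hR : R22 (29 / 100) w.re := ⟨by linarith only [hw2], Or.inl ⟨by linarith only [hw2], by norm_num⟩⟩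
  have hN : w.re ≤ 1 / 5 ∨ 31 / 100 ≤ (29 / 100 : ℝ) := Or.inl (by linarith only [hw2])
  have hK := K22_ge_2 hw1 hw2
  rcases le_or_gt (Real.tan θ' ^ 2) (49 / 100) with hp2 | hp2
  · rcases le_or_gt (Real.tan θ ^ 2) (9 / 20) with hs4 | hs4
    · exact bx22_14.go E hK (by norm_num) (by norm_num) hX (by norm_num) (le_trans (by norm_num) (E.S'.p2 _ hw0 (by linarith only [hw2]))) hR hN
        (by linarith only [t0]) (by linarith only [hs4]) (by linarith only [q0]) (by linarith only [hp2]) hw0 (by linarith only [hw1]) (by linarith only [hw2]) (by linarith only [hw2])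
        hwl hv hva
    · exact bx22_15.go E hK (by norm_num) (by norm_num) hX (by norm_num) (le_trans (by norm_num) (E.S'.p2 _ hw0 (by linarith only [hw2]))) hR hN
        (by linarith only [hs4]) (by linarith only [t1]) (by linarith only [q0]) (by linarith only [hp2]) hw0 (by linarith only [hw1]) (by linarith only [hw2]) (by linarith only [hw2])
        hwl hv hva
  · have m1 := E.m1 hp2
    rcases le_or_gt (Real.tan θ' ^ 2) (127 / 200) with hp4 | hp4
    · rcases le_or_gt (Real.tan θ ^ 2) (9 / 20) with hs6 | hs6
      · exact bx22_16.go E hK (by norm_num) (by norm_num) hX (by norm_num) (le_trans (by norm_num) (E.S'.p2 _ hw0 (by linarith only [hw2]))) hR hN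
          (by linarith only [t0]) (by linarith only [hs6]) (by linarith only [hp2]) (by linarith only [hp4]) hw0 (by linarith only [hw1]) (by linarith only [hw2]) (by linarith only [hw2])
          hwl hv hva
      · exact bx22_17.go E hK (by norm_num) (by norm_num) hX (by norm_num) (le_trans (by norm_num) (E.S'.p2 _ hw0 (by linarith only [hw2]))) hR hN
          (by linarith only [hs6]) (by linarith only [m1]) (by linarith only [hp2]) (by linarith only [hp4]) hw0 (by linarith only [hw1]) (by linarith only [hw2]) (by linarith only [hw2])
          hwl hv hva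
    · have m2 := E.m2 hp4
      rcases le_or_gt (Real.tan θ' ^ 2) (69 / 100) with hp6 | hp6
      · rcases le_or_gt (w.re) (1 / 10) with hw8 | hw8
        · rcases le_or_gt (Real.tan θ ^ 2) (21 / 50) with hs10 | hs10
          · exact bx22_18.go E hK (by norm_num) (by norm_num) hX (by norm_num) (le_trans (by norm_num) (E.S'.p2 _ hw0 (by linarith only [hw8]))) hR hN
              (by linarith only [t0]) (by linarith only [hs10]) (by linarith only [hp4]) (by linarith only [hp6]) hw0 (by linarith only [hw1]) (by linarith only [hw8]) (by linarith only [hw8])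
              hwl hv hva
          · exact bx22_19.go E hK (by norm_num) (by norm_num) hX (by norm_num) (le_trans (by norm_num) (E.S'.p2 _ hw0 (by linarith only [hw8]))) hR hN
              (by linarith only [hs10]) (by linarith only [m2]) (by linarith only [hp4]) (by linarith only [hp6]) hw0 (by linarith only [hw1]) (by linarith only [hw8]) (by linarith only [hw8])
              hwl hv hva
        · rcases le_or_gt (Real.tan θ ^ 2) (21 / 50) with hs10 | hs10
          · exact bx22_22.go E hK (by norm_num) (by norm_num) hX (by norm_num) (le_trans (by norm_num) (E.S'.p2 _ hw0 (by linarith only [hw2]))) hR hN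
              (by linarith only [t0]) (by linarith only [hs10]) (by linarith only [hp4]) (by linarith only [hp6]) hw0 (by linarith only [hw8]) (by linarith only [hw2]) (by linarith only [hw2])
              hwl hv hva
          · exact bx22_23.go E hK (by norm_num) (by norm_num) hX (by norm_num) (le_trans (by norm_num) (E.S'.p2 _ hw0 (by linarith only [hw2]))) hR hN
              (by linarith only [hs10]) (by linarith only [m2]) (by linarith only [hp4]) (by linarith only [hp6]) hw0 (by linarith only [hw8]) (by linarith only [hw2]) (by linarith only [hw2])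
              hwl hv hva
      · have m3 := E.m3 hp6
        rcases le_or_gt (w.re) (1 / 10) with hw8 | hw8
        · rcases le_or_gt (Real.tan θ ^ 2) (7 / 20) with hs10 | hs10
          · exact bx22_20.go E hK (by norm_num) (by norm_num) hX (by norm_num) (le_trans (by norm_num) (E.S'.p2 _ hw0 (by linarith only [hw8]))) hR hN
              (by linarith only [t0]) (by linarith only [hs10]) (by linarith only [hp6]) (by linarith only [q1]) hw0 (by linarith only [hw1]) (by linarith only [hw8]) (by linarith only [hw8])
              hwl hv hva
          · exact bx22_21.go E hK (by norm_num) (by norm_num) hX (by norm_num) (le_trans (by norm_num) (E.S'.p2 _ hw0 (by linarith only [hw8]))) hR hN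
              (by linarith only [hs10]) (by linarith only [m3]) (by linarith only [hp6]) (by linarith only [q1]) hw0 (by linarith only [hw1]) (by linarith only [hw8]) (by linarith only [hw8])
              hwl hv hva
        · rcases le_or_gt (Real.tan θ ^ 2) (7 / 20) with hs10 | hs10
          · exact bx22_24.go E hK (by norm_num) (by norm_num) hX (by norm_num) (le_trans (by norm_num) (E.S'.p2 _ hw0 (by linarith only [hw2]))) hR hN
              (by linarith only [t0]) (by linarith only [hs10]) (by linarith only [hp6]) (by linarith only [q1]) hw0 (by linarith only [hw8]) (by linarith only [hw2]) (by linarith only [hw2])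
              hwl hv hva
          · exact bx22_25.go E hK (by norm_num) (by norm_num) hX (by norm_num) (le_trans (by norm_num) (E.S'.p2 _ hw0 (by linarith only [hw2]))) hR hN
              (by linarith only [hs10]) (by linarith only [m3]) (by linarith only [hp6]) (by linarith only [q1]) hw0 (by linarith only [hw8]) (by linarith only [hw2]) (by linarith only [hw2])
              hwl hv hva

end

end Pool.Agent.S3.T2
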