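import Pool.Agent.S3.Hz.Main
import Pool.Agent.S3.W3.Cert
import Pool.Agent.S3.W3.Glue
import Pool.Agent.S3.W3.Rect

/-!
# Two vertices with two half twists: box 30 (generated)
-/

set_option autoImplicit false

namespace Pool.Agent.S3.T2

open Complex Pool.Agent.S3.NI

def c22P30 : P1.Par := ⟨⟨1264867868, 1440961528⟩, ⟨716185796, 830002430⟩, 268435456, 375809639, 133040906, 165838351⟩

theorem c22R30 : certR ⟨1264867868, 1440961528⟩ ⟨716185796, 830002430⟩ 1 1 24 ⟨740881858, 812822561⟩ (rng 368124 425781 1000000) = true := by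
  decide +kernel

theorem c22A30_0 : TA (59 / 200) (1569 / 5000) ⟨1429630026, 1623588987⟩ :=
  ⟨by norm_num, by norm_num, le_tan_num (by norm_num) (by norm_num) (by norm_num) (by norm_num),
    tan_le_num (by norm_num) (by norm_num) (by norm_num) (by norm_num)⟩

theorem c22C30_0 : cert1 c22P30 4 3 375809638 42949673 4 15 10 5 34 ⟨1429630026, 1623588987⟩ ⟨285488819, 359472159⟩
    ⟨8375186, 1073741824⟩ ⟨186117949, 243161248⟩ = true := by
  decide +kernel

theorem c22A30_1 : TA (1569 / 5000) (202 / 625) ⟨1621047465, 1731890147⟩ :=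
  ⟨by norm_num, by norm_num, le_tan_num (by norm_num) (by norm_num) (by norm_num) (by norm_num),
    tan_le_num (by norm_num) (by norm_num) (by norm_num) (by norm_num)⟩

theorem c22C30_1 : cert1 c22P30 4 3 375809638 42949673 4 15 10 5 34 ⟨1621047465, 1731890147⟩ ⟨273557825, 333446011⟩
    ⟨8375186, 1073741824⟩ ⟨186117949, 243161248⟩ = true := by
  decide +kernel

theorem c22A30_2 : TA (202 / 625) (133 / 400) ⟨1730005234, 1849871973⟩ :=
  ⟨by norm_num, by norm_num, le_tan_num (by norm_num) (by norm_num) (by norm_num) (by norm_num),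
    tan_le_num (by norm_num) (by norm_num) (by norm_num) (by norm_num)⟩

theorem c22C30_2 : cert1 c22P30 4 3 375809638 42949673 4 15 10 5 34 ⟨1730005234, 1849871973⟩ ⟨261402449, 319785309⟩
    ⟨8375186, 1073741824⟩ ⟨186117949, 243161248⟩ = true := by
  decide +kernel

theorem c22A30_3 : TA (133 / 400) (1709 / 5000) ⟨1848486399, 1980506246⟩ :=
  ⟨by norm_num, by norm_num, le_tan_num (by norm_num) (by norm_num) (by norm_num) (by norm_num),
    tan_le_num (by norm_num) (by norm_num) (by norm_num) (by norm_num)⟩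

theorem c22C30_3 : cert1 c22P30 4 3 375809638 42949673 4 15 10 5 34 ⟨1848486399, 1980506246⟩ ⟨248910547, 305850663⟩
    ⟨8375186, 1073741824⟩ ⟨186117949, 243161248⟩ = true := by
  decide +kernel

theorem c22A30_4 : TA (1709 / 5000) (439 / 1250) ⟨1979501369, 2127799144⟩ :=
  ⟨by norm_num, by norm_num, le_tan_num (by norm_num) (by norm_num) (by norm_num) (by norm_num),
    tan_le_num (by norm_num) (by norm_num) (by norm_num) (by norm_num)⟩

theorem c22C30_4 : cert1 c22P30 4 3 375809638 42949673 4 15 10 5 34 ⟨1979501369, 2127799144⟩ ⟨235955745, 291505578⟩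
    ⟨8375186, 1073741824⟩ ⟨186117949, 243161248⟩ = true := by
  decide +kernel

theorem c22A30_5 : TA (439 / 1250) (37 / 100) ⟨2127084042, 2481598799⟩ :=
  ⟨by norm_num, by norm_num, le_tan_num (by norm_num) (by norm_num) (by norm_num) (by norm_num),
    tan_le_num (by norm_num) (by norm_num) (by norm_num) (by norm_num)⟩

theorem c22C30_5 : cert1 c22P30 4 3 375809638 42949673 4 15 10 5 34 ⟨2127084042, 2481598799⟩ ⟨209111384, 276597813⟩
    ⟨8375186, 1073741824⟩ ⟨186117949, 243161248⟩ = true := by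
  decide +kernel

theorem c22A30_6 : TA (37 / 100) (19 / 50) ⟨2481256305, 2712177144⟩ :=
  ⟨by norm_num, by norm_num, le_tan_num (by norm_num) (by norm_num) (by norm_num) (by norm_num),
    tan_le_num (by norm_num) (by norm_num) (by norm_num) (by norm_num)⟩

theorem c22C30_6 : cert1 c22P30 7 5 375809638 42949673 4 15 10 5 34 ⟨2481256305, 2712177144⟩ ⟨194357385, 245595233⟩
    ⟨8375186, 1073741824⟩ ⟨186117949, 243161248⟩ = true := by
  decide +kernel

theorem c22A30_7 : TA (19 / 50) (2 / 5) ⟨2711953937, 3304720923⟩ :=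
  ⟨by norm_num, by norm_num, le_tan_num (by norm_num) (by norm_num) (by norm_num) (by norm_num),
    tan_le_num (by norm_num) (by norm_num) (by norm_num) (by norm_num)⟩

theorem c22C30_7 : cert1 c22P30 3 2 375809638 42949673 4 15 10 5 34 ⟨2711953937, 3304720923⟩ ⟨163953064, 228489988⟩
    ⟨8375186, 1073741824⟩ ⟨186117949, 243161248⟩ = true := by
  decide +kernel

def c22Q30_4 : P2.Par := ⟨⟨1264867868, 1440961528⟩, ⟨716185796, 830002430⟩, 268435456, 375809639, 4, 3, 0, 11811160, 0, 171798692⟩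

theorem c22B30_0 : TA (29 / 80) (37 / 100) ⟨2329104105, 2481598799⟩ :=
  ⟨by norm_num, by norm_num, le_tan_num (by norm_num) (by norm_num) (by norm_num) (by norm_num),
    tan_le_num (by norm_num) (by norm_num) (by norm_num) (by norm_num)⟩

theorem c22D30_0 : cert2 c22Q30_4 20 100 50 30 ⟨2329104105, 2481598799⟩ ⟨209111384, 258148531⟩ ⟨8375186, 1073741824⟩ = true := by
  decide +kernel

def c22Q30_7 : P2.Par := ⟨⟨1264867868, 1440961528⟩, ⟨716185796, 830002430⟩, 268435456, 375809639, 7, 5, 0, 11811160, 0, 171798692⟩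

theorem c22B30_1 : TA (37 / 100) (19 / 50) ⟨2481256305, 2712177144⟩ :=
  ⟨by norm_num, by norm_num, le_tan_num (by norm_num) (by norm_num) (by norm_num) (by norm_num),
    tan_le_num (by norm_num) (by norm_num) (by norm_num) (by norm_num)⟩

theorem c22D30_1 : cert2 c22Q30_7 20 100 50 30 ⟨2481256305, 2712177144⟩ ⟨194357385, 245595233⟩ ⟨8375186, 1073741824⟩ = true := by
  decide +kernel

def c22Q30_3 : P2.Par := ⟨⟨1264867868, 1440961528⟩, ⟨716185796, 830002430⟩, 268435456, 375809639, 3, 2, 0, 11811160, 0, 171798692⟩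

theorem c22B30_2 : TA (19 / 50) (2 / 5) ⟨2711953937, 3304720923⟩ :=
  ⟨by norm_num, by norm_num, le_tan_num (by norm_num) (by norm_num) (by norm_num) (by norm_num),
    tan_le_num (by norm_num) (by norm_num) (by norm_num) (by norm_num)⟩

theorem c22D30_2 : cert2 c22Q30_3 20 100 50 30 ⟨2711953937, 3304720923⟩ ⟨163953064, 228489988⟩ ⟨8375186, 1073741824⟩ = true := by
  decide +kernel

/-- The box: `re w ∈ [3/25, 7/50]`, `tan² θ' ∈ [69/100, 757/1000]`, `tan² θ ∈ [1/4, 7/20]`, base `59/200`. -/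
theorem c22_30 : Cert22 (59 / 200) (3 / 25) (7 / 50) (69 / 100) (757 / 1000) (1 / 4) (7 / 20) (44 / 125) (393 / 1000) (29 / 80)
    (187904819 / 536870912) (42949673 / 1073741824) (-1476395 / 134217728) (42949673 / 268435456) where
  k0 := by norm_num
  k1 := by norm_num
  hw := by norm_num
  hw' := by norm_num
  P0 := ⟨(1164784027 / 536870912), tan_le_num (by norm_num) (by norm_num) (by norm_num) (by norm_num), by norm_num⟩
  ph := by
    intro θ θ' h0 w hθ0 hθ1 hθ' r0 r1 r2 hwl hwi t0 t1 u0 u1 hh k0 k1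
    have mS : Mem (Real.tan θ' ^ 2) ⟨740881858, 812822561⟩ := ⟨le_trans (by norm_num)
      (mul_le_mul_of_nonneg_right t0 (by norm_num)), (mul_le_mul_of_nonneg_right t1
        (by norm_num)).trans (by norm_num)⟩
    have mZ : Mem (Real.sin (Real.pi * w.re)) (rng 368124 425781 1000000) :=
      Hz.w_mem_sin (x1 := (942477 / 2500000)) (x2 := (27489 / 62500)) (by norm_num) r0 r1 (by norm_num) (by norm_num)
        (by norm_num) (by norm_num) (by norm_num) (by norm_num) (by norm_num) (by norm_num)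
    obtain ⟨mr, mi⟩ := rect_of c22R30 mS mZ (by linarith) hθ' (by linarith) (by linarith) hwl
    have us0 : ((c22P30.slo : ℕ) : ℝ) / 1073741824 ≤ Real.tan θ ^ 2 :=
      le_trans (by norm_num [c22P30]) u0
    have us1 : Real.tan θ ^ 2 ≤ ((c22P30.shi : ℕ) : ℝ) / 1073741824 :=
      u1.trans (by norm_num [c22P30])
    have hk0 : ((c22P30.klo : ℕ) : ℝ) / 1073741824 * Real.tan θ ^ 2 ≤
        Real.sinh (Real.pi * h0) ^ 2 :=
      le_trans (mul_le_mul_of_nonneg_right (by norm_num [c22P30]) (sq_nonneg _)) k0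
    have hk1 : Real.sinh (Real.pi * h0) ^ 2 ≤
        ((c22P30.khi : ℕ) : ℝ) / 1073741824 * Real.tan θ ^ 2 :=
      k1.trans (mul_le_mul_of_nonneg_right (by norm_num [c22P30]) (sq_nonneg _))
    have v0 : 0 ≤ ((starRingEnd ℂ) w).re := by rw [conj_re]; linarith
    have v1 : ((starRingEnd ℂ) w).re < 1 / 2 := by rw [conj_re]; linarith
    have vi : ((starRingEnd ℂ) w).im ≤ 0 := by rw [conj_im]; linarith
    refine ⟨?_, ?_, ?_, ?_, ?_, ?_⟩
    · exact (Ph1.glue (Ph1.of_cert c22C30_0 c22A30_0 hθ0 hθ1 us0 us1 hh hk0 hk1 mr mi)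
        (Ph1.glue (Ph1.of_cert c22C30_1 c22A30_1 hθ0 hθ1 us0 us1 hh hk0 hk1 mr mi)
        (Ph1.glue (Ph1.of_cert c22C30_2 c22A30_2 hθ0 hθ1 us0 us1 hh hk0 hk1 mr mi)
        (Ph1.glue (Ph1.of_cert c22C30_3 c22A30_3 hθ0 hθ1 us0 us1 hh hk0 hk1 mr mi)
        (Ph1.glue (Ph1.of_cert c22C30_4 c22A30_4 hθ0 hθ1 us0 us1 hh hk0 hk1 mr mi)
        (Ph1.of_cert c22C30_5 c22A30_5 hθ0 hθ1 us0 us1 hh hk0 hk1 mr mi)))))).mono
        (by norm_num) (by norm_num) (by norm_num) (by norm_num) (by norm_num)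
    · exact (Ph1.of_cert c22C30_6 c22A30_6 hθ0 hθ1 us0 us1 hh hk0 hk1 mr mi).mono
        (by norm_num) (by norm_num) (by norm_num) (by norm_num) (by norm_num)
    · exact (Ph1.of_cert c22C30_7 c22A30_7 hθ0 hθ1 us0 us1 hh hk0 hk1 mr mi).mono
        (by norm_num) (by norm_num) (by norm_num) (by norm_num) (by norm_num)
    · exact (Ph2.of_cert c22D30_0 c22B30_0 hθ0 hθ1 (by simpa [c22Q30_4, c22P30] using us0)
        (by simpa [c22Q30_4, c22P30] using us1) v0 v1 vi (by simpa [c22Q30_4, c22P30] using mr)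
        (by simpa [c22Q30_4, c22P30] using mi)).mono
        (by norm_num) (by norm_num) (by norm_num [c22Q30_4]) (by norm_num [c22Q30_4])
        (by norm_num [c22Q30_4])
    · exact (Ph2.of_cert c22D30_1 c22B30_1 hθ0 hθ1 (by simpa [c22Q30_7, c22P30] using us0)
        (by simpa [c22Q30_7, c22P30] using us1) v0 v1 vi (by simpa [c22Q30_7, c22P30] using mr)
        (by simpa [c22Q30_7, c22P30] using mi)).mono
        (by norm_num) (by norm_num) (by norm_num [c22Q30_7]) (by norm_num [c22Q30_7])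
        (by norm_num [c22Q30_7])
    · intro _; exact (Ph2.of_cert c22D30_2 c22B30_2 hθ0 hθ1 (by simpa [c22Q30_3, c22P30] using us0)
        (by simpa [c22Q30_3, c22P30] using us1) v0 v1 vi (by simpa [c22Q30_3, c22P30] using mr)
        (by simpa [c22Q30_3, c22P30] using mi)).mono
        (by norm_num) (by norm_num) (by norm_num [c22Q30_3]) (by norm_num [c22Q30_3])
        (by norm_num [c22Q30_3])

end Pool.Agent.S3.T2
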