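import Pool.Agent.S3.Hz.Main
import Pool.Agent.S3.W3.Cert
import Pool.Agent.S3.W3.Glue
import Pool.Agent.S3.W3.Rect

/-!
# Two vertices with two half twists: box 31 (generated)
-/

set_option autoImplicit false

namespace Pool.Agent.S3.T2

open Complex Pool.Agent.S3.NI

def c22P31 : P1.Par := ⟨⟨1264867868, 1440961528⟩, ⟨716185796, 830002430⟩, 375809638, 483183821, 143834159, 173520974⟩

theorem c22R31 : certR ⟨1264867868, 1440961528⟩ ⟨716185796, 830002430⟩ 1 1 24 ⟨740881858, 812822561⟩ (rng 368124 425781 1000000) = true := by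
  decide +kernel

theorem c22A31_0 : TA (59 / 200) (761 / 2500) ⟨1429630026, 1524747358⟩ :=
  ⟨by norm_num, by norm_num, le_tan_num (by norm_num) (by norm_num) (by norm_num) (by norm_num),
    tan_le_num (by norm_num) (by norm_num) (by norm_num) (by norm_num)⟩

theorem c22C31_0 : cert1 c22P31 4 3 401579442 171798692 4 15 10 5 34 ⟨1429630026, 1524747358⟩ ⟨346214487, 401229443⟩
    ⟨8375186, 1073741824⟩ ⟨227229948, 279568752⟩ = true := by
  decide +kernel

theorem c22A31_1 : TA (761 / 2500) (1569 / 5000) ⟨1521357938, 1623588987⟩ :=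
  ⟨by norm_num, by norm_num, le_tan_num (by norm_num) (by norm_num) (by norm_num) (by norm_num),
    tan_le_num (by norm_num) (by norm_num) (by norm_num) (by norm_num)⟩

theorem c22C31_1 : cert1 c22P31 4 3 401579442 171798692 4 15 10 5 34 ⟨1521357938, 1623588987⟩ ⟨333117916, 387367206⟩
    ⟨8375186, 1073741824⟩ ⟨227229948, 279568752⟩ = true := by
  decide +kernel

theorem c22A31_2 : TA (1569 / 5000) (133 / 400) ⟨1621047465, 1849871973⟩ :=
  ⟨by norm_num, by norm_num, le_tan_num (by norm_num) (by norm_num) (by norm_num) (by norm_num),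
    tan_le_num (by norm_num) (by norm_num) (by norm_num) (by norm_num)⟩

theorem c22C31_2 : cert1 c22P31 4 3 401579442 171798692 4 15 10 5 34 ⟨1621047465, 1849871973⟩ ⟨305693214, 372988509⟩
    ⟨8375186, 1073741824⟩ ⟨227229948, 279568752⟩ = true := by
  decide +kernel

theorem c22A31_3 : TA (133 / 400) (37 / 100) ⟨1848486399, 2481598799⟩ :=
  ⟨by norm_num, by norm_num, le_tan_num (by norm_num) (by norm_num) (by norm_num) (by norm_num),
    tan_le_num (by norm_num) (by norm_num) (by norm_num) (by norm_num)⟩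

theorem c22C31_3 : cert1 c22P31 4 3 401579442 171798692 4 15 10 5 34 ⟨1848486399, 2481598799⟩ ⟨245568175, 342850836⟩
    ⟨8375186, 1073741824⟩ ⟨227229948, 279568752⟩ = true := by
  decide +kernel

theorem c22A31_4 : TA (37 / 100) (19 / 50) ⟨2481256305, 2712177144⟩ :=
  ⟨by norm_num, by norm_num, le_tan_num (by norm_num) (by norm_num) (by norm_num) (by norm_num),
    tan_le_num (by norm_num) (by norm_num) (by norm_num) (by norm_num)⟩

theorem c22C31_4 : cert1 c22P31 7 5 401579442 171798692 4 15 10 5 34 ⟨2481256305, 2712177144⟩ ⟨228474466, 276420566⟩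
    ⟨8375186, 1073741824⟩ ⟨227229948, 279568752⟩ = true := by
  decide +kernel

theorem c22A31_5 : TA (19 / 50) (2 / 5) ⟨2711953937, 3304720923⟩ :=
  ⟨by norm_num, by norm_num, le_tan_num (by norm_num) (by norm_num) (by norm_num) (by norm_num),
    tan_le_num (by norm_num) (by norm_num) (by norm_num) (by norm_num)⟩

theorem c22C31_5 : cert1 c22P31 3 2 401579442 171798692 4 15 10 5 34 ⟨2711953937, 3304720923⟩ ⟨193093567, 257423375⟩
    ⟨8375186, 1073741824⟩ ⟨227229948, 279568752⟩ = true := by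
  decide +kernel

def c22Q31_4 : P2.Par := ⟨⟨1264867868, 1440961528⟩, ⟨716185796, 830002430⟩, 375809638, 483183821, 4, 3, 0, 57982058, 0, 85899346⟩

theorem c22B31_0 : TA (719 / 2000) (37 / 100) ⟨2272519169, 2481598799⟩ :=
  ⟨by norm_num, by norm_num, le_tan_num (by norm_num) (by norm_num) (by norm_num) (by norm_num),
    tan_le_num (by norm_num) (by norm_num) (by norm_num) (by norm_num)⟩

theorem c22D31_0 : cert2 c22Q31_4 20 100 50 30 ⟨2272519169, 2481598799⟩ ⟨245568175, 295802911⟩ ⟨8375186, 1073741824⟩ = true := by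
  decide +kernel

def c22Q31_7 : P2.Par := ⟨⟨1264867868, 1440961528⟩, ⟨716185796, 830002430⟩, 375809638, 483183821, 7, 5, 0, 57982058, 0, 85899346⟩

theorem c22B31_1 : TA (37 / 100) (19 / 50) ⟨2481256305, 2712177144⟩ :=
  ⟨by norm_num, by norm_num, le_tan_num (by norm_num) (by norm_num) (by norm_num) (by norm_num),
    tan_le_num (by norm_num) (by norm_num) (by norm_num) (by norm_num)⟩

theorem c22D31_1 : cert2 c22Q31_7 20 100 50 30 ⟨2481256305, 2712177144⟩ ⟨228474466, 276420566⟩ ⟨8375186, 1073741824⟩ = true := by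
  decide +kernel

def c22Q31_3 : P2.Par := ⟨⟨1264867868, 1440961528⟩, ⟨716185796, 830002430⟩, 375809638, 483183821, 3, 2, 0, 57982058, 0, 85899346⟩

theorem c22B31_2 : TA (19 / 50) (2 / 5) ⟨2711953937, 3304720923⟩ :=
  ⟨by norm_num, by norm_num, le_tan_num (by norm_num) (by norm_num) (by norm_num) (by norm_num),
    tan_le_num (by norm_num) (by norm_num) (by norm_num) (by norm_num)⟩

theorem c22D31_2 : cert2 c22Q31_3 20 100 50 30 ⟨2711953937, 3304720923⟩ ⟨193093567, 257423375⟩ ⟨8375186, 1073741824⟩ = true := by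
  decide +kernel

/-- The box: `re w ∈ [3/25, 7/50]`, `tan² θ' ∈ [69/100, 757/1000]`, `tan² θ ∈ [7/20, 9/20]`, base `59/200`. -/
theorem c22_31 : Cert22 (59 / 200) (3 / 25) (7 / 50) (69 / 100) (757 / 1000) (7 / 20) (9 / 20) (183 / 500) (201 / 500) (719 / 2000)
    (200789721 / 536870912) (42949673 / 268435456) (-28991029 / 536870912) (42949673 / 536870912) where
  k0 := by norm_num
  k1 := by norm_num
  hw := by norm_num
  hw' := by norm_num
  P0 := ⟨(2273041019 / 1073741824), tan_le_num (by norm_num) (by norm_num) (by norm_num) (by norm_num), by norm_num⟩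
  ph := by
    intro θ θ' h0 w hθ0 hθ1 hθ' r0 r1 r2 hwl hwi t0 t1 u0 u1 hh k0 k1
    have mS : Mem (Real.tan θ' ^ 2) ⟨740881858, 812822561⟩ := ⟨le_trans (by norm_num)
      (mul_le_mul_of_nonneg_right t0 (by norm_num)), (mul_le_mul_of_nonneg_right t1
        (by norm_num)).trans (by norm_num)⟩
    have mZ : Mem (Real.sin (Real.pi * w.re)) (rng 368124 425781 1000000) :=
      Hz.w_mem_sin (x1 := (942477 / 2500000)) (x2 := (27489 / 62500)) (by norm_num) r0 r1 (by norm_num) (by norm_num)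
        (by norm_num) (by norm_num) (by norm_num) (by norm_num) (by norm_num) (by norm_num)
    obtain ⟨mr, mi⟩ := rect_of c22R31 mS mZ (by linarith) hθ' (by linarith) (by linarith) hwl
    have us0 : ((c22P31.slo : ℕ) : ℝ) / 1073741824 ≤ Real.tan θ ^ 2 :=
      le_trans (by norm_num [c22P31]) u0
    have us1 : Real.tan θ ^ 2 ≤ ((c22P31.shi : ℕ) : ℝ) / 1073741824 :=
      u1.trans (by norm_num [c22P31])
    have hk0 : ((c22P31.klo : ℕ) : ℝ) / 1073741824 * Real.tan θ ^ 2 ≤
        Real.sinh (Real.pi * h0) ^ 2 :=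
      le_trans (mul_le_mul_of_nonneg_right (by norm_num [c22P31]) (sq_nonneg _)) k0
    have hk1 : Real.sinh (Real.pi * h0) ^ 2 ≤
        ((c22P31.khi : ℕ) : ℝ) / 1073741824 * Real.tan θ ^ 2 :=
      k1.trans (mul_le_mul_of_nonneg_right (by norm_num [c22P31]) (sq_nonneg _))
    have v0 : 0 ≤ ((starRingEnd ℂ) w).re := by rw [conj_re]; linarith
    have v1 : ((starRingEnd ℂ) w).re < 1 / 2 := by rw [conj_re]; linarith
    have vi : ((starRingEnd ℂ) w).im ≤ 0 := by rw [conj_im]; linarith
    refine ⟨?_, ?_, ?_, ?_, ?_, ?_⟩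
    · exact (Ph1.glue (Ph1.of_cert c22C31_0 c22A31_0 hθ0 hθ1 us0 us1 hh hk0 hk1 mr mi)
        (Ph1.glue (Ph1.of_cert c22C31_1 c22A31_1 hθ0 hθ1 us0 us1 hh hk0 hk1 mr mi)
        (Ph1.glue (Ph1.of_cert c22C31_2 c22A31_2 hθ0 hθ1 us0 us1 hh hk0 hk1 mr mi)
        (Ph1.of_cert c22C31_3 c22A31_3 hθ0 hθ1 us0 us1 hh hk0 hk1 mr mi)))).mono
        (by norm_num) (by norm_num) (by norm_num) (by norm_num) (by norm_num)
    · exact (Ph1.of_cert c22C31_4 c22A31_4 hθ0 hθ1 us0 us1 hh hk0 hk1 mr mi).mono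
        (by norm_num) (by norm_num) (by norm_num) (by norm_num) (by norm_num)
    · exact (Ph1.of_cert c22C31_5 c22A31_5 hθ0 hθ1 us0 us1 hh hk0 hk1 mr mi).mono
        (by norm_num) (by norm_num) (by norm_num) (by norm_num) (by norm_num)
    · exact (Ph2.of_cert c22D31_0 c22B31_0 hθ0 hθ1 (by simpa [c22Q31_4, c22P31] using us0)
        (by simpa [c22Q31_4, c22P31] using us1) v0 v1 vi (by simpa [c22Q31_4, c22P31] using mr)
        (by simpa [c22Q31_4, c22P31] using mi)).mono
        (by norm_num) (by norm_num) (by norm_num [c22Q31_4]) (by norm_num [c22Q31_4])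
        (by norm_num [c22Q31_4])
    · exact (Ph2.of_cert c22D31_1 c22B31_1 hθ0 hθ1 (by simpa [c22Q31_7, c22P31] using us0)
        (by simpa [c22Q31_7, c22P31] using us1) v0 v1 vi (by simpa [c22Q31_7, c22P31] using mr)
        (by simpa [c22Q31_7, c22P31] using mi)).mono
        (by norm_num) (by norm_num) (by norm_num [c22Q31_7]) (by norm_num [c22Q31_7])
        (by norm_num [c22Q31_7])
    · intro _; exact (Ph2.of_cert c22D31_2 c22B31_2 hθ0 hθ1 (by simpa [c22Q31_3, c22P31] using us0)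
        (by simpa [c22Q31_3, c22P31] using us1) v0 v1 vi (by simpa [c22Q31_3, c22P31] using mr)
        (by simpa [c22Q31_3, c22P31] using mi)).mono
        (by norm_num) (by norm_num) (by norm_num [c22Q31_3]) (by norm_num [c22Q31_3])
        (by norm_num [c22Q31_3])

end Pool.Agent.S3.T2
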