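import Pool.Agent.S3.Hz.Main
import Pool.Agent.S3.W3.Cert
import Pool.Agent.S3.W3.Glue
import Pool.Agent.S3.W3.Rect

/-!
# Two vertices with two half twists: box 37 (generated)
-/

set_option autoImplicit false

namespace Pool.Agent.S3.T2

open Complex Pool.Agent.S3.NI

def c22P37 : P1.Par := ⟨⟨846108557, 1041529570⟩, ⟨432717955, 667867415⟩, 536870912, 812822561, 76545980, 132286067⟩

theorem c22R37 : certR ⟨846108557, 1041529570⟩ ⟨432717955, 667867415⟩ 1 1 24 ⟨268435456, 526133494⟩ (rng 481753 535832 1000000) = true := by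
  decide +kernel

theorem c22A37_0 : TA (59 / 200) (133 / 400) ⟨1429630026, 1849871973⟩ :=
  ⟨by norm_num, by norm_num, le_tan_num (by norm_num) (by norm_num) (by norm_num) (by norm_num),
    tan_le_num (by norm_num) (by norm_num) (by norm_num) (by norm_num)⟩

theorem c22C37_0 : cert1 c22P37 4 3 344671126 450971566 4 15 10 5 34 ⟨1429630026, 1849871973⟩ ⟨359187937, 497251171⟩
    ⟨8375186, 1073741824⟩ ⟨199200662, 313611927⟩ = true := by
  decide +kernel

theorem c22A37_1 : TA (133 / 400) (37 / 100) ⟨1848486399, 2481598799⟩ :=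
  ⟨by norm_num, by norm_num, le_tan_num (by norm_num) (by norm_num) (by norm_num) (by norm_num),
    tan_le_num (by norm_num) (by norm_num) (by norm_num) (by norm_num)⟩

theorem c22C37_1 : cert1 c22P37 4 3 344671126 450971566 4 15 10 5 34 ⟨1848486399, 2481598799⟩ ⟨290274670, 429976844⟩
    ⟨8375186, 1073741824⟩ ⟨199200662, 313611927⟩ = true := by
  decide +kernel

theorem c22A37_2 : TA (37 / 100) (19 / 50) ⟨2481256305, 2712177144⟩ :=
  ⟨by norm_num, by norm_num, le_tan_num (by norm_num) (by norm_num) (by norm_num) (by norm_num),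
    tan_le_num (by norm_num) (by norm_num) (by norm_num) (by norm_num)⟩

theorem c22C37_2 : cert1 c22P37 7 5 344671126 450971566 4 15 10 5 34 ⟨2481256305, 2712177144⟩ ⟨270467703, 350678837⟩
    ⟨8375186, 1073741824⟩ ⟨199200662, 313611927⟩ = true := by
  decide +kernel

theorem c22A37_3 : TA (19 / 50) (2 / 5) ⟨2711953937, 3304720923⟩ :=
  ⟨by norm_num, by norm_num, le_tan_num (by norm_num) (by norm_num) (by norm_num) (by norm_num),
    tan_le_num (by norm_num) (by norm_num) (by norm_num) (by norm_num)⟩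

theorem c22C37_3 : cert1 c22P37 3 2 344671126 450971566 4 15 10 5 34 ⟨2711953937, 3304720923⟩ ⟨229208026, 327519776⟩
    ⟨8375186, 1073741824⟩ ⟨199200662, 313611927⟩ = true := by
  decide +kernel

def c22Q37_7 : P2.Par := ⟨⟨846108557, 1041529570⟩, ⟨432717955, 667867415⟩, 536870912, 812822561, 7, 5, 0, 46170898, 64424509, 0⟩

theorem c22B37_0 : TA (757 / 2000) (19 / 50) ⟨2675054060, 2712177144⟩ :=
  ⟨by norm_num, by norm_num, le_tan_num (by norm_num) (by norm_num) (by norm_num) (by norm_num),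
    tan_le_num (by norm_num) (by norm_num) (by norm_num) (by norm_num)⟩

theorem c22D37_0 : cert2 c22Q37_7 20 100 50 30 ⟨2675054060, 2712177144⟩ ⟨270467703, 331046164⟩ ⟨8375186, 1073741824⟩ = true := by
  decide +kernel

def c22Q37_3 : P2.Par := ⟨⟨846108557, 1041529570⟩, ⟨432717955, 667867415⟩, 536870912, 812822561, 3, 2, 0, 46170898, 64424509, 0⟩

theorem c22B37_1 : TA (19 / 50) (2 / 5) ⟨2711953937, 3304720923⟩ :=
  ⟨by norm_num, by norm_num, le_tan_num (by norm_num) (by norm_num) (by norm_num) (by norm_num),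
    tan_le_num (by norm_num) (by norm_num) (by norm_num) (by norm_num)⟩

theorem c22D37_1 : cert2 c22Q37_3 20 100 50 30 ⟨2711953937, 3304720923⟩ ⟨229208026, 327519776⟩ ⟨8375186, 1073741824⟩ = true := by
  decide +kernel

/-- The box: `re w ∈ [4/25, 9/50]`, `tan² θ' ∈ [1/4, 49/100]`, `tan² θ ∈ [1/2, 757/1000]`, base `59/200`. -/
theorem c22_37 : Cert22 (59 / 200) (4 / 25) (9 / 50) (1 / 4) (49 / 100) (1 / 2) (757 / 1000) (267 / 1000) (351 / 1000) (757 / 2000)
    (172335563 / 536870912) (225485783 / 536870912) (-23085449 / 536870912) (-64424509 / 1073741824) where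
  k0 := by norm_num
  k1 := by norm_num
  hw := by norm_num
  hw' := by norm_num
  P0 := ⟨(2675292513 / 1073741824), tan_le_num (by norm_num) (by norm_num) (by norm_num) (by norm_num), by norm_num⟩
  ph := by
    intro θ θ' h0 w hθ0 hθ1 hθ' r0 r1 r2 hwl hwi t0 t1 u0 u1 hh k0 k1
    have mS : Mem (Real.tan θ' ^ 2) ⟨268435456, 526133494⟩ := ⟨le_trans (by norm_num)
      (mul_le_mul_of_nonneg_right t0 (by norm_num)), (mul_le_mul_of_nonneg_right t1
        (by norm_num)).trans (by norm_num)⟩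
    have mZ : Mem (Real.sin (Real.pi * w.re)) (rng 481753 535832 1000000) :=
      Hz.w_mem_sin (x1 := (314159 / 625000)) (x2 := (35343 / 62500)) (by norm_num) r0 r1 (by norm_num) (by norm_num)
        (by norm_num) (by norm_num) (by norm_num) (by norm_num) (by norm_num) (by norm_num)
    obtain ⟨mr, mi⟩ := rect_of c22R37 mS mZ (by linarith) hθ' (by linarith) (by linarith) hwl
    have us0 : ((c22P37.slo : ℕ) : ℝ) / 1073741824 ≤ Real.tan θ ^ 2 :=
      le_trans (by norm_num [c22P37]) u0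
    have us1 : Real.tan θ ^ 2 ≤ ((c22P37.shi : ℕ) : ℝ) / 1073741824 :=
      u1.trans (by norm_num [c22P37])
    have hk0 : ((c22P37.klo : ℕ) : ℝ) / 1073741824 * Real.tan θ ^ 2 ≤
        Real.sinh (Real.pi * h0) ^ 2 :=
      le_trans (mul_le_mul_of_nonneg_right (by norm_num [c22P37]) (sq_nonneg _)) k0
    have hk1 : Real.sinh (Real.pi * h0) ^ 2 ≤
        ((c22P37.khi : ℕ) : ℝ) / 1073741824 * Real.tan θ ^ 2 :=
      k1.trans (mul_le_mul_of_nonneg_right (by norm_num [c22P37]) (sq_nonneg _))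
    have v0 : 0 ≤ ((starRingEnd ℂ) w).re := by rw [conj_re]; linarith
    have v1 : ((starRingEnd ℂ) w).re < 1 / 2 := by rw [conj_re]; linarith
    have vi : ((starRingEnd ℂ) w).im ≤ 0 := by rw [conj_im]; linarith
    refine ⟨?_, ?_, ?_, ?_, ?_, ?_⟩
    · exact (Ph1.glue (Ph1.of_cert c22C37_0 c22A37_0 hθ0 hθ1 us0 us1 hh hk0 hk1 mr mi)
        (Ph1.of_cert c22C37_1 c22A37_1 hθ0 hθ1 us0 us1 hh hk0 hk1 mr mi)).mono
        (by norm_num) (by norm_num) (by norm_num) (by norm_num) (by norm_num)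
    · exact (Ph1.of_cert c22C37_2 c22A37_2 hθ0 hθ1 us0 us1 hh hk0 hk1 mr mi).mono
        (by norm_num) (by norm_num) (by norm_num) (by norm_num) (by norm_num)
    · exact (Ph1.of_cert c22C37_3 c22A37_3 hθ0 hθ1 us0 us1 hh hk0 hk1 mr mi).mono
        (by norm_num) (by norm_num) (by norm_num) (by norm_num) (by norm_num)
    · exact Ph2.vac (by norm_num)
    · exact (Ph2.of_cert c22D37_0 c22B37_0 hθ0 hθ1 (by simpa [c22Q37_7, c22P37] using us0)
        (by simpa [c22Q37_7, c22P37] using us1) v0 v1 vi (by simpa [c22Q37_7, c22P37] using mr)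
        (by simpa [c22Q37_7, c22P37] using mi)).mono
        (by norm_num) (by norm_num) (by norm_num [c22Q37_7]) (by norm_num [c22Q37_7])
        (by norm_num [c22Q37_7])
    · intro _; exact (Ph2.of_cert c22D37_1 c22B37_1 hθ0 hθ1 (by simpa [c22Q37_3, c22P37] using us0)
        (by simpa [c22Q37_3, c22P37] using us1) v0 v1 vi (by simpa [c22Q37_3, c22P37] using mr)
        (by simpa [c22Q37_3, c22P37] using mi)).mono
        (by norm_num) (by norm_num) (by norm_num [c22Q37_3]) (by norm_num [c22Q37_3])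
        (by norm_num [c22Q37_3])

end Pool.Agent.S3.T2
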