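import Pool.Agent.S3.Hz.Main
import Pool.Agent.S3.W3.Cert
import Pool.Agent.S3.W3.Glue
import Pool.Agent.S3.W3.Rect

/-!
# Two vertices with two half twists: box 38 (generated)
-/

set_option autoImplicit false

namespace Pool.Agent.S3.T2

open Complex Pool.Agent.S3.NI

def c22P38 : P1.Par := ⟨⟨755914244, 926639195⟩, ⟨444529115, 668941157⟩, 268435456, 536870912, 52442624, 109265042⟩

theorem c22R38 : certR ⟨755914244, 926639195⟩ ⟨444529115, 668941157⟩ 1 1 24 ⟨268435456, 526133494⟩ (rng 535826 587795 1000000) = true := by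
  decide +kernel

theorem c22A38_0 : TA (59 / 200) (133 / 400) ⟨1429630026, 1849871973⟩ :=
  ⟨by norm_num, by norm_num, le_tan_num (by norm_num) (by norm_num) (by norm_num) (by norm_num),
    tan_le_num (by norm_num) (by norm_num) (by norm_num) (by norm_num)⟩

theorem c22C38_0 : cert1 c22P38 4 3 467077693 751619277 4 15 10 5 34 ⟨1429630026, 1849871973⟩ ⟨261402449, 419689818⟩
    ⟨8375186, 1073741824⟩ ⟨117930674, 236264728⟩ = true := by
  decide +kernel

theorem c22A38_1 : TA (133 / 400) (37 / 100) ⟨1848486399, 2481598799⟩ :=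
  ⟨by norm_num, by norm_num, le_tan_num (by norm_num) (by norm_num) (by norm_num) (by norm_num),
    tan_le_num (by norm_num) (by norm_num) (by norm_num) (by norm_num)⟩

theorem c22C38_1 : cert1 c22P38 4 3 467077693 751619277 4 15 10 5 34 ⟨1848486399, 2481598799⟩ ⟨209111384, 359366722⟩
    ⟨8375186, 1073741824⟩ ⟨117930674, 236264728⟩ = true := by
  decide +kernel

theorem c22A38_2 : TA (37 / 100) (19 / 50) ⟨2481256305, 2712177144⟩ :=
  ⟨by norm_num, by norm_num, le_tan_num (by norm_num) (by norm_num) (by norm_num) (by norm_num),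
    tan_le_num (by norm_num) (by norm_num) (by norm_num) (by norm_num)⟩

theorem c22C38_2 : cert1 c22P38 7 5 467077693 751619277 4 15 10 5 34 ⟨2481256305, 2712177144⟩ ⟨194357385, 290305952⟩
    ⟨8375186, 1073741824⟩ ⟨117930674, 236264728⟩ = true := by
  decide +kernel

theorem c22A38_3 : TA (19 / 50) (2 / 5) ⟨2711953937, 3304720923⟩ :=
  ⟨by norm_num, by norm_num, le_tan_num (by norm_num) (by norm_num) (by norm_num) (by norm_num),
    tan_le_num (by norm_num) (by norm_num) (by norm_num) (by norm_num)⟩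

theorem c22C38_3 : cert1 c22P38 3 2 467077693 751619277 4 15 10 5 34 ⟨2711953937, 3304720923⟩ ⟨163953064, 270485727⟩
    ⟨8375186, 1073741824⟩ ⟨117930674, 236264728⟩ = true := by
  decide +kernel

def c22Q38_3 : P2.Par := ⟨⟨755914244, 926639195⟩, ⟨444529115, 668941157⟩, 268435456, 536870912, 3, 2, 0, 1102732853, 2383706849, 0⟩

theorem c22B38_0 : TA (39 / 100) (2 / 5) ⟨2982428000, 3304720923⟩ :=
  ⟨by norm_num, by norm_num, le_tan_num (by norm_num) (by norm_num) (by norm_num) (by norm_num),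
    tan_le_num (by norm_num) (by norm_num) (by norm_num) (by norm_num)⟩

theorem c22D38_0 : cert2 c22Q38_3 20 100 50 30 ⟨2982428000, 3304720923⟩ ⟨163953064, 250112512⟩ ⟨8375186, 1073741824⟩ = true := by
  decide +kernel

/-- The box: `re w ∈ [9/50, 1/5]`, `tan² θ' ∈ [1/4, 49/100]`, `tan² θ ∈ [1/4, 1/2]`, base `59/200`. -/
theorem c22_38 : Cert22 (59 / 200) (9 / 50) (1 / 5) (1 / 4) (49 / 100) (1 / 4) (1 / 2) (221 / 1000) (319 / 1000) (39 / 100)
    (467077693 / 1073741824) (751619277 / 1073741824) (-1102732853 / 1073741824) (-2383706849 / 1073741824) where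
  k0 := by norm_num
  k1 := by norm_num
  hw := by norm_num
  hw' := by norm_num
  P0 := ⟨(2982569043 / 1073741824), tan_le_num (by norm_num) (by norm_num) (by norm_num) (by norm_num), by norm_num⟩
  ph := by
    intro θ θ' h0 w hθ0 hθ1 hθ' r0 r1 r2 hwl hwi t0 t1 u0 u1 hh k0 k1
    have mS : Mem (Real.tan θ' ^ 2) ⟨268435456, 526133494⟩ := ⟨le_trans (by norm_num)
      (mul_le_mul_of_nonneg_right t0 (by norm_num)), (mul_le_mul_of_nonneg_right t1
        (by norm_num)).trans (by norm_num)⟩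
    have mZ : Mem (Real.sin (Real.pi * w.re)) (rng 535826 587795 1000000) :=
      Hz.w_mem_sin (x1 := (2827431 / 5000000)) (x2 := (3927 / 6250)) (by norm_num) r0 r1 (by norm_num) (by norm_num)
        (by norm_num) (by norm_num) (by norm_num) (by norm_num) (by norm_num) (by norm_num)
    obtain ⟨mr, mi⟩ := rect_of c22R38 mS mZ (by linarith) hθ' (by linarith) (by linarith) hwl
    have us0 : ((c22P38.slo : ℕ) : ℝ) / 1073741824 ≤ Real.tan θ ^ 2 :=
      le_trans (by norm_num [c22P38]) u0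
    have us1 : Real.tan θ ^ 2 ≤ ((c22P38.shi : ℕ) : ℝ) / 1073741824 :=
      u1.trans (by norm_num [c22P38])
    have hk0 : ((c22P38.klo : ℕ) : ℝ) / 1073741824 * Real.tan θ ^ 2 ≤
        Real.sinh (Real.pi * h0) ^ 2 :=
      le_trans (mul_le_mul_of_nonneg_right (by norm_num [c22P38]) (sq_nonneg _)) k0
    have hk1 : Real.sinh (Real.pi * h0) ^ 2 ≤
        ((c22P38.khi : ℕ) : ℝ) / 1073741824 * Real.tan θ ^ 2 :=
      k1.trans (mul_le_mul_of_nonneg_right (by norm_num [c22P38]) (sq_nonneg _))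
    have v0 : 0 ≤ ((starRingEnd ℂ) w).re := by rw [conj_re]; linarith
    have v1 : ((starRingEnd ℂ) w).re < 1 / 2 := by rw [conj_re]; linarith
    have vi : ((starRingEnd ℂ) w).im ≤ 0 := by rw [conj_im]; linarith
    refine ⟨?_, ?_, ?_, ?_, ?_, ?_⟩
    · exact (Ph1.glue (Ph1.of_cert c22C38_0 c22A38_0 hθ0 hθ1 us0 us1 hh hk0 hk1 mr mi)
        (Ph1.of_cert c22C38_1 c22A38_1 hθ0 hθ1 us0 us1 hh hk0 hk1 mr mi)).mono
        (by norm_num) (by norm_num) (by norm_num) (by norm_num) (by norm_num)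
    · exact (Ph1.of_cert c22C38_2 c22A38_2 hθ0 hθ1 us0 us1 hh hk0 hk1 mr mi).mono
        (by norm_num) (by norm_num) (by norm_num) (by norm_num) (by norm_num)
    · exact (Ph1.of_cert c22C38_3 c22A38_3 hθ0 hθ1 us0 us1 hh hk0 hk1 mr mi).mono
        (by norm_num) (by norm_num) (by norm_num) (by norm_num) (by norm_num)
    · exact Ph2.vac (by norm_num)
    · exact Ph2.vac (by norm_num)
    · intro _; exact (Ph2.of_cert c22D38_0 c22B38_0 hθ0 hθ1 (by simpa [c22Q38_3, c22P38] using us0)
        (by simpa [c22Q38_3, c22P38] using us1) v0 v1 vi (by simpa [c22Q38_3, c22P38] using mr)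
        (by simpa [c22Q38_3, c22P38] using mi)).mono
        (by norm_num) (by norm_num) (by norm_num [c22Q38_3]) (by norm_num [c22Q38_3])
        (by norm_num [c22Q38_3])

end Pool.Agent.S3.T2
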