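import Pool.Agent.S3.W3.Box
import Pool.Agent.S3.W3.C30
import Pool.Agent.S3.W3.C31
import Pool.Agent.S3.W3.C32
import Pool.Agent.S3.W3.C33
import Pool.Agent.S3.W3.C34
import Pool.Agent.S3.W3.C35
import Pool.Agent.S3.W3.C36
import Pool.Agent.S3.W3.C37
import Pool.Agent.S3.W3.C38
import Pool.Agent.S3.W3.C39
import Pool.Agent.S3.Hz.R22b_3
import Pool.Agent.S3.Hz.R22b_4

/-!
# Two vertices with two half twists: the boxes 30 to 39 (generated)
-/

set_option autoImplicit false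

namespace Pool.Agent.S3.T2

theorem bx22_30 : BoxOK (59 / 200) (3 / 25) (7 / 50) (69 / 100) (757 / 1000) (1 / 4) (7 / 20) (82 / 5) (123 / 2000) (29 / 500) 0 :=
  BoxOK.small c22_30 (KR.of fun H => Hz.h22b_30 H) (by norm_num) (by constructor <;> norm_num) (by norm_num)

theorem bx22_31 : BoxOK (59 / 200) (3 / 25) (7 / 50) (69 / 100) (757 / 1000) (7 / 20) (9 / 20) (82 / 5) (123 / 2000) (29 / 500) 0 :=
  BoxOK.small c22_31 (KR.of fun H => Hz.h22b_31 H) (by norm_num) (by constructor <;> norm_num) (by norm_num)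

theorem bx22_32 : BoxOK (59 / 200) (7 / 50) (4 / 25) (127 / 200) (69 / 100) (1 / 4) (21 / 50) (82 / 5) (123 / 2000) (29 / 500) 0 :=
  BoxOK.small c22_32 (KR.of fun H => Hz.h22b_32 H) (by norm_num) (by constructor <;> norm_num) (by norm_num)

theorem bx22_33 : BoxOK (59 / 200) (7 / 50) (4 / 25) (127 / 200) (69 / 100) (21 / 50) (3 / 5) (82 / 5) (123 / 2000) (29 / 500) 0 :=
  BoxOK.both c22_33 (KR.of fun H => Hz.h22b_33 H) (by norm_num)
    (by constructor <;> norm_num) (by constructor <;> norm_num)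

theorem bx22_34 : BoxOK (59 / 200) (7 / 50) (4 / 25) (69 / 100) (757 / 1000) (1 / 4) (7 / 20) (82 / 5) (123 / 2000) (29 / 500) 0 :=
  BoxOK.small c22_34 (KR.of fun H => Hz.h22b_34 H) (by norm_num) (by constructor <;> norm_num) (by norm_num)

theorem bx22_35 : BoxOK (59 / 200) (7 / 50) (4 / 25) (69 / 100) (757 / 1000) (7 / 20) (9 / 20) (82 / 5) (123 / 2000) (29 / 500) 0 :=
  BoxOK.small c22_35 (KR.of fun H => Hz.h22b_35 H) (by norm_num) (by constructor <;> norm_num) (by norm_num)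

theorem bx22_36 : BoxOK (59 / 200) (4 / 25) (9 / 50) (1 / 4) (49 / 100) (1 / 4) (1 / 2) (37 / 2) (123 / 2000) (29 / 500) 0 :=
  BoxOK.small c22_36 (KR.of fun H => Hz.h22b_36 H) (by norm_num) (by constructor <;> norm_num) (by norm_num)

theorem bx22_37 : BoxOK (59 / 200) (4 / 25) (9 / 50) (1 / 4) (49 / 100) (1 / 2) (757 / 1000) (37 / 2) (123 / 2000) (29 / 500) 0 :=
  BoxOK.both c22_37 (KR.of fun H => Hz.h22b_37 H) (by norm_num)
    (by constructor <;> norm_num) (by constructor <;> norm_num)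

theorem bx22_38 : BoxOK (59 / 200) (9 / 50) (1 / 5) (1 / 4) (49 / 100) (1 / 4) (1 / 2) (37 / 2) (123 / 2000) (29 / 500) 0 :=
  BoxOK.small c22_38 (KR.of fun H => Hz.h22b_38 H) (by norm_num) (by constructor <;> norm_num) (by norm_num)

theorem bx22_39 : BoxOK (59 / 200) (9 / 50) (1 / 5) (1 / 4) (49 / 100) (1 / 2) (757 / 1000) (37 / 2) (123 / 2000) (29 / 500) 0 :=
  BoxOK.both c22_39 (KR.of fun H => Hz.h22b_39 H) (by norm_num)
    (by constructor <;> norm_num) (by constructor <;> norm_num)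

end Pool.Agent.S3.T2
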