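import Pool.Agent.S3.Hz.Main
import Pool.Agent.S3.W3.Cert
import Pool.Agent.S3.W3.Glue
import Pool.Agent.S3.W3.Rect

/-!
# Two vertices with two half twists: box 42 (generated)
-/

set_option autoImplicit false

namespace Pool.Agent.S3.T2

open Complex Pool.Agent.S3.NI

def c22P42 : P1.Par := ⟨⟨587336777, 868657136⟩, ⟨613106581, 880468296⟩, 268435456, 740881859, 48258252, 159983237⟩

theorem c22R42 : certR ⟨587336777, 868657136⟩ ⟨613106581, 880468296⟩ 1 1 24 ⟨526133493, 812822561⟩ (rng 587784 684576 1000000) = true := by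
  decide +kernel

theorem c22A42_0 : TA (31 / 100) (1569 / 5000) ⟨1579710709, 1623588987⟩ :=
  ⟨by norm_num, by norm_num, le_tan_num (by norm_num) (by norm_num) (by norm_num) (by norm_num),
    tan_le_num (by norm_num) (by norm_num) (by norm_num) (by norm_num)⟩

theorem c22C42_0 : cert1 c22P42 4 3 435939181 601295421 4 15 10 5 34 ⟨1579710709, 1623588987⟩ ⟨285488819, 454298194⟩
    ⟨8375186, 1073741824⟩ ⟨113182549, 327839982⟩ = true := by
  decide +kernel

theorem c22A42_1 : TA (1569 / 5000) (127 / 400) ⟨1621047465, 1665010420⟩ :=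
  ⟨by norm_num, by norm_num, le_tan_num (by norm_num) (by norm_num) (by norm_num) (by norm_num),
    tan_le_num (by norm_num) (by norm_num) (by norm_num) (by norm_num)⟩

theorem c22C42_1 : cert1 c22P42 4 3 435939181 601295421 4 15 10 5 34 ⟨1621047465, 1665010420⟩ ⟨280836015, 447682644⟩
    ⟨8375186, 1073741824⟩ ⟨113182549, 327839982⟩ = true := by
  decide +kernel

theorem c22A42_2 : TA (127 / 400) (13 / 40) ⟨1662747863, 1753831562⟩ :=
  ⟨by norm_num, by norm_num, le_tan_num (by norm_num) (by norm_num) (by norm_num) (by norm_num),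
    tan_le_num (by norm_num) (by norm_num) (by norm_num) (by norm_num)⟩

theorem c22C42_2 : cert1 c22P42 4 3 435939181 601295421 4 15 10 5 34 ⟨1662747863, 1753831562⟩ ⟨271232043, 441131261⟩
    ⟨8375186, 1073741824⟩ ⟨113182549, 327839982⟩ = true := by
  decide +kernel

theorem c22A42_3 : TA (13 / 40) (133 / 400) ⟨1752053911, 1849871973⟩ :=
  ⟨by norm_num, by norm_num, le_tan_num (by norm_num) (by norm_num) (by norm_num) (by norm_num),
    tan_le_num (by norm_num) (by norm_num) (by norm_num) (by norm_num)⟩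

theorem c22C42_3 : cert1 c22P42 4 3 435939181 601295421 4 15 10 5 34 ⟨1752053911, 1849871973⟩ ⟨261402449, 427516933⟩
    ⟨8375186, 1073741824⟩ ⟨113182549, 327839982⟩ = true := by
  decide +kernel

theorem c22A42_4 : TA (133 / 400) (17 / 50) ⟨1848486399, 1954132144⟩ :=
  ⟨by norm_num, by norm_num, le_tan_num (by norm_num) (by norm_num) (by norm_num) (by norm_num),
    tan_le_num (by norm_num) (by norm_num) (by norm_num) (by norm_num)⟩

theorem c22C42_4 : cert1 c22P42 4 3 435939181 601295421 4 15 10 5 34 ⟨1848486399, 1954132144⟩ ⟨251353985, 413452564⟩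
    ⟨8375186, 1073741824⟩ ⟨113182549, 327839982⟩ = true := by
  decide +kernel

theorem c22A42_5 : TA (17 / 50) (71 / 200) ⟨1953061593, 2192367520⟩ :=
  ⟨by norm_num, by norm_num, le_tan_num (by norm_num) (by norm_num) (by norm_num) (by norm_num),
    tan_le_num (by norm_num) (by norm_num) (by norm_num) (by norm_num)⟩

theorem c22C42_5 : cert1 c22P42 4 3 435939181 601295421 4 15 10 5 34 ⟨1953061593, 2192367520⟩ ⟨230628083, 398936926⟩
    ⟨8375186, 1073741824⟩ ⟨113182549, 327839982⟩ = true := by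
  decide +kernel

theorem c22A42_6 : TA (71 / 200) (37 / 100) ⟨2191747345, 2481598799⟩ :=
  ⟨by norm_num, by norm_num, le_tan_num (by norm_num) (by norm_num) (by norm_num) (by norm_num),
    tan_le_num (by norm_num) (by norm_num) (by norm_num) (by norm_num)⟩

theorem c22C42_6 : cert1 c22P42 4 3 435939181 601295421 4 15 10 5 34 ⟨2191747345, 2481598799⟩ ⟨209111384, 368554601⟩
    ⟨8375186, 1073741824⟩ ⟨113182549, 327839982⟩ = true := by
  decide +kernel

theorem c22A42_7 : TA (37 / 100) (19 / 50) ⟨2481256305, 2712177144⟩ :=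
  ⟨by norm_num, by norm_num, le_tan_num (by norm_num) (by norm_num) (by norm_num) (by norm_num),
    tan_le_num (by norm_num) (by norm_num) (by norm_num) (by norm_num)⟩

theorem c22C42_7 : cert1 c22P42 7 5 435939181 601295421 4 15 10 5 34 ⟨2481256305, 2712177144⟩ ⟨194357385, 336392183⟩
    ⟨8375186, 1073741824⟩ ⟨113182549, 327839982⟩ = true := by
  decide +kernel

theorem c22A42_8 : TA (19 / 50) (2 / 5) ⟨2711953937, 3304720923⟩ :=
  ⟨by norm_num, by norm_num, le_tan_num (by norm_num) (by norm_num) (by norm_num) (by norm_num),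
    tan_le_num (by norm_num) (by norm_num) (by norm_num) (by norm_num)⟩

theorem c22C42_8 : cert1 c22P42 3 2 435939181 601295421 4 15 10 5 34 ⟨2711953937, 3304720923⟩ ⟨163953064, 313985582⟩
    ⟨8375186, 1073741824⟩ ⟨113182549, 327839982⟩ = true := by
  decide +kernel

def c22Q42_4 : P2.Par := ⟨⟨587336777, 868657136⟩, ⟨613106581, 880468296⟩, 268435456, 740881859, 4, 3, 71940702, 0, 0, 75161928⟩

theorem c22B42_0 : TA (731 / 2000) (37 / 100) ⟨2388050380, 2481598799⟩ :=
  ⟨by norm_num, by norm_num, le_tan_num (by norm_num) (by norm_num) (by norm_num) (by norm_num),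
    tan_le_num (by norm_num) (by norm_num) (by norm_num) (by norm_num)⟩

theorem c22D42_0 : cert2 c22Q42_4 20 100 50 30 ⟨2388050380, 2481598799⟩ ⟨209111384, 346225368⟩ ⟨8375186, 1073741824⟩ = true := by
  decide +kernel

def c22Q42_7 : P2.Par := ⟨⟨587336777, 868657136⟩, ⟨613106581, 880468296⟩, 268435456, 740881859, 7, 5, 71940702, 0, 0, 75161928⟩

theorem c22B42_1 : TA (37 / 100) (19 / 50) ⟨2481256305, 2712177144⟩ :=
  ⟨by norm_num, by norm_num, le_tan_num (by norm_num) (by norm_num) (by norm_num) (by norm_num),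
    tan_le_num (by norm_num) (by norm_num) (by norm_num) (by norm_num)⟩

theorem c22D42_1 : cert2 c22Q42_7 20 100 50 30 ⟨2481256305, 2712177144⟩ ⟨194357385, 336392183⟩ ⟨8375186, 1073741824⟩ = true := by
  decide +kernel

def c22Q42_3 : P2.Par := ⟨⟨587336777, 868657136⟩, ⟨613106581, 880468296⟩, 268435456, 740881859, 3, 2, 71940702, 0, 0, 75161928⟩

theorem c22B42_2 : TA (19 / 50) (2 / 5) ⟨2711953937, 3304720923⟩ :=
  ⟨by norm_num, by norm_num, le_tan_num (by norm_num) (by norm_num) (by norm_num) (by norm_num),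
    tan_le_num (by norm_num) (by norm_num) (by norm_num) (by norm_num)⟩

theorem c22D42_2 : cert2 c22Q42_3 20 100 50 30 ⟨2711953937, 3304720923⟩ ⟨163953064, 313985582⟩ ⟨8375186, 1073741824⟩ = true := by
  decide +kernel

/-- The box: `re w ∈ [1/5, 6/25]`, `tan² θ' ∈ [49/100, 757/1000]`, `tan² θ ∈ [1/4, 69/100]`, base `31/100`. -/
theorem c22_42 : Cert22 (31 / 100) (1 / 5) (6 / 25) (49 / 100) (757 / 1000) (1 / 4) (69 / 100) (53 / 250) (193 / 500) (731 / 2000)
    (435939181 / 1073741824) (601295421 / 1073741824) (35970351 / 536870912) (9395241 / 134217728) where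
  k0 := by norm_num
  k1 := by norm_num
  hw := by norm_num
  hw' := by norm_num
  P0 := ⟨(2388461977 / 1073741824), tan_le_num (by norm_num) (by norm_num) (by norm_num) (by norm_num), by norm_num⟩
  ph := by
    intro θ θ' h0 w hθ0 hθ1 hθ' r0 r1 r2 hwl hwi t0 t1 u0 u1 hh k0 k1
    have mS : Mem (Real.tan θ' ^ 2) ⟨526133493, 812822561⟩ := ⟨le_trans (by norm_num)
      (mul_le_mul_of_nonneg_right t0 (by norm_num)), (mul_le_mul_of_nonneg_right t1
        (by norm_num)).trans (by norm_num)⟩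
    have mZ : Mem (Real.sin (Real.pi * w.re)) (rng 587784 684576 1000000) :=
      Hz.w_mem_sin (x1 := (314159 / 500000)) (x2 := (11781 / 15625)) (by norm_num) r0 r1 (by norm_num) (by norm_num)
        (by norm_num) (by norm_num) (by norm_num) (by norm_num) (by norm_num) (by norm_num)
    obtain ⟨mr, mi⟩ := rect_of c22R42 mS mZ (by linarith) hθ' (by linarith) (by linarith) hwl
    have us0 : ((c22P42.slo : ℕ) : ℝ) / 1073741824 ≤ Real.tan θ ^ 2 :=
      le_trans (by norm_num [c22P42]) u0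
    have us1 : Real.tan θ ^ 2 ≤ ((c22P42.shi : ℕ) : ℝ) / 1073741824 :=
      u1.trans (by norm_num [c22P42])
    have hk0 : ((c22P42.klo : ℕ) : ℝ) / 1073741824 * Real.tan θ ^ 2 ≤
        Real.sinh (Real.pi * h0) ^ 2 :=
      le_trans (mul_le_mul_of_nonneg_right (by norm_num [c22P42]) (sq_nonneg _)) k0
    have hk1 : Real.sinh (Real.pi * h0) ^ 2 ≤
        ((c22P42.khi : ℕ) : ℝ) / 1073741824 * Real.tan θ ^ 2 :=
      k1.trans (mul_le_mul_of_nonneg_right (by norm_num [c22P42]) (sq_nonneg _))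
    have v0 : 0 ≤ ((starRingEnd ℂ) w).re := by rw [conj_re]; linarith
    have v1 : ((starRingEnd ℂ) w).re < 1 / 2 := by rw [conj_re]; linarith
    have vi : ((starRingEnd ℂ) w).im ≤ 0 := by rw [conj_im]; linarith
    refine ⟨?_, ?_, ?_, ?_, ?_, ?_⟩
    · exact (Ph1.glue (Ph1.of_cert c22C42_0 c22A42_0 hθ0 hθ1 us0 us1 hh hk0 hk1 mr mi)
        (Ph1.glue (Ph1.of_cert c22C42_1 c22A42_1 hθ0 hθ1 us0 us1 hh hk0 hk1 mr mi)
        (Ph1.glue (Ph1.of_cert c22C42_2 c22A42_2 hθ0 hθ1 us0 us1 hh hk0 hk1 mr mi)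
        (Ph1.glue (Ph1.of_cert c22C42_3 c22A42_3 hθ0 hθ1 us0 us1 hh hk0 hk1 mr mi)
        (Ph1.glue (Ph1.of_cert c22C42_4 c22A42_4 hθ0 hθ1 us0 us1 hh hk0 hk1 mr mi)
        (Ph1.glue (Ph1.of_cert c22C42_5 c22A42_5 hθ0 hθ1 us0 us1 hh hk0 hk1 mr mi)
        (Ph1.of_cert c22C42_6 c22A42_6 hθ0 hθ1 us0 us1 hh hk0 hk1 mr mi))))))).mono
        (by norm_num) (by norm_num) (by norm_num) (by norm_num) (by norm_num)
    · exact (Ph1.of_cert c22C42_7 c22A42_7 hθ0 hθ1 us0 us1 hh hk0 hk1 mr mi).mono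
        (by norm_num) (by norm_num) (by norm_num) (by norm_num) (by norm_num)
    · exact (Ph1.of_cert c22C42_8 c22A42_8 hθ0 hθ1 us0 us1 hh hk0 hk1 mr mi).mono
        (by norm_num) (by norm_num) (by norm_num) (by norm_num) (by norm_num)
    · exact (Ph2.of_cert c22D42_0 c22B42_0 hθ0 hθ1 (by simpa [c22Q42_4, c22P42] using us0)
        (by simpa [c22Q42_4, c22P42] using us1) v0 v1 vi (by simpa [c22Q42_4, c22P42] using mr)
        (by simpa [c22Q42_4, c22P42] using mi)).mono
        (by norm_num) (by norm_num) (by norm_num [c22Q42_4]) (by norm_num [c22Q42_4])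
        (by norm_num [c22Q42_4])
    · exact (Ph2.of_cert c22D42_1 c22B42_1 hθ0 hθ1 (by simpa [c22Q42_7, c22P42] using us0)
        (by simpa [c22Q42_7, c22P42] using us1) v0 v1 vi (by simpa [c22Q42_7, c22P42] using mr)
        (by simpa [c22Q42_7, c22P42] using mi)).mono
        (by norm_num) (by norm_num) (by norm_num [c22Q42_7]) (by norm_num [c22Q42_7])
        (by norm_num [c22Q42_7])
    · intro _; exact (Ph2.of_cert c22D42_2 c22B42_2 hθ0 hθ1 (by simpa [c22Q42_3, c22P42] using us0)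
        (by simpa [c22Q42_3, c22P42] using us1) v0 v1 vi (by simpa [c22Q42_3, c22P42] using mr)
        (by simpa [c22Q42_3, c22P42] using mi)).mono
        (by norm_num) (by norm_num) (by norm_num [c22Q42_3]) (by norm_num [c22Q42_3])
        (by norm_num [c22Q42_3])

end Pool.Agent.S3.T2
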