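import Pool.Agent.S3.Hz.Main
import Pool.Agent.S3.W3.Cert
import Pool.Agent.S3.W3.Glue
import Pool.Agent.S3.W3.Rect

/-!
# Two vertices with two half twists: box 43 (generated)
-/

set_option autoImplicit false

namespace Pool.Agent.S3.T2

open Complex Pool.Agent.S3.NI

def c22P43 : P1.Par := ⟨⟨395136991, 589484262⟩, ⟨352187318, 615254066⟩, 268435456, 812822561, 15461882, 95352569⟩

theorem c22R43 : certR ⟨395136991, 589484262⟩ ⟨352187318, 615254066⟩ 1 1 24 ⟨268435456, 526133494⟩ (rng 684540 770514 1000000) = true := by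
  decide +kernel

theorem c22A43_0 : TA (643 / 2000) (819 / 2500) ⟨1709546396, 1786260903⟩ :=
  ⟨by norm_num, by norm_num, le_tan_num (by norm_num) (by norm_num) (by norm_num) (by norm_num),
    tan_le_num (by norm_num) (by norm_num) (by norm_num) (by norm_num)⟩

theorem c22C43_0 : cert1 c22P43 4 3 328564998 429496730 4 15 10 5 34 ⟨1709546396, 1786260903⟩ ⟨267849659, 450944044⟩
    ⟨8375186, 1073741824⟩ ⟨64308856, 269485967⟩ = true := by
  decide +kernel

theorem c22A43_1 : TA (819 / 2500) (417 / 1250) ⟨1784628828, 1864622799⟩ :=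
  ⟨by norm_num, by norm_num, le_tan_num (by norm_num) (by norm_num) (by norm_num) (by norm_num),
    tan_le_num (by norm_num) (by norm_num) (by norm_num) (by norm_num)⟩

theorem c22C43_1 : cert1 c22P43 4 3 328564998 429496730 4 15 10 5 34 ⟨1784628828, 1864622799⟩ ⟨259942208, 439444988⟩
    ⟨8375186, 1073741824⟩ ⟨64308856, 269485967⟩ = true := by
  decide +kernel

theorem c22A43_2 : TA (417 / 1250) (1729 / 5000) ⟨1863287905, 2041148991⟩ :=
  ⟨by norm_num, by norm_num, le_tan_num (by norm_num) (by norm_num) (by norm_num) (by norm_num),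
    tan_le_num (by norm_num) (by norm_num) (by norm_num) (by norm_num)⟩

theorem c22C43_2 : cert1 c22P43 4 3 328564998 429496730 4 15 10 5 34 ⟨1863287905, 2041148991⟩ ⟨243437446, 427822950⟩
    ⟨8375186, 1073741824⟩ ⟨64308856, 269485967⟩ = true := by
  decide +kernel

theorem c22A43_3 : TA (1729 / 5000) (37 / 100) ⟨2040277787, 2481598799⟩ :=
  ⟨by norm_num, by norm_num, le_tan_num (by norm_num) (by norm_num) (by norm_num) (by norm_num),
    tan_le_num (by norm_num) (by norm_num) (by norm_num) (by norm_num)⟩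

theorem c22C43_3 : cert1 c22P43 4 3 328564998 429496730 4 15 10 5 34 ⟨2040277787, 2481598799⟩ ⟨209111384, 403234713⟩
    ⟨8375186, 1073741824⟩ ⟨64308856, 269485967⟩ = true := by
  decide +kernel

theorem c22A43_4 : TA (37 / 100) (19 / 50) ⟨2481256305, 2712177144⟩ :=
  ⟨by norm_num, by norm_num, le_tan_num (by norm_num) (by norm_num) (by norm_num) (by norm_num),
    tan_le_num (by norm_num) (by norm_num) (by norm_num) (by norm_num)⟩

theorem c22C43_4 : cert1 c22P43 7 5 328564998 429496730 4 15 10 5 34 ⟨2481256305, 2712177144⟩ ⟨194357385, 350678837⟩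
    ⟨8375186, 1073741824⟩ ⟨64308856, 269485967⟩ = true := by
  decide +kernel

theorem c22A43_5 : TA (19 / 50) (2 / 5) ⟨2711953937, 3304720923⟩ :=
  ⟨by norm_num, by norm_num, le_tan_num (by norm_num) (by norm_num) (by norm_num) (by norm_num),
    tan_le_num (by norm_num) (by norm_num) (by norm_num) (by norm_num)⟩

theorem c22C43_5 : cert1 c22P43 3 2 328564998 429496730 4 15 10 5 34 ⟨2711953937, 3304720923⟩ ⟨163953064, 327519776⟩
    ⟨8375186, 1073741824⟩ ⟨64308856, 269485967⟩ = true := by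
  decide +kernel

def c22Q43_3 : P2.Par := ⟨⟨395136991, 589484262⟩, ⟨352187318, 615254066⟩, 268435456, 812822561, 3, 2, 0, 688268509, 912680550, 0⟩

theorem c22B43_0 : TA (159 / 400) (2 / 5) ⟨3218404059, 3304720923⟩ :=
  ⟨by norm_num, by norm_num, le_tan_num (by norm_num) (by norm_num) (by norm_num) (by norm_num),
    tan_le_num (by norm_num) (by norm_num) (by norm_num) (by norm_num)⟩

theorem c22D43_0 : cert2 c22Q43_3 20 100 50 30 ⟨3218404059, 3304720923⟩ ⟨163953064, 285049694⟩ ⟨8375186, 1073741824⟩ = true := by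
  decide +kernel

/-- The box: `re w ∈ [6/25, 7/25]`, `tan² θ' ∈ [1/4, 49/100]`, `tan² θ ∈ [1/4, 757/1000]`, base `643/2000`. -/
theorem c22_43 : Cert22 (643 / 2000) (6 / 25) (7 / 25) (1 / 4) (49 / 100) (1 / 4) (757 / 1000) (3 / 25) (149 / 500) (159 / 400)
    (164282499 / 536870912) (214748365 / 536870912) (-688268509 / 1073741824) (-456340275 / 536870912) where
  k0 := by norm_num
  k1 := by norm_num
  hw := by norm_num
  hw' := by norm_num
  P0 := ⟨(3218501721 / 1073741824), tan_le_num (by norm_num) (by norm_num) (by norm_num) (by norm_num), by norm_num⟩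
  ph := by
    intro θ θ' h0 w hθ0 hθ1 hθ' r0 r1 r2 hwl hwi t0 t1 u0 u1 hh k0 k1
    have mS : Mem (Real.tan θ' ^ 2) ⟨268435456, 526133494⟩ := ⟨le_trans (by norm_num)
      (mul_le_mul_of_nonneg_right t0 (by norm_num)), (mul_le_mul_of_nonneg_right t1
        (by norm_num)).trans (by norm_num)⟩
    have mZ : Mem (Real.sin (Real.pi * w.re)) (rng 684540 770514 1000000) :=
      Hz.w_mem_cos (x1 := (3455749 / 5000000)) (x2 := (51051 / 62500)) (by norm_num) r0 r1 (by norm_num) (by norm_num)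
        (by norm_num) (by norm_num) (by norm_num) (by norm_num) (by norm_num) (by norm_num)
    obtain ⟨mr, mi⟩ := rect_of c22R43 mS mZ (by linarith) hθ' (by linarith) (by linarith) hwl
    have us0 : ((c22P43.slo : ℕ) : ℝ) / 1073741824 ≤ Real.tan θ ^ 2 :=
      le_trans (by norm_num [c22P43]) u0
    have us1 : Real.tan θ ^ 2 ≤ ((c22P43.shi : ℕ) : ℝ) / 1073741824 :=
      u1.trans (by norm_num [c22P43])
    have hk0 : ((c22P43.klo : ℕ) : ℝ) / 1073741824 * Real.tan θ ^ 2 ≤
        Real.sinh (Real.pi * h0) ^ 2 :=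
      le_trans (mul_le_mul_of_nonneg_right (by norm_num [c22P43]) (sq_nonneg _)) k0
    have hk1 : Real.sinh (Real.pi * h0) ^ 2 ≤
        ((c22P43.khi : ℕ) : ℝ) / 1073741824 * Real.tan θ ^ 2 :=
      k1.trans (mul_le_mul_of_nonneg_right (by norm_num [c22P43]) (sq_nonneg _))
    have v0 : 0 ≤ ((starRingEnd ℂ) w).re := by rw [conj_re]; linarith
    have v1 : ((starRingEnd ℂ) w).re < 1 / 2 := by rw [conj_re]; linarith
    have vi : ((starRingEnd ℂ) w).im ≤ 0 := by rw [conj_im]; linarith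
    refine ⟨?_, ?_, ?_, ?_, ?_, ?_⟩
    · exact (Ph1.glue (Ph1.of_cert c22C43_0 c22A43_0 hθ0 hθ1 us0 us1 hh hk0 hk1 mr mi)
        (Ph1.glue (Ph1.of_cert c22C43_1 c22A43_1 hθ0 hθ1 us0 us1 hh hk0 hk1 mr mi)
        (Ph1.glue (Ph1.of_cert c22C43_2 c22A43_2 hθ0 hθ1 us0 us1 hh hk0 hk1 mr mi)
        (Ph1.of_cert c22C43_3 c22A43_3 hθ0 hθ1 us0 us1 hh hk0 hk1 mr mi)))).mono
        (by norm_num) (by norm_num) (by norm_num) (by norm_num) (by norm_num)
    · exact (Ph1.of_cert c22C43_4 c22A43_4 hθ0 hθ1 us0 us1 hh hk0 hk1 mr mi).mono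
        (by norm_num) (by norm_num) (by norm_num) (by norm_num) (by norm_num)
    · exact (Ph1.of_cert c22C43_5 c22A43_5 hθ0 hθ1 us0 us1 hh hk0 hk1 mr mi).mono
        (by norm_num) (by norm_num) (by norm_num) (by norm_num) (by norm_num)
    · exact Ph2.vac (by norm_num)
    · exact Ph2.vac (by norm_num)
    · intro _; exact (Ph2.of_cert c22D43_0 c22B43_0 hθ0 hθ1 (by simpa [c22Q43_3, c22P43] using us0)
        (by simpa [c22Q43_3, c22P43] using us1) v0 v1 vi (by simpa [c22Q43_3, c22P43] using mr)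
        (by simpa [c22Q43_3, c22P43] using mi)).mono
        (by norm_num) (by norm_num) (by norm_num [c22Q43_3]) (by norm_num [c22Q43_3])
        (by norm_num [c22Q43_3])

end Pool.Agent.S3.T2
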