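import Pool.Agent.S3.Hz.Main
import Pool.Agent.S3.W3.Cert
import Pool.Agent.S3.W3.Glue
import Pool.Agent.S3.W3.Rect

/-!
# Two vertices with two half twists: box 44 (generated)
-/

set_option autoImplicit false

namespace Pool.Agent.S3.T2

open Complex Pool.Agent.S3.NI

def c22P44 : P1.Par := ⟨⟨373662154, 599147938⟩, ⟨514322333, 805306368⟩, 268435456, 740881859, 23202487, 142266497⟩

theorem c22R44 : certR ⟨373662154, 599147938⟩ ⟨514322333, 805306368⟩ 1 1 24 ⟨526133493, 812822561⟩ (rng 684540 770514 1000000) = true := by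
  decide +kernel

theorem c22A44_0 : TA (643 / 2000) (819 / 2500) ⟨1709546396, 1786260903⟩ :=
  ⟨by norm_num, by norm_num, le_tan_num (by norm_num) (by norm_num) (by norm_num) (by norm_num),
    tan_le_num (by norm_num) (by norm_num) (by norm_num) (by norm_num)⟩

theorem c22C44_0 : cert1 c22P44 4 3 389768282 558345748 4 15 10 5 34 ⟨1709546396, 1786260903⟩ ⟨267849659, 433926162⟩
    ⟨8375186, 1073741824⟩ ⟨78707710, 310763068⟩ = true := by
  decide +kernel

theorem c22A44_1 : TA (819 / 2500) (417 / 1250) ⟨1784628828, 1864622799⟩ :=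
  ⟨by norm_num, by norm_num, le_tan_num (by norm_num) (by norm_num) (by norm_num) (by norm_num),
    tan_le_num (by norm_num) (by norm_num) (by norm_num) (by norm_num)⟩

theorem c22C44_1 : cert1 c22P44 4 3 389768282 558345748 4 15 10 5 34 ⟨1784628828, 1864622799⟩ ⟨259942208, 422692343⟩
    ⟨8375186, 1073741824⟩ ⟨78707710, 310763068⟩ = true := by
  decide +kernel

theorem c22A44_2 : TA (417 / 1250) (1729 / 5000) ⟨1863287905, 2041148991⟩ :=
  ⟨by norm_num, by norm_num, le_tan_num (by norm_num) (by norm_num) (by norm_num) (by norm_num),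
    tan_le_num (by norm_num) (by norm_num) (by norm_num) (by norm_num)⟩

theorem c22C44_2 : cert1 c22P44 4 3 389768282 558345748 4 15 10 5 34 ⟨1863287905, 2041148991⟩ ⟨243437446, 411351854⟩
    ⟨8375186, 1073741824⟩ ⟨78707710, 310763068⟩ = true := by
  decide +kernel

theorem c22A44_3 : TA (1729 / 5000) (3579 / 10000) ⟨2040277787, 2243809377⟩ :=
  ⟨by norm_num, by norm_num, le_tan_num (by norm_num) (by norm_num) (by norm_num) (by norm_num),
    tan_le_num (by norm_num) (by norm_num) (by norm_num) (by norm_num)⟩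

theorem c22C44_3 : cert1 c22P44 4 3 389768282 558345748 4 15 10 5 34 ⟨2040277787, 2243809377⟩ ⟨226528027, 387402193⟩
    ⟨8375186, 1073741824⟩ ⟨78707710, 310763068⟩ = true := by
  decide +kernel

theorem c22A44_4 : TA (3579 / 10000) (37 / 100) ⟨2243254212, 2481598799⟩ :=
  ⟨by norm_num, by norm_num, le_tan_num (by norm_num) (by norm_num) (by norm_num) (by norm_num),
    tan_le_num (by norm_num) (by norm_num) (by norm_num) (by norm_num)⟩

theorem c22C44_4 : cert1 c22P44 4 3 389768282 558345748 4 15 10 5 34 ⟨2243254212, 2481598799⟩ ⟨209111384, 362474180⟩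
    ⟨8375186, 1073741824⟩ ⟨78707710, 310763068⟩ = true := by
  decide +kernel

theorem c22A44_5 : TA (37 / 100) (19 / 50) ⟨2481256305, 2712177144⟩ :=
  ⟨by norm_num, by norm_num, le_tan_num (by norm_num) (by norm_num) (by norm_num) (by norm_num),
    tan_le_num (by norm_num) (by norm_num) (by norm_num) (by norm_num)⟩

theorem c22C44_5 : cert1 c22P44 7 5 389768282 558345748 4 15 10 5 34 ⟨2481256305, 2712177144⟩ ⟨194357385, 336392183⟩
    ⟨8375186, 1073741824⟩ ⟨78707710, 310763068⟩ = true := by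
  decide +kernel

theorem c22A44_6 : TA (19 / 50) (2 / 5) ⟨2711953937, 3304720923⟩ :=
  ⟨by norm_num, by norm_num, le_tan_num (by norm_num) (by norm_num) (by norm_num) (by norm_num),
    tan_le_num (by norm_num) (by norm_num) (by norm_num) (by norm_num)⟩

theorem c22C44_6 : cert1 c22P44 3 2 389768282 558345748 4 15 10 5 34 ⟨2711953937, 3304720923⟩ ⟨163953064, 313985582⟩
    ⟨8375186, 1073741824⟩ ⟨78707710, 310763068⟩ = true := by
  decide +kernel

def c22Q44_7 : P2.Par := ⟨⟨373662154, 599147938⟩, ⟨514322333, 805306368⟩, 268435456, 740881859, 7, 5, 151397597, 0, 0, 214748365⟩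

theorem c22B44_0 : TA (747 / 2000) (19 / 50) ⟨2558067333, 2712177144⟩ :=
  ⟨by norm_num, by norm_num, le_tan_num (by norm_num) (by norm_num) (by norm_num) (by norm_num),
    tan_le_num (by norm_num) (by norm_num) (by norm_num) (by norm_num)⟩

theorem c22D44_0 : cert2 c22Q44_7 20 100 50 30 ⟨2558067333, 2712177144⟩ ⟨194357385, 328636324⟩ ⟨8375186, 1073741824⟩ = true := by
  decide +kernel

def c22Q44_3 : P2.Par := ⟨⟨373662154, 599147938⟩, ⟨514322333, 805306368⟩, 268435456, 740881859, 3, 2, 151397597, 0, 0, 214748365⟩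

theorem c22B44_1 : TA (19 / 50) (2 / 5) ⟨2711953937, 3304720923⟩ :=
  ⟨by norm_num, by norm_num, le_tan_num (by norm_num) (by norm_num) (by norm_num) (by norm_num),
    tan_le_num (by norm_num) (by norm_num) (by norm_num) (by norm_num)⟩

theorem c22D44_1 : cert2 c22Q44_3 20 100 50 30 ⟨2711953937, 3304720923⟩ ⟨163953064, 313985582⟩ ⟨8375186, 1073741824⟩ = true := by
  decide +kernel

/-- The box: `re w ∈ [6/25, 7/25]`, `tan² θ' ∈ [49/100, 757/1000]`, `tan² θ ∈ [1/4, 69/100]`, base `643/2000`. -/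
theorem c22_44 : Cert22 (643 / 2000) (6 / 25) (7 / 25) (49 / 100) (757 / 1000) (1 / 4) (69 / 100) (147 / 1000) (91 / 250) (747 / 2000)
    (194884141 / 536870912) (139586437 / 268435456) (151397597 / 1073741824) (214748365 / 1073741824) where
  k0 := by norm_num
  k1 := by norm_num
  hw := by norm_num
  hw' := by norm_num
  P0 := ⟨(2558363115 / 1073741824), tan_le_num (by norm_num) (by norm_num) (by norm_num) (by norm_num), by norm_num⟩
  ph := by
    intro θ θ' h0 w hθ0 hθ1 hθ' r0 r1 r2 hwl hwi t0 t1 u0 u1 hh k0 k1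
    have mS : Mem (Real.tan θ' ^ 2) ⟨526133493, 812822561⟩ := ⟨le_trans (by norm_num)
      (mul_le_mul_of_nonneg_right t0 (by norm_num)), (mul_le_mul_of_nonneg_right t1
        (by norm_num)).trans (by norm_num)⟩
    have mZ : Mem (Real.sin (Real.pi * w.re)) (rng 684540 770514 1000000) :=
      Hz.w_mem_cos (x1 := (3455749 / 5000000)) (x2 := (51051 / 62500)) (by norm_num) r0 r1 (by norm_num) (by norm_num)
        (by norm_num) (by norm_num) (by norm_num) (by norm_num) (by norm_num) (by norm_num)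
    obtain ⟨mr, mi⟩ := rect_of c22R44 mS mZ (by linarith) hθ' (by linarith) (by linarith) hwl
    have us0 : ((c22P44.slo : ℕ) : ℝ) / 1073741824 ≤ Real.tan θ ^ 2 :=
      le_trans (by norm_num [c22P44]) u0
    have us1 : Real.tan θ ^ 2 ≤ ((c22P44.shi : ℕ) : ℝ) / 1073741824 :=
      u1.trans (by norm_num [c22P44])
    have hk0 : ((c22P44.klo : ℕ) : ℝ) / 1073741824 * Real.tan θ ^ 2 ≤
        Real.sinh (Real.pi * h0) ^ 2 :=
      le_trans (mul_le_mul_of_nonneg_right (by norm_num [c22P44]) (sq_nonneg _)) k0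
    have hk1 : Real.sinh (Real.pi * h0) ^ 2 ≤
        ((c22P44.khi : ℕ) : ℝ) / 1073741824 * Real.tan θ ^ 2 :=
      k1.trans (mul_le_mul_of_nonneg_right (by norm_num [c22P44]) (sq_nonneg _))
    have v0 : 0 ≤ ((starRingEnd ℂ) w).re := by rw [conj_re]; linarith
    have v1 : ((starRingEnd ℂ) w).re < 1 / 2 := by rw [conj_re]; linarith
    have vi : ((starRingEnd ℂ) w).im ≤ 0 := by rw [conj_im]; linarith
    refine ⟨?_, ?_, ?_, ?_, ?_, ?_⟩
    · exact (Ph1.glue (Ph1.of_cert c22C44_0 c22A44_0 hθ0 hθ1 us0 us1 hh hk0 hk1 mr mi)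
        (Ph1.glue (Ph1.of_cert c22C44_1 c22A44_1 hθ0 hθ1 us0 us1 hh hk0 hk1 mr mi)
        (Ph1.glue (Ph1.of_cert c22C44_2 c22A44_2 hθ0 hθ1 us0 us1 hh hk0 hk1 mr mi)
        (Ph1.glue (Ph1.of_cert c22C44_3 c22A44_3 hθ0 hθ1 us0 us1 hh hk0 hk1 mr mi)
        (Ph1.of_cert c22C44_4 c22A44_4 hθ0 hθ1 us0 us1 hh hk0 hk1 mr mi))))).mono
        (by norm_num) (by norm_num) (by norm_num) (by norm_num) (by norm_num)
    · exact (Ph1.of_cert c22C44_5 c22A44_5 hθ0 hθ1 us0 us1 hh hk0 hk1 mr mi).mono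
        (by norm_num) (by norm_num) (by norm_num) (by norm_num) (by norm_num)
    · exact (Ph1.of_cert c22C44_6 c22A44_6 hθ0 hθ1 us0 us1 hh hk0 hk1 mr mi).mono
        (by norm_num) (by norm_num) (by norm_num) (by norm_num) (by norm_num)
    · exact Ph2.vac (by norm_num)
    · exact (Ph2.of_cert c22D44_0 c22B44_0 hθ0 hθ1 (by simpa [c22Q44_7, c22P44] using us0)
        (by simpa [c22Q44_7, c22P44] using us1) v0 v1 vi (by simpa [c22Q44_7, c22P44] using mr)
        (by simpa [c22Q44_7, c22P44] using mi)).mono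
        (by norm_num) (by norm_num) (by norm_num [c22Q44_7]) (by norm_num [c22Q44_7])
        (by norm_num [c22Q44_7])
    · intro _; exact (Ph2.of_cert c22D44_1 c22B44_1 hθ0 hθ1 (by simpa [c22Q44_3, c22P44] using us0)
        (by simpa [c22Q44_3, c22P44] using us1) v0 v1 vi (by simpa [c22Q44_3, c22P44] using mr)
        (by simpa [c22Q44_3, c22P44] using mi)).mono
        (by norm_num) (by norm_num) (by norm_num [c22Q44_3]) (by norm_num [c22Q44_3])
        (by norm_num [c22Q44_3])

end Pool.Agent.S3.T2
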