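import Pool.Agent.S3.Hz.Main
import Pool.Agent.S3.W3.Cert
import Pool.Agent.S3.W3.Rect

/-!
# Two vertices with two half twists: box 47 (generated)
-/

set_option autoImplicit false

namespace Pool.Agent.S3.T2

open Complex Pool.Agent.S3.NI

def c22P47 : P1.Par := ⟨⟨242665652, 343597384⟩, ⟨268435456, 455266534⟩, 268435456, 812822561, 5261334, 51028507⟩

theorem c22R47 : certR ⟨242665652, 343597384⟩ ⟨268435456, 455266534⟩ 1 1 24 ⟨268435456, 526133494⟩ (rng 809015 844329 1000000) = true := by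
  decide +kernel

theorem c22A47_0 : TA (69 / 200) (37 / 100) ⟨2027892204, 2481598799⟩ :=
  ⟨by norm_num, by norm_num, le_tan_num (by norm_num) (by norm_num) (by norm_num) (by norm_num),
    tan_le_num (by norm_num) (by norm_num) (by norm_num) (by norm_num)⟩

theorem c22C47_0 : cert1 c22P47 4 3 361850995 472446403 4 15 10 5 34 ⟨2027892204, 2481598799⟩ ⟨209111384, 404886393⟩
    ⟨8375186, 1073741824⟩ ⟨37557963, 200091910⟩ = true := by
  decide +kernel

theorem c22A47_1 : TA (37 / 100) (19 / 50) ⟨2481256305, 2712177144⟩ :=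
  ⟨by norm_num, by norm_num, le_tan_num (by norm_num) (by norm_num) (by norm_num) (by norm_num),
    tan_le_num (by norm_num) (by norm_num) (by norm_num) (by norm_num)⟩

theorem c22C47_1 : cert1 c22P47 7 5 361850995 472446403 4 15 10 5 34 ⟨2481256305, 2712177144⟩ ⟨194357385, 350678837⟩
    ⟨8375186, 1073741824⟩ ⟨37557963, 200091910⟩ = true := by
  decide +kernel

theorem c22A47_2 : TA (19 / 50) (2 / 5) ⟨2711953937, 3304720923⟩ :=
  ⟨by norm_num, by norm_num, le_tan_num (by norm_num) (by norm_num) (by norm_num) (by norm_num),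
    tan_le_num (by norm_num) (by norm_num) (by norm_num) (by norm_num)⟩

theorem c22C47_2 : cert1 c22P47 3 2 361850995 472446403 4 15 10 5 34 ⟨2711953937, 3304720923⟩ ⟨163953064, 327519776⟩
    ⟨8375186, 1073741824⟩ ⟨37557963, 200091910⟩ = true := by
  decide +kernel

/-- The box: `re w ∈ [3/10, 8/25]`, `tan² θ' ∈ [1/4, 49/100]`, `tan² θ ∈ [1/4, 757/1000]`, base `69/200`. -/
theorem c22_47 : Cert22 (69 / 200) (3 / 10) (8 / 25) (1 / 4) (49 / 100) (1 / 4) (757 / 1000) (7 / 100) (109 / 500) (2 / 5)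
    (361850995 / 1073741824) (472446403 / 1073741824) (0 / 1) (0 / 1) where
  k0 := by norm_num
  k1 := by norm_num
  hw := by norm_num
  hw' := by norm_num
  P0 := ⟨(3304720923 / 1073741824), tan_le_num (by norm_num) (by norm_num) (by norm_num) (by norm_num), by norm_num⟩
  ph := by
    intro θ θ' h0 w hθ0 hθ1 hθ' r0 r1 r2 hwl hwi t0 t1 u0 u1 hh k0 k1
    have mS : Mem (Real.tan θ' ^ 2) ⟨268435456, 526133494⟩ := ⟨le_trans (by norm_num)
      (mul_le_mul_of_nonneg_right t0 (by norm_num)), (mul_le_mul_of_nonneg_right t1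
        (by norm_num)).trans (by norm_num)⟩
    have mZ : Mem (Real.sin (Real.pi * w.re)) (rng 809015 844329 1000000) :=
      Hz.w_mem_cos (x1 := (2827431 / 5000000)) (x2 := (3927 / 6250)) (by norm_num) r0 r1 (by norm_num) (by norm_num)
        (by norm_num) (by norm_num) (by norm_num) (by norm_num) (by norm_num) (by norm_num)
    obtain ⟨mr, mi⟩ := rect_of c22R47 mS mZ (by linarith) hθ' (by linarith) (by linarith) hwl
    have us0 : ((c22P47.slo : ℕ) : ℝ) / 1073741824 ≤ Real.tan θ ^ 2 :=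
      le_trans (by norm_num [c22P47]) u0
    have us1 : Real.tan θ ^ 2 ≤ ((c22P47.shi : ℕ) : ℝ) / 1073741824 :=
      u1.trans (by norm_num [c22P47])
    have hk0 : ((c22P47.klo : ℕ) : ℝ) / 1073741824 * Real.tan θ ^ 2 ≤
        Real.sinh (Real.pi * h0) ^ 2 :=
      le_trans (mul_le_mul_of_nonneg_right (by norm_num [c22P47]) (sq_nonneg _)) k0
    have hk1 : Real.sinh (Real.pi * h0) ^ 2 ≤
        ((c22P47.khi : ℕ) : ℝ) / 1073741824 * Real.tan θ ^ 2 :=
      k1.trans (mul_le_mul_of_nonneg_right (by norm_num [c22P47]) (sq_nonneg _))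
    refine ⟨?_, ?_, ?_, ?_, ?_, ?_⟩
    · exact (Ph1.of_cert c22C47_0 c22A47_0 hθ0 hθ1 us0 us1 hh hk0 hk1 mr mi).mono
        (by norm_num) (by norm_num) (by norm_num) (by norm_num) (by norm_num)
    · exact (Ph1.of_cert c22C47_1 c22A47_1 hθ0 hθ1 us0 us1 hh hk0 hk1 mr mi).mono
        (by norm_num) (by norm_num) (by norm_num) (by norm_num) (by norm_num)
    · exact (Ph1.of_cert c22C47_2 c22A47_2 hθ0 hθ1 us0 us1 hh hk0 hk1 mr mi).mono
        (by norm_num) (by norm_num) (by norm_num) (by norm_num) (by norm_num)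
    · exact Ph2.vac (by norm_num)
    · exact Ph2.vac (by norm_num)
    · exact fun hc => absurd hc (by norm_num)

end Pool.Agent.S3.T2
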