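import Pool.Agent.S3.Hz.Main
import Pool.Agent.S3.W3.Cert
import Pool.Agent.S3.W3.Rect

/-!
# Two vertices with two half twists: box 48 (generated)
-/

set_option autoImplicit false

namespace Pool.Agent.S3.T2

open Complex Pool.Agent.S3.NI

def c22P48 : P1.Par := ⟨⟨208305913, 315680097⟩, ⟨388694540, 587336778⟩, 268435456, 740881859, 11171209, 104522325⟩

theorem c22R48 : certR ⟨208305913, 315680097⟩ ⟨388694540, 587336778⟩ 1 1 24 ⟨526133493, 812822561⟩ (rng 809015 844329 1000000) = true := by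
  decide +kernel

theorem c22A48_0 : TA (69 / 200) (37 / 100) ⟨2027892204, 2481598799⟩ :=
  ⟨by norm_num, by norm_num, le_tan_num (by norm_num) (by norm_num) (by norm_num) (by norm_num),
    tan_le_num (by norm_num) (by norm_num) (by norm_num) (by norm_num)⟩

theorem c22C48_0 : cert1 c22P48 4 3 369367187 493921239 4 15 10 5 34 ⟨2027892204, 2481598799⟩ ⟨209111384, 389009205⟩
    ⟨8375186, 1073741824⟩ ⟨54689752, 269378385⟩ = true := by
  decide +kernel

theorem c22A48_1 : TA (37 / 100) (19 / 50) ⟨2481256305, 2712177144⟩ :=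
  ⟨by norm_num, by norm_num, le_tan_num (by norm_num) (by norm_num) (by norm_num) (by norm_num),
    tan_le_num (by norm_num) (by norm_num) (by norm_num) (by norm_num)⟩

theorem c22C48_1 : cert1 c22P48 7 5 369367187 493921239 4 15 10 5 34 ⟨2481256305, 2712177144⟩ ⟨194357385, 336392183⟩
    ⟨8375186, 1073741824⟩ ⟨54689752, 269378385⟩ = true := by
  decide +kernel

theorem c22A48_2 : TA (19 / 50) (2 / 5) ⟨2711953937, 3304720923⟩ :=
  ⟨by norm_num, by norm_num, le_tan_num (by norm_num) (by norm_num) (by norm_num) (by norm_num),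
    tan_le_num (by norm_num) (by norm_num) (by norm_num) (by norm_num)⟩

theorem c22C48_2 : cert1 c22P48 3 2 369367187 493921239 4 15 10 5 34 ⟨2711953937, 3304720923⟩ ⟨163953064, 313985582⟩
    ⟨8375186, 1073741824⟩ ⟨54689752, 269378385⟩ = true := by
  decide +kernel

def c22Q48_3 : P2.Par := ⟨⟨208305913, 315680097⟩, ⟨388694540, 587336778⟩, 268435456, 740881859, 3, 2, 257698038, 0, 0, 332859965⟩

theorem c22B48_0 : TA (157 / 400) (2 / 5) ⟨3057565034, 3304720923⟩ :=
  ⟨by norm_num, by norm_num, le_tan_num (by norm_num) (by norm_num) (by norm_num) (by norm_num),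
    tan_le_num (by norm_num) (by norm_num) (by norm_num) (by norm_num)⟩

theorem c22D48_0 : cert2 c22Q48_3 20 100 50 30 ⟨3057565034, 3304720923⟩ ⟨163953064, 284931199⟩ ⟨8375186, 1073741824⟩ = true := by
  decide +kernel

/-- The box: `re w ∈ [3/10, 8/25]`, `tan² θ' ∈ [49/100, 757/1000]`, `tan² θ ∈ [1/4, 69/100]`, base `69/200`. -/
theorem c22_48 : Cert22 (69 / 200) (3 / 10) (8 / 25) (49 / 100) (757 / 1000) (1 / 4) (69 / 100) (51 / 500) (39 / 125) (157 / 400)
    (369367187 / 1073741824) (493921239 / 1073741824) (128849019 / 536870912) (332859965 / 1073741824) where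
  k0 := by norm_num
  k1 := by norm_num
  hw := by norm_num
  hw' := by norm_num
  P0 := ⟨(764422527 / 268435456), tan_le_num (by norm_num) (by norm_num) (by norm_num) (by norm_num), by norm_num⟩
  ph := by
    intro θ θ' h0 w hθ0 hθ1 hθ' r0 r1 r2 hwl hwi t0 t1 u0 u1 hh k0 k1
    have mS : Mem (Real.tan θ' ^ 2) ⟨526133493, 812822561⟩ := ⟨le_trans (by norm_num)
      (mul_le_mul_of_nonneg_right t0 (by norm_num)), (mul_le_mul_of_nonneg_right t1
        (by norm_num)).trans (by norm_num)⟩
    have mZ : Mem (Real.sin (Real.pi * w.re)) (rng 809015 844329 1000000) :=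
      Hz.w_mem_cos (x1 := (2827431 / 5000000)) (x2 := (3927 / 6250)) (by norm_num) r0 r1 (by norm_num) (by norm_num)
        (by norm_num) (by norm_num) (by norm_num) (by norm_num) (by norm_num) (by norm_num)
    obtain ⟨mr, mi⟩ := rect_of c22R48 mS mZ (by linarith) hθ' (by linarith) (by linarith) hwl
    have us0 : ((c22P48.slo : ℕ) : ℝ) / 1073741824 ≤ Real.tan θ ^ 2 :=
      le_trans (by norm_num [c22P48]) u0
    have us1 : Real.tan θ ^ 2 ≤ ((c22P48.shi : ℕ) : ℝ) / 1073741824 :=
      u1.trans (by norm_num [c22P48])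
    have hk0 : ((c22P48.klo : ℕ) : ℝ) / 1073741824 * Real.tan θ ^ 2 ≤
        Real.sinh (Real.pi * h0) ^ 2 :=
      le_trans (mul_le_mul_of_nonneg_right (by norm_num [c22P48]) (sq_nonneg _)) k0
    have hk1 : Real.sinh (Real.pi * h0) ^ 2 ≤
        ((c22P48.khi : ℕ) : ℝ) / 1073741824 * Real.tan θ ^ 2 :=
      k1.trans (mul_le_mul_of_nonneg_right (by norm_num [c22P48]) (sq_nonneg _))
    have v0 : 0 ≤ ((starRingEnd ℂ) w).re := by rw [conj_re]; linarith
    have v1 : ((starRingEnd ℂ) w).re < 1 / 2 := by rw [conj_re]; linarith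
    have vi : ((starRingEnd ℂ) w).im ≤ 0 := by rw [conj_im]; linarith
    refine ⟨?_, ?_, ?_, ?_, ?_, ?_⟩
    · exact (Ph1.of_cert c22C48_0 c22A48_0 hθ0 hθ1 us0 us1 hh hk0 hk1 mr mi).mono
        (by norm_num) (by norm_num) (by norm_num) (by norm_num) (by norm_num)
    · exact (Ph1.of_cert c22C48_1 c22A48_1 hθ0 hθ1 us0 us1 hh hk0 hk1 mr mi).mono
        (by norm_num) (by norm_num) (by norm_num) (by norm_num) (by norm_num)
    · exact (Ph1.of_cert c22C48_2 c22A48_2 hθ0 hθ1 us0 us1 hh hk0 hk1 mr mi).mono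
        (by norm_num) (by norm_num) (by norm_num) (by norm_num) (by norm_num)
    · exact Ph2.vac (by norm_num)
    · exact Ph2.vac (by norm_num)
    · intro _; exact (Ph2.of_cert c22D48_0 c22B48_0 hθ0 hθ1 (by simpa [c22Q48_3, c22P48] using us0)
        (by simpa [c22Q48_3, c22P48] using us1) v0 v1 vi (by simpa [c22Q48_3, c22P48] using mr)
        (by simpa [c22Q48_3, c22P48] using mi)).mono
        (by norm_num) (by norm_num) (by norm_num [c22Q48_3]) (by norm_num [c22Q48_3])
        (by norm_num [c22Q48_3])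

end Pool.Agent.S3.T2
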