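import Pool.Agent.S3.W3.Box
import Pool.Agent.S3.W3.C40
import Pool.Agent.S3.W3.C41
import Pool.Agent.S3.W3.C42
import Pool.Agent.S3.W3.C43
import Pool.Agent.S3.W3.C44
import Pool.Agent.S3.W3.C45
import Pool.Agent.S3.W3.C46
import Pool.Agent.S3.W3.C47
import Pool.Agent.S3.W3.C48
import Pool.Agent.S3.W3.C49
import Pool.Agent.S3.Hz.R22b_5
import Pool.Agent.S3.Hz.R22b_6

/-!
# Two vertices with two half twists: the boxes 40 to 49 (generated)
-/

set_option autoImplicit false

namespace Pool.Agent.S3.T2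

theorem bx22_40 : BoxOK (59 / 200) (4 / 25) (1 / 5) (49 / 100) (757 / 1000) (1 / 4) (69 / 100) (37 / 2) (123 / 2000) (29 / 500) 0 :=
  BoxOK.both c22_40 (KR.of fun H => Hz.h22b_40 H) (by norm_num)
    (by constructor <;> norm_num) (by constructor <;> norm_num)

theorem bx22_41 : BoxOK (31 / 100) (1 / 5) (6 / 25) (1 / 4) (49 / 100) (1 / 4) (757 / 1000) 20 (567 / 10000) (11 / 200) 0 :=
  BoxOK.both c22_41 (KR.of fun H => Hz.h22b_41 H) (by norm_num)
    (by constructor <;> norm_num) (by constructor <;> norm_num)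

theorem bx22_42 : BoxOK (31 / 100) (1 / 5) (6 / 25) (49 / 100) (757 / 1000) (1 / 4) (69 / 100) 20 (567 / 10000) (11 / 200) 0 :=
  BoxOK.both c22_42 (KR.of fun H => Hz.h22b_42 H) (by norm_num)
    (by constructor <;> norm_num) (by constructor <;> norm_num)

theorem bx22_43 : BoxOK (643 / 2000) (6 / 25) (7 / 25) (1 / 4) (49 / 100) (1 / 4) (757 / 1000) 20 (33 / 625) (13 / 250) 0 :=
  BoxOK.both c22_43 (KR.of fun H => Hz.h22b_43 H) (by norm_num)
    (by constructor <;> norm_num) (by constructor <;> norm_num)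

theorem bx22_44 : BoxOK (643 / 2000) (6 / 25) (7 / 25) (49 / 100) (757 / 1000) (1 / 4) (69 / 100) 20 (33 / 625) (13 / 250) 0 :=
  BoxOK.both c22_44 (KR.of fun H => Hz.h22b_44 H) (by norm_num)
    (by constructor <;> norm_num) (by constructor <;> norm_num)

theorem bx22_45 : BoxOK (67 / 200) (7 / 25) (3 / 10) (1 / 4) (49 / 100) (1 / 4) (757 / 1000) 20 (479 / 10000) (23 / 500) 0 :=
  BoxOK.both c22_45 (KR.of fun H => Hz.h22b_45 H) (by norm_num)
    (by constructor <;> norm_num) (by constructor <;> norm_num)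

theorem bx22_46 : BoxOK (67 / 200) (7 / 25) (3 / 10) (49 / 100) (757 / 1000) (1 / 4) (69 / 100) 20 (479 / 10000) (23 / 500) 0 :=
  BoxOK.both c22_46 (KR.of fun H => Hz.h22b_46 H) (by norm_num)
    (by constructor <;> norm_num) (by constructor <;> norm_num)

theorem bx22_47 : BoxOK (69 / 200) (3 / 10) (8 / 25) (1 / 4) (49 / 100) (1 / 4) (757 / 1000) 20 (479 / 10000) (23 / 500) 0 :=
  BoxOK.both c22_47 (KR.of fun H => Hz.h22b_47 H) (by norm_num)
    (by constructor <;> norm_num) (by constructor <;> norm_num)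

theorem bx22_48 : BoxOK (69 / 200) (3 / 10) (8 / 25) (49 / 100) (757 / 1000) (1 / 4) (69 / 100) 20 (479 / 10000) (23 / 500) 0 :=
  BoxOK.both c22_48 (KR.of fun H => Hz.h22b_48 H) (by norm_num)
    (by constructor <;> norm_num) (by constructor <;> norm_num)

theorem bx22_49 : BoxOK (71 / 200) (8 / 25) (69 / 200) (1 / 4) (49 / 100) (1 / 4) (757 / 1000) 20 (401 / 10000) (21 / 500) 0 :=
  BoxOK.both c22_49 (KR.of fun H => Hz.h22b_49 H) (by norm_num)
    (by constructor <;> norm_num) (by constructor <;> norm_num)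

end Pool.Agent.S3.T2
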