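import Pool.Agent.S3.W3.Bx2
import Pool.Agent.S3.W3.Bx3
import Pool.Agent.S3.W3.Bx4

/-!
# Two vertices with two half twists: the bins of `re w`, 3 to 4 (generated)
-/

set_option autoImplicit false

namespace Pool.Agent.S3.T2

open Complex Set
open Pool.Agent.H25.RK (gdv)

theorem K22_ge_3 {x : ℝ} (h1 : 3 / 25 < x) (h2 : x ≤ 4 / 25) : (82 / 5) ≤ K22 x := by
  unfold K22
  split_ifs <;> first | (exfalso; linarith) | norm_num

theorem K22_ge_4 {x : ℝ} (h1 : 4 / 25 < x) (h2 : x ≤ 1 / 5) : (37 / 2) ≤ K22 x := by
  unfold K22
  split_ifs <;> first | (exfalso; linarith) | norm_num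

section

variable {Φ : ℂ → ℂ → ℂ} {θ θ' xc xc' b b' : ℝ} {v w : ℂ}

theorem bin22_3 (E : E22 Φ θ θ' xc xc' b b') (hv : v ∈ G0 θ (2 / 5)) (hva : 59 / 200 ≤ v.re)
    (hwl : w.im = bl θ' w.re) (hw1 : 3 / 25 < w.re) (hw2 : w.re ≤ 4 / 25) :
    FlP Φ θ θ' xc xc' b b' (2 / 5) (2 / 5) (mu b (2 : ℝ) (2 / 5)) (mu b' (2 : ℝ) (2 / 5)) v w := by
  have hw0 : 0 ≤ w.re := by linarith
  have t0 := E.S.t0
  have t1 := E.S.t1
  have q0 := E.S'.t0
  have q1 := E.S'.t1
  have hX := E.S.x1
  have hR : R22 (59 / 200) w.re := ⟨by linarith, Or.inr (Or.inl ⟨⟨by linarith, by linarith⟩, by norm_num⟩)⟩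
  have hN : w.re ≤ 1 / 5 ∨ 31 / 100 ≤ (59 / 200 : ℝ) := Or.inl (by linarith)
  have hK := K22_ge_3 hw1 hw2
  rcases le_or_gt (Real.tan θ' ^ 2) (49 / 100) with hp2 | hp2
  · exact bx22_26.go E hK (by norm_num) (by norm_num) hX (by norm_num) (E.bp0 hw0 (by linarith)) hR hN
      (by linarith) (by linarith) (by linarith) (by linarith) hw0 (by linarith) (by linarith) (by linarith)
      hwl hv hva
  · have m1 := E.m1 hp2
    rcases le_or_gt (Real.tan θ' ^ 2) (127 / 200) with hp4 | hp4
    · exact bx22_27.go E hK (by norm_num) (by norm_num) hX (by norm_num) (E.bp0 hw0 (by linarith)) hR hN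
        (by linarith) (by linarith) (by linarith) (by linarith) hw0 (by linarith) (by linarith) (by linarith)
        hwl hv hva
    · have m2 := E.m2 hp4
      rcases le_or_gt (Real.tan θ' ^ 2) (69 / 100) with hp6 | hp6
      · rcases le_or_gt (w.re) (7 / 50) with hw8 | hw8
        · rcases le_or_gt (Real.tan θ ^ 2) (21 / 50) with hs10 | hs10
          · exact bx22_28.go E hK (by norm_num) (by norm_num) hX (by norm_num) (E.bp0 hw0 (by linarith)) hR hN
              (by linarith) (by linarith) (by linarith) (by linarith) hw0 (by linarith) (by linarith) (by linarith)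
              hwl hv hva
          · exact bx22_29.go E hK (by norm_num) (by norm_num) hX (by norm_num) (E.bp0 hw0 (by linarith)) hR hN
              (by linarith) (by linarith) (by linarith) (by linarith) hw0 (by linarith) (by linarith) (by linarith)
              hwl hv hva
        · rcases le_or_gt (Real.tan θ ^ 2) (21 / 50) with hs10 | hs10
          · exact bx22_32.go E hK (by norm_num) (by norm_num) hX (by norm_num) (E.bp0 hw0 (by linarith)) hR hN
              (by linarith) (by linarith) (by linarith) (by linarith) hw0 (by linarith) (by linarith) (by linarith)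
              hwl hv hva
          · exact bx22_33.go E hK (by norm_num) (by norm_num) hX (by norm_num) (E.bp0 hw0 (by linarith)) hR hN
              (by linarith) (by linarith) (by linarith) (by linarith) hw0 (by linarith) (by linarith) (by linarith)
              hwl hv hva
      · have m3 := E.m3 hp6
        rcases le_or_gt (w.re) (7 / 50) with hw8 | hw8
        · rcases le_or_gt (Real.tan θ ^ 2) (7 / 20) with hs10 | hs10
          · exact bx22_30.go E hK (by norm_num) (by norm_num) hX (by norm_num) (E.bp0 hw0 (by linarith)) hR hN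
              (by linarith) (by linarith) (by linarith) (by linarith) hw0 (by linarith) (by linarith) (by linarith)
              hwl hv hva
          · exact bx22_31.go E hK (by norm_num) (by norm_num) hX (by norm_num) (E.bp0 hw0 (by linarith)) hR hN
              (by linarith) (by linarith) (by linarith) (by linarith) hw0 (by linarith) (by linarith) (by linarith)
              hwl hv hva
        · rcases le_or_gt (Real.tan θ ^ 2) (7 / 20) with hs10 | hs10
          · exact bx22_34.go E hK (by norm_num) (by norm_num) hX (by norm_num) (E.bp0 hw0 (by linarith)) hR hN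
              (by linarith) (by linarith) (by linarith) (by linarith) hw0 (by linarith) (by linarith) (by linarith)
              hwl hv hva
          · exact bx22_35.go E hK (by norm_num) (by norm_num) hX (by norm_num) (E.bp0 hw0 (by linarith)) hR hN
              (by linarith) (by linarith) (by linarith) (by linarith) hw0 (by linarith) (by linarith) (by linarith)
              hwl hv hva

theorem bin22_4 (E : E22 Φ θ θ' xc xc' b b') (hv : v ∈ G0 θ (2 / 5)) (hva : 59 / 200 ≤ v.re)
    (hwl : w.im = bl θ' w.re) (hw1 : 4 / 25 < w.re) (hw2 : w.re ≤ 1 / 5) :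
    FlP Φ θ θ' xc xc' b b' (2 / 5) (2 / 5) (mu b (2 : ℝ) (2 / 5)) (mu b' (2 : ℝ) (2 / 5)) v w := by
  have hw0 : 0 ≤ w.re := by linarith
  have t0 := E.S.t0
  have t1 := E.S.t1
  have q0 := E.S'.t0
  have q1 := E.S'.t1
  have hX := E.S.x1
  have hR : R22 (59 / 200) w.re := ⟨by linarith, Or.inr (Or.inl ⟨⟨by linarith, by linarith⟩, by norm_num⟩)⟩
  have hN : w.re ≤ 1 / 5 ∨ 31 / 100 ≤ (59 / 200 : ℝ) := Or.inl (by linarith)
  have hK := K22_ge_4 hw1 hw2
  rcases le_or_gt (Real.tan θ' ^ 2) (49 / 100) with hp2 | hp2
  · rcases le_or_gt (w.re) (9 / 50) with hw4 | hw4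
    · rcases le_or_gt (Real.tan θ ^ 2) (1 / 2) with hs6 | hs6
      · exact bx22_36.go E hK (by norm_num) (by norm_num) hX (by norm_num) (E.bp0 hw0 (by linarith)) hR hN
          (by linarith) (by linarith) (by linarith) (by linarith) hw0 (by linarith) (by linarith) (by linarith)
          hwl hv hva
      · exact bx22_37.go E hK (by norm_num) (by norm_num) hX (by norm_num) (E.bp0 hw0 (by linarith)) hR hN
          (by linarith) (by linarith) (by linarith) (by linarith) hw0 (by linarith) (by linarith) (by linarith)
          hwl hv hva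
    · rcases le_or_gt (Real.tan θ ^ 2) (1 / 2) with hs6 | hs6
      · exact bx22_38.go E hK (by norm_num) (by norm_num) hX (by norm_num) (E.bp0 hw0 (by linarith)) hR hN
          (by linarith) (by linarith) (by linarith) (by linarith) hw0 (by linarith) (by linarith) (by linarith)
          hwl hv hva
      · exact bx22_39.go E hK (by norm_num) (by norm_num) hX (by norm_num) (E.bp0 hw0 (by linarith)) hR hN
          (by linarith) (by linarith) (by linarith) (by linarith) hw0 (by linarith) (by linarith) (by linarith)
          hwl hv hva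
  · have m1 := E.m1 hp2
    exact bx22_40.go E hK (by norm_num) (by norm_num) hX (by norm_num) (E.bp0 hw0 (by linarith)) hR hN
      (by linarith) (by linarith) (by linarith) (by linarith) hw0 (by linarith) (by linarith) (by linarith)
      hwl hv hva

end

end Pool.Agent.S3.T2
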