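import Pool.Agent.S3.W3.Bx4

/-!
# Two vertices with two half twists: the bins of `re w`, 5 to 7 (generated)
-/

set_option autoImplicit false

namespace Pool.Agent.S3.T2

open Complex Set
open Pool.Agent.H25.RK (gdv)

theorem K22_ge_5 {x : ℝ} (h1 : 1 / 5 < x) (h2 : x ≤ 6 / 25) : 20 ≤ K22 x := by
  unfold K22
  split_ifs <;> first | (exfalso; linarith) | norm_num

theorem K22_ge_6 {x : ℝ} (h1 : 6 / 25 < x) (h2 : x ≤ 7 / 25) : 20 ≤ K22 x := by
  unfold K22
  split_ifs <;> first | (exfalso; linarith) | norm_num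

theorem K22_ge_7 {x : ℝ} (h1 : 7 / 25 < x) (h2 : x ≤ 3 / 10) : 20 ≤ K22 x := by
  unfold K22
  split_ifs <;> first | (exfalso; linarith) | norm_num

section

variable {Φ : ℂ → ℂ → ℂ} {θ θ' xc xc' b b' : ℝ} {v w : ℂ}

theorem bin22_5 (E : E22 Φ θ θ' xc xc' b b') (hv : v ∈ G0 θ (2 / 5)) (hva : 31 / 100 ≤ v.re)
    (hwl : w.im = bl θ' w.re) (hw1 : 1 / 5 < w.re) (hw2 : w.re ≤ 6 / 25) :
    FlP Φ θ θ' xc xc' b b' (2 / 5) (2 / 5) (mu b (2 : ℝ) (2 / 5)) (mu b' (2 : ℝ) (2 / 5)) v w := by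
  have hw0 : 0 ≤ w.re := by linarith
  have t0 := E.S.t0
  have t1 := E.S.t1
  have q0 := E.S'.t0
  have q1 := E.S'.t1
  have hX := E.S.x2
  have hR : R22 (31 / 100) w.re := ⟨by linarith, Or.inr (Or.inr (Or.inl ⟨⟨by linarith, by linarith⟩, by norm_num⟩))⟩
  have hN : w.re ≤ 1 / 5 ∨ 31 / 100 ≤ (31 / 100 : ℝ) := Or.inr (by norm_num)
  have hK := K22_ge_5 hw1 hw2
  rcases le_or_gt (Real.tan θ' ^ 2) (49 / 100) with hp2 | hp2
  · exact bx22_41.go E hK (by norm_num) (by norm_num) hX (by norm_num) (E.bp0 hw0 (by linarith)) hR hN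
      (by linarith) (by linarith) (by linarith) (by linarith) hw0 (by linarith) (by linarith) (by linarith)
      hwl hv hva
  · have m1 := E.m1 hp2
    exact bx22_42.go E hK (by norm_num) (by norm_num) hX (by norm_num) (E.bp0 hw0 (by linarith)) hR hN
      (by linarith) (by linarith) (by linarith) (by linarith) hw0 (by linarith) (by linarith) (by linarith)
      hwl hv hva

theorem bin22_6 (E : E22 Φ θ θ' xc xc' b b') (hv : v ∈ G0 θ (2 / 5)) (hva : 643 / 2000 ≤ v.re)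
    (hwl : w.im = bl θ' w.re) (hw1 : 6 / 25 < w.re) (hw2 : w.re ≤ 7 / 25) :
    FlP Φ θ θ' xc xc' b b' (2 / 5) (2 / 5) (mu b (2 : ℝ) (2 / 5)) (mu b' (2 : ℝ) (2 / 5)) v w := by
  have hw0 : 0 ≤ w.re := by linarith
  have t0 := E.S.t0
  have t1 := E.S.t1
  have q0 := E.S'.t0
  have q1 := E.S'.t1
  have hX := E.S.x3
  have hR : R22 (643 / 2000) w.re := ⟨by linarith, Or.inr (Or.inr (Or.inr (Or.inl ⟨⟨by linarith, by linarith⟩, by norm_num⟩)))⟩
  have hN : w.re ≤ 1 / 5 ∨ 31 / 100 ≤ (643 / 2000 : ℝ) := Or.inr (by norm_num)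
  have hK := K22_ge_6 hw1 hw2
  rcases le_or_gt (Real.tan θ' ^ 2) (49 / 100) with hp2 | hp2
  · exact bx22_43.go E hK (by norm_num) (by norm_num) hX (by norm_num) (E.bp0 hw0 (by linarith)) hR hN
      (by linarith) (by linarith) (by linarith) (by linarith) hw0 (by linarith) (by linarith) (by linarith)
      hwl hv hva
  · have m1 := E.m1 hp2
    exact bx22_44.go E hK (by norm_num) (by norm_num) hX (by norm_num) (E.bp0 hw0 (by linarith)) hR hN
      (by linarith) (by linarith) (by linarith) (by linarith) hw0 (by linarith) (by linarith) (by linarith)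
      hwl hv hva

theorem bin22_7 (E : E22 Φ θ θ' xc xc' b b') (hv : v ∈ G0 θ (2 / 5)) (hva : 67 / 200 ≤ v.re)
    (hwl : w.im = bl θ' w.re) (hw1 : 7 / 25 < w.re) (hw2 : w.re ≤ 3 / 10) :
    FlP Φ θ θ' xc xc' b b' (2 / 5) (2 / 5) (mu b (2 : ℝ) (2 / 5)) (mu b' (2 : ℝ) (2 / 5)) v w := by
  have hw0 : 0 ≤ w.re := by linarith
  have t0 := E.S.t0
  have t1 := E.S.t1
  have q0 := E.S'.t0
  have q1 := E.S'.t1
  have hX := E.S.x4
  have hR : R22 (67 / 200) w.re := ⟨by linarith, Or.inr (Or.inr (Or.inr (Or.inr (Or.inl ⟨⟨by linarith, by linarith⟩, by norm_num⟩))))⟩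
  have hN : w.re ≤ 1 / 5 ∨ 31 / 100 ≤ (67 / 200 : ℝ) := Or.inr (by norm_num)
  have hK := K22_ge_7 hw1 hw2
  rcases le_or_gt (Real.tan θ' ^ 2) (49 / 100) with hp2 | hp2
  · exact bx22_45.go E hK (by norm_num) (by norm_num) hX (by norm_num) (E.bp0 hw0 (by linarith)) hR hN
      (by linarith) (by linarith) (by linarith) (by linarith) hw0 (by linarith) (by linarith) (by linarith)
      hwl hv hva
  · have m1 := E.m1 hp2
    exact bx22_46.go E hK (by norm_num) (by norm_num) hX (by norm_num) (E.bp0 hw0 (by linarith)) hR hN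
      (by linarith) (by linarith) (by linarith) (by linarith) hw0 (by linarith) (by linarith) (by linarith)
      hwl hv hva

end

end Pool.Agent.S3.T2
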