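import Pool.Agent.S3.Hz.Main
import Pool.Agent.S3.W3.Cert
import Pool.Agent.S3.W3.Rect

/-!
# Two vertices with two half twists: box 50 (generated)
-/

set_option autoImplicit false

namespace Pool.Agent.S3.T2

open Complex Pool.Agent.S3.NI

def c22P50 : P1.Par := ⟨⟨134217728, 244813136⟩, ⟨304942678, 500363690⟩, 268435456, 740881859, 1241245, 88443041⟩

theorem c22R50 : certR ⟨134217728, 244813136⟩ ⟨304942678, 500363690⟩ 1 1 24 ⟨526133493, 812822561⟩ (rng 844326 883766 1000000) = true := by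
  decide +kernel

theorem c22A50_0 : TA (71 / 200) (37 / 100) ⟨2191747345, 2481598799⟩ :=
  ⟨by norm_num, by norm_num, le_tan_num (by norm_num) (by norm_num) (by norm_num) (by norm_num),
    tan_le_num (by norm_num) (by norm_num) (by norm_num) (by norm_num)⟩

theorem c22C50_0 : cert1 c22P50 4 3 314606354 450971566 4 15 10 5 34 ⟨2191747345, 2481598799⟩ ⟨209111384, 368554601⟩
    ⟨8375186, 1073741824⟩ ⟨18250969, 249001980⟩ = true := by
  decide +kernel

theorem c22A50_1 : TA (37 / 100) (19 / 50) ⟨2481256305, 2712177144⟩ :=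
  ⟨by norm_num, by norm_num, le_tan_num (by norm_num) (by norm_num) (by norm_num) (by norm_num),
    tan_le_num (by norm_num) (by norm_num) (by norm_num) (by norm_num)⟩

theorem c22C50_1 : cert1 c22P50 7 5 314606354 450971566 4 15 10 5 34 ⟨2481256305, 2712177144⟩ ⟨194357385, 336392183⟩
    ⟨8375186, 1073741824⟩ ⟨18250969, 249001980⟩ = true := by
  decide +kernel

theorem c22A50_2 : TA (19 / 50) (2 / 5) ⟨2711953937, 3304720923⟩ :=
  ⟨by norm_num, by norm_num, le_tan_num (by norm_num) (by norm_num) (by norm_num) (by norm_num),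
    tan_le_num (by norm_num) (by norm_num) (by norm_num) (by norm_num)⟩

theorem c22C50_2 : cert1 c22P50 3 2 314606354 450971566 4 15 10 5 34 ⟨2711953937, 3304720923⟩ ⟨163953064, 313985582⟩
    ⟨8375186, 1073741824⟩ ⟨18250969, 249001980⟩ = true := by
  decide +kernel

/-- The box: `re w ∈ [8/25, 69/200]`, `tan² θ' ∈ [49/100, 757/1000]`, `tan² θ ∈ [1/4, 69/100]`, base `71/200`. -/
theorem c22_50 : Cert22 (71 / 200) (8 / 25) (69 / 200) (49 / 100) (757 / 1000) (1 / 4) (69 / 100) (17 / 500) (287 / 1000) (2 / 5)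
    (157303177 / 536870912) (225485783 / 536870912) (0 / 1) (0 / 1) where
  k0 := by norm_num
  k1 := by norm_num
  hw := by norm_num
  hw' := by norm_num
  P0 := ⟨(3304720923 / 1073741824), tan_le_num (by norm_num) (by norm_num) (by norm_num) (by norm_num), by norm_num⟩
  ph := by
    intro θ θ' h0 w hθ0 hθ1 hθ' r0 r1 r2 hwl hwi t0 t1 u0 u1 hh k0 k1
    have mS : Mem (Real.tan θ' ^ 2) ⟨526133493, 812822561⟩ := ⟨le_trans (by norm_num)
      (mul_le_mul_of_nonneg_right t0 (by norm_num)), (mul_le_mul_of_nonneg_right t1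
        (by norm_num)).trans (by norm_num)⟩
    have mZ : Mem (Real.sin (Real.pi * w.re)) (rng 844326 883766 1000000) :=
      Hz.w_mem_cos (x1 := (9738929 / 20000000)) (x2 := (35343 / 62500)) (by norm_num) r0 r1 (by norm_num) (by norm_num)
        (by norm_num) (by norm_num) (by norm_num) (by norm_num) (by norm_num) (by norm_num)
    obtain ⟨mr, mi⟩ := rect_of c22R50 mS mZ (by linarith) hθ' (by linarith) (by linarith) hwl
    have us0 : ((c22P50.slo : ℕ) : ℝ) / 1073741824 ≤ Real.tan θ ^ 2 :=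
      le_trans (by norm_num [c22P50]) u0
    have us1 : Real.tan θ ^ 2 ≤ ((c22P50.shi : ℕ) : ℝ) / 1073741824 :=
      u1.trans (by norm_num [c22P50])
    have hk0 : ((c22P50.klo : ℕ) : ℝ) / 1073741824 * Real.tan θ ^ 2 ≤
        Real.sinh (Real.pi * h0) ^ 2 :=
      le_trans (mul_le_mul_of_nonneg_right (by norm_num [c22P50]) (sq_nonneg _)) k0
    have hk1 : Real.sinh (Real.pi * h0) ^ 2 ≤
        ((c22P50.khi : ℕ) : ℝ) / 1073741824 * Real.tan θ ^ 2 :=
      k1.trans (mul_le_mul_of_nonneg_right (by norm_num [c22P50]) (sq_nonneg _))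
    refine ⟨?_, ?_, ?_, ?_, ?_, ?_⟩
    · exact (Ph1.of_cert c22C50_0 c22A50_0 hθ0 hθ1 us0 us1 hh hk0 hk1 mr mi).mono
        (by norm_num) (by norm_num) (by norm_num) (by norm_num) (by norm_num)
    · exact (Ph1.of_cert c22C50_1 c22A50_1 hθ0 hθ1 us0 us1 hh hk0 hk1 mr mi).mono
        (by norm_num) (by norm_num) (by norm_num) (by norm_num) (by norm_num)
    · exact (Ph1.of_cert c22C50_2 c22A50_2 hθ0 hθ1 us0 us1 hh hk0 hk1 mr mi).mono
        (by norm_num) (by norm_num) (by norm_num) (by norm_num) (by norm_num)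
    · exact Ph2.vac (by norm_num)
    · exact Ph2.vac (by norm_num)
    · exact fun hc => absurd hc (by norm_num)

end Pool.Agent.S3.T2
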