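import Pool.Agent.S3.Hz.Main
import Pool.Agent.S3.W3.Cert
import Pool.Agent.S3.W3.Rect

/-!
# Two vertices with two half twists: box 58 (generated)
-/

set_option autoImplicit false

namespace Pool.Agent.S3.T2

open Complex Pool.Agent.S3.NI

def c22P58 : P1.Par := ⟨⟨64424509, 104152957⟩, ⟨194347270, 267361715⟩, 268435456, 740881859, 2371895, 45565309⟩

theorem c22R58 : certR ⟨64424509, 104152957⟩ ⟨194347270, 267361715⟩ 1 1 24 ⟨526133493, 812822561⟩ (rng 923879 929777 1000000) = true := by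
  decide +kernel

theorem c22A58_0 : TA (39 / 100) (2 / 5) ⟨2982428000, 3304720923⟩ :=
  ⟨by norm_num, by norm_num, le_tan_num (by norm_num) (by norm_num) (by norm_num) (by norm_num),
    tan_le_num (by norm_num) (by norm_num) (by norm_num) (by norm_num)⟩

theorem c22C58_0 : cert1 c22P58 3 2 10737418 0 4 15 10 5 34 ⟨2982428000, 3304720923⟩ ⟨163953064, 290832721⟩
    ⟨8375186, 1073741824⟩ ⟨25225964, 181102605⟩ = true := by
  decide +kernel

/-- The box: `re w ∈ [3/8, 19/50]`, `tan² θ' ∈ [49/100, 757/1000]`, `tan² θ ∈ [1/4, 69/100]`, base `39/100`. -/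
theorem c22_58 : Cert22 (39 / 100) (3 / 8) (19 / 50) (49 / 100) (757 / 1000) (1 / 4) (69 / 100) (47 / 1000) (103 / 500) (2 / 5)
    (5368709 / 536870912) (0 / 1) (0 / 1) (0 / 1) where
  k0 := by norm_num
  k1 := by norm_num
  hw := by norm_num
  hw' := by norm_num
  P0 := ⟨(3304720923 / 1073741824), tan_le_num (by norm_num) (by norm_num) (by norm_num) (by norm_num), by norm_num⟩
  ph := by
    intro θ θ' h0 w hθ0 hθ1 hθ' r0 r1 r2 hwl hwi t0 t1 u0 u1 hh k0 k1
    have mS : Mem (Real.tan θ' ^ 2) ⟨526133493, 812822561⟩ := ⟨le_trans (by norm_num)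
      (mul_le_mul_of_nonneg_right t0 (by norm_num)), (mul_le_mul_of_nonneg_right t1
        (by norm_num)).trans (by norm_num)⟩
    have mZ : Mem (Real.sin (Real.pi * w.re)) (rng 923879 929777 1000000) :=
      Hz.w_mem_cos (x1 := (942477 / 2500000)) (x2 := (3927 / 10000)) (by norm_num) r0 r1 (by norm_num) (by norm_num)
        (by norm_num) (by norm_num) (by norm_num) (by norm_num) (by norm_num) (by norm_num)
    obtain ⟨mr, mi⟩ := rect_of c22R58 mS mZ (by linarith) hθ' (by linarith) (by linarith) hwl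
    have us0 : ((c22P58.slo : ℕ) : ℝ) / 1073741824 ≤ Real.tan θ ^ 2 :=
      le_trans (by norm_num [c22P58]) u0
    have us1 : Real.tan θ ^ 2 ≤ ((c22P58.shi : ℕ) : ℝ) / 1073741824 :=
      u1.trans (by norm_num [c22P58])
    have hk0 : ((c22P58.klo : ℕ) : ℝ) / 1073741824 * Real.tan θ ^ 2 ≤
        Real.sinh (Real.pi * h0) ^ 2 :=
      le_trans (mul_le_mul_of_nonneg_right (by norm_num [c22P58]) (sq_nonneg _)) k0
    have hk1 : Real.sinh (Real.pi * h0) ^ 2 ≤
        ((c22P58.khi : ℕ) : ℝ) / 1073741824 * Real.tan θ ^ 2 :=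
      k1.trans (mul_le_mul_of_nonneg_right (by norm_num [c22P58]) (sq_nonneg _))
    refine ⟨?_, ?_, ?_, ?_, ?_, ?_⟩
    · exact Ph1.vac (by norm_num)
    · exact Ph1.vac (by norm_num)
    · exact (Ph1.of_cert c22C58_0 c22A58_0 hθ0 hθ1 us0 us1 hh hk0 hk1 mr mi).mono
        (by norm_num) (by norm_num) (by norm_num) (by norm_num) (by norm_num)
    · exact Ph2.vac (by norm_num)
    · exact Ph2.vac (by norm_num)
    · exact fun hc => absurd hc (by norm_num)

end Pool.Agent.S3.T2
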