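import Pool.Agent.S3.W3.Box
import Pool.Agent.S3.W3.C50
import Pool.Agent.S3.W3.C51
import Pool.Agent.S3.W3.C52
import Pool.Agent.S3.W3.C53
import Pool.Agent.S3.W3.C54
import Pool.Agent.S3.W3.C55
import Pool.Agent.S3.W3.C56
import Pool.Agent.S3.W3.C57
import Pool.Agent.S3.W3.C58
import Pool.Agent.S3.W3.C59
import Pool.Agent.S3.W3.C60
import Pool.Agent.S3.Hz.R22b_6
import Pool.Agent.S3.Hz.R22b_7

/-!
# Two vertices with two half twists: the boxes 50 to 60 (generated)
-/

set_option autoImplicit false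

namespace Pool.Agent.S3.T2

theorem bx22_50 : BoxOK (71 / 200) (8 / 25) (69 / 200) (49 / 100) (757 / 1000) (1 / 4) (69 / 100) 20 (401 / 10000) (21 / 500) 0 :=
  BoxOK.both c22_50 (KR.of fun H => Hz.h22b_50 H) (by norm_num)
    (by constructor <;> norm_num) (by constructor <;> norm_num)

theorem bx22_51 : BoxOK (73 / 200) (69 / 200) (71 / 200) (1 / 4) (49 / 100) (1 / 4) (757 / 1000) 20 (401 / 10000) (21 / 500) 0 :=
  BoxOK.both c22_51 (KR.of fun H => Hz.h22b_51 H) (by norm_num)
    (by constructor <;> norm_num) (by constructor <;> norm_num)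

theorem bx22_52 : BoxOK (73 / 200) (69 / 200) (71 / 200) (49 / 100) (757 / 1000) (1 / 4) (69 / 100) 20 (401 / 10000) (21 / 500) 0 :=
  BoxOK.both c22_52 (KR.of fun H => Hz.h22b_52 H) (by norm_num)
    (by constructor <;> norm_num) (by constructor <;> norm_num)

theorem bx22_53 : BoxOK (3 / 8) (71 / 200) (73 / 200) (1 / 4) (49 / 100) (1 / 4) (757 / 1000) 20 (147 / 5000) (7 / 200) 0 :=
  BoxOK.both c22_53 (KR.of fun H => Hz.h22b_53 H) (by norm_num)
    (by constructor <;> norm_num) (by constructor <;> norm_num)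

theorem bx22_54 : BoxOK (3 / 8) (71 / 200) (73 / 200) (49 / 100) (757 / 1000) (1 / 4) (69 / 100) 20 (147 / 5000) (7 / 200) 0 :=
  BoxOK.both c22_54 (KR.of fun H => Hz.h22b_54 H) (by norm_num)
    (by constructor <;> norm_num) (by constructor <;> norm_num)

theorem bx22_55 : BoxOK (77 / 200) (73 / 200) (3 / 8) (1 / 4) (49 / 100) (1 / 4) (757 / 1000) (39 / 2) (147 / 5000) (7 / 200) 0 :=
  BoxOK.both c22_55 (KR.of fun H => Hz.h22b_55 H) (by norm_num)
    (by constructor <;> norm_num) (by constructor <;> norm_num)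

theorem bx22_56 : BoxOK (77 / 200) (73 / 200) (3 / 8) (49 / 100) (757 / 1000) (1 / 4) (69 / 100) (39 / 2) (147 / 5000) (7 / 200) 0 :=
  BoxOK.both c22_56 (KR.of fun H => Hz.h22b_56 H) (by norm_num)
    (by constructor <;> norm_num) (by constructor <;> norm_num)

theorem bx22_57 : BoxOK (39 / 100) (3 / 8) (19 / 50) (1 / 4) (49 / 100) (1 / 4) (757 / 1000) (39 / 2) (19 / 1000) (3 / 100) 0 :=
  BoxOK.both c22_57 (KR.of fun H => Hz.h22b_57 H) (by norm_num)
    (by constructor <;> norm_num) (by constructor <;> norm_num)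

theorem bx22_58 : BoxOK (39 / 100) (3 / 8) (19 / 50) (49 / 100) (757 / 1000) (1 / 4) (69 / 100) (39 / 2) (19 / 1000) (3 / 100) 0 :=
  BoxOK.both c22_58 (KR.of fun H => Hz.h22b_58 H) (by norm_num)
    (by constructor <;> norm_num) (by constructor <;> norm_num)

theorem bx22_59 : BoxOK (199 / 500) (19 / 50) (77 / 200) (1 / 4) (49 / 100) (1 / 4) (757 / 1000) (96 / 5) (19 / 1000) (3 / 100) 0 :=
  BoxOK.both c22_59 (KR.of fun H => Hz.h22b_59 H) (by norm_num)
    (by constructor <;> norm_num) (by constructor <;> norm_num)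

theorem bx22_60 : BoxOK (199 / 500) (19 / 50) (77 / 200) (49 / 100) (757 / 1000) (1 / 4) (69 / 100) (96 / 5) (19 / 1000) (3 / 100) 0 :=
  BoxOK.both c22_60 (KR.of fun H => Hz.h22b_60 H) (by norm_num)
    (by constructor <;> norm_num) (by constructor <;> norm_num)

end Pool.Agent.S3.T2
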