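import Pool.Agent.S3.W3.Bx4
import Pool.Agent.S3.W3.Bx5

/-!
# Two vertices with two half twists: the bins of `re w`, 8 to 14 (generated)
-/

set_option autoImplicit false

namespace Pool.Agent.S3.T2

open Complex Set
open Pool.Agent.H25.RK (gdv)

theorem K22_ge_8 {x : ℝ} (h1 : 3 / 10 < x) (h2 : x ≤ 8 / 25) : 20 ≤ K22 x := by
  unfold K22
  split_ifs <;> first | (exfalso; linarith) | norm_num

theorem K22_ge_9 {x : ℝ} (h1 : 8 / 25 < x) (h2 : x ≤ 69 / 200) : 20 ≤ K22 x := by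
  unfold K22
  split_ifs <;> first | (exfalso; linarith) | norm_num

theorem K22_ge_10 {x : ℝ} (h1 : 69 / 200 < x) (h2 : x ≤ 71 / 200) : 20 ≤ K22 x := by
  unfold K22
  split_ifs <;> first | (exfalso; linarith) | norm_num

theorem K22_ge_11 {x : ℝ} (h1 : 71 / 200 < x) (h2 : x ≤ 73 / 200) : 20 ≤ K22 x := by
  unfold K22
  split_ifs <;> first | (exfalso; linarith) | norm_num

theorem K22_ge_12 {x : ℝ} (h1 : 73 / 200 < x) (h2 : x ≤ 3 / 8) : (39 / 2) ≤ K22 x := by
  unfold K22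
  split_ifs <;> first | (exfalso; linarith) | norm_num

theorem K22_ge_13 {x : ℝ} (h1 : 3 / 8 < x) (h2 : x ≤ 19 / 50) : (39 / 2) ≤ K22 x := by
  unfold K22
  split_ifs <;> first | (exfalso; linarith) | norm_num

theorem K22_ge_14 {x : ℝ} (h1 : 19 / 50 < x) (h2 : x ≤ 77 / 200) : (96 / 5) ≤ K22 x := by
  unfold K22
  split_ifs <;> first | (exfalso; linarith) | norm_num

section

variable {Φ : ℂ → ℂ → ℂ} {θ θ' xc xc' b b' : ℝ} {v w : ℂ}

theorem bin22_8 (E : E22 Φ θ θ' xc xc' b b') (hv : v ∈ G0 θ (2 / 5)) (hva : 69 / 200 ≤ v.re)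
    (hwl : w.im = bl θ' w.re) (hw1 : 3 / 10 < w.re) (hw2 : w.re ≤ 8 / 25) :
    FlP Φ θ θ' xc xc' b b' (2 / 5) (2 / 5) (mu b (2 : ℝ) (2 / 5)) (mu b' (2 : ℝ) (2 / 5)) v w := by
  have hw0 : 0 ≤ w.re := by linarith
  have t0 := E.S.t0
  have t1 := E.S.t1
  have q0 := E.S'.t0
  have q1 := E.S'.t1
  have hX := E.S.x4
  have hR : R22 (69 / 200) w.re := ⟨by linarith, Or.inr (Or.inr (Or.inr (Or.inr (Or.inr (Or.inl ⟨⟨by linarith, by linarith⟩, by norm_num⟩)))))⟩
  have hN : w.re ≤ 1 / 5 ∨ 31 / 100 ≤ (69 / 200 : ℝ) := Or.inr (by norm_num)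
  have hK := K22_ge_8 hw1 hw2
  rcases le_or_gt (Real.tan θ' ^ 2) (49 / 100) with hp2 | hp2
  · exact bx22_47.go E hK (by norm_num) (by norm_num) hX (by norm_num) (E.bp0 hw0 (by linarith)) hR hN
      (by linarith) (by linarith) (by linarith) (by linarith) hw0 (by linarith) (by linarith) (by linarith)
      hwl hv hva
  · have m1 := E.m1 hp2
    exact bx22_48.go E hK (by norm_num) (by norm_num) hX (by norm_num) (E.bp0 hw0 (by linarith)) hR hN
      (by linarith) (by linarith) (by linarith) (by linarith) hw0 (by linarith) (by linarith) (by linarith)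
      hwl hv hva

theorem bin22_9 (E : E22 Φ θ θ' xc xc' b b') (hv : v ∈ G0 θ (2 / 5)) (hva : 71 / 200 ≤ v.re)
    (hwl : w.im = bl θ' w.re) (hw1 : 8 / 25 < w.re) (hw2 : w.re ≤ 69 / 200) :
    FlP Φ θ θ' xc xc' b b' (2 / 5) (2 / 5) (mu b (2 : ℝ) (2 / 5)) (mu b' (2 : ℝ) (2 / 5)) v w := by
  have hw0 : 0 ≤ w.re := by linarith
  have t0 := E.S.t0
  have t1 := E.S.t1
  have q0 := E.S'.t0
  have q1 := E.S'.t1
  have hX := E.S.x5
  have hR : R22 (71 / 200) w.re := ⟨by linarith, Or.inr (Or.inr (Or.inr (Or.inr (Or.inr (Or.inr (Or.inl ⟨⟨by linarith, by linarith⟩, by norm_num⟩))))))⟩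
  have hN : w.re ≤ 1 / 5 ∨ 31 / 100 ≤ (71 / 200 : ℝ) := Or.inr (by norm_num)
  have hK := K22_ge_9 hw1 hw2
  rcases le_or_gt (Real.tan θ' ^ 2) (49 / 100) with hp2 | hp2
  · exact bx22_49.go E hK (by norm_num) (by norm_num) hX (by norm_num) (E.bp0 hw0 (by linarith)) hR hN
      (by linarith) (by linarith) (by linarith) (by linarith) hw0 (by linarith) (by linarith) (by linarith)
      hwl hv hva
  · have m1 := E.m1 hp2
    exact bx22_50.go E hK (by norm_num) (by norm_num) hX (by norm_num) (E.bp0 hw0 (by linarith)) hR hN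
      (by linarith) (by linarith) (by linarith) (by linarith) hw0 (by linarith) (by linarith) (by linarith)
      hwl hv hva

theorem bin22_10 (E : E22 Φ θ θ' xc xc' b b') (hv : v ∈ G0 θ (2 / 5)) (hva : 73 / 200 ≤ v.re)
    (hwl : w.im = bl θ' w.re) (hw1 : 69 / 200 < w.re) (hw2 : w.re ≤ 71 / 200) :
    FlP Φ θ θ' xc xc' b b' (2 / 5) (2 / 5) (mu b (2 : ℝ) (2 / 5)) (mu b' (2 : ℝ) (2 / 5)) v w := by
  have hw0 : 0 ≤ w.re := by linarith
  have t0 := E.S.t0
  have t1 := E.S.t1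
  have q0 := E.S'.t0
  have q1 := E.S'.t1
  have hX := E.S.x5
  have hR : R22 (73 / 200) w.re := ⟨by linarith, Or.inr (Or.inr (Or.inr (Or.inr (Or.inr (Or.inr (Or.inr (Or.inl ⟨⟨by linarith, by linarith⟩, by norm_num⟩)))))))⟩
  have hN : w.re ≤ 1 / 5 ∨ 31 / 100 ≤ (73 / 200 : ℝ) := Or.inr (by norm_num)
  have hK := K22_ge_10 hw1 hw2
  rcases le_or_gt (Real.tan θ' ^ 2) (49 / 100) with hp2 | hp2
  · exact bx22_51.go E hK (by norm_num) (by norm_num) hX (by norm_num) (E.bp0 hw0 (by linarith)) hR hN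
      (by linarith) (by linarith) (by linarith) (by linarith) hw0 (by linarith) (by linarith) (by linarith)
      hwl hv hva
  · have m1 := E.m1 hp2
    exact bx22_52.go E hK (by norm_num) (by norm_num) hX (by norm_num) (E.bp0 hw0 (by linarith)) hR hN
      (by linarith) (by linarith) (by linarith) (by linarith) hw0 (by linarith) (by linarith) (by linarith)
      hwl hv hva

theorem bin22_11 (E : E22 Φ θ θ' xc xc' b b') (hv : v ∈ G0 θ (2 / 5)) (hva : 3 / 8 ≤ v.re)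
    (hwl : w.im = bl θ' w.re) (hw1 : 71 / 200 < w.re) (hw2 : w.re ≤ 73 / 200) :
    FlP Φ θ θ' xc xc' b b' (2 / 5) (2 / 5) (mu b (2 : ℝ) (2 / 5)) (mu b' (2 : ℝ) (2 / 5)) v w := by
  have hw0 : 0 ≤ w.re := by linarith
  have t0 := E.S.t0
  have t1 := E.S.t1
  have q0 := E.S'.t0
  have q1 := E.S'.t1
  have hX := E.S.x6
  have hR : R22 (3 / 8) w.re := ⟨by linarith, Or.inr (Or.inr (Or.inr (Or.inr (Or.inr (Or.inr (Or.inr (Or.inr (Or.inl ⟨⟨by linarith, by linarith⟩, by norm_num⟩))))))))⟩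
  have hN : w.re ≤ 1 / 5 ∨ 31 / 100 ≤ (3 / 8 : ℝ) := Or.inr (by norm_num)
  have hK := K22_ge_11 hw1 hw2
  rcases le_or_gt (Real.tan θ' ^ 2) (49 / 100) with hp2 | hp2
  · exact bx22_53.go E hK (by norm_num) (by norm_num) hX (by norm_num) (E.bp0 hw0 (by linarith)) hR hN
      (by linarith) (by linarith) (by linarith) (by linarith) hw0 (by linarith) (by linarith) (by linarith)
      hwl hv hva
  · have m1 := E.m1 hp2
    exact bx22_54.go E hK (by norm_num) (by norm_num) hX (by norm_num) (E.bp0 hw0 (by linarith)) hR hN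
      (by linarith) (by linarith) (by linarith) (by linarith) hw0 (by linarith) (by linarith) (by linarith)
      hwl hv hva

theorem bin22_12 (E : E22 Φ θ θ' xc xc' b b') (hv : v ∈ G0 θ (2 / 5)) (hva : 77 / 200 ≤ v.re)
    (hwl : w.im = bl θ' w.re) (hw1 : 73 / 200 < w.re) (hw2 : w.re ≤ 3 / 8) :
    FlP Φ θ θ' xc xc' b b' (2 / 5) (2 / 5) (mu b (2 : ℝ) (2 / 5)) (mu b' (2 : ℝ) (2 / 5)) v w := by
  have hw0 : 0 ≤ w.re := by linarith
  have t0 := E.S.t0
  have t1 := E.S.t1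
  have q0 := E.S'.t0
  have q1 := E.S'.t1
  have hX := E.S.x6
  have hR : R22 (77 / 200) w.re := ⟨by linarith, Or.inr (Or.inr (Or.inr (Or.inr (Or.inr (Or.inr (Or.inr (Or.inr (Or.inr (Or.inl ⟨⟨by linarith, by linarith⟩, by norm_num⟩)))))))))⟩
  have hN : w.re ≤ 1 / 5 ∨ 31 / 100 ≤ (77 / 200 : ℝ) := Or.inr (by norm_num)
  have hK := K22_ge_12 hw1 hw2
  rcases le_or_gt (Real.tan θ' ^ 2) (49 / 100) with hp2 | hp2
  · exact bx22_55.go E hK (by norm_num) (by norm_num) hX (by norm_num) (E.bp0 hw0 (by linarith)) hR hN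
      (by linarith) (by linarith) (by linarith) (by linarith) hw0 (by linarith) (by linarith) (by linarith)
      hwl hv hva
  · have m1 := E.m1 hp2
    exact bx22_56.go E hK (by norm_num) (by norm_num) hX (by norm_num) (E.bp0 hw0 (by linarith)) hR hN
      (by linarith) (by linarith) (by linarith) (by linarith) hw0 (by linarith) (by linarith) (by linarith)
      hwl hv hva

theorem bin22_13 (E : E22 Φ θ θ' xc xc' b b') (hv : v ∈ G0 θ (2 / 5)) (hva : 39 / 100 ≤ v.re)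
    (hwl : w.im = bl θ' w.re) (hw1 : 3 / 8 < w.re) (hw2 : w.re ≤ 19 / 50) :
    FlP Φ θ θ' xc xc' b b' (2 / 5) (2 / 5) (mu b (2 : ℝ) (2 / 5)) (mu b' (2 : ℝ) (2 / 5)) v w := by
  have hw0 : 0 ≤ w.re := by linarith
  have t0 := E.S.t0
  have t1 := E.S.t1
  have q0 := E.S'.t0
  have q1 := E.S'.t1
  have hX := E.S.x7
  have hR : R22 (39 / 100) w.re := ⟨by linarith, Or.inr (Or.inr (Or.inr (Or.inr (Or.inr (Or.inr (Or.inr (Or.inr (Or.inr (Or.inr (Or.inl ⟨⟨by linarith, by linarith⟩, by norm_num⟩))))))))))⟩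
  have hN : w.re ≤ 1 / 5 ∨ 31 / 100 ≤ (39 / 100 : ℝ) := Or.inr (by norm_num)
  have hK := K22_ge_13 hw1 hw2
  rcases le_or_gt (Real.tan θ' ^ 2) (49 / 100) with hp2 | hp2
  · exact bx22_57.go E hK (by norm_num) (by norm_num) hX (by norm_num) (E.bp0 hw0 (by linarith)) hR hN
      (by linarith) (by linarith) (by linarith) (by linarith) hw0 (by linarith) (by linarith) (by linarith)
      hwl hv hva
  · have m1 := E.m1 hp2
    exact bx22_58.go E hK (by norm_num) (by norm_num) hX (by norm_num) (E.bp0 hw0 (by linarith)) hR hN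
      (by linarith) (by linarith) (by linarith) (by linarith) hw0 (by linarith) (by linarith) (by linarith)
      hwl hv hva

theorem bin22_14 (E : E22 Φ θ θ' xc xc' b b') (hv : v ∈ G0 θ (2 / 5)) (hva : 199 / 500 ≤ v.re)
    (hwl : w.im = bl θ' w.re) (hw1 : 19 / 50 < w.re) (hw2 : w.re ≤ 77 / 200) :
    FlP Φ θ θ' xc xc' b b' (2 / 5) (2 / 5) (mu b (2 : ℝ) (2 / 5)) (mu b' (2 : ℝ) (2 / 5)) v w := by
  have hw0 : 0 ≤ w.re := by linarith
  have t0 := E.S.t0
  have t1 := E.S.t1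
  have q0 := E.S'.t0
  have q1 := E.S'.t1
  have hX := E.S.x7
  have hR : R22 (199 / 500) w.re := ⟨by linarith, Or.inr (Or.inr (Or.inr (Or.inr (Or.inr (Or.inr (Or.inr (Or.inr (Or.inr (Or.inr (Or.inr (Or.inl ⟨⟨by linarith, by linarith⟩, by norm_num⟩)))))))))))⟩
  have hN : w.re ≤ 1 / 5 ∨ 31 / 100 ≤ (199 / 500 : ℝ) := Or.inr (by norm_num)
  have hK := K22_ge_14 hw1 hw2
  rcases le_or_gt (Real.tan θ' ^ 2) (49 / 100) with hp2 | hp2
  · exact bx22_59.go E hK (by norm_num) (by norm_num) hX (by norm_num) (E.bp0 hw0 (by linarith)) hR hN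
      (by linarith) (by linarith) (by linarith) (by linarith) hw0 (by linarith) (by linarith) (by linarith)
      hwl hv hva
  · have m1 := E.m1 hp2
    exact bx22_60.go E hK (by norm_num) (by norm_num) hX (by norm_num) (E.bp0 hw0 (by linarith)) hR hN
      (by linarith) (by linarith) (by linarith) (by linarith) hw0 (by linarith) (by linarith) (by linarith)
      hwl hv hva

end

end Pool.Agent.S3.T2
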