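import Pool.Agent.S3.W2.Base23
import Pool.Agent.S3.W3.Bins
import Pool.Agent.S3.W3.Bins2
import Pool.Agent.S3.W3.Bins3
import Pool.Agent.S3.W3.Bins4

/-!
# Two vertices with two half twists: the flats
-/

set_option autoImplicit false

namespace Pool.Agent.S3.T2

open Complex Set
open Pool.Agent.H25.RK (gdv)

section

variable {Φ : ℂ → ℂ → ℂ} {θ θ' xc xc' b b' : ℝ} {v w : ℂ}

theorem D22.swap (D : D22 Φ θ θ' xc xc' b b') : D22 (fun v w => Φ w v) θ' θ xc' xc b' b :=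
  ⟨D.H.swap, D.j', D.j, D.t2, D.t1, D.ok', D.ok⟩

theorem E22.swap (E : E22 Φ θ θ' xc xc' b b') : E22 (fun v w => Φ w v) θ' θ xc' xc b' b :=
  ⟨E.D.swap, E.S', E.S, E.r', E.r, fun v w h1 h2 h3 h4 => by
    rw [E.D.H.LM_swap, add_comm]
    exact E.hE w v h3 h4 h1 h2⟩

theorem A22_eq {y : ℝ} (h : 77 / 200 < y) : A22 y = 2 / 5 := by
  have n : ∀ {x : ℝ}, x ≤ 77 / 200 → ¬ y ≤ x := fun hx => not_le.2 (lt_of_le_of_lt hx h)
  unfold A22
  rw [if_neg (n (by norm_num)), if_neg (n (by norm_num)), if_neg (n (by norm_num)),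
    if_neg (n (by norm_num)), if_neg (n (by norm_num)), if_neg (n (by norm_num)),
    if_neg (n (by norm_num)), if_neg (n (by norm_num)), if_neg (n (by norm_num)),
    if_neg (n (by norm_num)), if_neg (n (by norm_num)), if_neg (n le_rfl)]

theorem cmp_lt {v1 : ℝ} {w : ℂ} (h : (cmp v1 w).re < v1) : cmp v1 w = w ∧ w.re ≤ v1 := by
  unfold cmp at h ⊢
  split_ifs at h ⊢ with c
  · exact ⟨rfl, c⟩
  · rw [ofReal_re] at h
    exact absurd h (lt_irrefl _)

theorem cmp_le_re {v1 : ℝ} (w : ℂ) : (cmp v1 w).re ≤ w.re := by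
  unfold cmp
  split_ifs with c
  · exact le_rfl
  · rw [ofReal_re]
    exact (not_le.1 c).le

/-- The half of the pairs with `re w ≤ re v`. -/
theorem E22.half (E : E22 Φ θ θ' xc xc' b b') (hv : v ∈ G0 θ (2 / 5)) (hv0 : 0 ≤ v.re)
    (hw : w ∈ G0 θ' (2 / 5)) (hw0 : 0 ≤ w.re)
    (hne : v ≠ gdv (UU xc θ) ∨ w ≠ gdv (UU xc' θ'))
    (hle : (cmp (2 / 5) w).re ≤ (cmp (2 / 5) v).re) :
    FlP Φ θ θ' xc xc' b b' (2 / 5) (2 / 5) (mu b (2 : ℝ) (2 / 5)) (mu b' (2 : ℝ) (2 / 5)) v w := by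
  rcases le_or_gt (cmp (2 / 5) v).re (A22 (cmp (2 / 5) w).re) with c | c
  · exact E.D.left hv hv0 hw hw0 hne (R22_of hle c)
  have hx : (cmp (2 / 5) v).re ≤ 2 / 5 := cmp_re_le v
  have hx2 := cmp_le_re (v1 := 2 / 5) v
  have hy : (cmp (2 / 5) w).re ≤ 77 / 200 := by
    by_contra hc
    rw [A22_eq (not_le.1 hc)] at c
    linarith
  obtain ⟨ec, hw1⟩ := cmp_lt (v1 := 2 / 5) (w := w) (by linarith)
  rw [ec] at hy c
  have hwl : w.im = bl θ' w.re := by
    rcases hw with ⟨-, h⟩ | ⟨h, -, -⟩ | ⟨h, -, -⟩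
    · exact h
    · rw [abs_of_nonneg hw0] at h
      linarith
    · rw [abs_of_nonneg hw0] at h
      linarith
  have hva : A22 w.re < v.re := lt_of_lt_of_le c hx2
  unfold A22 at hva
  rcases le_or_gt w.re (3 / 25) with c1 | c1
  · rw [if_pos c1] at hva
    rcases le_or_gt w.re (1 / 25) with d | d
    · exact bin22_0 E hv hva.le hwl hw0 d
    rcases le_or_gt w.re (2 / 25) with d1 | d1
    · exact bin22_1 E hv hva.le hwl d d1
    · exact bin22_2 E hv hva.le hwl d1 c1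
  rw [if_neg (not_le.2 c1)] at hva
  rcases le_or_gt w.re (1 / 5) with c2 | c2
  · rw [if_pos c2] at hva
    rcases le_or_gt w.re (4 / 25) with d | d
    · exact bin22_3 E hv hva.le hwl c1 d
    · exact bin22_4 E hv hva.le hwl d c2
  rw [if_neg (not_le.2 c2)] at hva
  rcases le_or_gt w.re (6 / 25) with c3 | c3
  · rw [if_pos c3] at hva
    exact bin22_5 E hv hva.le hwl c2 c3
  rw [if_neg (not_le.2 c3)] at hva
  rcases le_or_gt w.re (7 / 25) with c4 | c4
  · rw [if_pos c4] at hva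
    exact bin22_6 E hv hva.le hwl c3 c4
  rw [if_neg (not_le.2 c4)] at hva
  rcases le_or_gt w.re (3 / 10) with c5 | c5
  · rw [if_pos c5] at hva
    exact bin22_7 E hv hva.le hwl c4 c5
  rw [if_neg (not_le.2 c5)] at hva
  rcases le_or_gt w.re (8 / 25) with c6 | c6
  · rw [if_pos c6] at hva
    exact bin22_8 E hv hva.le hwl c5 c6
  rw [if_neg (not_le.2 c6)] at hva
  rcases le_or_gt w.re (69 / 200) with c7 | c7
  · rw [if_pos c7] at hva
    exact bin22_9 E hv hva.le hwl c6 c7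
  rw [if_neg (not_le.2 c7)] at hva
  rcases le_or_gt w.re (71 / 200) with c8 | c8
  · rw [if_pos c8] at hva
    exact bin22_10 E hv hva.le hwl c7 c8
  rw [if_neg (not_le.2 c8)] at hva
  rcases le_or_gt w.re (73 / 200) with c9 | c9
  · rw [if_pos c9] at hva
    exact bin22_11 E hv hva.le hwl c8 c9
  rw [if_neg (not_le.2 c9)] at hva
  rcases le_or_gt w.re (3 / 8) with c10 | c10
  · rw [if_pos c10] at hva
    exact bin22_12 E hv hva.le hwl c9 c10
  rw [if_neg (not_le.2 c10)] at hva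
  rcases le_or_gt w.re (19 / 50) with c11 | c11
  · rw [if_pos c11] at hva
    exact bin22_13 E hv hva.le hwl c10 c11
  rw [if_neg (not_le.2 c11)] at hva
  rw [if_pos hy] at hva
  exact bin22_14 E hv hva.le hwl c11 hy

/-- **The field `flat` at an edge between two inner vertices with two half twists.** -/
theorem E22.flat (E : E22 Φ θ θ' xc xc' b b') :
    FlatH Φ θ θ' xc xc' b b' (2 / 5) (2 / 5) (mu b (2 : ℝ) (2 / 5)) (mu b' (2 : ℝ) (2 / 5)) := by
  intro v w hv hv0 hw hw0 hne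
  rcases le_total (cmp (2 / 5) w).re (cmp (2 / 5) v).re with h | h
  · exact E.half hv hv0 hw hw0 hne h
  · have k := E.swap.half hw hw0 hv hv0 hne.symm h
    exact k.swap E.D.H.swap hw hw0 hv hv0

end

end Pool.Agent.S3.T2
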