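import Pool.Agent.S3.W3.Ratio
import Pool.Agent.S3.W2.P3Q1
import Pool.Agent.S3.W2.P3Q2
import Pool.Agent.S3.W2.P3Q3
import Pool.Agent.S3.W2.P3Q4
import Pool.Agent.S3.W2.P3Q5
import Pool.Agent.S3.W2.P3Q6

/-!
# Phase 3 of the slide of two vertices with two half twists
-/

set_option autoImplicit false

namespace Pool.Agent.S3.T2

open Complex Set

theorem tan_le_871 {θ : ℝ} (h : Real.tan θ ^ 2 ≤ 757 / 1000) : Real.tan θ ≤ 871 / 1000 := by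
  by_contra hc
  push Not at hc
  nlinarith

/-- Phase 3 for a point on its line, from `LP3`. -/
theorem ph3_of {K x1 x2 θ θ' h0 : ℝ} {w : ℂ}
    (H : LP3 (2 / 5) K (1 / 2) (871 / 1000) (871 / 1000) x1 x2)
    (hθ0' : 0 < θ') (hθ1' : θ' < Real.pi / 2) (hs1 : Real.tan θ ^ 2 ≤ 757 / 1000)
    (hp0 : 1 / 4 ≤ Real.tan θ' ^ 2) (hp1 : Real.tan θ' ^ 2 ≤ 757 / 1000) (hx1 : 0 ≤ x1)
    (hx2 : x2 ≤ 1 / 2) (w1 : x1 ≤ w.re) (w2 : w.re ≤ x2) (hw : w.im = bl θ' w.re) :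
    Ph3R (2 / 5) θ h0 K ((starRingEnd ℂ) w) := by
  have t0 : 0 < Real.tan θ' := Real.tan_pos_of_pos_of_lt_pi_div_two hθ0' hθ1'
  have t1 : 1 / 2 ≤ Real.tan θ' := by
    by_contra hc
    push Not at hc
    nlinarith
  exact ⟨H.use_a (by norm_num) hx1 hx2 (tan_le_871 hs1) t1 (tan_le_871 hp1) w1 w2 hw,
    H.use_b (by norm_num) hx1 hx2 (tan_le_871 hs1) t1 (tan_le_871 hp1) w1 w2 hw⟩

/-- The constants. -/
noncomputable def K22 (x : ℝ) : ℝ :=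
  if x ≤ 1 / 25 then 81 / 10 else if x ≤ 2 / 25 then 56 / 5 else if x ≤ 3 / 25 then 14 else
  if x ≤ 4 / 25 then 82 / 5 else if x ≤ 1 / 5 then 37 / 2 else if x ≤ 73 / 200 then 20 else
  if x ≤ 19 / 50 then 39 / 2 else 96 / 5

theorem LP3.ext_K {r0 K K' S1 S2 T x1 x2 : ℝ} (H : LP3 r0 K S1 S2 T x1 x2) (h : K' = K) :
    LP3 r0 K' S1 S2 T x1 x2 := by rw [h]; exact H

/-- **Phase 3 for two vertices with two half twists**, all windows at once. -/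
theorem ph3_all {θ θ' h0 : ℝ} {w : ℂ} (hθ0' : 0 < θ') (hθ1' : θ' < Real.pi / 2)
    (hs1 : Real.tan θ ^ 2 ≤ 757 / 1000) (hp0 : 1 / 4 ≤ Real.tan θ' ^ 2)
    (hp1 : Real.tan θ' ^ 2 ≤ 757 / 1000) (w1 : 0 ≤ w.re) (w2 : w.re ≤ 77 / 200)
    (hw : w.im = bl θ' w.re) : Ph3R (2 / 5) θ h0 (K22 w.re) ((starRingEnd ℂ) w) := by
  unfold K22
  split_ifs with c0 c1 c2 c3 c4 c5 c6
  · exact ph3_of P3.l0 hθ0' hθ1' hs1 hp0 hp1 (by norm_num) (by norm_num) w1 c0 hw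
  · exact ph3_of P3.l1 hθ0' hθ1' hs1 hp0 hp1 (by norm_num) (by norm_num) (not_le.1 c0).le c1 hw
  · exact ph3_of P3.l2 hθ0' hθ1' hs1 hp0 hp1 (by norm_num) (by norm_num) (not_le.1 c1).le c2 hw
  · exact ph3_of P3.l3 hθ0' hθ1' hs1 hp0 hp1 (by norm_num) (by norm_num) (not_le.1 c2).le c3 hw
  · exact ph3_of P3.l4 hθ0' hθ1' hs1 hp0 hp1 (by norm_num) (by norm_num) (not_le.1 c3).le c4 hw
  · have k4 := (not_le.1 c4).le
    rcases le_total w.re (6 / 25) with d | d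
    · exact ph3_of P3.l5 hθ0' hθ1' hs1 hp0 hp1 (by norm_num) (by norm_num) k4 d hw
    rcases le_total w.re (7 / 25) with d1 | d1
    · exact ph3_of P3.l6 hθ0' hθ1' hs1 hp0 hp1 (by norm_num) (by norm_num) d d1 hw
    rcases le_total w.re (8 / 25) with d2 | d2
    · exact ph3_of P3.l7 hθ0' hθ1' hs1 hp0 hp1 (by norm_num) (by norm_num) d1 d2 hw
    rcases le_total w.re (69 / 200) with d3 | d3
    · exact ph3_of P3.l8 hθ0' hθ1' hs1 hp0 hp1 (by norm_num) (by norm_num) d2 d3 hw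
    rcases le_total w.re (71 / 200) with d4 | d4
    · exact ph3_of P3.l9 hθ0' hθ1' hs1 hp0 hp1 (by norm_num) (by norm_num) d3 d4 hw
    · exact ph3_of P3.l10 hθ0' hθ1' hs1 hp0 hp1 (by norm_num) (by norm_num) d4 c5 hw
  · have k5 := (not_le.1 c5).le
    rcases le_total w.re (3 / 8) with d | d
    · exact ph3_of P3.l11 hθ0' hθ1' hs1 hp0 hp1 (by norm_num) (by norm_num) k5 d hw
    · exact ph3_of P3.l12 hθ0' hθ1' hs1 hp0 hp1 (by norm_num) (by norm_num) d c6 hw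
  · exact ph3_of P3.l13 hθ0' hθ1' hs1 hp0 hp1 (by norm_num) (by norm_num) (not_le.1 c6).le w2 hw

/-- Smaller constants. -/
theorem Ph3R.mono {r0 θ h0 K K' : ℝ} {W : ℂ} (H : Ph3R r0 θ h0 K W) (h : K' ≤ K) :
    Ph3R r0 θ h0 K' W := by
  constructor
  · intro ρ r1 r2 η e hh t ht hg
    exact (mul_le_mul_of_nonneg_right h e.1.le).trans_lt (H.a ρ r1 r2 η e hh t ht hg)
  · intro h1 h2 h3 η e hh t ht hg
    exact (mul_le_mul_of_nonneg_right h e.1.le).trans_lt (H.b h1 h2 h3 η e hh t ht hg)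

end Pool.Agent.S3.T2
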