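import Pool.Agent.S3.W3.Go
import Pool.Agent.S3.W3.Ph3L
import Pool.Agent.S3.W2.Base22
import Pool.Agent.S3.Hz.B22b

/-!
# Two vertices with two half twists: the boxes
-/

set_option autoImplicit false

namespace Pool.Agent.S3.T2

open Complex Set
open Pool.Agent.H25.RK (gdv)

/-- The numerical conditions at one value of `tan² θ`. -/
def NumS (s a0 x0 D0 D1 e0 e1 K E3 : ℝ) : Prop := ∃ s0 s1 : ℝ, s0 ≤ s ∧ s ≤ s1 ∧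
  NumM s0 s1 a0 x0 D0 D1 e0 e1 K E3

/-- A box with its certificates. -/
def BoxOK (a0 w0 w1 p0 p1 s0 s1 K ec eo bp : ℝ) : Prop :=
  ∃ klo khi x0 D0 D1 e0 e1 : ℝ, Cert22 a0 w0 w1 p0 p1 s0 s1 klo khi x0 D0 D1 e0 e1 ∧
    KR a0 w0 w1 p0 p1 s0 s1 klo khi ∧ 0 < klo ∧
    (∀ s, s0 ≤ s → s ≤ s1 → s ≤ 5779 / 10000 → NumS s a0 x0 D0 D1 e0 e1 K (ec - bp)) ∧
    (∀ s, s0 ≤ s → s ≤ s1 → 5779 / 10000 < s → NumS s a0 x0 D0 D1 e0 e1 K (eo - bp))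

/-- A box inside the small angles. -/
theorem BoxOK.small {a0 w0 w1 p0 p1 s0 s1 K ec eo bp klo khi x0 D0 D1 e0 e1 : ℝ}
    (C : Cert22 a0 w0 w1 p0 p1 s0 s1 klo khi x0 D0 D1 e0 e1)
    (k : KR a0 w0 w1 p0 p1 s0 s1 klo khi) (hk : 0 < klo)
    (N : NumM s0 s1 a0 x0 D0 D1 e0 e1 K (ec - bp)) (h : s1 ≤ 5779 / 10000) :
    BoxOK a0 w0 w1 p0 p1 s0 s1 K ec eo bp :=
  ⟨klo, khi, x0, D0, D1, e0, e1, C, k, hk, fun _ h0 h1 _ => ⟨s0, s1, h0, h1, N⟩,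
    fun _ _ h1 h2 => absurd h2 (by linarith)⟩

/-- A box across. -/
theorem BoxOK.both {a0 w0 w1 p0 p1 s0 s1 K ec eo bp klo khi x0 D0 D1 e0 e1 : ℝ}
    (C : Cert22 a0 w0 w1 p0 p1 s0 s1 klo khi x0 D0 D1 e0 e1)
    (k : KR a0 w0 w1 p0 p1 s0 s1 klo khi) (hk : 0 < klo)
    (N : NumM s0 (5779 / 10000) a0 x0 D0 D1 e0 e1 K (ec - bp))
    (N' : NumM (5779 / 10000) s1 a0 x0 D0 D1 e0 e1 K (eo - bp)) :
    BoxOK a0 w0 w1 p0 p1 s0 s1 K ec eo bp :=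
  ⟨klo, khi, x0, D0, D1, e0, e1, C, k, hk, fun _ h0 _ h2 => ⟨s0, 5779 / 10000, h0, h2, N⟩,
    fun _ _ h1 h2 => ⟨5779 / 10000, s1, h2.le, h1, N'⟩⟩

/-- The heights in the form used here. -/
theorem KR.of {a0 w0 w1 p0 p1 s0 s1 klo khi : ℝ}
    (h : ∀ {θ θ' : ℝ} {v w : ℂ}, Hz.H22b θ θ' v w a0 w0 w1 p0 p1 s0 s1 →
      klo * Real.tan θ ≤ Real.sinh (Real.pi * (yv v w).im) ∧
        Real.sinh (Real.pi * (yv v w).im) ≤ khi * Real.tan θ) :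
    KR a0 w0 w1 p0 p1 s0 s1 klo khi := fun hp hwl h1 h2 h3 h4 h5 h6 =>
  h ⟨hp, vl_re _ _, by rw [vl_im, vl_re], hwl, h1, h2, h3, h4, h5, h6⟩

/-- The data of an edge between two inner vertices with two half twists. -/
structure E22 (Φ : ℂ → ℂ → ℂ) (θ θ' xc xc' b b' : ℝ) : Prop where
  D : D22 Φ θ θ' xc xc' b b'
  S : Sl22 θ θ' xc xc' b (mu b (2 : ℝ) (2 / 5))
  S' : Sl22 θ' θ xc' xc b' (mu b' (2 : ℝ) (2 / 5))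
  r : 1 / 5 < (gdv (UU xc θ)).re ∧ (gdv (UU xc θ)).re < 31 / 100
  r' : 1 / 5 < (gdv (UU xc' θ')).re ∧ (gdv (UU xc' θ')).re < 31 / 100
  hE : ∀ v w : ℂ, v ∈ G0 θ (2 / 5) → 0 ≤ v.re → w ∈ G0 θ' (2 / 5) → 0 ≤ w.re →
    Real.pi * (v.im + w.im) < LM Φ θ θ' b b' xc xc' (2 / 5) (2 / 5) (mu b (2 : ℝ) (2 / 5))
      (mu b' (2 : ℝ) (2 / 5)) v w

section

variable {Φ : ℂ → ℂ → ℂ} {θ θ' xc xc' b b' : ℝ} {v w : ℂ}

/-- The base point is not the critical pair. -/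
theorem E22.ne (E : E22 Φ θ θ' xc xc' b b') {a0 : ℝ} (h : w.re ≤ 1 / 5 ∨ 31 / 100 ≤ a0) :
    vl θ a0 ≠ gdv (UU xc θ) ∨ w ≠ gdv (UU xc' θ') := by
  rcases h with h | h
  · right
    intro e
    have := E.r'.1
    rw [← e] at this
    linarith
  · left
    intro e
    have := E.r.2
    rw [← e, vl_re] at this
    linarith

theorem E22.m1 (E : E22 Φ θ θ' xc xc' b b') (h : 49 / 100 < Real.tan θ' ^ 2) :
    Real.tan θ ^ 2 ≤ 69 / 100 := by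
  rcases E.S.j.j7 with k | k
  · linarith
  · exact k

theorem E22.m2 (E : E22 Φ θ θ' xc xc' b b') (h : 127 / 200 < Real.tan θ' ^ 2) :
    Real.tan θ ^ 2 ≤ 3 / 5 := by
  rcases E.S'.j.j10 with k | k
  · exact k
  · linarith

theorem E22.m3 (E : E22 Φ θ θ' xc xc' b b') (h : 69 / 100 < Real.tan θ' ^ 2) :
    Real.tan θ ^ 2 ≤ 9 / 20 := by
  rcases E.S'.j.j7 with k | k
  · exact k
  · linarith

theorem E22.bp0 (E : E22 Φ θ θ' xc xc' b b') {x : ℝ} (h0 : 0 ≤ x) (h1 : x ≤ 1 / 2) :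
    0 ≤ 49 / 50 * BP b' (gdv (UU xc' θ')) (vl θ' x) := by
  have H := E.D.H
  obtain ⟨c1, c2, c3, c4⟩ := H.crit0
  have n2 : 0 ≤ BP b' (gdv (UU xc' θ')) (vl θ' x) := BP_nonneg H.hθ'.pos.le H.hθ'.lt
    H.hs.b0'.le (by rw [vl_re]; exact h0) (by rw [vl_re]; exact h1) c3 c4
    (by rw [vl_im, vl_re]) (line_im_bl H.hθ'.abs)
  linarith

theorem BoxOK.go {a0 w0 w1 p0 p1 s0 s1 K ec eo bp r : ℝ}
    (B : BoxOK a0 w0 w1 p0 p1 s0 s1 K ec eo bp) (E : E22 Φ θ θ' xc xc' b b')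
    (hK : K ≤ K22 w.re) (ha : 29 / 100 ≤ a0) (ha0 : a0 ≤ 2 / 5)
    (hX : E3C θ xc b (mu b (2 : ℝ) (2 / 5)) r ec eo) (hr : r ≤ a0)
    (hbp : bp ≤ 49 / 50 * BP b' (gdv (UU xc' θ')) (vl θ' w.re))
    (hR : R22 a0 w.re) (hne : w.re ≤ 1 / 5 ∨ 31 / 100 ≤ a0)
    (hs0 : s0 ≤ Real.tan θ ^ 2) (hs1 : Real.tan θ ^ 2 ≤ s1)
    (hp0 : p0 ≤ Real.tan θ' ^ 2) (hp1 : Real.tan θ' ^ 2 ≤ p1)
    (hw0 : 0 ≤ w.re) (hw : w0 ≤ w.re) (hw' : w.re ≤ w1) (hw2 : w.re ≤ 77 / 200)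
    (hwl : w.im = bl θ' w.re)
    (hv : v ∈ G0 θ (2 / 5)) (hva : a0 ≤ v.re) :
    FlP Φ θ θ' xc xc' b b' (2 / 5) (2 / 5) (mu b (2 : ℝ) (2 / 5)) (mu b' (2 : ℝ) (2 / 5)) v w := by
  obtain ⟨klo, khi, x0, D0, D1, e0, e1, C, k, hk, n1, n2⟩ := B
  have H := E.D.H
  have ew : vl θ' w.re = w := by
    apply Complex.ext
    · rw [vl_re]
    · rw [vl_im, hwl]
  rw [ew] at hbp
  have hG : w ∈ G0 θ' (2 / 5) := Or.inl ⟨by rw [abs_of_nonneg hw0]; linarith, hwl⟩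
  have hv0 : 0 ≤ v.re := by linarith
  have htp : 0 < Real.tan θ := Real.tan_pos_of_pos_of_lt_pi_div_two H.hθ.pos H.hθ.lt
  have hp := H.pr hv hv0 hG hw0
  have hw3 : w.re ≤ 2 / 5 := by linarith
  rw [show cmp (2 / 5) w = w from if_pos hw3] at hp
  obtain ⟨k1, -⟩ := k (Pr_vl hp (a := a0) (by linarith) ha0) hwl hw hw' hp0 hp1 hs0 hs1
  have hpi := Real.pi_pos
  have hh : 0 < (yv (vl θ a0) w).im := by
    have h1 : 0 < Real.sinh (Real.pi * (yv (vl θ a0) w).im) :=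
      lt_of_lt_of_le (mul_pos hk htp) k1
    have h2 := Real.sinh_pos_iff.1 h1
    exact (pos_iff_pos_of_mul_pos h2).1 hpi
  have h3 := (ph3_all (θ := θ) (h0 := (yv (vl θ a0) w).im) H.hθ'.pos H.hθ'.lt E.S.t1 E.S'.t0
    E.S'.t1 hw0 hw2 hwl).mono hK
  have hb := fun t (ht : t ∈ Icc (0 : ℝ) (1 / 2)) =>
    E.D.base (μ := mu b (2 : ℝ) (2 / 5)) (μ' := mu b' (2 : ℝ) (2 / 5)) hw0 hw3 hwl ha0 hR
      (E.ne hne) ht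
  have hEnd : ∀ v : ℂ, v ∈ G0 θ (2 / 5) → 0 ≤ v.re → Real.pi * (v.im + w.im) <
      LM Φ θ θ' b b' xc xc' (2 / 5) (2 / 5) (mu b (2 : ℝ) (2 / 5)) (mu b' (2 : ℝ) (2 / 5)) v w :=
    fun v h1 h2 => E.hE v w h1 h2 hG hw0
  obtain ⟨x1, x2⟩ := hX a0 hr ha0
  rcases le_or_gt (Real.tan θ ^ 2) (5779 / 10000) with c | c
  · obtain ⟨s0', s1', y0, y1, N⟩ := n1 _ hs0 hs1 c
    exact C.go k hk H E.S E.S' hs0 hs1 hp0 hp1 hw hw' hwl ha ha0 y0 y1 N (x1 c) hbp hb h3 hEnd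
      hv hva
  · obtain ⟨s0', s1', y0, y1, N⟩ := n2 _ hs0 hs1 c
    exact C.go k hk H E.S E.S' hs0 hs1 hp0 hp1 hw hw' hwl ha ha0 y0 y1 N (x2 c) hbp hb h3 hEnd
      hv hva

end

end Pool.Agent.S3.T2
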