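import Pool.Agent.S3.Hz.Main
import Pool.Agent.S3.W3.Cert
import Pool.Agent.S3.W3.Glue
import Pool.Agent.S3.W3.Rect

/-!
# Two vertices with two half twists: box 0 (generated)
-/

set_option autoImplicit false

namespace Pool.Agent.S3.T2

open Complex Pool.Agent.S3.NI

def c22P0 : P1.Par := ⟨⟨1312112508, 1600949060⟩, ⟨0, 226559525⟩, 268435456, 812822561, 139156940, 184035054⟩

theorem c22R0 : certR ⟨1312112508, 1600949060⟩ ⟨0, 226559525⟩ 1 1 24 ⟨268435456, 526133494⟩ (rng 0 125334 1000000) = true := by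
  decide +kernel

theorem c22A0_0 : TA (29 / 100) (1453 / 5000) ⟨1383702044, 1394197173⟩ :=
  ⟨by norm_num, by norm_num, le_tan_num (by norm_num) (by norm_num) (by norm_num) (by norm_num),
    tan_le_num (by norm_num) (by norm_num) (by norm_num) (by norm_num)⟩

theorem c22C0_0 : cert1 c22P0 4 3 501437432 450971566 4 15 10 5 34 ⟨1383702044, 1394197173⟩ ⟨313324538, 505338330⟩
    ⟨8375186, 1073741824⟩ ⟨190216583, 363879507⟩ = true := by
  decide +kernel

theorem c22A0_1 : TA (1453 / 5000) (182 / 625) ⟨1389115634, 1399550255⟩ :=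
  ⟨by norm_num, by norm_num, le_tan_num (by norm_num) (by norm_num) (by norm_num) (by norm_num),
    tan_le_num (by norm_num) (by norm_num) (by norm_num) (by norm_num)⟩

theorem c22C0_1 : cert1 c22P0 4 3 501437432 450971566 4 15 10 5 34 ⟨1389115634, 1399550255⟩ ⟨312634666, 504378511⟩
    ⟨8375186, 1073741824⟩ ⟨190216583, 363879507⟩ = true := by
  decide +kernel

theorem c22A0_2 : TA (182 / 625) (1459 / 5000) ⟨1394555378, 1404931034⟩ :=
  ⟨by norm_num, by norm_num, le_tan_num (by norm_num) (by norm_num) (by norm_num) (by norm_num),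
    tan_le_num (by norm_num) (by norm_num) (by norm_num) (by norm_num)⟩

theorem c22C0_2 : cert1 c22P0 4 3 501437432 450971566 4 15 10 5 34 ⟨1394555378, 1404931034⟩ ⟨311943158, 503415800⟩
    ⟨8375186, 1073741824⟩ ⟨190216583, 363879507⟩ = true := by
  decide +kernel

theorem c22A0_3 : TA (1459 / 5000) (117 / 400) ⟨1400021514, 1411243912⟩ :=
  ⟨by norm_num, by norm_num, le_tan_num (by norm_num) (by norm_num) (by norm_num) (by norm_num),
    tan_le_num (by norm_num) (by norm_num) (by norm_num) (by norm_num)⟩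

theorem c22C0_3 : cert1 c22P0 4 3 501437432 450971566 4 15 10 5 34 ⟨1400021514, 1411243912⟩ ⟨311134337, 502450192⟩
    ⟨8375186, 1073741824⟩ ⟨190216583, 363879507⟩ = true := by
  decide +kernel

theorem c22A0_4 : TA (117 / 400) (1469 / 5000) ⟨1406432350, 1423069880⟩ :=
  ⟨by norm_num, by norm_num, le_tan_num (by norm_num) (by norm_num) (by norm_num) (by norm_num),
    tan_le_num (by norm_num) (by norm_num) (by norm_num) (by norm_num)⟩

theorem c22C0_4 : cert1 c22P0 4 3 501437432 450971566 4 15 10 5 34 ⟨1406432350, 1423069880⟩ ⟨309626367, 501319982⟩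
    ⟨8375186, 1073741824⟩ ⟨190216583, 363879507⟩ = true := by
  decide +kernel

theorem c22A0_5 : TA (1469 / 5000) (59 / 200) ⟨1418435686, 1434105629⟩ :=
  ⟨by norm_num, by norm_num, le_tan_num (by norm_num) (by norm_num) (by norm_num) (by norm_num),
    tan_le_num (by norm_num) (by norm_num) (by norm_num) (by norm_num)⟩

theorem c22C0_5 : cert1 c22P0 4 3 501437432 450971566 4 15 10 5 34 ⟨1418435686, 1434105629⟩ ⟨308227642, 499210519⟩
    ⟨8375186, 1073741824⟩ ⟨190216583, 363879507⟩ = true := by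
  decide +kernel

theorem c22A0_6 : TA (59 / 200) (119 / 400) ⟨1429630026, 1457473671⟩ :=
  ⟨by norm_num, by norm_num, le_tan_num (by norm_num) (by norm_num) (by norm_num) (by norm_num),
    tan_le_num (by norm_num) (by norm_num) (by norm_num) (by norm_num)⟩

theorem c22C0_6 : cert1 c22P0 4 3 501437432 450971566 4 15 10 5 34 ⟨1429630026, 1457473671⟩ ⟨305292930, 497251171⟩
    ⟨8375186, 1073741824⟩ ⟨190216583, 363879507⟩ = true := by
  decide +kernel

theorem c22A0_7 : TA (119 / 400) (3 / 10) ⟨1453313219, 1481365907⟩ :=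
  ⟨by norm_num, by norm_num, le_tan_num (by norm_num) (by norm_num) (by norm_num) (by norm_num),
    tan_le_num (by norm_num) (by norm_num) (by norm_num) (by norm_num)⟩

theorem c22C0_7 : cert1 c22P0 4 3 501437432 450971566 4 15 10 5 34 ⟨1453313219, 1481365907⟩ ⟨302330446, 493131570⟩
    ⟨8375186, 1073741824⟩ ⟨190216583, 363879507⟩ = true := by
  decide +kernel

theorem c22A0_8 : TA (3 / 10) (31 / 100) ⟨1477500938, 1582569517⟩ :=
  ⟨by norm_num, by norm_num, le_tan_num (by norm_num) (by norm_num) (by norm_num) (by norm_num),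
    tan_le_num (by norm_num) (by norm_num) (by norm_num) (by norm_num)⟩

theorem c22C0_8 : cert1 c22P0 4 3 501437432 450971566 4 15 10 5 34 ⟨1477500938, 1582569517⟩ ⟨290207689, 488960867⟩
    ⟨8375186, 1073741824⟩ ⟨190216583, 363879507⟩ = true := by
  decide +kernel

theorem c22A0_9 : TA (31 / 100) (33 / 100) ⟨1579710709, 1816998310⟩ :=
  ⟨by norm_num, by norm_num, le_tan_num (by norm_num) (by norm_num) (by norm_num) (by norm_num),
    tan_le_num (by norm_num) (by norm_num) (by norm_num) (by norm_num)⟩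

theorem c22C0_9 : cert1 c22P0 4 3 501437432 450971566 4 15 10 5 34 ⟨1579710709, 1816998310⟩ ⟨264703634, 471761297⟩
    ⟨8375186, 1073741824⟩ ⟨190216583, 363879507⟩ = true := by
  decide +kernel

theorem c22A0_10 : TA (33 / 100) (7 / 20) ⟨1815491331, 2108042865⟩ :=
  ⟨by norm_num, by norm_num, le_tan_num (by norm_num) (by norm_num) (by norm_num) (by norm_num),
    tan_le_num (by norm_num) (by norm_num) (by norm_num) (by norm_num)⟩

theorem c22C0_10 : cert1 c22P0 4 3 501437432 450971566 4 15 10 5 34 ⟨1815491331, 2108042865⟩ ⟨237627465, 434833323⟩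
    ⟨8375186, 1073741824⟩ ⟨190216583, 363879507⟩ = true := by
  decide +kernel

theorem c22A0_11 : TA (7 / 20) (37 / 100) ⟨2107295321, 2481598799⟩ :=
  ⟨by norm_num, by norm_num, le_tan_num (by norm_num) (by norm_num) (by norm_num) (by norm_num),
    tan_le_num (by norm_num) (by norm_num) (by norm_num) (by norm_num)⟩

theorem c22C0_11 : cert1 c22P0 4 3 501437432 450971566 4 15 10 5 34 ⟨2107295321, 2481598799⟩ ⟨209111384, 394472908⟩
    ⟨8375186, 1073741824⟩ ⟨190216583, 363879507⟩ = true := by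
  decide +kernel

theorem c22A0_12 : TA (37 / 100) (19 / 50) ⟨2481256305, 2712177144⟩ :=
  ⟨by norm_num, by norm_num, le_tan_num (by norm_num) (by norm_num) (by norm_num) (by norm_num),
    tan_le_num (by norm_num) (by norm_num) (by norm_num) (by norm_num)⟩

theorem c22C0_12 : cert1 c22P0 7 5 501437432 450971566 4 15 10 5 34 ⟨2481256305, 2712177144⟩ ⟨194357385, 350678837⟩
    ⟨8375186, 1073741824⟩ ⟨190216583, 363879507⟩ = true := by
  decide +kernel

theorem c22A0_13 : TA (19 / 50) (2 / 5) ⟨2711953937, 3304720923⟩ :=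
  ⟨by norm_num, by norm_num, le_tan_num (by norm_num) (by norm_num) (by norm_num) (by norm_num),
    tan_le_num (by norm_num) (by norm_num) (by norm_num) (by norm_num)⟩

theorem c22C0_13 : cert1 c22P0 3 2 501437432 450971566 4 15 10 5 34 ⟨2711953937, 3304720923⟩ ⟨163953064, 327519776⟩
    ⟨8375186, 1073741824⟩ ⟨190216583, 363879507⟩ = true := by
  decide +kernel

def c22Q0_4 : P2.Par := ⟨⟨1312112508, 1600949060⟩, ⟨0, 226559525⟩, 268435456, 812822561, 4, 3, 0, 222264558, 0, 0⟩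

theorem c22B0_0 : TA (709 / 2000) (37 / 100) ⟨2183060017, 2481598799⟩ :=
  ⟨by norm_num, by norm_num, le_tan_num (by norm_num) (by norm_num) (by norm_num) (by norm_num),
    tan_le_num (by norm_num) (by norm_num) (by norm_num) (by norm_num)⟩

theorem c22D0_0 : cert2 c22Q0_4 20 100 50 30 ⟨2183060017, 2481598799⟩ ⟨209111384, 384916860⟩ ⟨8375186, 1073741824⟩ = true := by
  decide +kernel

def c22Q0_7 : P2.Par := ⟨⟨1312112508, 1600949060⟩, ⟨0, 226559525⟩, 268435456, 812822561, 7, 5, 0, 222264558, 0, 0⟩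

theorem c22B0_1 : TA (37 / 100) (19 / 50) ⟨2481256305, 2712177144⟩ :=
  ⟨by norm_num, by norm_num, le_tan_num (by norm_num) (by norm_num) (by norm_num) (by norm_num),
    tan_le_num (by norm_num) (by norm_num) (by norm_num) (by norm_num)⟩

theorem c22D0_1 : cert2 c22Q0_7 20 100 50 30 ⟨2481256305, 2712177144⟩ ⟨194357385, 350678837⟩ ⟨8375186, 1073741824⟩ = true := by
  decide +kernel

def c22Q0_3 : P2.Par := ⟨⟨1312112508, 1600949060⟩, ⟨0, 226559525⟩, 268435456, 812822561, 3, 2, 0, 222264558, 0, 0⟩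

theorem c22B0_2 : TA (19 / 50) (39 / 100) ⟨2711953937, 2982569043⟩ :=
  ⟨by norm_num, by norm_num, le_tan_num (by norm_num) (by norm_num) (by norm_num) (by norm_num),
    tan_le_num (by norm_num) (by norm_num) (by norm_num) (by norm_num)⟩

theorem c22D0_2 : cert2 c22Q0_3 20 100 50 30 ⟨2711953937, 2982569043⟩ ⟨179297905, 327519776⟩ ⟨8375186, 1073741824⟩ = true := by
  decide +kernel

theorem c22B0_3 : TA (39 / 100) (2 / 5) ⟨2982428000, 3304720923⟩ :=
  ⟨by norm_num, by norm_num, le_tan_num (by norm_num) (by norm_num) (by norm_num) (by norm_num),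
    tan_le_num (by norm_num) (by norm_num) (by norm_num) (by norm_num)⟩

theorem c22D0_3 : cert2 c22Q0_3 20 100 50 30 ⟨2982428000, 3304720923⟩ ⟨163953064, 303546499⟩ ⟨8375186, 1073741824⟩ = true := by
  decide +kernel

/-- The box: `re w ∈ [0, 1/25]`, `tan² θ' ∈ [1/4, 49/100]`, `tan² θ ∈ [1/4, 757/1000]`, base `29/100`. -/
theorem c22_0 : Cert22 (29 / 100) 0 (1 / 25) (1 / 4) (49 / 100) (1 / 4) (757 / 1000) (9 / 25) (207 / 500) (709 / 2000)
    (62679679 / 134217728) (225485783 / 536870912) (-111132279 / 536870912) (0 / 1) where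
  k0 := by norm_num
  k1 := by norm_num
  hw := by norm_num
  hw' := by norm_num
  P0 := ⟨(2183692031 / 1073741824), tan_le_num (by norm_num) (by norm_num) (by norm_num) (by norm_num), by norm_num⟩
  ph := by
    intro θ θ' h0 w hθ0 hθ1 hθ' r0 r1 r2 hwl hwi t0 t1 u0 u1 hh k0 k1
    have mS : Mem (Real.tan θ' ^ 2) ⟨268435456, 526133494⟩ := ⟨le_trans (by norm_num)
      (mul_le_mul_of_nonneg_right t0 (by norm_num)), (mul_le_mul_of_nonneg_right t1
        (by norm_num)).trans (by norm_num)⟩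
    have mZ : Mem (Real.sin (Real.pi * w.re)) (rng 0 125334 1000000) :=
      Hz.w_mem_sin (x1 := 0) (x2 := (3927 / 31250)) (by norm_num) r0 r1 (by norm_num) (by norm_num)
        (by norm_num) (by norm_num) (by norm_num) (by norm_num) (by norm_num) (by norm_num)
    obtain ⟨mr, mi⟩ := rect_of c22R0 mS mZ (by linarith) hθ' (by linarith) (by linarith) hwl
    have us0 : ((c22P0.slo : ℕ) : ℝ) / 1073741824 ≤ Real.tan θ ^ 2 :=
      le_trans (by norm_num [c22P0]) u0
    have us1 : Real.tan θ ^ 2 ≤ ((c22P0.shi : ℕ) : ℝ) / 1073741824 :=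
      u1.trans (by norm_num [c22P0])
    have hk0 : ((c22P0.klo : ℕ) : ℝ) / 1073741824 * Real.tan θ ^ 2 ≤
        Real.sinh (Real.pi * h0) ^ 2 :=
      le_trans (mul_le_mul_of_nonneg_right (by norm_num [c22P0]) (sq_nonneg _)) k0
    have hk1 : Real.sinh (Real.pi * h0) ^ 2 ≤
        ((c22P0.khi : ℕ) : ℝ) / 1073741824 * Real.tan θ ^ 2 :=
      k1.trans (mul_le_mul_of_nonneg_right (by norm_num [c22P0]) (sq_nonneg _))
    have v0 : 0 ≤ ((starRingEnd ℂ) w).re := by rw [conj_re]; linarith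
    have v1 : ((starRingEnd ℂ) w).re < 1 / 2 := by rw [conj_re]; linarith
    have vi : ((starRingEnd ℂ) w).im ≤ 0 := by rw [conj_im]; linarith
    refine ⟨?_, ?_, ?_, ?_, ?_, ?_⟩
    · exact (Ph1.glue (Ph1.of_cert c22C0_0 c22A0_0 hθ0 hθ1 us0 us1 hh hk0 hk1 mr mi)
        (Ph1.glue (Ph1.of_cert c22C0_1 c22A0_1 hθ0 hθ1 us0 us1 hh hk0 hk1 mr mi)
        (Ph1.glue (Ph1.of_cert c22C0_2 c22A0_2 hθ0 hθ1 us0 us1 hh hk0 hk1 mr mi)
        (Ph1.glue (Ph1.of_cert c22C0_3 c22A0_3 hθ0 hθ1 us0 us1 hh hk0 hk1 mr mi)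
        (Ph1.glue (Ph1.of_cert c22C0_4 c22A0_4 hθ0 hθ1 us0 us1 hh hk0 hk1 mr mi)
        (Ph1.glue (Ph1.of_cert c22C0_5 c22A0_5 hθ0 hθ1 us0 us1 hh hk0 hk1 mr mi)
        (Ph1.glue (Ph1.of_cert c22C0_6 c22A0_6 hθ0 hθ1 us0 us1 hh hk0 hk1 mr mi)
        (Ph1.glue (Ph1.of_cert c22C0_7 c22A0_7 hθ0 hθ1 us0 us1 hh hk0 hk1 mr mi)
        (Ph1.glue (Ph1.of_cert c22C0_8 c22A0_8 hθ0 hθ1 us0 us1 hh hk0 hk1 mr mi)
        (Ph1.glue (Ph1.of_cert c22C0_9 c22A0_9 hθ0 hθ1 us0 us1 hh hk0 hk1 mr mi)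
        (Ph1.glue (Ph1.of_cert c22C0_10 c22A0_10 hθ0 hθ1 us0 us1 hh hk0 hk1 mr mi)
        (Ph1.of_cert c22C0_11 c22A0_11 hθ0 hθ1 us0 us1 hh hk0 hk1 mr mi)))))))))))).mono
        (by norm_num) (by norm_num) (by norm_num) (by norm_num) (by norm_num)
    · exact (Ph1.of_cert c22C0_12 c22A0_12 hθ0 hθ1 us0 us1 hh hk0 hk1 mr mi).mono
        (by norm_num) (by norm_num) (by norm_num) (by norm_num) (by norm_num)
    · exact (Ph1.of_cert c22C0_13 c22A0_13 hθ0 hθ1 us0 us1 hh hk0 hk1 mr mi).mono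
        (by norm_num) (by norm_num) (by norm_num) (by norm_num) (by norm_num)
    · exact (Ph2.of_cert c22D0_0 c22B0_0 hθ0 hθ1 (by simpa [c22Q0_4, c22P0] using us0)
        (by simpa [c22Q0_4, c22P0] using us1) v0 v1 vi (by simpa [c22Q0_4, c22P0] using mr)
        (by simpa [c22Q0_4, c22P0] using mi)).mono
        (by norm_num) (by norm_num) (by norm_num [c22Q0_4]) (by norm_num [c22Q0_4])
        (by norm_num [c22Q0_4])
    · exact (Ph2.of_cert c22D0_1 c22B0_1 hθ0 hθ1 (by simpa [c22Q0_7, c22P0] using us0)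
        (by simpa [c22Q0_7, c22P0] using us1) v0 v1 vi (by simpa [c22Q0_7, c22P0] using mr)
        (by simpa [c22Q0_7, c22P0] using mi)).mono
        (by norm_num) (by norm_num) (by norm_num [c22Q0_7]) (by norm_num [c22Q0_7])
        (by norm_num [c22Q0_7])
    · intro _; exact (Ph2.glue (Ph2.of_cert c22D0_2 c22B0_2 hθ0 hθ1 (by simpa [c22Q0_3, c22P0] using us0)
        (by simpa [c22Q0_3, c22P0] using us1) v0 v1 vi (by simpa [c22Q0_3, c22P0] using mr)
        (by simpa [c22Q0_3, c22P0] using mi))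
        (Ph2.of_cert c22D0_3 c22B0_3 hθ0 hθ1 (by simpa [c22Q0_3, c22P0] using us0)
        (by simpa [c22Q0_3, c22P0] using us1) v0 v1 vi (by simpa [c22Q0_3, c22P0] using mr)
        (by simpa [c22Q0_3, c22P0] using mi))).mono
        (by norm_num) (by norm_num) (by norm_num [c22Q0_3]) (by norm_num [c22Q0_3])
        (by norm_num [c22Q0_3])

end Pool.Agent.S3.T2
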