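import Pool.Agent.S3.Hz.Main
import Pool.Agent.S3.W3.Cert
import Pool.Agent.S3.W3.Glue
import Pool.Agent.S3.W3.Rect

/-!
# Two vertices with two half twists: box 1 (generated)
-/

set_option autoImplicit false

namespace Pool.Agent.S3.T2

open Complex Pool.Agent.S3.NI

def c22P1 : P1.Par := ⟨⟨1557999386, 1756641625⟩, ⟨0, 270582940⟩, 268435456, 740881859, 163316131, 196692323⟩

theorem c22R1 : certR ⟨1557999386, 1756641625⟩ ⟨0, 270582940⟩ 1 1 24 ⟨526133493, 681826059⟩ (rng 0 125334 1000000) = true := by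
  decide +kernel

theorem c22A1_0 : TA (29 / 100) (1453 / 5000) ⟨1383702044, 1394197173⟩ :=
  ⟨by norm_num, by norm_num, le_tan_num (by norm_num) (by norm_num) (by norm_num) (by norm_num),
    tan_le_num (by norm_num) (by norm_num) (by norm_num) (by norm_num)⟩

theorem c22C1_0 : cert1 c22P1 4 3 562640716 408021893 4 15 10 5 34 ⟨1383702044, 1394197173⟩ ⟨313324538, 487256982⟩
    ⟨8375186, 1073741824⟩ ⟨205508871, 359685103⟩ = true := by
  decide +kernel

theorem c22A1_1 : TA (1453 / 5000) (182 / 625) ⟨1389115634, 1399550255⟩ :=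
  ⟨by norm_num, by norm_num, le_tan_num (by norm_num) (by norm_num) (by norm_num) (by norm_num),
    tan_le_num (by norm_num) (by norm_num) (by norm_num) (by norm_num)⟩

theorem c22C1_1 : cert1 c22P1 4 3 562640716 408021893 4 15 10 5 34 ⟨1389115634, 1399550255⟩ ⟨312634666, 486313054⟩
    ⟨8375186, 1073741824⟩ ⟨205508871, 359685103⟩ = true := by
  decide +kernel

theorem c22A1_2 : TA (182 / 625) (117 / 400) ⟨1394555378, 1411243912⟩ :=
  ⟨by norm_num, by norm_num, le_tan_num (by norm_num) (by norm_num) (by norm_num) (by norm_num),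
    tan_le_num (by norm_num) (by norm_num) (by norm_num) (by norm_num)⟩

theorem c22C1_2 : cert1 c22P1 4 3 562640716 408021893 4 15 10 5 34 ⟨1394555378, 1411243912⟩ ⟨311134337, 485366389⟩
    ⟨8375186, 1073741824⟩ ⟨205508871, 359685103⟩ = true := by
  decide +kernel

theorem c22A1_3 : TA (117 / 400) (59 / 200) ⟨1406432350, 1434105629⟩ :=
  ⟨by norm_num, by norm_num, le_tan_num (by norm_num) (by norm_num) (by norm_num) (by norm_num),
    tan_le_num (by norm_num) (by norm_num) (by norm_num) (by norm_num)⟩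

theorem c22C1_3 : cert1 c22P1 4 3 562640716 408021893 4 15 10 5 34 ⟨1406432350, 1434105629⟩ ⟨308227642, 483305878⟩
    ⟨8375186, 1073741824⟩ ⟨205508871, 359685103⟩ = true := by
  decide +kernel

theorem c22A1_4 : TA (59 / 200) (119 / 400) ⟨1429630026, 1457473671⟩ :=
  ⟨by norm_num, by norm_num, le_tan_num (by norm_num) (by norm_num) (by norm_num) (by norm_num),
    tan_le_num (by norm_num) (by norm_num) (by norm_num) (by norm_num)⟩

theorem c22C1_4 : cert1 c22P1 4 3 562640716 408021893 4 15 10 5 34 ⟨1429630026, 1457473671⟩ ⟨305292930, 479307058⟩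
    ⟨8375186, 1073741824⟩ ⟨205508871, 359685103⟩ = true := by
  decide +kernel

theorem c22A1_5 : TA (119 / 400) (3 / 10) ⟨1453313219, 1481365907⟩ :=
  ⟨by norm_num, by norm_num, le_tan_num (by norm_num) (by norm_num) (by norm_num) (by norm_num),
    tan_le_num (by norm_num) (by norm_num) (by norm_num) (by norm_num)⟩

theorem c22C1_5 : cert1 c22P1 4 3 562640716 408021893 4 15 10 5 34 ⟨1453313219, 1481365907⟩ ⟨302330446, 475260257⟩
    ⟨8375186, 1073741824⟩ ⟨205508871, 359685103⟩ = true := by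
  decide +kernel

theorem c22A1_6 : TA (3 / 10) (61 / 200) ⟨1477500938, 1530799362⟩ :=
  ⟨by norm_num, by norm_num, le_tan_num (by norm_num) (by norm_num) (by norm_num) (by norm_num),
    tan_le_num (by norm_num) (by norm_num) (by norm_num) (by norm_num)⟩

theorem c22C1_6 : cert1 c22P1 4 3 562640716 408021893 4 15 10 5 34 ⟨1477500938, 1530799362⟩ ⟨296323143, 471165222⟩
    ⟨8375186, 1073741824⟩ ⟨205508871, 359685103⟩ = true := by
  decide +kernel

theorem c22A1_7 : TA (61 / 200) (31 / 100) ⟨1527470639, 1582569517⟩ :=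
  ⟨by norm_num, by norm_num, le_tan_num (by norm_num) (by norm_num) (by norm_num) (by norm_num),
    tan_le_num (by norm_num) (by norm_num) (by norm_num) (by norm_num)⟩

theorem c22C1_7 : cert1 c22P1 4 3 562640716 408021893 4 15 10 5 34 ⟨1527470639, 1582569517⟩ ⟨290207689, 462829511⟩
    ⟨8375186, 1073741824⟩ ⟨205508871, 359685103⟩ = true := by
  decide +kernel

theorem c22A1_8 : TA (31 / 100) (8 / 25) ⟨1579710709, 1693870078⟩ :=
  ⟨by norm_num, by norm_num, le_tan_num (by norm_num) (by norm_num) (by norm_num) (by norm_num),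
    tan_le_num (by norm_num) (by norm_num) (by norm_num) (by norm_num)⟩

theorem c22C1_8 : cert1 c22P1 4 3 562640716 408021893 4 15 10 5 34 ⟨1579710709, 1693870078⟩ ⟨277660173, 454298194⟩
    ⟨8375186, 1073741824⟩ ⟨205508871, 359685103⟩ = true := by
  decide +kernel

theorem c22A1_9 : TA (8 / 25) (33 / 100) ⟨1691780553, 1816998310⟩ :=
  ⟨by norm_num, by norm_num, le_tan_num (by norm_num) (by norm_num) (by norm_num) (by norm_num),
    tan_le_num (by norm_num) (by norm_num) (by norm_num) (by norm_num)⟩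

theorem c22C1_9 : cert1 c22P1 4 3 562640716 408021893 4 15 10 5 34 ⟨1691780553, 1816998310⟩ ⟨264703634, 436643021⟩
    ⟨8375186, 1073741824⟩ ⟨205508871, 359685103⟩ = true := by
  decide +kernel

theorem c22A1_10 : TA (33 / 100) (17 / 50) ⟨1815491331, 1954132144⟩ :=
  ⟨by norm_num, by norm_num, le_tan_num (by norm_num) (by norm_num) (by norm_num) (by norm_num),
    tan_le_num (by norm_num) (by norm_num) (by norm_num) (by norm_num)⟩

theorem c22C1_10 : cert1 c22P1 4 3 562640716 408021893 4 15 10 5 34 ⟨1815491331, 1954132144⟩ ⟨251353985, 418190798⟩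
    ⟨8375186, 1073741824⟩ ⟨205508871, 359685103⟩ = true := by
  decide +kernel

theorem c22A1_11 : TA (17 / 50) (7 / 20) ⟨1953061593, 2108042865⟩ :=
  ⟨by norm_num, by norm_num, le_tan_num (by norm_num) (by norm_num) (by norm_num) (by norm_num),
    tan_le_num (by norm_num) (by norm_num) (by norm_num) (by norm_num)⟩

theorem c22C1_11 : cert1 c22P1 4 3 562640716 408021893 4 15 10 5 34 ⟨1953061593, 2108042865⟩ ⟨237627465, 398936926⟩
    ⟨8375186, 1073741824⟩ ⟨205508871, 359685103⟩ = true := by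
  decide +kernel

theorem c22A1_12 : TA (7 / 20) (9 / 25) ⟨2107295321, 2282304272⟩ :=
  ⟨by norm_num, by norm_num, le_tan_num (by norm_num) (by norm_num) (by norm_num) (by norm_num),
    tan_le_num (by norm_num) (by norm_num) (by norm_num) (by norm_num)⟩

theorem c22C1_12 : cert1 c22P1 4 3 562640716 408021893 4 15 10 5 34 ⟨2107295321, 2282304272⟩ ⟨223540804, 378881493⟩
    ⟨8375186, 1073741824⟩ ⟨205508871, 359685103⟩ = true := by
  decide +kernel

theorem c22A1_13 : TA (9 / 25) (37 / 100) ⟨2281792478, 2481598799⟩ :=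
  ⟨by norm_num, by norm_num, le_tan_num (by norm_num) (by norm_num) (by norm_num) (by norm_num),
    tan_le_num (by norm_num) (by norm_num) (by norm_num) (by norm_num)⟩

theorem c22C1_13 : cert1 c22P1 4 3 562640716 408021893 4 15 10 5 34 ⟨2281792478, 2481598799⟩ ⟨209111384, 358029683⟩
    ⟨8375186, 1073741824⟩ ⟨205508871, 359685103⟩ = true := by
  decide +kernel

theorem c22A1_14 : TA (37 / 100) (19 / 50) ⟨2481256305, 2712177144⟩ :=
  ⟨by norm_num, by norm_num, le_tan_num (by norm_num) (by norm_num) (by norm_num) (by norm_num),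
    tan_le_num (by norm_num) (by norm_num) (by norm_num) (by norm_num)⟩

theorem c22C1_14 : cert1 c22P1 7 5 562640716 408021893 4 15 10 5 34 ⟨2481256305, 2712177144⟩ ⟨194357385, 336392183⟩
    ⟨8375186, 1073741824⟩ ⟨205508871, 359685103⟩ = true := by
  decide +kernel

theorem c22A1_15 : TA (19 / 50) (2 / 5) ⟨2711953937, 3304720923⟩ :=
  ⟨by norm_num, by norm_num, le_tan_num (by norm_num) (by norm_num) (by norm_num) (by norm_num),
    tan_le_num (by norm_num) (by norm_num) (by norm_num) (by norm_num)⟩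

theorem c22C1_15 : cert1 c22P1 3 2 562640716 408021893 4 15 10 5 34 ⟨2711953937, 3304720923⟩ ⟨163953064, 313985582⟩
    ⟨8375186, 1073741824⟩ ⟨205508871, 359685103⟩ = true := by
  decide +kernel

def c22Q1_4 : P2.Par := ⟨⟨1557999386, 1756641625⟩, ⟨0, 270582940⟩, 268435456, 740881859, 4, 3, 0, 204010947, 0, 128849019⟩

theorem c22B1_0 : TA (699 / 2000) (37 / 100) ⟨2099136163, 2481598799⟩ :=
  ⟨by norm_num, by norm_num, le_tan_num (by norm_num) (by norm_num) (by norm_num) (by norm_num),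
    tan_le_num (by norm_num) (by norm_num) (by norm_num) (by norm_num)⟩

theorem c22D1_0 : cert2 c22Q1_4 20 100 50 30 ⟨2099136163, 2481598799⟩ ⟨209111384, 379903244⟩ ⟨8375186, 1073741824⟩ = true := by
  decide +kernel

def c22Q1_7 : P2.Par := ⟨⟨1557999386, 1756641625⟩, ⟨0, 270582940⟩, 268435456, 740881859, 7, 5, 0, 204010947, 0, 128849019⟩

theorem c22B1_1 : TA (37 / 100) (19 / 50) ⟨2481256305, 2712177144⟩ :=
  ⟨by norm_num, by norm_num, le_tan_num (by norm_num) (by norm_num) (by norm_num) (by norm_num),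
    tan_le_num (by norm_num) (by norm_num) (by norm_num) (by norm_num)⟩

theorem c22D1_1 : cert2 c22Q1_7 20 100 50 30 ⟨2481256305, 2712177144⟩ ⟨194357385, 336392183⟩ ⟨8375186, 1073741824⟩ = true := by
  decide +kernel

def c22Q1_3 : P2.Par := ⟨⟨1557999386, 1756641625⟩, ⟨0, 270582940⟩, 268435456, 740881859, 3, 2, 0, 204010947, 0, 128849019⟩

theorem c22B1_2 : TA (19 / 50) (77 / 200) ⟨2711953937, 2841747218⟩ :=
  ⟨by norm_num, by norm_num, le_tan_num (by norm_num) (by norm_num) (by norm_num) (by norm_num),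
    tan_le_num (by norm_num) (by norm_num) (by norm_num) (by norm_num)⟩

theorem c22D1_2 : cert2 c22Q1_3 20 100 50 30 ⟨2711953937, 2841747218⟩ ⟨186864597, 313985582⟩ ⟨8375186, 1073741824⟩ = true := by
  decide +kernel

theorem c22B1_3 : TA (77 / 200) (39 / 100) ⟨2841569047, 2982569043⟩ :=
  ⟨by norm_num, by norm_num, le_tan_num (by norm_num) (by norm_num) (by norm_num) (by norm_num),
    tan_le_num (by norm_num) (by norm_num) (by norm_num) (by norm_num)⟩

theorem c22D1_3 : cert2 c22Q1_3 20 100 50 30 ⟨2841569047, 2982569043⟩ ⟨179297905, 302500754⟩ ⟨8375186, 1073741824⟩ = true := by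
  decide +kernel

theorem c22B1_4 : TA (39 / 100) (79 / 200) ⟨2982428000, 3136250422⟩ :=
  ⟨by norm_num, by norm_num, le_tan_num (by norm_num) (by norm_num) (by norm_num) (by norm_num),
    tan_le_num (by norm_num) (by norm_num) (by norm_num) (by norm_num)⟩

theorem c22D1_4 : cert2 c22Q1_3 20 100 50 30 ⟨2982428000, 3136250422⟩ ⟨171659856, 290832721⟩ ⟨8375186, 1073741824⟩ = true := by
  decide +kernel

theorem c22B1_5 : TA (79 / 200) (2 / 5) ⟨3136139768, 3304720923⟩ :=
  ⟨by norm_num, by norm_num, le_tan_num (by norm_num) (by norm_num) (by norm_num) (by norm_num),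
    tan_le_num (by norm_num) (by norm_num) (by norm_num) (by norm_num)⟩

theorem c22D1_5 : cert2 c22Q1_3 20 100 50 30 ⟨3136139768, 3304720923⟩ ⟨163953064, 278985364⟩ ⟨8375186, 1073741824⟩ = true := by
  decide +kernel

/-- The box: `re w ∈ [0, 1/25]`, `tan² θ' ∈ [49/100, 127/200]`, `tan² θ ∈ [1/4, 69/100]`, base `29/100`. -/
theorem c22_1 : Cert22 (29 / 100) 0 (1 / 25) (49 / 100) (127 / 200) (1 / 4) (69 / 100) (39 / 100) (107 / 250) (699 / 2000)
    (140660179 / 268435456) (408021893 / 1073741824) (-204010947 / 1073741824) (128849019 / 1073741824) where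
  k0 := by norm_num
  k1 := by norm_num
  hw := by norm_num
  hw' := by norm_num
  P0 := ⟨(2099897591 / 1073741824), tan_le_num (by norm_num) (by norm_num) (by norm_num) (by norm_num), by norm_num⟩
  ph := by
    intro θ θ' h0 w hθ0 hθ1 hθ' r0 r1 r2 hwl hwi t0 t1 u0 u1 hh k0 k1
    have mS : Mem (Real.tan θ' ^ 2) ⟨526133493, 681826059⟩ := ⟨le_trans (by norm_num)
      (mul_le_mul_of_nonneg_right t0 (by norm_num)), (mul_le_mul_of_nonneg_right t1
        (by norm_num)).trans (by norm_num)⟩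
    have mZ : Mem (Real.sin (Real.pi * w.re)) (rng 0 125334 1000000) :=
      Hz.w_mem_sin (x1 := 0) (x2 := (3927 / 31250)) (by norm_num) r0 r1 (by norm_num) (by norm_num)
        (by norm_num) (by norm_num) (by norm_num) (by norm_num) (by norm_num) (by norm_num)
    obtain ⟨mr, mi⟩ := rect_of c22R1 mS mZ (by linarith) hθ' (by linarith) (by linarith) hwl
    have us0 : ((c22P1.slo : ℕ) : ℝ) / 1073741824 ≤ Real.tan θ ^ 2 :=
      le_trans (by norm_num [c22P1]) u0
    have us1 : Real.tan θ ^ 2 ≤ ((c22P1.shi : ℕ) : ℝ) / 1073741824 :=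
      u1.trans (by norm_num [c22P1])
    have hk0 : ((c22P1.klo : ℕ) : ℝ) / 1073741824 * Real.tan θ ^ 2 ≤
        Real.sinh (Real.pi * h0) ^ 2 :=
      le_trans (mul_le_mul_of_nonneg_right (by norm_num [c22P1]) (sq_nonneg _)) k0
    have hk1 : Real.sinh (Real.pi * h0) ^ 2 ≤
        ((c22P1.khi : ℕ) : ℝ) / 1073741824 * Real.tan θ ^ 2 :=
      k1.trans (mul_le_mul_of_nonneg_right (by norm_num [c22P1]) (sq_nonneg _))
    have v0 : 0 ≤ ((starRingEnd ℂ) w).re := by rw [conj_re]; linarith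
    have v1 : ((starRingEnd ℂ) w).re < 1 / 2 := by rw [conj_re]; linarith
    have vi : ((starRingEnd ℂ) w).im ≤ 0 := by rw [conj_im]; linarith
    refine ⟨?_, ?_, ?_, ?_, ?_, ?_⟩
    · exact (Ph1.glue (Ph1.of_cert c22C1_0 c22A1_0 hθ0 hθ1 us0 us1 hh hk0 hk1 mr mi)
        (Ph1.glue (Ph1.of_cert c22C1_1 c22A1_1 hθ0 hθ1 us0 us1 hh hk0 hk1 mr mi)
        (Ph1.glue (Ph1.of_cert c22C1_2 c22A1_2 hθ0 hθ1 us0 us1 hh hk0 hk1 mr mi)
        (Ph1.glue (Ph1.of_cert c22C1_3 c22A1_3 hθ0 hθ1 us0 us1 hh hk0 hk1 mr mi)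
        (Ph1.glue (Ph1.of_cert c22C1_4 c22A1_4 hθ0 hθ1 us0 us1 hh hk0 hk1 mr mi)
        (Ph1.glue (Ph1.of_cert c22C1_5 c22A1_5 hθ0 hθ1 us0 us1 hh hk0 hk1 mr mi)
        (Ph1.glue (Ph1.of_cert c22C1_6 c22A1_6 hθ0 hθ1 us0 us1 hh hk0 hk1 mr mi)
        (Ph1.glue (Ph1.of_cert c22C1_7 c22A1_7 hθ0 hθ1 us0 us1 hh hk0 hk1 mr mi)
        (Ph1.glue (Ph1.of_cert c22C1_8 c22A1_8 hθ0 hθ1 us0 us1 hh hk0 hk1 mr mi)
        (Ph1.glue (Ph1.of_cert c22C1_9 c22A1_9 hθ0 hθ1 us0 us1 hh hk0 hk1 mr mi)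
        (Ph1.glue (Ph1.of_cert c22C1_10 c22A1_10 hθ0 hθ1 us0 us1 hh hk0 hk1 mr mi)
        (Ph1.glue (Ph1.of_cert c22C1_11 c22A1_11 hθ0 hθ1 us0 us1 hh hk0 hk1 mr mi)
        (Ph1.glue (Ph1.of_cert c22C1_12 c22A1_12 hθ0 hθ1 us0 us1 hh hk0 hk1 mr mi)
        (Ph1.of_cert c22C1_13 c22A1_13 hθ0 hθ1 us0 us1 hh hk0 hk1 mr mi)))))))))))))).mono
        (by norm_num) (by norm_num) (by norm_num) (by norm_num) (by norm_num)
    · exact (Ph1.of_cert c22C1_14 c22A1_14 hθ0 hθ1 us0 us1 hh hk0 hk1 mr mi).mono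
        (by norm_num) (by norm_num) (by norm_num) (by norm_num) (by norm_num)
    · exact (Ph1.of_cert c22C1_15 c22A1_15 hθ0 hθ1 us0 us1 hh hk0 hk1 mr mi).mono
        (by norm_num) (by norm_num) (by norm_num) (by norm_num) (by norm_num)
    · exact (Ph2.of_cert c22D1_0 c22B1_0 hθ0 hθ1 (by simpa [c22Q1_4, c22P1] using us0)
        (by simpa [c22Q1_4, c22P1] using us1) v0 v1 vi (by simpa [c22Q1_4, c22P1] using mr)
        (by simpa [c22Q1_4, c22P1] using mi)).mono
        (by norm_num) (by norm_num) (by norm_num [c22Q1_4]) (by norm_num [c22Q1_4])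
        (by norm_num [c22Q1_4])
    · exact (Ph2.of_cert c22D1_1 c22B1_1 hθ0 hθ1 (by simpa [c22Q1_7, c22P1] using us0)
        (by simpa [c22Q1_7, c22P1] using us1) v0 v1 vi (by simpa [c22Q1_7, c22P1] using mr)
        (by simpa [c22Q1_7, c22P1] using mi)).mono
        (by norm_num) (by norm_num) (by norm_num [c22Q1_7]) (by norm_num [c22Q1_7])
        (by norm_num [c22Q1_7])
    · intro _; exact (Ph2.glue (Ph2.of_cert c22D1_2 c22B1_2 hθ0 hθ1 (by simpa [c22Q1_3, c22P1] using us0)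
        (by simpa [c22Q1_3, c22P1] using us1) v0 v1 vi (by simpa [c22Q1_3, c22P1] using mr)
        (by simpa [c22Q1_3, c22P1] using mi))
        (Ph2.glue (Ph2.of_cert c22D1_3 c22B1_3 hθ0 hθ1 (by simpa [c22Q1_3, c22P1] using us0)
        (by simpa [c22Q1_3, c22P1] using us1) v0 v1 vi (by simpa [c22Q1_3, c22P1] using mr)
        (by simpa [c22Q1_3, c22P1] using mi))
        (Ph2.glue (Ph2.of_cert c22D1_4 c22B1_4 hθ0 hθ1 (by simpa [c22Q1_3, c22P1] using us0)
        (by simpa [c22Q1_3, c22P1] using us1) v0 v1 vi (by simpa [c22Q1_3, c22P1] using mr)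
        (by simpa [c22Q1_3, c22P1] using mi))
        (Ph2.of_cert c22D1_5 c22B1_5 hθ0 hθ1 (by simpa [c22Q1_3, c22P1] using us0)
        (by simpa [c22Q1_3, c22P1] using us1) v0 v1 vi (by simpa [c22Q1_3, c22P1] using mr)
        (by simpa [c22Q1_3, c22P1] using mi))))).mono
        (by norm_num) (by norm_num) (by norm_num [c22Q1_3]) (by norm_num [c22Q1_3])
        (by norm_num [c22Q1_3])

end Pool.Agent.S3.T2
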