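import Pool.Agent.S3.Hz.Main
import Pool.Agent.S3.W3.Cert
import Pool.Agent.S3.W3.Glue
import Pool.Agent.S3.W3.Rect

/-!
# Two vertices with two half twists: box 2 (generated)
-/

set_option autoImplicit false

namespace Pool.Agent.S3.T2

open Complex Pool.Agent.S3.NI

def c22P2 : P1.Par := ⟨⟨1706175758, 1887638127⟩, ⟨0, 304942679⟩, 268435456, 450971567, 176120502, 206932599⟩

theorem c22R2 : certR ⟨1706175758, 1887638127⟩ ⟨0, 304942679⟩ 1 1 24 ⟨681826058, 812822561⟩ (rng 0 125334 1000000) = true := by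
  decide +kernel

theorem c22A2_0 : TA (29 / 100) (3 / 10) ⟨1383702044, 1481365907⟩ :=
  ⟨by norm_num, by norm_num, le_tan_num (by norm_num) (by norm_num) (by norm_num) (by norm_num),
    tan_le_num (by norm_num) (by norm_num) (by norm_num) (by norm_num)⟩

theorem c22C2_0 : cert1 c22P2 4 3 426275504 0 4 15 10 5 34 ⟨1383702044, 1481365907⟩ ⟨302330446, 396461815⟩
    ⟨8375186, 1073741824⟩ ⟨213107251, 293824277⟩ = true := by
  decide +kernel

theorem c22A2_1 : TA (3 / 10) (61 / 200) ⟨1477500938, 1530799362⟩ :=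
  ⟨by norm_num, by norm_num, le_tan_num (by norm_num) (by norm_num) (by norm_num) (by norm_num),
    tan_le_num (by norm_num) (by norm_num) (by norm_num) (by norm_num)⟩

theorem c22C2_1 : cert1 c22P2 4 3 426275504 0 4 15 10 5 34 ⟨1477500938, 1530799362⟩ ⟨296323143, 382281911⟩
    ⟨8375186, 1073741824⟩ ⟨213107251, 293824277⟩ = true := by
  decide +kernel

theorem c22A2_2 : TA (61 / 200) (31 / 100) ⟨1527470639, 1582569517⟩ :=
  ⟨by norm_num, by norm_num, le_tan_num (by norm_num) (by norm_num) (by norm_num) (by norm_num),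
    tan_le_num (by norm_num) (by norm_num) (by norm_num) (by norm_num)⟩

theorem c22C2_2 : cert1 c22P2 4 3 426275504 0 4 15 10 5 34 ⟨1527470639, 1582569517⟩ ⟨290207689, 374983276⟩
    ⟨8375186, 1073741824⟩ ⟨213107251, 293824277⟩ = true := by
  decide +kernel

theorem c22A2_3 : TA (31 / 100) (63 / 200) ⟨1579710709, 1636858603⟩ :=
  ⟨by norm_num, by norm_num, le_tan_num (by norm_num) (by norm_num) (by norm_num) (by norm_num),
    tan_le_num (by norm_num) (by norm_num) (by norm_num) (by norm_num)⟩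

theorem c22C2_3 : cert1 c22P2 4 3 426275504 0 4 15 10 5 34 ⟨1579710709, 1636858603⟩ ⟨283986045, 367545314⟩
    ⟨8375186, 1073741824⟩ ⟨213107251, 293824277⟩ = true := by
  decide +kernel

theorem c22A2_4 : TA (63 / 200) (8 / 25) ⟨1634410669, 1693870078⟩ :=
  ⟨by norm_num, by norm_num, le_tan_num (by norm_num) (by norm_num) (by norm_num) (by norm_num),
    tan_le_num (by norm_num) (by norm_num) (by norm_num) (by norm_num)⟩

theorem c22C2_4 : cert1 c22P2 4 3 426275504 0 4 15 10 5 34 ⟨1634410669, 1693870078⟩ ⟨277660173, 359968104⟩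
    ⟨8375186, 1073741824⟩ ⟨213107251, 293824277⟩ = true := by
  decide +kernel

theorem c22A2_5 : TA (8 / 25) (13 / 40) ⟨1691780553, 1753831562⟩ :=
  ⟨by norm_num, by norm_num, le_tan_num (by norm_num) (by norm_num) (by norm_num) (by norm_num),
    tan_le_num (by norm_num) (by norm_num) (by norm_num) (by norm_num)⟩

theorem c22C2_5 : cert1 c22P2 4 3 426275504 0 4 15 10 5 34 ⟨1691780553, 1753831562⟩ ⟨271232043, 352251912⟩
    ⟨8375186, 1073741824⟩ ⟨213107251, 293824277⟩ = true := by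
  decide +kernel

theorem c22A2_6 : TA (13 / 40) (131 / 400) ⟨1752053911, 1784997138⟩ :=
  ⟨by norm_num, by norm_num, le_tan_num (by norm_num) (by norm_num) (by norm_num) (by norm_num),
    tan_le_num (by norm_num) (by norm_num) (by norm_num) (by norm_num)⟩

theorem c22C2_6 : cert1 c22P2 4 3 426275504 0 4 15 10 5 34 ⟨1752053911, 1784997138⟩ ⟨267980249, 344397192⟩
    ⟨8375186, 1073741824⟩ ⟨213107251, 293824277⟩ = true := by
  decide +kernel

theorem c22A2_7 : TA (131 / 400) (33 / 100) ⟨1783359662, 1816998310⟩ :=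
  ⟨by norm_num, by norm_num, le_tan_num (by norm_num) (by norm_num) (by norm_num) (by norm_num),
    tan_le_num (by norm_num) (by norm_num) (by norm_num) (by norm_num)⟩

theorem c22C2_7 : cert1 c22P2 4 3 426275504 0 4 15 10 5 34 ⟨1783359662, 1816998310⟩ ⟨264703634, 340418076⟩
    ⟨8375186, 1073741824⟩ ⟨213107251, 293824277⟩ = true := by
  decide +kernel

theorem c22A2_8 : TA (33 / 100) (133 / 400) ⟨1815491331, 1849871973⟩ :=
  ⟨by norm_num, by norm_num, le_tan_num (by norm_num) (by norm_num) (by norm_num) (by norm_num),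
    tan_le_num (by norm_num) (by norm_num) (by norm_num) (by norm_num)⟩

theorem c22C2_8 : cert1 c22P2 4 3 426275504 0 4 15 10 5 34 ⟨1815491331, 1849871973⟩ ⟨261402449, 336404583⟩
    ⟨8375186, 1073741824⟩ ⟨213107251, 293824277⟩ = true := by
  decide +kernel

theorem c22A2_9 : TA (133 / 400) (67 / 200) ⟨1848486399, 1883657306⟩ :=
  ⟨by norm_num, by norm_num, le_tan_num (by norm_num) (by norm_num) (by norm_num) (by norm_num),
    tan_le_num (by norm_num) (by norm_num) (by norm_num) (by norm_num)⟩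

theorem c22C2_9 : cert1 c22P2 4 3 426275504 0 4 15 10 5 34 ⟨1848486399, 1883657306⟩ ⟨258076943, 332356822⟩
    ⟨8375186, 1073741824⟩ ⟨213107251, 293824277⟩ = true := by
  decide +kernel

theorem c22A2_10 : TA (67 / 200) (17 / 50) ⟨1882384594, 1954132144⟩ :=
  ⟨by norm_num, by norm_num, le_tan_num (by norm_num) (by norm_num) (by norm_num) (by norm_num),
    tan_le_num (by norm_num) (by norm_num) (by norm_num) (by norm_num)⟩

theorem c22C2_10 : cert1 c22P2 4 3 426275504 0 4 15 10 5 34 ⟨1882384594, 1954132144⟩ ⟨251353985, 328274914⟩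
    ⟨8375186, 1073741824⟩ ⟨213107251, 293824277⟩ = true := by
  decide +kernel

theorem c22A2_11 : TA (17 / 50) (69 / 200) ⟨1953061593, 2028788847⟩ :=
  ⟨by norm_num, by norm_num, le_tan_num (by norm_num) (by norm_num) (by norm_num) (by norm_num),
    tan_le_num (by norm_num) (by norm_num) (by norm_num) (by norm_num)⟩

theorem c22C2_11 : cert1 c22P2 4 3 426275504 0 4 15 10 5 34 ⟨1953061593, 2028788847⟩ ⟨244536802, 320009204⟩
    ⟨8375186, 1073741824⟩ ⟨213107251, 293824277⟩ = true := by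
  decide +kernel

theorem c22A2_12 : TA (69 / 200) (7 / 20) ⟨2027892204, 2108042865⟩ :=
  ⟨by norm_num, by norm_num, le_tan_num (by norm_num) (by norm_num) (by norm_num) (by norm_num),
    tan_le_num (by norm_num) (by norm_num) (by norm_num) (by norm_num)⟩

theorem c22C2_12 : cert1 c22P2 4 3 426275504 0 4 15 10 5 34 ⟨2027892204, 2108042865⟩ ⟨237627465, 311608663⟩
    ⟨8375186, 1073741824⟩ ⟨213107251, 293824277⟩ = true := by
  decide +kernel

theorem c22A2_13 : TA (7 / 20) (9 / 25) ⟨2107295321, 2282304272⟩ :=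
  ⟨by norm_num, by norm_num, le_tan_num (by norm_num) (by norm_num) (by norm_num) (by norm_num),
    tan_le_num (by norm_num) (by norm_num) (by norm_num) (by norm_num)⟩

theorem c22C2_13 : cert1 c22P2 4 3 426275504 0 4 15 10 5 34 ⟨2107295321, 2282304272⟩ ⟨223540804, 303074697⟩
    ⟨8375186, 1073741824⟩ ⟨213107251, 293824277⟩ = true := by
  decide +kernel

theorem c22A2_14 : TA (9 / 25) (37 / 100) ⟨2281792478, 2481598799⟩ :=
  ⟨by norm_num, by norm_num, le_tan_num (by norm_num) (by norm_num) (by norm_num) (by norm_num),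
    tan_le_num (by norm_num) (by norm_num) (by norm_num) (by norm_num)⟩

theorem c22C2_14 : cert1 c22P2 4 3 426275504 0 4 15 10 5 34 ⟨2281792478, 2481598799⟩ ⟨209111384, 285613083⟩
    ⟨8375186, 1073741824⟩ ⟨213107251, 293824277⟩ = true := by
  decide +kernel

theorem c22A2_15 : TA (37 / 100) (19 / 50) ⟨2481256305, 2712177144⟩ :=
  ⟨by norm_num, by norm_num, le_tan_num (by norm_num) (by norm_num) (by norm_num) (by norm_num),
    tan_le_num (by norm_num) (by norm_num) (by norm_num) (by norm_num)⟩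

theorem c22C2_15 : cert1 c22P2 7 5 426275504 0 4 15 10 5 34 ⟨2481256305, 2712177144⟩ ⟨194357385, 267639541⟩
    ⟨8375186, 1073741824⟩ ⟨213107251, 293824277⟩ = true := by
  decide +kernel

theorem c22A2_16 : TA (19 / 50) (2 / 5) ⟨2711953937, 3304720923⟩ :=
  ⟨by norm_num, by norm_num, le_tan_num (by norm_num) (by norm_num) (by norm_num) (by norm_num),
    tan_le_num (by norm_num) (by norm_num) (by norm_num) (by norm_num)⟩

theorem c22C2_16 : cert1 c22P2 3 2 426275504 0 4 15 10 5 34 ⟨2711953937, 3304720923⟩ ⟨163953064, 249172458⟩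
    ⟨8375186, 1073741824⟩ ⟨213107251, 293824277⟩ = true := by
  decide +kernel

def c22Q2_4 : P2.Par := ⟨⟨1706175758, 1887638127⟩, ⟨0, 304942679⟩, 268435456, 450971567, 4, 3, 0, 136365212, 0, 386547057⟩

theorem c22B2_0 : TA (69 / 200) (37 / 100) ⟨2027892204, 2481598799⟩ :=
  ⟨by norm_num, by norm_num, le_tan_num (by norm_num) (by norm_num) (by norm_num) (by norm_num),
    tan_le_num (by norm_num) (by norm_num) (by norm_num) (by norm_num)⟩

theorem c22D2_0 : cert2 c22Q2_4 20 100 50 30 ⟨2027892204, 2481598799⟩ ⟨209111384, 311608663⟩ ⟨8375186, 1073741824⟩ = true := by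
  decide +kernel

def c22Q2_7 : P2.Par := ⟨⟨1706175758, 1887638127⟩, ⟨0, 304942679⟩, 268435456, 450971567, 7, 5, 0, 136365212, 0, 386547057⟩

theorem c22B2_1 : TA (37 / 100) (19 / 50) ⟨2481256305, 2712177144⟩ :=
  ⟨by norm_num, by norm_num, le_tan_num (by norm_num) (by norm_num) (by norm_num) (by norm_num),
    tan_le_num (by norm_num) (by norm_num) (by norm_num) (by norm_num)⟩

theorem c22D2_1 : cert2 c22Q2_7 20 100 50 30 ⟨2481256305, 2712177144⟩ ⟨194357385, 267639541⟩ ⟨8375186, 1073741824⟩ = true := by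
  decide +kernel

def c22Q2_3 : P2.Par := ⟨⟨1706175758, 1887638127⟩, ⟨0, 304942679⟩, 268435456, 450971567, 3, 2, 0, 136365212, 0, 386547057⟩

theorem c22B2_2 : TA (19 / 50) (77 / 200) ⟨2711953937, 2841747218⟩ :=
  ⟨by norm_num, by norm_num, le_tan_num (by norm_num) (by norm_num) (by norm_num) (by norm_num),
    tan_le_num (by norm_num) (by norm_num) (by norm_num) (by norm_num)⟩

theorem c22D2_2 : cert2 c22Q2_3 20 100 50 30 ⟨2711953937, 2841747218⟩ ⟨186864597, 249172458⟩ ⟨8375186, 1073741824⟩ = true := by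
  decide +kernel

theorem c22B2_3 : TA (77 / 200) (39 / 100) ⟨2841569047, 2982569043⟩ :=
  ⟨by norm_num, by norm_num, le_tan_num (by norm_num) (by norm_num) (by norm_num) (by norm_num),
    tan_le_num (by norm_num) (by norm_num) (by norm_num) (by norm_num)⟩

theorem c22D2_3 : cert2 c22Q2_3 20 100 50 30 ⟨2841569047, 2982569043⟩ ⟨179297905, 239760469⟩ ⟨8375186, 1073741824⟩ = true := by
  decide +kernel

theorem c22B2_4 : TA (39 / 100) (2 / 5) ⟨2982428000, 3304720923⟩ :=
  ⟨by norm_num, by norm_num, le_tan_num (by norm_num) (by norm_num) (by norm_num) (by norm_num),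
    tan_le_num (by norm_num) (by norm_num) (by norm_num) (by norm_num)⟩

theorem c22D2_4 : cert2 c22Q2_3 20 100 50 30 ⟨2982428000, 3304720923⟩ ⟨163953064, 230233460⟩ ⟨8375186, 1073741824⟩ = true := by
  decide +kernel

/-- The box: `re w ∈ [0, 1/25]`, `tan² θ' ∈ [127/200, 757/1000]`, `tan² θ ∈ [1/4, 21/50]`, base `29/100`. -/
theorem c22_2 : Cert22 (29 / 100) 0 (1 / 25) (127 / 200) (757 / 1000) (1 / 4) (21 / 50) (81 / 200) (439 / 1000) (69 / 200)
    (26642219 / 67108864) (0 / 1) (-34091303 / 268435456) (386547057 / 1073741824) where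
  k0 := by norm_num
  k1 := by norm_num
  hw := by norm_num
  hw' := by norm_num
  P0 := ⟨(2028788847 / 1073741824), tan_le_num (by norm_num) (by norm_num) (by norm_num) (by norm_num), by norm_num⟩
  ph := by
    intro θ θ' h0 w hθ0 hθ1 hθ' r0 r1 r2 hwl hwi t0 t1 u0 u1 hh k0 k1
    have mS : Mem (Real.tan θ' ^ 2) ⟨681826058, 812822561⟩ := ⟨le_trans (by norm_num)
      (mul_le_mul_of_nonneg_right t0 (by norm_num)), (mul_le_mul_of_nonneg_right t1
        (by norm_num)).trans (by norm_num)⟩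
    have mZ : Mem (Real.sin (Real.pi * w.re)) (rng 0 125334 1000000) :=
      Hz.w_mem_sin (x1 := 0) (x2 := (3927 / 31250)) (by norm_num) r0 r1 (by norm_num) (by norm_num)
        (by norm_num) (by norm_num) (by norm_num) (by norm_num) (by norm_num) (by norm_num)
    obtain ⟨mr, mi⟩ := rect_of c22R2 mS mZ (by linarith) hθ' (by linarith) (by linarith) hwl
    have us0 : ((c22P2.slo : ℕ) : ℝ) / 1073741824 ≤ Real.tan θ ^ 2 :=
      le_trans (by norm_num [c22P2]) u0
    have us1 : Real.tan θ ^ 2 ≤ ((c22P2.shi : ℕ) : ℝ) / 1073741824 :=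
      u1.trans (by norm_num [c22P2])
    have hk0 : ((c22P2.klo : ℕ) : ℝ) / 1073741824 * Real.tan θ ^ 2 ≤
        Real.sinh (Real.pi * h0) ^ 2 :=
      le_trans (mul_le_mul_of_nonneg_right (by norm_num [c22P2]) (sq_nonneg _)) k0
    have hk1 : Real.sinh (Real.pi * h0) ^ 2 ≤
        ((c22P2.khi : ℕ) : ℝ) / 1073741824 * Real.tan θ ^ 2 :=
      k1.trans (mul_le_mul_of_nonneg_right (by norm_num [c22P2]) (sq_nonneg _))
    have v0 : 0 ≤ ((starRingEnd ℂ) w).re := by rw [conj_re]; linarith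
    have v1 : ((starRingEnd ℂ) w).re < 1 / 2 := by rw [conj_re]; linarith
    have vi : ((starRingEnd ℂ) w).im ≤ 0 := by rw [conj_im]; linarith
    refine ⟨?_, ?_, ?_, ?_, ?_, ?_⟩
    · exact (Ph1.glue (Ph1.of_cert c22C2_0 c22A2_0 hθ0 hθ1 us0 us1 hh hk0 hk1 mr mi)
        (Ph1.glue (Ph1.of_cert c22C2_1 c22A2_1 hθ0 hθ1 us0 us1 hh hk0 hk1 mr mi)
        (Ph1.glue (Ph1.of_cert c22C2_2 c22A2_2 hθ0 hθ1 us0 us1 hh hk0 hk1 mr mi)
        (Ph1.glue (Ph1.of_cert c22C2_3 c22A2_3 hθ0 hθ1 us0 us1 hh hk0 hk1 mr mi)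
        (Ph1.glue (Ph1.of_cert c22C2_4 c22A2_4 hθ0 hθ1 us0 us1 hh hk0 hk1 mr mi)
        (Ph1.glue (Ph1.of_cert c22C2_5 c22A2_5 hθ0 hθ1 us0 us1 hh hk0 hk1 mr mi)
        (Ph1.glue (Ph1.of_cert c22C2_6 c22A2_6 hθ0 hθ1 us0 us1 hh hk0 hk1 mr mi)
        (Ph1.glue (Ph1.of_cert c22C2_7 c22A2_7 hθ0 hθ1 us0 us1 hh hk0 hk1 mr mi)
        (Ph1.glue (Ph1.of_cert c22C2_8 c22A2_8 hθ0 hθ1 us0 us1 hh hk0 hk1 mr mi)
        (Ph1.glue (Ph1.of_cert c22C2_9 c22A2_9 hθ0 hθ1 us0 us1 hh hk0 hk1 mr mi)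
        (Ph1.glue (Ph1.of_cert c22C2_10 c22A2_10 hθ0 hθ1 us0 us1 hh hk0 hk1 mr mi)
        (Ph1.glue (Ph1.of_cert c22C2_11 c22A2_11 hθ0 hθ1 us0 us1 hh hk0 hk1 mr mi)
        (Ph1.glue (Ph1.of_cert c22C2_12 c22A2_12 hθ0 hθ1 us0 us1 hh hk0 hk1 mr mi)
        (Ph1.glue (Ph1.of_cert c22C2_13 c22A2_13 hθ0 hθ1 us0 us1 hh hk0 hk1 mr mi)
        (Ph1.of_cert c22C2_14 c22A2_14 hθ0 hθ1 us0 us1 hh hk0 hk1 mr mi))))))))))))))).mono
        (by norm_num) (by norm_num) (by norm_num) (by norm_num) (by norm_num)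
    · exact (Ph1.of_cert c22C2_15 c22A2_15 hθ0 hθ1 us0 us1 hh hk0 hk1 mr mi).mono
        (by norm_num) (by norm_num) (by norm_num) (by norm_num) (by norm_num)
    · exact (Ph1.of_cert c22C2_16 c22A2_16 hθ0 hθ1 us0 us1 hh hk0 hk1 mr mi).mono
        (by norm_num) (by norm_num) (by norm_num) (by norm_num) (by norm_num)
    · exact (Ph2.of_cert c22D2_0 c22B2_0 hθ0 hθ1 (by simpa [c22Q2_4, c22P2] using us0)
        (by simpa [c22Q2_4, c22P2] using us1) v0 v1 vi (by simpa [c22Q2_4, c22P2] using mr)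
        (by simpa [c22Q2_4, c22P2] using mi)).mono
        (by norm_num) (by norm_num) (by norm_num [c22Q2_4]) (by norm_num [c22Q2_4])
        (by norm_num [c22Q2_4])
    · exact (Ph2.of_cert c22D2_1 c22B2_1 hθ0 hθ1 (by simpa [c22Q2_7, c22P2] using us0)
        (by simpa [c22Q2_7, c22P2] using us1) v0 v1 vi (by simpa [c22Q2_7, c22P2] using mr)
        (by simpa [c22Q2_7, c22P2] using mi)).mono
        (by norm_num) (by norm_num) (by norm_num [c22Q2_7]) (by norm_num [c22Q2_7])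
        (by norm_num [c22Q2_7])
    · intro _; exact (Ph2.glue (Ph2.of_cert c22D2_2 c22B2_2 hθ0 hθ1 (by simpa [c22Q2_3, c22P2] using us0)
        (by simpa [c22Q2_3, c22P2] using us1) v0 v1 vi (by simpa [c22Q2_3, c22P2] using mr)
        (by simpa [c22Q2_3, c22P2] using mi))
        (Ph2.glue (Ph2.of_cert c22D2_3 c22B2_3 hθ0 hθ1 (by simpa [c22Q2_3, c22P2] using us0)
        (by simpa [c22Q2_3, c22P2] using us1) v0 v1 vi (by simpa [c22Q2_3, c22P2] using mr)
        (by simpa [c22Q2_3, c22P2] using mi))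
        (Ph2.of_cert c22D2_4 c22B2_4 hθ0 hθ1 (by simpa [c22Q2_3, c22P2] using us0)
        (by simpa [c22Q2_3, c22P2] using us1) v0 v1 vi (by simpa [c22Q2_3, c22P2] using mr)
        (by simpa [c22Q2_3, c22P2] using mi)))).mono
        (by norm_num) (by norm_num) (by norm_num [c22Q2_3]) (by norm_num [c22Q2_3])
        (by norm_num [c22Q2_3])

end Pool.Agent.S3.T2
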