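import Pool.Agent.S3.Hz.Main
import Pool.Agent.S3.W3.Cert
import Pool.Agent.S3.W3.Glue
import Pool.Agent.S3.W3.Rect

/-!
# Two vertices with two half twists: box 3 (generated)
-/

set_option autoImplicit false

namespace Pool.Agent.S3.T2

open Complex Pool.Agent.S3.NI

def c22P3 : P1.Par := ⟨⟨1706175758, 1887638127⟩, ⟨0, 304942679⟩, 450971566, 644245095, 179616606, 205990927⟩

theorem c22R3 : certR ⟨1706175758, 1887638127⟩ ⟨0, 304942679⟩ 1 1 24 ⟨681826058, 812822561⟩ (rng 0 125334 1000000) = true := by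
  decide +kernel

theorem c22A3_0 : TA (29 / 100) (182 / 625) ⟨1383702044, 1399550255⟩ :=
  ⟨by norm_num, by norm_num, le_tan_num (by norm_num) (by norm_num) (by norm_num) (by norm_num),
    tan_le_num (by norm_num) (by norm_num) (by norm_num) (by norm_num)⟩

theorem c22C3_0 : cert1 c22P3 4 3 589484261 343597384 4 15 10 5 34 ⟨1383702044, 1399550255⟩ ⟨394022678, 460597462⟩
    ⟨8375186, 1073741824⟩ ⟨275108226, 344978042⟩ = true := by
  decide +kernel

theorem c22A3_1 : TA (182 / 625) (117 / 400) ⟨1394555378, 1411243912⟩ :=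
  ⟨by norm_num, by norm_num, le_tan_num (by norm_num) (by norm_num) (by norm_num) (by norm_num),
    tan_le_num (by norm_num) (by norm_num) (by norm_num) (by norm_num)⟩

theorem c22C3_1 : cert1 c22P3 4 3 589484261 343597384 4 15 10 5 34 ⟨1394555378, 1411243912⟩ ⟨392234135, 458761277⟩
    ⟨8375186, 1073741824⟩ ⟨275108226, 344978042⟩ = true := by
  decide +kernel

theorem c22A3_2 : TA (117 / 400) (59 / 200) ⟨1406432350, 1434105629⟩ :=
  ⟨by norm_num, by norm_num, le_tan_num (by norm_num) (by norm_num) (by norm_num) (by norm_num),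
    tan_le_num (by norm_num) (by norm_num) (by norm_num) (by norm_num)⟩

theorem c22C3_2 : cert1 c22P3 4 3 589484261 343597384 4 15 10 5 34 ⟨1406432350, 1434105629⟩ ⟨388765086, 456760732⟩
    ⟨8375186, 1073741824⟩ ⟨275108226, 344978042⟩ = true := by
  decide +kernel

theorem c22A3_3 : TA (59 / 200) (119 / 400) ⟨1429630026, 1457473671⟩ :=
  ⟨by norm_num, by norm_num, le_tan_num (by norm_num) (by norm_num) (by norm_num) (by norm_num),
    tan_le_num (by norm_num) (by norm_num) (by norm_num) (by norm_num)⟩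

theorem c22C3_3 : cert1 c22P3 4 3 589484261 343597384 4 15 10 5 34 ⟨1429630026, 1457473671⟩ ⟨385257314, 452880266⟩
    ⟨8375186, 1073741824⟩ ⟨275108226, 344978042⟩ = true := by
  decide +kernel

theorem c22A3_4 : TA (119 / 400) (3 / 10) ⟨1453313219, 1481365907⟩ :=
  ⟨by norm_num, by norm_num, le_tan_num (by norm_num) (by norm_num) (by norm_num) (by norm_num),
    tan_le_num (by norm_num) (by norm_num) (by norm_num) (by norm_num)⟩

theorem c22C3_4 : cert1 c22P3 4 3 589484261 343597384 4 15 10 5 34 ⟨1453313219, 1481365907⟩ ⟨381710996, 448955877⟩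
    ⟨8375186, 1073741824⟩ ⟨275108226, 344978042⟩ = true := by
  decide +kernel

theorem c22A3_5 : TA (3 / 10) (121 / 400) ⟨1477500938, 1505801179⟩ :=
  ⟨by norm_num, by norm_num, le_tan_num (by norm_num) (by norm_num) (by norm_num) (by norm_num),
    tan_le_num (by norm_num) (by norm_num) (by norm_num) (by norm_num)⟩

theorem c22C3_5 : cert1 c22P3 4 3 589484261 343597384 4 15 10 5 34 ⟨1477500938, 1505801179⟩ ⟨378126316, 444987387⟩
    ⟨8375186, 1073741824⟩ ⟨275108226, 344978042⟩ = true := by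
  decide +kernel

theorem c22A3_6 : TA (121 / 400) (61 / 200) ⟨1502213109, 1530799362⟩ :=
  ⟨by norm_num, by norm_num, le_tan_num (by norm_num) (by norm_num) (by norm_num) (by norm_num),
    tan_le_num (by norm_num) (by norm_num) (by norm_num) (by norm_num)⟩

theorem c22C3_6 : cert1 c22P3 4 3 589484261 343597384 4 15 10 5 34 ⟨1502213109, 1530799362⟩ ⟨374503457, 440974636⟩
    ⟨8375186, 1073741824⟩ ⟨275108226, 344978042⟩ = true := by
  decide +kernel

theorem c22A3_7 : TA (61 / 200) (123 / 400) ⟨1527470639, 1556381429⟩ :=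
  ⟨by norm_num, by norm_num, le_tan_num (by norm_num) (by norm_num) (by norm_num) (by norm_num),
    tan_le_num (by norm_num) (by norm_num) (by norm_num) (by norm_num)⟩

theorem c22C3_7 : cert1 c22P3 4 3 589484261 343597384 4 15 10 5 34 ⟨1527470639, 1556381429⟩ ⟨370842607, 436917474⟩
    ⟨8375186, 1073741824⟩ ⟨275108226, 344978042⟩ = true := by
  decide +kernel

theorem c22A3_8 : TA (123 / 400) (31 / 100) ⟨1553295481, 1582569517⟩ :=
  ⟨by norm_num, by norm_num, le_tan_num (by norm_num) (by norm_num) (by norm_num) (by norm_num),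
    tan_le_num (by norm_num) (by norm_num) (by norm_num) (by norm_num)⟩

theorem c22C3_8 : cert1 c22P3 4 3 589484261 343597384 4 15 10 5 34 ⟨1553295481, 1582569517⟩ ⟨367143958, 432815767⟩
    ⟨8375186, 1073741824⟩ ⟨275108226, 344978042⟩ = true := by
  decide +kernel

theorem c22A3_9 : TA (31 / 100) (5 / 16) ⟨1579710709, 1609387007⟩ :=
  ⟨by norm_num, by norm_num, le_tan_num (by norm_num) (by norm_num) (by norm_num) (by norm_num),
    tan_le_num (by norm_num) (by norm_num) (by norm_num) (by norm_num)⟩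

theorem c22C3_9 : cert1 c22P3 4 3 589484261 343597384 4 15 10 5 34 ⟨1579710709, 1609387007⟩ ⟨363407704, 428669396⟩
    ⟨8375186, 1073741824⟩ ⟨275108226, 344978042⟩ = true := by
  decide +kernel

theorem c22A3_10 : TA (5 / 16) (63 / 200) ⟨1606740589, 1636858603⟩ :=
  ⟨by norm_num, by norm_num, le_tan_num (by norm_num) (by norm_num) (by norm_num) (by norm_num),
    tan_le_num (by norm_num) (by norm_num) (by norm_num) (by norm_num)⟩

theorem c22C3_10 : cert1 c22P3 4 3 589484261 343597384 4 15 10 5 34 ⟨1606740589, 1636858603⟩ ⟨359634042, 424478255⟩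
    ⟨8375186, 1073741824⟩ ⟨275108226, 344978042⟩ = true := by
  decide +kernel

theorem c22A3_11 : TA (63 / 200) (127 / 400) ⟨1634410669, 1665010420⟩ :=
  ⟨by norm_num, by norm_num, le_tan_num (by norm_num) (by norm_num) (by norm_num) (by norm_num),
    tan_le_num (by norm_num) (by norm_num) (by norm_num) (by norm_num)⟩

theorem c22C3_11 : cert1 c22P3 4 3 589484261 343597384 4 15 10 5 34 ⟨1634410669, 1665010420⟩ ⟨355823175, 420242251⟩
    ⟨8375186, 1073741824⟩ ⟨275108226, 344978042⟩ = true := by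
  decide +kernel

theorem c22A3_12 : TA (127 / 400) (8 / 25) ⟨1662747863, 1693870078⟩ :=
  ⟨by norm_num, by norm_num, le_tan_num (by norm_num) (by norm_num) (by norm_num) (by norm_num),
    tan_le_num (by norm_num) (by norm_num) (by norm_num) (by norm_num)⟩

theorem c22C3_12 : cert1 c22P3 4 3 589484261 343597384 4 15 10 5 34 ⟨1662747863, 1693870078⟩ ⟨351975306, 415961311⟩
    ⟨8375186, 1073741824⟩ ⟨275108226, 344978042⟩ = true := by
  decide +kernel

theorem c22A3_13 : TA (8 / 25) (13 / 40) ⟨1691780553, 1753831562⟩ :=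
  ⟨by norm_num, by norm_num, le_tan_num (by norm_num) (by norm_num) (by norm_num) (by norm_num),
    tan_le_num (by norm_num) (by norm_num) (by norm_num) (by norm_num)⟩

theorem c22C3_13 : cert1 c22P3 4 3 589484261 343597384 4 15 10 5 34 ⟨1691780553, 1753831562⟩ ⟨344169412, 411635370⟩
    ⟨8375186, 1073741824⟩ ⟨275108226, 344978042⟩ = true := by
  decide +kernel

theorem c22A3_14 : TA (13 / 40) (33 / 100) ⟨1752053911, 1816998310⟩ :=
  ⟨by norm_num, by norm_num, le_tan_num (by norm_num) (by norm_num) (by norm_num) (by norm_num),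
    tan_le_num (by norm_num) (by norm_num) (by norm_num) (by norm_num)⟩

theorem c22C3_14 : cert1 c22P3 4 3 589484261 343597384 4 15 10 5 34 ⟨1752053911, 1816998310⟩ ⟨336218091, 402848322⟩
    ⟨8375186, 1073741824⟩ ⟨275108226, 344978042⟩ = true := by
  decide +kernel

theorem c22A3_15 : TA (33 / 100) (17 / 50) ⟨1815491331, 1954132144⟩ :=
  ⟨by norm_num, by norm_num, le_tan_num (by norm_num) (by norm_num) (by norm_num) (by norm_num),
    tan_le_num (by norm_num) (by norm_num) (by norm_num) (by norm_num)⟩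

theorem c22C3_15 : cert1 c22P3 4 3 589484261 343597384 4 15 10 5 34 ⟨1815491331, 1954132144⟩ ⟨319886506, 393880922⟩
    ⟨8375186, 1073741824⟩ ⟨275108226, 344978042⟩ = true := by
  decide +kernel

theorem c22A3_16 : TA (17 / 50) (7 / 20) ⟨1953061593, 2108042865⟩ :=
  ⟨by norm_num, by norm_num, le_tan_num (by norm_num) (by norm_num) (by norm_num) (by norm_num),
    tan_le_num (by norm_num) (by norm_num) (by norm_num) (by norm_num)⟩

theorem c22C3_16 : cert1 c22P3 4 3 589484261 343597384 4 15 10 5 34 ⟨1953061593, 2108042865⟩ ⟨302996159, 375405612⟩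
    ⟨8375186, 1073741824⟩ ⟨275108226, 344978042⟩ = true := by
  decide +kernel

theorem c22A3_17 : TA (7 / 20) (37 / 100) ⟨2107295321, 2481598799⟩ :=
  ⟨by norm_num, by norm_num, le_tan_num (by norm_num) (by norm_num) (by norm_num) (by norm_num),
    tan_le_num (by norm_num) (by norm_num) (by norm_num) (by norm_num)⟩

theorem c22C3_17 : cert1 c22P3 4 3 589484261 343597384 4 15 10 5 34 ⟨2107295321, 2481598799⟩ ⟨267610360, 356213202⟩
    ⟨8375186, 1073741824⟩ ⟨275108226, 344978042⟩ = true := by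
  decide +kernel

theorem c22A3_18 : TA (37 / 100) (19 / 50) ⟨2481256305, 2712177144⟩ :=
  ⟨by norm_num, by norm_num, le_tan_num (by norm_num) (by norm_num) (by norm_num) (by norm_num),
    tan_le_num (by norm_num) (by norm_num) (by norm_num) (by norm_num)⟩

theorem c22C3_18 : cert1 c22P3 7 5 589484261 343597384 4 15 10 5 34 ⟨2481256305, 2712177144⟩ ⟨249155683, 315714764⟩
    ⟨8375186, 1073741824⟩ ⟨275108226, 344978042⟩ = true := by
  decide +kernel

theorem c22A3_19 : TA (19 / 50) (2 / 5) ⟨2711953937, 3304720923⟩ :=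
  ⟨by norm_num, by norm_num, le_tan_num (by norm_num) (by norm_num) (by norm_num) (by norm_num),
    tan_le_num (by norm_num) (by norm_num) (by norm_num) (by norm_num)⟩

theorem c22C3_19 : cert1 c22P3 3 2 589484261 343597384 4 15 10 5 34 ⟨2711953937, 3304720923⟩ ⟨210842646, 294439693⟩
    ⟨8375186, 1073741824⟩ ⟨275108226, 344978042⟩ = true := by
  decide +kernel

def c22Q3_4 : P2.Par := ⟨⟨1706175758, 1887638127⟩, ⟨0, 304942679⟩, 450971566, 644245095, 4, 3, 0, 229780750, 0, 171798692⟩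

theorem c22B3_0 : TA (691 / 2000) (37 / 100) ⟨2035619373, 2481598799⟩ :=
  ⟨by norm_num, by norm_num, le_tan_num (by norm_num) (by norm_num) (by norm_num) (by norm_num),
    tan_le_num (by norm_num) (by norm_num) (by norm_num) (by norm_num)⟩

theorem c22D3_0 : cert2 c22Q3_4 20 100 50 30 ⟨2035619373, 2481598799⟩ ⟨267610360, 364938108⟩ ⟨8375186, 1073741824⟩ = true := by
  decide +kernel

def c22Q3_7 : P2.Par := ⟨⟨1706175758, 1887638127⟩, ⟨0, 304942679⟩, 450971566, 644245095, 7, 5, 0, 229780750, 0, 171798692⟩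

theorem c22B3_1 : TA (37 / 100) (19 / 50) ⟨2481256305, 2712177144⟩ :=
  ⟨by norm_num, by norm_num, le_tan_num (by norm_num) (by norm_num) (by norm_num) (by norm_num),
    tan_le_num (by norm_num) (by norm_num) (by norm_num) (by norm_num)⟩

theorem c22D3_1 : cert2 c22Q3_7 20 100 50 30 ⟨2481256305, 2712177144⟩ ⟨249155683, 315714764⟩ ⟨8375186, 1073741824⟩ = true := by
  decide +kernel

def c22Q3_3 : P2.Par := ⟨⟨1706175758, 1887638127⟩, ⟨0, 304942679⟩, 450971566, 644245095, 3, 2, 0, 229780750, 0, 171798692⟩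

theorem c22B3_2 : TA (19 / 50) (39 / 100) ⟨2711953937, 2982569043⟩ :=
  ⟨by norm_num, by norm_num, le_tan_num (by norm_num) (by norm_num) (by norm_num) (by norm_num),
    tan_le_num (by norm_num) (by norm_num) (by norm_num) (by norm_num)⟩

theorem c22D3_2 : cert2 c22Q3_3 20 100 50 30 ⟨2711953937, 2982569043⟩ ⟨230224263, 294439693⟩ ⟨8375186, 1073741824⟩ = true := by
  decide +kernel

theorem c22B3_3 : TA (39 / 100) (2 / 5) ⟨2982428000, 3304720923⟩ :=
  ⟨by norm_num, by norm_num, le_tan_num (by norm_num) (by norm_num) (by norm_num) (by norm_num),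
    tan_le_num (by norm_num) (by norm_num) (by norm_num) (by norm_num)⟩

theorem c22D3_3 : cert2 c22Q3_3 20 100 50 30 ⟨2982428000, 3304720923⟩ ⟨210842646, 272509910⟩ ⟨8375186, 1073741824⟩ = true := by
  decide +kernel

/-- The box: `re w ∈ [0, 1/25]`, `tan² θ' ∈ [127/200, 757/1000]`, `tan² θ ∈ [21/50, 3/5]`, base `29/100`. -/
theorem c22_3 : Cert22 (29 / 100) 0 (1 / 25) (127 / 200) (757 / 1000) (21 / 50) (3 / 5) (409 / 1000) (219 / 500) (691 / 2000)
    (589484261 / 1073741824) (42949673 / 134217728) (-114890375 / 536870912) (42949673 / 268435456) where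
  k0 := by norm_num
  k1 := by norm_num
  hw := by norm_num
  hw' := by norm_num
  P0 := ⟨(509125011 / 268435456), tan_le_num (by norm_num) (by norm_num) (by norm_num) (by norm_num), by norm_num⟩
  ph := by
    intro θ θ' h0 w hθ0 hθ1 hθ' r0 r1 r2 hwl hwi t0 t1 u0 u1 hh k0 k1
    have mS : Mem (Real.tan θ' ^ 2) ⟨681826058, 812822561⟩ := ⟨le_trans (by norm_num)
      (mul_le_mul_of_nonneg_right t0 (by norm_num)), (mul_le_mul_of_nonneg_right t1
        (by norm_num)).trans (by norm_num)⟩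
    have mZ : Mem (Real.sin (Real.pi * w.re)) (rng 0 125334 1000000) :=
      Hz.w_mem_sin (x1 := 0) (x2 := (3927 / 31250)) (by norm_num) r0 r1 (by norm_num) (by norm_num)
        (by norm_num) (by norm_num) (by norm_num) (by norm_num) (by norm_num) (by norm_num)
    obtain ⟨mr, mi⟩ := rect_of c22R3 mS mZ (by linarith) hθ' (by linarith) (by linarith) hwl
    have us0 : ((c22P3.slo : ℕ) : ℝ) / 1073741824 ≤ Real.tan θ ^ 2 :=
      le_trans (by norm_num [c22P3]) u0
    have us1 : Real.tan θ ^ 2 ≤ ((c22P3.shi : ℕ) : ℝ) / 1073741824 :=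
      u1.trans (by norm_num [c22P3])
    have hk0 : ((c22P3.klo : ℕ) : ℝ) / 1073741824 * Real.tan θ ^ 2 ≤
        Real.sinh (Real.pi * h0) ^ 2 :=
      le_trans (mul_le_mul_of_nonneg_right (by norm_num [c22P3]) (sq_nonneg _)) k0
    have hk1 : Real.sinh (Real.pi * h0) ^ 2 ≤
        ((c22P3.khi : ℕ) : ℝ) / 1073741824 * Real.tan θ ^ 2 :=
      k1.trans (mul_le_mul_of_nonneg_right (by norm_num [c22P3]) (sq_nonneg _))
    have v0 : 0 ≤ ((starRingEnd ℂ) w).re := by rw [conj_re]; linarith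
    have v1 : ((starRingEnd ℂ) w).re < 1 / 2 := by rw [conj_re]; linarith
    have vi : ((starRingEnd ℂ) w).im ≤ 0 := by rw [conj_im]; linarith
    refine ⟨?_, ?_, ?_, ?_, ?_, ?_⟩
    · exact (Ph1.glue (Ph1.of_cert c22C3_0 c22A3_0 hθ0 hθ1 us0 us1 hh hk0 hk1 mr mi)
        (Ph1.glue (Ph1.of_cert c22C3_1 c22A3_1 hθ0 hθ1 us0 us1 hh hk0 hk1 mr mi)
        (Ph1.glue (Ph1.of_cert c22C3_2 c22A3_2 hθ0 hθ1 us0 us1 hh hk0 hk1 mr mi)
        (Ph1.glue (Ph1.of_cert c22C3_3 c22A3_3 hθ0 hθ1 us0 us1 hh hk0 hk1 mr mi)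
        (Ph1.glue (Ph1.of_cert c22C3_4 c22A3_4 hθ0 hθ1 us0 us1 hh hk0 hk1 mr mi)
        (Ph1.glue (Ph1.of_cert c22C3_5 c22A3_5 hθ0 hθ1 us0 us1 hh hk0 hk1 mr mi)
        (Ph1.glue (Ph1.of_cert c22C3_6 c22A3_6 hθ0 hθ1 us0 us1 hh hk0 hk1 mr mi)
        (Ph1.glue (Ph1.of_cert c22C3_7 c22A3_7 hθ0 hθ1 us0 us1 hh hk0 hk1 mr mi)
        (Ph1.glue (Ph1.of_cert c22C3_8 c22A3_8 hθ0 hθ1 us0 us1 hh hk0 hk1 mr mi)
        (Ph1.glue (Ph1.of_cert c22C3_9 c22A3_9 hθ0 hθ1 us0 us1 hh hk0 hk1 mr mi)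
        (Ph1.glue (Ph1.of_cert c22C3_10 c22A3_10 hθ0 hθ1 us0 us1 hh hk0 hk1 mr mi)
        (Ph1.glue (Ph1.of_cert c22C3_11 c22A3_11 hθ0 hθ1 us0 us1 hh hk0 hk1 mr mi)
        (Ph1.glue (Ph1.of_cert c22C3_12 c22A3_12 hθ0 hθ1 us0 us1 hh hk0 hk1 mr mi)
        (Ph1.glue (Ph1.of_cert c22C3_13 c22A3_13 hθ0 hθ1 us0 us1 hh hk0 hk1 mr mi)
        (Ph1.glue (Ph1.of_cert c22C3_14 c22A3_14 hθ0 hθ1 us0 us1 hh hk0 hk1 mr mi)
        (Ph1.glue (Ph1.of_cert c22C3_15 c22A3_15 hθ0 hθ1 us0 us1 hh hk0 hk1 mr mi)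
        (Ph1.glue (Ph1.of_cert c22C3_16 c22A3_16 hθ0 hθ1 us0 us1 hh hk0 hk1 mr mi)
        (Ph1.of_cert c22C3_17 c22A3_17 hθ0 hθ1 us0 us1 hh hk0 hk1 mr mi)))))))))))))))))).mono
        (by norm_num) (by norm_num) (by norm_num) (by norm_num) (by norm_num)
    · exact (Ph1.of_cert c22C3_18 c22A3_18 hθ0 hθ1 us0 us1 hh hk0 hk1 mr mi).mono
        (by norm_num) (by norm_num) (by norm_num) (by norm_num) (by norm_num)
    · exact (Ph1.of_cert c22C3_19 c22A3_19 hθ0 hθ1 us0 us1 hh hk0 hk1 mr mi).mono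
        (by norm_num) (by norm_num) (by norm_num) (by norm_num) (by norm_num)
    · exact (Ph2.of_cert c22D3_0 c22B3_0 hθ0 hθ1 (by simpa [c22Q3_4, c22P3] using us0)
        (by simpa [c22Q3_4, c22P3] using us1) v0 v1 vi (by simpa [c22Q3_4, c22P3] using mr)
        (by simpa [c22Q3_4, c22P3] using mi)).mono
        (by norm_num) (by norm_num) (by norm_num [c22Q3_4]) (by norm_num [c22Q3_4])
        (by norm_num [c22Q3_4])
    · exact (Ph2.of_cert c22D3_1 c22B3_1 hθ0 hθ1 (by simpa [c22Q3_7, c22P3] using us0)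
        (by simpa [c22Q3_7, c22P3] using us1) v0 v1 vi (by simpa [c22Q3_7, c22P3] using mr)
        (by simpa [c22Q3_7, c22P3] using mi)).mono
        (by norm_num) (by norm_num) (by norm_num [c22Q3_7]) (by norm_num [c22Q3_7])
        (by norm_num [c22Q3_7])
    · intro _; exact (Ph2.glue (Ph2.of_cert c22D3_2 c22B3_2 hθ0 hθ1 (by simpa [c22Q3_3, c22P3] using us0)
        (by simpa [c22Q3_3, c22P3] using us1) v0 v1 vi (by simpa [c22Q3_3, c22P3] using mr)
        (by simpa [c22Q3_3, c22P3] using mi))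
        (Ph2.of_cert c22D3_3 c22B3_3 hθ0 hθ1 (by simpa [c22Q3_3, c22P3] using us0)
        (by simpa [c22Q3_3, c22P3] using us1) v0 v1 vi (by simpa [c22Q3_3, c22P3] using mr)
        (by simpa [c22Q3_3, c22P3] using mi))).mono
        (by norm_num) (by norm_num) (by norm_num [c22Q3_3]) (by norm_num [c22Q3_3])
        (by norm_num [c22Q3_3])

end Pool.Agent.S3.T2
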