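import Pool.Agent.S3.Hz.Main
import Pool.Agent.S3.W3.Cert
import Pool.Agent.S3.W3.Glue
import Pool.Agent.S3.W3.Rect

/-!
# Two vertices with two half twists: box 4 (generated)
-/

set_option autoImplicit false

namespace Pool.Agent.S3.T2

open Complex Pool.Agent.S3.NI

def c22P4 : P1.Par := ⟨⟨1227286904, 1559073129⟩, ⟨147102629, 425201763⟩, 268435456, 812822561, 124124554, 173520974⟩

theorem c22R4 : certR ⟨1227286904, 1559073129⟩ ⟨147102629, 425201763⟩ 1 1 24 ⟨268435456, 526133494⟩ (rng 125333 248691 1000000) = true := by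
  decide +kernel

theorem c22A4_0 : TA (29 / 100) (182 / 625) ⟨1383702044, 1399550255⟩ :=
  ⟨by norm_num, by norm_num, le_tan_num (by norm_num) (by norm_num) (by norm_num) (by norm_num),
    tan_le_num (by norm_num) (by norm_num) (by norm_num) (by norm_num)⟩

theorem c22C4_0 : cert1 c22P4 4 3 502511174 515396076 4 15 10 5 34 ⟨1383702044, 1399550255⟩ ⟨312634666, 505338330⟩
    ⟨8375186, 1073741824⟩ ⟨179954290, 354497160⟩ = true := by
  decide +kernel

theorem c22A4_1 : TA (182 / 625) (117 / 400) ⟨1394555378, 1411243912⟩ :=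
  ⟨by norm_num, by norm_num, le_tan_num (by norm_num) (by norm_num) (by norm_num) (by norm_num),
    tan_le_num (by norm_num) (by norm_num) (by norm_num) (by norm_num)⟩

theorem c22C4_1 : cert1 c22P4 4 3 502511174 515396076 4 15 10 5 34 ⟨1394555378, 1411243912⟩ ⟨311134337, 503415800⟩
    ⟨8375186, 1073741824⟩ ⟨179954290, 354497160⟩ = true := by
  decide +kernel

theorem c22A4_2 : TA (117 / 400) (59 / 200) ⟨1406432350, 1434105629⟩ :=
  ⟨by norm_num, by norm_num, le_tan_num (by norm_num) (by norm_num) (by norm_num) (by norm_num),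
    tan_le_num (by norm_num) (by norm_num) (by norm_num) (by norm_num)⟩

theorem c22C4_2 : cert1 c22P4 4 3 502511174 515396076 4 15 10 5 34 ⟨1406432350, 1434105629⟩ ⟨308227642, 501319982⟩
    ⟨8375186, 1073741824⟩ ⟨179954290, 354497160⟩ = true := by
  decide +kernel

theorem c22A4_3 : TA (59 / 200) (3 / 10) ⟨1429630026, 1481365907⟩ :=
  ⟨by norm_num, by norm_num, le_tan_num (by norm_num) (by norm_num) (by norm_num) (by norm_num),
    tan_le_num (by norm_num) (by norm_num) (by norm_num) (by norm_num)⟩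

theorem c22C4_3 : cert1 c22P4 4 3 502511174 515396076 4 15 10 5 34 ⟨1429630026, 1481365907⟩ ⟨302330446, 497251171⟩
    ⟨8375186, 1073741824⟩ ⟨179954290, 354497160⟩ = true := by
  decide +kernel

theorem c22A4_4 : TA (3 / 10) (31 / 100) ⟨1477500938, 1582569517⟩ :=
  ⟨by norm_num, by norm_num, le_tan_num (by norm_num) (by norm_num) (by norm_num) (by norm_num),
    tan_le_num (by norm_num) (by norm_num) (by norm_num) (by norm_num)⟩

theorem c22C4_4 : cert1 c22P4 4 3 502511174 515396076 4 15 10 5 34 ⟨1477500938, 1582569517⟩ ⟨290207689, 488960867⟩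
    ⟨8375186, 1073741824⟩ ⟨179954290, 354497160⟩ = true := by
  decide +kernel

theorem c22A4_5 : TA (31 / 100) (33 / 100) ⟨1579710709, 1816998310⟩ :=
  ⟨by norm_num, by norm_num, le_tan_num (by norm_num) (by norm_num) (by norm_num) (by norm_num),
    tan_le_num (by norm_num) (by norm_num) (by norm_num) (by norm_num)⟩

theorem c22C4_5 : cert1 c22P4 4 3 502511174 515396076 4 15 10 5 34 ⟨1579710709, 1816998310⟩ ⟨264703634, 471761297⟩
    ⟨8375186, 1073741824⟩ ⟨179954290, 354497160⟩ = true := by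
  decide +kernel

theorem c22A4_6 : TA (33 / 100) (7 / 20) ⟨1815491331, 2108042865⟩ :=
  ⟨by norm_num, by norm_num, le_tan_num (by norm_num) (by norm_num) (by norm_num) (by norm_num),
    tan_le_num (by norm_num) (by norm_num) (by norm_num) (by norm_num)⟩

theorem c22C4_6 : cert1 c22P4 4 3 502511174 515396076 4 15 10 5 34 ⟨1815491331, 2108042865⟩ ⟨237627465, 434833323⟩
    ⟨8375186, 1073741824⟩ ⟨179954290, 354497160⟩ = true := by
  decide +kernel

theorem c22A4_7 : TA (7 / 20) (37 / 100) ⟨2107295321, 2481598799⟩ :=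
  ⟨by norm_num, by norm_num, le_tan_num (by norm_num) (by norm_num) (by norm_num) (by norm_num),
    tan_le_num (by norm_num) (by norm_num) (by norm_num) (by norm_num)⟩

theorem c22C4_7 : cert1 c22P4 4 3 502511174 515396076 4 15 10 5 34 ⟨2107295321, 2481598799⟩ ⟨209111384, 394472908⟩
    ⟨8375186, 1073741824⟩ ⟨179954290, 354497160⟩ = true := by
  decide +kernel

theorem c22A4_8 : TA (37 / 100) (19 / 50) ⟨2481256305, 2712177144⟩ :=
  ⟨by norm_num, by norm_num, le_tan_num (by norm_num) (by norm_num) (by norm_num) (by norm_num),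
    tan_le_num (by norm_num) (by norm_num) (by norm_num) (by norm_num)⟩

theorem c22C4_8 : cert1 c22P4 7 5 502511174 515396076 4 15 10 5 34 ⟨2481256305, 2712177144⟩ ⟨194357385, 350678837⟩
    ⟨8375186, 1073741824⟩ ⟨179954290, 354497160⟩ = true := by
  decide +kernel

theorem c22A4_9 : TA (19 / 50) (2 / 5) ⟨2711953937, 3304720923⟩ :=
  ⟨by norm_num, by norm_num, le_tan_num (by norm_num) (by norm_num) (by norm_num) (by norm_num),
    tan_le_num (by norm_num) (by norm_num) (by norm_num) (by norm_num)⟩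

theorem c22C4_9 : cert1 c22P4 3 2 502511174 515396076 4 15 10 5 34 ⟨2711953937, 3304720923⟩ ⟨163953064, 327519776⟩
    ⟨8375186, 1073741824⟩ ⟨179954290, 354497160⟩ = true := by
  decide +kernel

def c22Q4_4 : P2.Par := ⟨⟨1227286904, 1559073129⟩, ⟨147102629, 425201763⟩, 268435456, 812822561, 4, 3, 0, 156766306, 0, 42949673⟩

theorem c22B4_0 : TA (719 / 2000) (37 / 100) ⟨2272519169, 2481598799⟩ :=
  ⟨by norm_num, by norm_num, le_tan_num (by norm_num) (by norm_num) (by norm_num) (by norm_num),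
    tan_le_num (by norm_num) (by norm_num) (by norm_num) (by norm_num)⟩

theorem c22D4_0 : cert2 c22Q4_4 20 100 50 30 ⟨2272519169, 2481598799⟩ ⟨209111384, 374095459⟩ ⟨8375186, 1073741824⟩ = true := by
  decide +kernel

def c22Q4_7 : P2.Par := ⟨⟨1227286904, 1559073129⟩, ⟨147102629, 425201763⟩, 268435456, 812822561, 7, 5, 0, 156766306, 0, 42949673⟩

theorem c22B4_1 : TA (37 / 100) (19 / 50) ⟨2481256305, 2712177144⟩ :=
  ⟨by norm_num, by norm_num, le_tan_num (by norm_num) (by norm_num) (by norm_num) (by norm_num),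
    tan_le_num (by norm_num) (by norm_num) (by norm_num) (by norm_num)⟩

theorem c22D4_1 : cert2 c22Q4_7 20 100 50 30 ⟨2481256305, 2712177144⟩ ⟨194357385, 350678837⟩ ⟨8375186, 1073741824⟩ = true := by
  decide +kernel

def c22Q4_3 : P2.Par := ⟨⟨1227286904, 1559073129⟩, ⟨147102629, 425201763⟩, 268435456, 812822561, 3, 2, 0, 156766306, 0, 42949673⟩

theorem c22B4_2 : TA (19 / 50) (39 / 100) ⟨2711953937, 2982569043⟩ :=
  ⟨by norm_num, by norm_num, le_tan_num (by norm_num) (by norm_num) (by norm_num) (by norm_num),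
    tan_le_num (by norm_num) (by norm_num) (by norm_num) (by norm_num)⟩

theorem c22D4_2 : cert2 c22Q4_3 20 100 50 30 ⟨2711953937, 2982569043⟩ ⟨179297905, 327519776⟩ ⟨8375186, 1073741824⟩ = true := by
  decide +kernel

theorem c22B4_3 : TA (39 / 100) (2 / 5) ⟨2982428000, 3304720923⟩ :=
  ⟨by norm_num, by norm_num, le_tan_num (by norm_num) (by norm_num) (by norm_num) (by norm_num),
    tan_le_num (by norm_num) (by norm_num) (by norm_num) (by norm_num)⟩

theorem c22D4_3 : cert2 c22Q4_3 20 100 50 30 ⟨2982428000, 3304720923⟩ ⟨163953064, 303546499⟩ ⟨8375186, 1073741824⟩ = true := by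
  decide +kernel

/-- The box: `re w ∈ [1/25, 2/25]`, `tan² θ' ∈ [1/4, 49/100]`, `tan² θ ∈ [1/4, 757/1000]`, base `29/100`. -/
theorem c22_4 : Cert22 (29 / 100) (1 / 25) (2 / 25) (1 / 4) (49 / 100) (1 / 4) (757 / 1000) (17 / 50) (201 / 500) (719 / 2000)
    (251255587 / 536870912) (128849019 / 268435456) (-78383153 / 536870912) (42949673 / 1073741824) where
  k0 := by norm_num
  k1 := by norm_num
  hw := by norm_num
  hw' := by norm_num
  P0 := ⟨(2273041019 / 1073741824), tan_le_num (by norm_num) (by norm_num) (by norm_num) (by norm_num), by norm_num⟩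
  ph := by
    intro θ θ' h0 w hθ0 hθ1 hθ' r0 r1 r2 hwl hwi t0 t1 u0 u1 hh k0 k1
    have mS : Mem (Real.tan θ' ^ 2) ⟨268435456, 526133494⟩ := ⟨le_trans (by norm_num)
      (mul_le_mul_of_nonneg_right t0 (by norm_num)), (mul_le_mul_of_nonneg_right t1
        (by norm_num)).trans (by norm_num)⟩
    have mZ : Mem (Real.sin (Real.pi * w.re)) (rng 125333 248691 1000000) :=
      Hz.w_mem_sin (x1 := (314159 / 2500000)) (x2 := (3927 / 15625)) (by norm_num) r0 r1 (by norm_num) (by norm_num)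
        (by norm_num) (by norm_num) (by norm_num) (by norm_num) (by norm_num) (by norm_num)
    obtain ⟨mr, mi⟩ := rect_of c22R4 mS mZ (by linarith) hθ' (by linarith) (by linarith) hwl
    have us0 : ((c22P4.slo : ℕ) : ℝ) / 1073741824 ≤ Real.tan θ ^ 2 :=
      le_trans (by norm_num [c22P4]) u0
    have us1 : Real.tan θ ^ 2 ≤ ((c22P4.shi : ℕ) : ℝ) / 1073741824 :=
      u1.trans (by norm_num [c22P4])
    have hk0 : ((c22P4.klo : ℕ) : ℝ) / 1073741824 * Real.tan θ ^ 2 ≤
        Real.sinh (Real.pi * h0) ^ 2 :=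
      le_trans (mul_le_mul_of_nonneg_right (by norm_num [c22P4]) (sq_nonneg _)) k0
    have hk1 : Real.sinh (Real.pi * h0) ^ 2 ≤
        ((c22P4.khi : ℕ) : ℝ) / 1073741824 * Real.tan θ ^ 2 :=
      k1.trans (mul_le_mul_of_nonneg_right (by norm_num [c22P4]) (sq_nonneg _))
    have v0 : 0 ≤ ((starRingEnd ℂ) w).re := by rw [conj_re]; linarith
    have v1 : ((starRingEnd ℂ) w).re < 1 / 2 := by rw [conj_re]; linarith
    have vi : ((starRingEnd ℂ) w).im ≤ 0 := by rw [conj_im]; linarith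
    refine ⟨?_, ?_, ?_, ?_, ?_, ?_⟩
    · exact (Ph1.glue (Ph1.of_cert c22C4_0 c22A4_0 hθ0 hθ1 us0 us1 hh hk0 hk1 mr mi)
        (Ph1.glue (Ph1.of_cert c22C4_1 c22A4_1 hθ0 hθ1 us0 us1 hh hk0 hk1 mr mi)
        (Ph1.glue (Ph1.of_cert c22C4_2 c22A4_2 hθ0 hθ1 us0 us1 hh hk0 hk1 mr mi)
        (Ph1.glue (Ph1.of_cert c22C4_3 c22A4_3 hθ0 hθ1 us0 us1 hh hk0 hk1 mr mi)
        (Ph1.glue (Ph1.of_cert c22C4_4 c22A4_4 hθ0 hθ1 us0 us1 hh hk0 hk1 mr mi)
        (Ph1.glue (Ph1.of_cert c22C4_5 c22A4_5 hθ0 hθ1 us0 us1 hh hk0 hk1 mr mi)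
        (Ph1.glue (Ph1.of_cert c22C4_6 c22A4_6 hθ0 hθ1 us0 us1 hh hk0 hk1 mr mi)
        (Ph1.of_cert c22C4_7 c22A4_7 hθ0 hθ1 us0 us1 hh hk0 hk1 mr mi)))))))).mono
        (by norm_num) (by norm_num) (by norm_num) (by norm_num) (by norm_num)
    · exact (Ph1.of_cert c22C4_8 c22A4_8 hθ0 hθ1 us0 us1 hh hk0 hk1 mr mi).mono
        (by norm_num) (by norm_num) (by norm_num) (by norm_num) (by norm_num)
    · exact (Ph1.of_cert c22C4_9 c22A4_9 hθ0 hθ1 us0 us1 hh hk0 hk1 mr mi).mono
        (by norm_num) (by norm_num) (by norm_num) (by norm_num) (by norm_num)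
    · exact (Ph2.of_cert c22D4_0 c22B4_0 hθ0 hθ1 (by simpa [c22Q4_4, c22P4] using us0)
        (by simpa [c22Q4_4, c22P4] using us1) v0 v1 vi (by simpa [c22Q4_4, c22P4] using mr)
        (by simpa [c22Q4_4, c22P4] using mi)).mono
        (by norm_num) (by norm_num) (by norm_num [c22Q4_4]) (by norm_num [c22Q4_4])
        (by norm_num [c22Q4_4])
    · exact (Ph2.of_cert c22D4_1 c22B4_1 hθ0 hθ1 (by simpa [c22Q4_7, c22P4] using us0)
        (by simpa [c22Q4_7, c22P4] using us1) v0 v1 vi (by simpa [c22Q4_7, c22P4] using mr)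
        (by simpa [c22Q4_7, c22P4] using mi)).mono
        (by norm_num) (by norm_num) (by norm_num [c22Q4_7]) (by norm_num [c22Q4_7])
        (by norm_num [c22Q4_7])
    · intro _; exact (Ph2.glue (Ph2.of_cert c22D4_2 c22B4_2 hθ0 hθ1 (by simpa [c22Q4_3, c22P4] using us0)
        (by simpa [c22Q4_3, c22P4] using us1) v0 v1 vi (by simpa [c22Q4_3, c22P4] using mr)
        (by simpa [c22Q4_3, c22P4] using mi))
        (Ph2.of_cert c22D4_3 c22B4_3 hθ0 hθ1 (by simpa [c22Q4_3, c22P4] using us0)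
        (by simpa [c22Q4_3, c22P4] using us1) v0 v1 vi (by simpa [c22Q4_3, c22P4] using mr)
        (by simpa [c22Q4_3, c22P4] using mi))).mono
        (by norm_num) (by norm_num) (by norm_num [c22Q4_3]) (by norm_num [c22Q4_3])
        (by norm_num [c22Q4_3])

end Pool.Agent.S3.T2
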