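import Pool.Agent.S3.W3.Box
import Pool.Agent.S3.W3.C0
import Pool.Agent.S3.W3.C1
import Pool.Agent.S3.W3.C2
import Pool.Agent.S3.W3.C3
import Pool.Agent.S3.W3.C4
import Pool.Agent.S3.W3.C5
import Pool.Agent.S3.W3.C6
import Pool.Agent.S3.W3.C7
import Pool.Agent.S3.W3.C8
import Pool.Agent.S3.W3.C9
import Pool.Agent.S3.Hz.R22b_0
import Pool.Agent.S3.Hz.R22b_1

/-!
# Two vertices with two half twists: the boxes 0 to 9 (generated)
-/

set_option autoImplicit false

namespace Pool.Agent.S3.T2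

theorem bx22_0 : BoxOK (29 / 100) 0 (1 / 25) (1 / 4) (49 / 100) (1 / 4) (757 / 1000) (81 / 10) (63 / 1000) (3 / 50) (31 / 1000) :=
  BoxOK.both c22_0 (KR.of fun H => Hz.h22b_0 H) (by norm_num)
    (by constructor <;> norm_num) (by constructor <;> norm_num)

theorem bx22_1 : BoxOK (29 / 100) 0 (1 / 25) (49 / 100) (127 / 200) (1 / 4) (69 / 100) (81 / 10) (63 / 1000) (3 / 50) (31 / 1000) :=
  BoxOK.both c22_1 (KR.of fun H => Hz.h22b_1 H) (by norm_num)
    (by constructor <;> norm_num) (by constructor <;> norm_num)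

theorem bx22_2 : BoxOK (29 / 100) 0 (1 / 25) (127 / 200) (757 / 1000) (1 / 4) (21 / 50) (81 / 10) (63 / 1000) (3 / 50) (17 / 500) :=
  BoxOK.small c22_2 (KR.of fun H => Hz.h22b_2 H) (by norm_num) (by constructor <;> norm_num) (by norm_num)

theorem bx22_3 : BoxOK (29 / 100) 0 (1 / 25) (127 / 200) (757 / 1000) (21 / 50) (3 / 5) (81 / 10) (63 / 1000) (3 / 50) (17 / 500) :=
  BoxOK.both c22_3 (KR.of fun H => Hz.h22b_3 H) (by norm_num)
    (by constructor <;> norm_num) (by constructor <;> norm_num)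

theorem bx22_4 : BoxOK (29 / 100) (1 / 25) (2 / 25) (1 / 4) (49 / 100) (1 / 4) (757 / 1000) (56 / 5) (63 / 1000) (3 / 50) (1 / 50) :=
  BoxOK.both c22_4 (KR.of fun H => Hz.h22b_4 H) (by norm_num)
    (by constructor <;> norm_num) (by constructor <;> norm_num)

theorem bx22_5 : BoxOK (29 / 100) (1 / 25) (2 / 25) (49 / 100) (127 / 200) (1 / 4) (69 / 100) (56 / 5) (63 / 1000) (3 / 50) (1 / 50) :=
  BoxOK.both c22_5 (KR.of fun H => Hz.h22b_5 H) (by norm_num)
    (by constructor <;> norm_num) (by constructor <;> norm_num)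

theorem bx22_6 : BoxOK (29 / 100) (1 / 25) (3 / 50) (127 / 200) (69 / 100) (1 / 4) (21 / 50) (56 / 5) (63 / 1000) (3 / 50) (1 / 50) :=
  BoxOK.small c22_6 (KR.of fun H => Hz.h22b_6 H) (by norm_num) (by constructor <;> norm_num) (by norm_num)

theorem bx22_7 : BoxOK (29 / 100) (1 / 25) (3 / 50) (127 / 200) (69 / 100) (21 / 50) (3 / 5) (56 / 5) (63 / 1000) (3 / 50) (1 / 50) :=
  BoxOK.both c22_7 (KR.of fun H => Hz.h22b_7 H) (by norm_num)
    (by constructor <;> norm_num) (by constructor <;> norm_num)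

theorem bx22_8 : BoxOK (29 / 100) (1 / 25) (3 / 50) (69 / 100) (757 / 1000) (1 / 4) (7 / 20) (56 / 5) (63 / 1000) (3 / 50) (1 / 50) :=
  BoxOK.small c22_8 (KR.of fun H => Hz.h22b_8 H) (by norm_num) (by constructor <;> norm_num) (by norm_num)

theorem bx22_9 : BoxOK (29 / 100) (1 / 25) (3 / 50) (69 / 100) (757 / 1000) (7 / 20) (9 / 20) (56 / 5) (63 / 1000) (3 / 50) (1 / 50) :=
  BoxOK.small c22_9 (KR.of fun H => Hz.h22b_9 H) (by norm_num) (by constructor <;> norm_num) (by norm_num)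

end Pool.Agent.S3.T2
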