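import Pool.Agent.S3.W3.Cert

/-!
# The slides with another ratio between the two parts of the vertical

Copies of `vert_all`, `OO.slideH`, `OO.slideM`, `Cert22.slide` with a parameter `r0 ≥ 2/5` instead
of `7/10`.
-/

set_option autoImplicit false

namespace Pool.Agent.S3

open Complex Set

theorem hgt_geR {ρ x : ℝ} (h0 : 2 / 5 ≤ ρ) (h1 : ρ ≤ 1) (hx : 0 ≤ x)
    (hs : 88 / 1000 ≤ Real.sinh (Real.pi * x) ^ 2) : 1 / 100 ≤ hgt ρ x := by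
  have hpi := Real.pi_pos
  have hpi1 := Real.pi_lt_d2
  have e := tanh_hgt (ρ := ρ) (by linarith) h1 x
  have t0 : 0 ≤ Real.tanh (Real.pi * x) := tanh_nonneg_of (by positivity)
  have t1 : (28 / 100 : ℝ) ^ 2 ≤ Real.tanh (Real.pi * x) ^ 2 := by
    rw [Real.tanh_eq_sinh_div_cosh, div_pow (Real.sinh _), Real.cosh_sq, le_div_iff₀ (by positivity)]
    nlinarith
  have t2 : 28 / 100 ≤ Real.tanh (Real.pi * x) :=
    (pow_le_pow_iff_left₀ (by norm_num) t0 two_ne_zero).1 t1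
  have t3 : 112 / 1000 ≤ Real.tanh (Real.pi * hgt ρ x) := by
    rw [e]; nlinarith
  by_contra hc
  push Not at hc
  have t4 := tanh_mono (mul_le_mul_of_nonneg_left hc.le hpi.le)
  have t5 := tanh_le_self (x := Real.pi * (1 / 100)) (by positivity)
  nlinarith

/-- **The slide down the vertical.** -/
theorem vert_allR {r0 θ K L h1 : ℝ} (hr0 : 2 / 5 ≤ r0) (hr1 : r0 ≤ 19 / 20) {w : ℂ} (hθ0 : 0 < θ) (hθ1 : θ < Real.pi / 2)
    (ht : Real.tan θ ^ 2 ≤ 1) (hx1 : Real.tan θ ^ 2 ≤ 923 / 1000 ∨ 1 / 100 ≤ h1) (hw : Rg w) (w0 : 0 ≤ w.re) (w1 : w.re ≤ 2 / 5)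
    (wi : w.im ≤ 0) (h10 : 0 < h1)
    (h11 : Real.tanh (Real.pi * h1) ≤ 19 / 20 * Real.tanh (Real.pi * bl θ (2 / 5)))
    (hbase : ∀ t ∈ Icc (0 : ℝ) (1 / 2),
      EE (.op (vv (bl θ (2 / 5)))) (.op w) ((t : ℂ) + (h1 : ℂ) * I) < L)
    (h3a : ∀ ρ : ℝ, r0 ≤ ρ → ρ ≤ 19 / 20 → ∀ η ∈ Ioc (0 : ℝ) (bl θ (2 / 5)), hgt ρ η ≤ h1 →
      ∀ t ∈ Ico (1 / 200 : ℝ) (1 / 2),
      gPd ((t : ℂ) + (hgt ρ η : ℂ) * I) (vv η) w =
        ‖cos (Real.pi * ((t : ℂ) + (hgt ρ η : ℂ) * I))‖ ^ 4 →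
      K * η < (he ((t : ℂ) + (hgt ρ η : ℂ) * I + vv η) - he ((t : ℂ) + (hgt ρ η : ℂ) * I - vv η)).im -
        rp ρ η * (eY ((t : ℂ) + (hgt ρ η : ℂ) * I) (vv η) w).im)
    (h3b : ∀ η ∈ Ioc (0 : ℝ) (bl θ (2 / 5)),
      Real.tanh (Real.pi * h1) ≤ r0 * Real.tanh (Real.pi * η) →
      ∀ t ∈ Ico (1 / 200 : ℝ) (1 / 2),
      gPd ((t : ℂ) + (h1 : ℂ) * I) (vv η) w = ‖cos (Real.pi * ((t : ℂ) + (h1 : ℂ) * I))‖ ^ 4 →
      K * η < (he ((t : ℂ) + (h1 : ℂ) * I + vv η) - he ((t : ℂ) + (h1 : ℂ) * I - vv η)).im) :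
    ∀ η ∈ Icc (0 : ℝ) (bl θ (2 / 5)), ∃ H : ℝ, 0 ≤ H ∧ H ≤ h1 ∧ ∀ t ∈ Icc (0 : ℝ) (1 / 2),
      EE (.op (vv η)) (.op w) ((t : ℂ) + (H : ℂ) * I) ≤ L - K * (bl θ (2 / 5) ^ 2 - η ^ 2) / 2 := by
  have hpi := Real.pi_pos
  have hrp : 0 < r0 := by linarith
  obtain ⟨β, hβ⟩ : ∃ β, β = bl θ (2 / 5) := ⟨_, rfl⟩
  rw [← hβ] at h11 hbase h3a h3b ⊢
  have hβ0 : 0 < β := by
    rw [hβ]; exact bl_pos_of hθ0 hθ1 (by rw [abs_of_pos (by norm_num)]; norm_num)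
  have tβ : 0 < Real.tanh (Real.pi * β) := tanh_pos_of (by positivity)
  have th1 : 0 < Real.tanh (Real.pi * h1) := tanh_pos_of (by positivity)
  -- following from a point on
  have follow : ∀ {ρ η0 L' : ℝ}, r0 ≤ ρ → ρ ≤ 19 / 20 → 0 < η0 → η0 ≤ β →
      Real.tanh (Real.pi * h1) = ρ * Real.tanh (Real.pi * η0) →
      (∀ t ∈ Icc (0 : ℝ) (1 / 2), EE (.op (vv η0)) (.op w) ((t : ℂ) + (h1 : ℂ) * I) < L') →
      ∀ η ∈ Ioc (0 : ℝ) η0, 0 < hgt ρ η ∧ hgt ρ η ≤ h1 ∧ ∀ t ∈ Icc (0 : ℝ) (1 / 2),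
        EE (.op (vv η)) (.op w) ((t : ℂ) + (hgt ρ η : ℂ) * I) < L' - K * (η0 ^ 2 - η ^ 2) / 2 := by
    intro ρ η0 L' r1 r2 hη0 hη0' he' hb η hη
    have rp0 : 0 < ρ := by linarith
    have e1 : hgt ρ η0 = h1 := by
      rw [hgt, ← he', Real.artanh_tanh, mul_div_cancel_left₀ _ hpi.ne']
    have hle : ∀ x, 0 < x → x ≤ η0 → hgt ρ x ≤ h1 := by
      intro x hx hx'
      rw [← e1, hgt, hgt]
      apply div_le_div_of_nonneg_right _ hpi.le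
      apply Real.artanh_le_artanh (rho_tanh rp0.le (by linarith) _).1
        (rho_tanh rp0.le (by linarith) _).2
      apply mul_le_mul_of_nonneg_left _ rp0.le
      exact tanh_mono (mul_le_mul_of_nonneg_left hx' hpi.le)
    refine ⟨hgt_pos rp0 (by linarith) hη.1, hle η hη.1 hη.2, ?_⟩
    have := vert_gen (θ := θ) (η1 := η) (η0 := η0) (K := K) (L := L') (w := w) (h := hgt ρ)
      (h' := rp ρ) ht hη.1.le ?_ hw w0 w1 wi
      (fun x => hgt_hasDerivAt rp0.le (by linarith) x) ?_ (by rw [← hβ]; exact hη0') hθ0.le hθ1 ?_ ?_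
    · exact this η ⟨le_rfl, hη.2⟩
    · intro x hx
      by_cases hc : Real.sinh (Real.pi * x) ^ 2 ≤ 923 / 1000 * Real.cos (Real.pi * (2 / 5)) ^ 2
      · exact Or.inl hc
      · right
        push Not at hc
        refine hgt_geR (hr0.trans r1) (by linarith) (hη.1.le.trans hx.1) ?_
        have c2 := T2.cos_sq_25
        nlinarith
    · intro x hx
      have x0 : 0 < x := lt_of_lt_of_le hη.1 hx.1
      refine ⟨hgt_pos rp0 (by linarith) x0, ?_⟩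
      rcases (hgt_le (ρ := ρ) (x := x) rp0.le (by linarith) x0.le).lt_or_eq with h | h
      · exact h
      · exfalso
        have e := tanh_hgt (ρ := ρ) rp0.le (by linarith) x
        rw [h] at e
        have tp : 0 < Real.tanh (Real.pi * x) := tanh_pos_of (by positivity)
        nlinarith
    · rw [e1]; exact hb
    · intro x hx t ht' hg
      exact h3a ρ r1 r2 x ⟨lt_of_lt_of_le hη.1 hx.1, hx.2.le.trans hη0'⟩
        (hle x (lt_of_lt_of_le hη.1 hx.1) hx.2.le) t ht' hg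
  -- all positive heights
  have pos : ∀ η ∈ Ioc (0 : ℝ) β, ∃ H : ℝ, 0 < H ∧ H ≤ h1 ∧ H ≤ η ∧ ∀ t ∈ Icc (0 : ℝ) (1 / 2),
      EE (.op (vv η)) (.op w) ((t : ℂ) + (H : ℂ) * I) < L - K * (β ^ 2 - η ^ 2) / 2 := by
    intro η hη
    rcases le_total (r0 * Real.tanh (Real.pi * β)) (Real.tanh (Real.pi * h1)) with hc | hc
    · obtain ⟨f1, f2, f3⟩ := follow (ρ := Real.tanh (Real.pi * h1) / Real.tanh (Real.pi * β))
        (η0 := β) (L' := L) (by rw [le_div_iff₀ tβ]; exact hc) (by rw [div_le_iff₀ tβ]; exact h11)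
        hβ0 le_rfl (by field_simp) hbase η hη
      refine ⟨_, f1, f2, hgt_le (by positivity) ?_ hη.1.le, f3⟩
      rw [div_le_one tβ]; linarith
    · -- frozen, then following
      have frozen : ∀ η2, 0 ≤ η2 → Real.tanh (Real.pi * h1) ≤ r0 * Real.tanh (Real.pi * η2) →
          ∀ x ∈ Icc η2 β, ∀ t ∈ Icc (0 : ℝ) (1 / 2),
            EE (.op (vv x)) (.op w) ((t : ℂ) + (h1 : ℂ) * I) < L - K * (β ^ 2 - x ^ 2) / 2 := by
        intro η2 k0 k1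
        have k2 : 0 < η2 := by
          rcases k0.lt_or_eq with h | h
          · exact h
          · rw [← h, mul_zero, Real.tanh_zero, mul_zero] at k1
            linarith
        have mon : ∀ x, η2 ≤ x → Real.tanh (Real.pi * h1) ≤ r0 * Real.tanh (Real.pi * x) :=
          fun x hx => k1.trans (mul_le_mul_of_nonneg_left
            (tanh_mono (mul_le_mul_of_nonneg_left hx hpi.le)) hrp.le)
        refine vert_gen (θ := θ) (η1 := η2) (η0 := β) (K := K) (L := L) (w := w)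
          (h := fun _ => h1) (h' := fun _ => 0) ht k0 ?_ hw w0 w1 wi
          (fun x => hasDerivAt_const x h1) ?_ hβ.le hθ0.le hθ1 hbase ?_
        · intro x hx
          rcases hx1 with hx1 | hx1
          · left
            refine (sinh_le_of (θ := θ) (k0.trans hx.1) (by rw [← hβ]; exact hx.2.le)).trans ?_
            exact mul_le_mul_of_nonneg_right hx1 (sq_nonneg _)
          · exact Or.inr hx1
        · intro x hx
          refine ⟨h10, ?_⟩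
          by_contra hcc
          push Not at hcc
          have m1 := tanh_mono (mul_le_mul_of_nonneg_left hcc hpi.le)
          have m2 := mon x hx.1
          have m3 : 0 < Real.tanh (Real.pi * x) :=
            tanh_pos_of (mul_pos hpi (lt_of_lt_of_le k2 hx.1))
          have m4 : r0 * Real.tanh (Real.pi * x) ≤ 19 / 20 * Real.tanh (Real.pi * x) :=
            mul_le_mul_of_nonneg_right hr1 m3.le
          linarith
        · intro x hx t ht' hg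
          have := h3b x ⟨lt_of_lt_of_le k2 hx.1, hx.2.le⟩ (mon x hx.1) t ht' hg
          rw [zero_mul, sub_zero]
          exact this
      obtain ⟨η2, hη2⟩ : ∃ x, x = Real.artanh (Real.tanh (Real.pi * h1) / r0) / Real.pi :=
        ⟨_, rfl⟩
      have t1 : Real.tanh (Real.pi * h1) / r0 ≤ Real.tanh (Real.pi * β) := by
        rw [div_le_iff₀ hrp]; linarith
      have t2 : Real.tanh (Real.pi * η2) = Real.tanh (Real.pi * h1) / r0 := by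
        rw [hη2, mul_div_cancel₀ _ hpi.ne']
        refine Real.tanh_artanh ⟨?_, t1.trans_lt (Real.tanh_lt_one _)⟩
        have : 0 < Real.tanh (Real.pi * h1) / r0 := by positivity
        linarith
      have e2 : Real.tanh (Real.pi * h1) = r0 * Real.tanh (Real.pi * η2) := by
        rw [t2]; field_simp
      have p2 : 0 < η2 := by
        rw [hη2]
        apply div_pos _ hpi
        exact Real.artanh_pos ⟨by positivity, t1.trans_lt (Real.tanh_lt_one _)⟩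
      have p3 : η2 ≤ β := by
        by_contra hcc
        push Not at hcc
        have h5 := Real.artanh_le_artanh (x := Real.tanh (Real.pi * η2))
          (y := Real.tanh (Real.pi * β)) (by linarith [tanh_pos_of (mul_pos hpi p2)])
          (Real.tanh_lt_one _) (by rw [t2]; exact t1)
        rw [Real.artanh_tanh, Real.artanh_tanh] at h5
        nlinarith
      rcases le_total η2 η with h5 | h5
      · refine ⟨h1, h10, le_rfl, ?_, frozen η2 p2.le e2.le η ⟨h5, hη.2⟩⟩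
        by_contra hcc
        push Not at hcc
        have m1 := tanh_mono (mul_le_mul_of_nonneg_left hcc.le hpi.le)
        have m2 := tanh_mono (mul_le_mul_of_nonneg_left h5 hpi.le)
        have m3 := tanh_pos_of (mul_pos hpi hη.1)
        have m4 : r0 * Real.tanh (Real.pi * η2) ≤ 19 / 20 * Real.tanh (Real.pi * η) :=
          mul_le_mul hr1 m2 (tanh_pos_of (mul_pos hpi p2)).le (by norm_num)
        linarith
      · obtain ⟨f1, f2, f3⟩ := follow (ρ := r0) (η0 := η2)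
          (L' := L - K * (β ^ 2 - η2 ^ 2) / 2) le_rfl hr1 p2 p3 e2
          (frozen η2 p2.le e2.le η2 ⟨le_rfl, p3⟩) η ⟨hη.1, h5⟩
        refine ⟨_, f1, f2, hgt_le hrp.le (by linarith) hη.1.le, fun t ht' => ?_⟩
        have := f3 t ht'
        linarith
  intro η hη
  rcases hη.1.lt_or_eq with h0 | h0
  · obtain ⟨H, a1, a2, a3, a4⟩ := pos η ⟨h0, hη.2⟩
    exact ⟨H, a1.le, a2, fun t ht' => (a4 t ht').le⟩
  · -- the limit
    refine ⟨0, le_rfl, h10.le, fun t ht' => ?_⟩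
    rw [← h0]
    choose! H b1 b2 b3 b4 using pos
    have hH : Filter.Tendsto H (nhdsWithin 0 (Ioi 0)) (nhds 0) := by
      refine tendsto_of_tendsto_of_tendsto_of_le_of_le' (g := fun _ => (0 : ℝ)) (h := fun x => x)
        tendsto_const_nhds ((continuous_id.tendsto (0 : ℝ)).mono_left nhdsWithin_le_nhds) ?_ ?_
      · filter_upwards [Ioc_mem_nhdsGT hβ0] with x hx
        exact (b1 x hx).le
      · filter_upwards [Ioc_mem_nhdsGT hβ0] with x hx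
        exact b3 x hx
    have hx : Filter.Tendsto (fun x : ℝ => x) (nhdsWithin 0 (Ioi 0)) (nhds 0) :=
      (continuous_id.tendsto (0 : ℝ)).mono_left nhdsWithin_le_nhds
    obtain ⟨F, hF⟩ : ∃ F : ℂ × ℂ → ℝ, F = fun p => EE (.op p.1) (.op w) p.2 := ⟨_, rfl⟩
    have hFc : Continuous F := by rw [hF]; exact EE_cont2 w
    obtain ⟨G, hG⟩ : ∃ G : ℝ × ℝ → ℂ × ℂ, G = fun p => (vv p.1, (t : ℂ) + ((p.2 : ℝ) : ℂ) * I) :=
      ⟨_, rfl⟩
    have hGc : Continuous G := by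
      rw [hG]
      have c1 : Continuous vv := by unfold vv; fun_prop
      have c2 : Continuous (fun p : ℝ × ℝ => vv p.1) := c1.comp continuous_fst
      have c3 : Continuous (fun p : ℝ × ℝ => ((p.2 : ℝ) : ℂ)) :=
        continuous_ofReal.comp continuous_snd
      exact c2.prodMk (continuous_const.add (c3.mul continuous_const))
    have l1 : Filter.Tendsto (fun x : ℝ => F (G (x, H x))) (nhdsWithin 0 (Ioi 0))
        (nhds (F (G (0, 0)))) :=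
      ((hFc.comp hGc).tendsto (0, 0)).comp (hx.prodMk_nhds hH)
    have l2 : Filter.Tendsto (fun x : ℝ => L - K * (β ^ 2 - x ^ 2) / 2) (nhdsWithin 0 (Ioi 0))
        (nhds (L - K * (β ^ 2 - 0 ^ 2) / 2)) := by
      have : Continuous (fun x : ℝ => L - K * (β ^ 2 - x ^ 2) / 2) := by fun_prop
      exact (this.tendsto 0).mono_left nhdsWithin_le_nhds
    have l3 : F (G (0, 0)) ≤ L - K * (β ^ 2 - 0 ^ 2) / 2 := by
      refine le_of_tendsto_of_tendsto l1 l2 ?_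
      filter_upwards [Ioc_mem_nhdsGT hβ0] with x hx
      rw [hF, hG]
      exact (b4 x hx t ht').le
    rw [hF, hG] at l3
    exact l3


namespace T2

open Pool.Agent.S3.NI
open Pool.Agent.H25.RK (gdv gdv_re_lt gdv_hasDerivAt)

/-- The statements of phase 3. -/
structure Ph3R (r0 θ h0 K : ℝ) (W : ℂ) : Prop where
  a : ∀ ρ : ℝ, r0 ≤ ρ → ρ ≤ 19 / 20 → ∀ η ∈ Ioc (0 : ℝ) (bl θ (2 / 5)), hgt ρ η ≤ h0 →
      ∀ t ∈ Ico (1 / 200 : ℝ) (1 / 2),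
      gPd ((t : ℂ) + (hgt ρ η : ℂ) * I) (vv η) W =
        ‖cos (Real.pi * ((t : ℂ) + (hgt ρ η : ℂ) * I))‖ ^ 4 →
      K * η < (he ((t : ℂ) + (hgt ρ η : ℂ) * I + vv η) - he ((t : ℂ) + (hgt ρ η : ℂ) * I - vv η)).im -
        rp ρ η * (eY ((t : ℂ) + (hgt ρ η : ℂ) * I) (vv η) W).im
  b : ∀ h1 : ℝ, 0 < h1 → h1 ≤ h0 → ∀ η ∈ Ioc (0 : ℝ) (bl θ (2 / 5)),
      Real.tanh (Real.pi * h1) ≤ r0 * Real.tanh (Real.pi * η) →
      ∀ t ∈ Ico (1 / 200 : ℝ) (1 / 2),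
      gPd ((t : ℂ) + (h1 : ℂ) * I) (vv η) W =
        ‖cos (Real.pi * ((t : ℂ) + (h1 : ℂ) * I))‖ ^ 4 →
      K * η < (he ((t : ℂ) + (h1 : ℂ) * I + vv η) - he ((t : ℂ) + (h1 : ℂ) * I - vv η)).im

section

variable {Φ : ℂ → ℂ → ℂ} {θ θ' xc xc' b b' v1' μ μ' : ℝ} {w : ℂ}

/-- **The flats beyond the base point.** -/
theorem OO.slideHR (H : OO Φ θ θ' xc xc' b b' (2 / 5) v1') {r0 : ℝ} (hr0 : 2 / 5 ≤ r0)
    (hr1 : r0 ≤ 19 / 20) (ht : Real.tan θ ^ 2 ≤ 1)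
    (ht' : Real.tan θ' ^ 2 ≤ 923 / 1000) (hw : w ∈ G0 θ' v1') (hw0 : 0 ≤ w.re)
    {a0 am x0 Da Db D2 B K h0 E : ℝ} (hx : Real.tan θ ^ 2 ≤ 923 / 1000 ∨ 1 / 100 ≤ h0) (ha0 : 29 / 100 ≤ a0) (ham : a0 ≤ am) (hx0 : am ≤ x0)
    (hx1 : x0 ≤ 2 / 5) (hwa : (cmp v1' w).re ≤ a0) (h00 : 0 < h0)
    (hC : Real.tanh (Real.pi * h0) ≤ 19 / 20 * Real.tanh (Real.pi * bl θ x0))
    (hbase : ∀ t ∈ Icc (0 : ℝ) (1 / 2),
      EE (.op (vl θ a0)) (.op ((starRingEnd ℂ) (cmp v1' w))) ((t : ℂ) + (h0 : ℂ) * I) <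
        LM Φ θ θ' b b' xc xc' (2 / 5) v1' μ μ' (vl θ a0) w - B)
    (hP1 : ∀ a ∈ Ioc a0 (2 / 5),
      Real.tanh (Real.pi * h0) ≤ 19 / 20 * Real.tanh (Real.pi * bl θ a) →
      ∀ t ∈ Ico (1 / 200 : ℝ) (1 / 2),
      gPd ((t : ℂ) + (h0 : ℂ) * I) (vl θ a) ((starRingEnd ℂ) (cmp v1' w)) =
        ‖cos (Real.pi * ((t : ℂ) + (h0 : ℂ) * I))‖ ^ 4 →
      rl b (gdv (UU xc θ)) (qq (UU xc θ) (UU xc' (-θ'))) θ a + (if a ≤ am then Da else Db) <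
        Ml ((t : ℂ) + (h0 : ℂ) * I) (vl θ a) (Tl θ a))
    (hP2 : ∀ a ∈ Ioc x0 (2 / 5), hgt (19 / 20) (bl θ a) ≤ h0 → ∀ t ∈ Ico (1 / 200 : ℝ) (1 / 2),
      gPd ((t : ℂ) + (hgt (19 / 20) (bl θ a) : ℂ) * I) (vl θ a) ((starRingEnd ℂ) (cmp v1' w)) =
        ‖cos (Real.pi * ((t : ℂ) + (hgt (19 / 20) (bl θ a) : ℂ) * I))‖ ^ 4 →
      rl b (gdv (UU xc θ)) (qq (UU xc θ) (UU xc' (-θ'))) θ a + D2 <
        Ml ((t : ℂ) + (hgt (19 / 20) (bl θ a) : ℂ) * I) (vl θ a) (Tl θ a) -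
        rp (19 / 20) (bl θ a) * Tl θ a / 2 *
          (eY ((t : ℂ) + (hgt (19 / 20) (bl θ a) : ℂ) * I) (vl θ a)
            ((starRingEnd ℂ) (cmp v1' w))).im)
    (h3a : ∀ ρ : ℝ, r0 ≤ ρ → ρ ≤ 19 / 20 → ∀ η ∈ Ioc (0 : ℝ) (bl θ (2 / 5)), hgt ρ η ≤ h0 →
      ∀ t ∈ Ico (1 / 200 : ℝ) (1 / 2),
      gPd ((t : ℂ) + (hgt ρ η : ℂ) * I) (vv η) ((starRingEnd ℂ) (cmp v1' w)) =
        ‖cos (Real.pi * ((t : ℂ) + (hgt ρ η : ℂ) * I))‖ ^ 4 →
      K * η < (he ((t : ℂ) + (hgt ρ η : ℂ) * I + vv η) - he ((t : ℂ) + (hgt ρ η : ℂ) * I - vv η)).im -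
        rp ρ η * (eY ((t : ℂ) + (hgt ρ η : ℂ) * I) (vv η) ((starRingEnd ℂ) (cmp v1' w))).im)
    (h3b : ∀ h1 : ℝ, 0 < h1 → h1 ≤ h0 → ∀ η ∈ Ioc (0 : ℝ) (bl θ (2 / 5)),
      Real.tanh (Real.pi * h1) ≤ r0 * Real.tanh (Real.pi * η) →
      ∀ t ∈ Ico (1 / 200 : ℝ) (1 / 2),
      gPd ((t : ℂ) + (h1 : ℂ) * I) (vv η) ((starRingEnd ℂ) (cmp v1' w)) =
        ‖cos (Real.pi * ((t : ℂ) + (h1 : ℂ) * I))‖ ^ 4 →
      K * η < (he ((t : ℂ) + (h1 : ℂ) * I + vv η) - he ((t : ℂ) + (h1 : ℂ) * I - vv η)).im)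
    (hB : 0 ≤ B) (h1 : 0 ≤ B + 2 * Da * (am - a0)) (hD : D2 ≤ Db)
    (h2 : 0 ≤ B + 2 * Da * (am - a0) + 2 * Db * (2 / 5 - am))
    (h3 : E = B + 2 * Da * (am - a0) + 2 * Db * (x0 - am) + 2 * D2 * (2 / 5 - x0)) (hE : 0 < E)
    (hK : 0 ≤ K) (hμ : μ * bl θ (2 / 5) < E + K * bl θ (2 / 5) ^ 2 / 2)
    (hEnd : ∀ v : ℂ, v ∈ G0 θ (2 / 5) → 0 ≤ v.re → Real.pi * (v.im + w.im) <
      LM Φ θ θ' b b' xc xc' (2 / 5) v1' μ μ' v w) :
    ∀ v : ℂ, v ∈ G0 θ (2 / 5) → a0 ≤ v.re → ∃ h : ℝ, |h| ≤ 1 ∧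
      (∀ Y ∈ Set.uIcc 0 h, EE (.op (cmp (2 / 5) v)) (.op ((starRingEnd ℂ) (cmp v1' w)))
        ((Y : ℂ) * I) < LM Φ θ θ' b b' xc xc' (2 / 5) v1' μ μ' v w) ∧
      ∀ t ∈ Icc (0 : ℝ) (1 / 2),
        EE (.op (cmp (2 / 5) v)) (.op ((starRingEnd ℂ) (cmp v1' w))) ((t : ℂ) + h * I) <
          LM Φ θ θ' b b' xc xc' (2 / 5) v1' μ μ' v w := by
  intro v hv hva
  have hpi := Real.pi_pos
  have hv0 : 0 ≤ v.re := by linarith
  obtain ⟨W, hW⟩ : ∃ W, W = (starRingEnd ℂ) (cmp v1' w) := ⟨_, rfl⟩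
  have uw := cmp_und H.hv1' hw hw0 H.hθ'
  have rW : Rg W := by rw [hW]; exact rg_conj (und_rg uw H.hθ'.pos.le H.hθ'.lt ht')
  have rw0 : 0 ≤ W.re := by rw [hW, conj_re]; exact uw.re0
  have rw1 : W.re ≤ 2 / 5 := by rw [hW, conj_re]; exact uw.re1
  have rwi : W.im ≤ 0 := by rw [hW, conj_im]; linarith [uw.im0]
  rw [← hW] at hbase hP1 hP2 h3a h3b ⊢
  obtain ⟨Q, hQ⟩ : ∃ Q, Q = qq (UU xc θ) (UU xc' (-θ')) := ⟨_, rfl⟩
  obtain ⟨vc, hvc⟩ : ∃ z, z = gdv (UU xc θ) := ⟨_, rfl⟩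
  rw [← hQ, ← hvc] at hP1 hP2
  have hQr : Q.re = b * (Real.pi * vc.im) := by
    have e := H.hs.hQ
    rw [← hQ] at e
    rw [e, gd_eq (by rw [UU_im]; exact H.hθ.abs), ← hvc, im_ofReal_mul]
  -- the bound along the line
  obtain ⟨l, hl⟩ : ∃ l : ℝ → ℝ, l = fun a => L0 Φ θ θ' b b' xc xc' (vl θ a) (pl θ' v1' w) -
    μ' * ((pl θ' v1' w).im - w.im) := ⟨_, rfl⟩
  have hl1 : ∀ a, 0 ≤ a → a ≤ 2 / 5 → LM Φ θ θ' b b' xc xc' (2 / 5) v1' μ μ' (vl θ a) w = l a := by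
    intro a g1 g2
    rw [hl]
    exact LM_vl g1 g2
  have hl2 : ∀ a ∈ Icc a0 (2 / 5), HasDerivAt l (-(2 * rl b vc Q θ a)) a := by
    intro a ha
    have hc := (cos_pos_of (a := a) (by linarith [ha.1]) (by linarith [ha.2])).ne'
    have d := ell_hasDerivAt (θ := θ) hQr hc
    rw [hl]
    unfold L0
    rw [← hvc, ← hQ]
    exact (((d.const_add _).add_const _).sub_const _)
  have key := line_all (θ := θ) (ρ := 19 / 20) (h0 := h0) (a0 := a0) (am := am) (x0 := x0)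
    (Da := Da) (Db := Db) (D2 := D2) (B := B) (w := W) (l := l) (r := fun a => rl b vc Q θ a)
    H.hθ.pos H.hθ.lt ht hx ha0 ham hx0 hx1 rW rw0 rw1 rwi (by norm_num) (by norm_num) h00 hC hl2
    (fun t ht1 => by rw [← hl1 a0 (by linarith) (by linarith)]; exact hbase t ht1)
    hP1 hP2 hB h1 hD h2 (by rw [← h3]; exact hE.le)
  rw [← h3] at key
  obtain ⟨k1, ht0, k2, k3, k4, k6, k5⟩ := key
  have hβ : 0 < bl θ (2 / 5) :=
    bl_pos_of H.hθ.pos H.hθ.lt (by rw [abs_of_pos (by norm_num)]; norm_num)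
  have evv : vv (bl θ (2 / 5)) = vl θ (2 / 5) := by unfold vv vl; norm_num
  have key2 := vert_allR (r0 := r0) hr0 hr1 (θ := θ) (K := K) (L := l (2 / 5) - E) (h1 := ht0) (w := W) H.hθ.pos
    H.hθ.lt ht k6 rW rw0 rw1 rwi k2 k4 (by rw [evv]; exact k5)
    (fun ρ r1 r2 η hη hh => h3a ρ r1 r2 η hη (hh.trans k3)) (h3b ht0 k2 k3)
  have hh1 : h0 ≤ 1 := by
    have g : h0 < bl θ x0 := by
      by_contra hc
      push Not at hc
      have g1 := tanh_mono (mul_le_mul_of_nonneg_left hc hpi.le)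
      have g2 : 0 < Real.tanh (Real.pi * bl θ x0) := tanh_pos_of (mul_pos hpi
        (bl_pos_of H.hθ.pos H.hθ.lt (by rw [abs_of_nonneg (by linarith)]; linarith)))
      linarith
    have g3 : Real.pi * bl θ x0 ≤ 1 := by
      have g4 : Real.sinh (Real.pi * bl θ x0) ≤ 1 := by
        rw [sinh_pi_bl]
        have g5 : 0 ≤ Real.tan θ := Real.tan_nonneg_of_nonneg_of_le_pi_div_two H.hθ.pos.le H.hθ.lt.le
        have g6 : Real.tan θ ≤ 1 := by nlinarith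
        have g7 := Real.cos_le_one (Real.pi * x0)
        have g8 : 0 < Real.cos (Real.pi * x0) := cos_pos_of (by linarith) (by linarith)
        nlinarith
      have g5 := Real.self_le_sinh_iff.2 (show 0 ≤ Real.pi * bl θ x0 from mul_nonneg hpi.le
        (bl_pos_of H.hθ.pos H.hθ.lt (by rw [abs_of_nonneg (by linarith)]; linarith)).le)
      linarith
    nlinarith [Real.pi_gt_three]
  -- the left vertical
  have left : ∀ x : ℂ, x ∈ G0 θ (2 / 5) → a0 ≤ x.re → ∀ h : ℝ, 0 ≤ h →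
      (∀ t ∈ Icc (0 : ℝ) (1 / 2), EE (.op (cmp (2 / 5) x)) (.op W) ((t : ℂ) + (h : ℂ) * I) <
        LM Φ θ θ' b b' xc xc' (2 / 5) v1' μ μ' x w) →
      ∀ Y ∈ Set.uIcc 0 h, EE (.op (cmp (2 / 5) x)) (.op W) ((Y : ℂ) * I) <
        LM Φ θ θ' b b' xc xc' (2 / 5) v1' μ μ' x w := by
    intro x hx hxa h hh0 hf Y hY
    rw [uIcc_of_le hh0] at hY
    have ux := cmp_und H.hv1 hx (by linarith) H.hθ
    have hxr : a0 ≤ (cmp (2 / 5) x).re := by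
      unfold cmp
      split_ifs with hc
      · exact hxa
      · rw [ofReal_re]; linarith
    have hs := (und_rg uw H.hθ'.pos.le H.hθ'.lt ht').s1
    have k := left_dir (v := cmp (2 / 5) x) (w := cmp v1' w) (by linarith) ux.re1 ux.im0 uw.re0
      (hwa.trans hxr) uw.im0 hs hY.1 hY.2
    rw [← hW] at k
    refine k.trans_lt (max_lt ?_ (hf 0 ⟨le_rfl, by norm_num⟩))
    rw [cmp_im hx (by linarith), cmp_im hw hw0]
    exact hEnd x hx (by linarith)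
  -- the vertical
  have vert : ∀ η : ℝ, 0 ≤ η → η ≤ bl θ (2 / 5) → 2 / 5 ≤ v.re → v.im = η → cmp (2 / 5) v = vv η →
      ∃ h : ℝ, |h| ≤ 1 ∧
      (∀ Y ∈ Set.uIcc 0 h, EE (.op (cmp (2 / 5) v)) (.op W) ((Y : ℂ) * I) <
        LM Φ θ θ' b b' xc xc' (2 / 5) v1' μ μ' v w) ∧
      ∀ t ∈ Icc (0 : ℝ) (1 / 2), EE (.op (cmp (2 / 5) v)) (.op W) ((t : ℂ) + h * I) <
          LM Φ θ θ' b b' xc xc' (2 / 5) v1' μ μ' v w := by
    intro η e0 e1 e2 e3 e4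
    obtain ⟨h, f1, f2, f3⟩ := key2 η ⟨e0, e1⟩
    have hf : ∀ t ∈ Icc (0 : ℝ) (1 / 2), EE (.op (cmp (2 / 5) v)) (.op W) ((t : ℂ) + (h : ℂ) * I) <
        LM Φ θ θ' b b' xc xc' (2 / 5) v1' μ μ' v w := by
      intro t ht1
      rw [e4, LM_beyond (by norm_num) e2, hl1 _ (by norm_num) le_rfl, e3]
      have g1 := f3 t ht1
      have g2 := concave_pos hK hβ e0 e1 hE hμ
      linarith
    exact ⟨h, by rw [abs_of_nonneg f1]; linarith, left v hv hva h f1 hf, hf⟩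
  have vabs : |v.re| = v.re := abs_of_nonneg hv0
  rcases hv with ⟨g1, g2⟩ | ⟨g1, g2, g3⟩ | ⟨g1, g2, g3⟩
  · -- on the line
    rw [vabs] at g1
    have ev : v = vl θ v.re := by
      apply Complex.ext
      · rw [vl_re]
      · rw [vl_im, g2]
    have ec : cmp (2 / 5) v = v := if_pos g1
    obtain ⟨h, f1, f2, f3⟩ := k1 v.re ⟨hva, g1⟩
    have hf : ∀ t ∈ Icc (0 : ℝ) (1 / 2), EE (.op (cmp (2 / 5) v)) (.op W) ((t : ℂ) + (h : ℂ) * I) <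
        LM Φ θ θ' b b' xc xc' (2 / 5) v1' μ μ' v w := by
      intro t ht1
      have := f3 t ht1
      rw [← hl1 _ hv0 g1, ← ev] at this
      rw [ec]
      exact this
    have hv' : v ∈ G0 θ (2 / 5) := Or.inl ⟨by rw [vabs]; exact g1, g2⟩
    exact ⟨h, by rw [abs_of_pos f1]; linarith, left v hv' hva h f1.le hf, hf⟩
  · rw [vabs] at g1
    refine vert v.im g2 g3 g1.ge rfl ?_
    have ec : cmp (2 / 5) v = v := if_pos g1.le
    rw [ec]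
    apply Complex.ext
    · rw [vv_re, g1]
    · rw [vv_im]
  · rw [vabs] at g1
    refine vert 0 le_rfl hβ.le g1 g3 ?_
    unfold cmp
    split_ifs with hc
    · apply Complex.ext
      · rw [vv_re]; linarith
      · rw [vv_im, g3]
    · apply Complex.ext
      · rw [vv_re, ofReal_re]
      · rw [vv_im, ofReal_im]

/-- **A slide from its certificates.** -/
theorem OO.slideMR (H : OO Φ θ θ' xc xc' b b' (2 / 5) v1') {r0 : ℝ} (hr0 : 2 / 5 ≤ r0)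
    (hr1 : r0 ≤ 19 / 20) {s0 s1 : ℝ}
    (hs0 : s0 ≤ Real.tan θ ^ 2) (hs1 : Real.tan θ ^ 2 ≤ s1) (ht : Real.tan θ ^ 2 ≤ 923 / 1000)
    (ht' : Real.tan θ' ^ 2 ≤ 923 / 1000) (hw : w ∈ G0 θ' v1')
    (hw0 : 0 ≤ w.re) {a0 x0 D0 D1 e0 e1 K E3 h0 k2 P0 B : ℝ} (hwa : (cmp v1' w).re ≤ a0)
    (hh : 0 < h0) (hk : 0 ≤ k2)
    (hk2 : Real.sinh (Real.pi * h0) ≤ k2 * Real.tan θ) (hP : Real.tan (Real.pi * x0) ≤ P0)
    (hn : k2 ^ 2 * (1 + P0 ^ 2) + 39 / 400 * k2 ^ 2 ≤ 361 / 400) (hB : 0 ≤ B)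
    (hbase : ∀ t ∈ Icc (0 : ℝ) (1 / 2),
      EE (.op (vl θ a0)) (.op ((starRingEnd ℂ) (cmp v1' w))) ((t : ℂ) + (h0 : ℂ) * I) <
        LM Φ θ θ' b b' xc xc' (2 / 5) v1' μ μ' (vl θ a0) w - B)
    (N : NumM s0 s1 a0 x0 D0 D1 e0 e1 K E3)
    (p1 : Ph1 θ h0 ((starRingEnd ℂ) (cmp v1' w)) (4 / 3) D0 D1 a0 (37 / 100))
    (p2 : Ph1 θ h0 ((starRingEnd ℂ) (cmp v1' w)) (7 / 5) D0 D1 (max a0 (37 / 100)) (19 / 50))
    (p3 : Ph1 θ h0 ((starRingEnd ℂ) (cmp v1' w)) (3 / 2) D0 D1 (max a0 (19 / 50)) (2 / 5))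
    (q1 : Ph2 θ ((starRingEnd ℂ) (cmp v1' w)) (4 / 3) e0 e1 x0 (37 / 100))
    (q2 : Ph2 θ ((starRingEnd ℂ) (cmp v1' w)) (7 / 5) e0 e1 (max x0 (37 / 100)) (19 / 50))
    (q3 : x0 < 2 / 5 → Ph2 θ ((starRingEnd ℂ) (cmp v1' w)) (3 / 2) e0 e1 (max x0 (19 / 50)) (2 / 5))
    (hE1 : ∀ a ∈ Ioc (29 / 100) (2 / 5),
      rl b (gdv (UU xc θ)) (qq (UU xc θ) (UU xc' (-θ'))) θ a ≤ cE a * S2l θ a)
    (hE3 : μ * bl θ (2 / 5) - B ≤ E3)
    (h3 : Ph3R r0 θ h0 K ((starRingEnd ℂ) (cmp v1' w)))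
    (hEnd : ∀ v : ℂ, v ∈ G0 θ (2 / 5) → 0 ≤ v.re → Real.pi * (v.im + w.im) <
      LM Φ θ θ' b b' xc xc' (2 / 5) v1' μ μ' v w) :
    ∀ v : ℂ, v ∈ G0 θ (2 / 5) → a0 ≤ v.re → ∃ h : ℝ, |h| ≤ 1 ∧
      (∀ Y ∈ Set.uIcc 0 h, EE (.op (cmp (2 / 5) v)) (.op ((starRingEnd ℂ) (cmp v1' w)))
        ((Y : ℂ) * I) < LM Φ θ θ' b b' xc xc' (2 / 5) v1' μ μ' v w) ∧
      ∀ t ∈ Icc (0 : ℝ) (1 / 2),
        EE (.op (cmp (2 / 5) v)) (.op ((starRingEnd ℂ) (cmp v1' w))) ((t : ℂ) + h * I) <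
          LM Φ θ θ' b b' xc xc' (2 / 5) v1' μ μ' v w := by
  have hx := N.hx
  have ha := N.ha
  have ha0 := N.a0'
  obtain ⟨s, hs⟩ : ∃ s, s = Real.tan θ ^ 2 := ⟨_, rfl⟩
  have ht1 : Real.tan θ ^ 2 ≤ 1 := by linarith
  have hbl := bl25_sq H.hθ.pos H.hθ.lt ht1
  have mD : 1 / 100000 ≤ D0 - D1 * s := by
    have := lin_le (A := D0) (B := -D1) (c := 1 / 100000) hs0 hs1 (by linarith [N.n1])
      (by linarith [N.n1'])
    rw [hs]; linarith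
  have mE : e0 - e1 * s ≤ D0 - D1 * s := by
    have := lin_le (A := D0 - e0) (B := e1 - D1) (c := 0) hs0 hs1 (by linarith [N.n0])
      (by linarith [N.n0'])
    rw [hs]; linarith
  have hS0 : ∀ a, 0 < a → a < 1 / 2 → 0 < Real.cos (Real.pi * a) := fun a h0 h1 =>
    cos_pi_pos (by rw [abs_of_pos h0]; exact h1)
  rw [← hs] at hbl
  refine H.slideHR hr0 hr1 ht1 ht' hw hw0 (a0 := a0) (am := x0) (x0 := x0)
    (Da := D0 - D1 * s - 1 / 100000) (Db := D0 - D1 * s - 1 / 100000)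
    (D2 := e0 - e1 * s - 1 / 100000) (B := B) (K := K) (h0 := h0)
    (E := B + 2 * (D0 - D1 * s - 1 / 100000) * (x0 - a0) +
      2 * (D0 - D1 * s - 1 / 100000) * (x0 - x0) + 2 * (e0 - e1 * s - 1 / 100000) * (2 / 5 - x0))
    (Or.inl ht) ha0 ha le_rfl hx hwa hh
    (tanh_le_bl H.hθ.pos H.hθ.lt ht1 hh.le hk hk2 (by linarith) (by linarith) hP hn)
    hbase ?_ ?_ h3.a h3.b hB ?_ (by linarith) ?_ rfl ?_ N.hK ?_ hEnd
  · intro a ha1 h1 t ht2 hg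
    have k1 := hE1 a ⟨by linarith [ha1.1], ha1.2⟩
    have key : cE a * S2l θ a + D0 - D1 * Real.tan θ ^ 2 ≤
        Ml ((t : ℂ) + (h0 : ℂ) * I) (vl θ a) (Tl θ a) := by
      unfold cE
      split_ifs with c1 c2
      · exact p1 a ha1.1.le c1 h1 t ht2 hg
      · push Not at c1
        exact p2 a (max_le ha1.1.le c1.le) c2 h1 t ht2 hg
      · push Not at c2
        exact p3 a (max_le ha1.1.le c2.le) ha1.2 h1 t ht2 hg
    rw [← hs] at key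
    split_ifs <;> linarith
  · intro a ha1 _ t ht2 hg
    have k1 := hE1 a ⟨by linarith [ha1.1], ha1.2⟩
    have key : cE a * S2l θ a + e0 - e1 * Real.tan θ ^ 2 ≤
        Ml ((t : ℂ) + (hgt (19 / 20) (bl θ a) : ℂ) * I) (vl θ a) (Tl θ a) -
        rp (19 / 20) (bl θ a) * Tl θ a / 2 *
          (eY ((t : ℂ) + (hgt (19 / 20) (bl θ a) : ℂ) * I) (vl θ a)
            ((starRingEnd ℂ) (cmp v1' w))).im := by
      unfold cE
      split_ifs with c1 c2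
      · exact q1 a ha1.1.le c1 t ht2 hg
      · push Not at c1
        exact q2 a (max_le ha1.1.le c1.le) c2 t ht2 hg
      · push Not at c2
        exact q3 (by linarith [ha1.1, ha1.2]) a (max_le ha1.1.le c2.le) ha1.2 t ht2 hg
    rw [← hs] at key
    linarith
  · have : 0 ≤ 2 * (D0 - D1 * s - 1 / 100000) * (x0 - a0) :=
      mul_nonneg (by linarith) (by linarith)
    linarith
  · have : 0 ≤ 2 * (D0 - D1 * s - 1 / 100000) * (x0 - a0) :=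
      mul_nonneg (by linarith) (by linarith)
    have : 0 ≤ 2 * (D0 - D1 * s - 1 / 100000) * (2 / 5 - x0) :=
      mul_nonneg (by linarith) (by linarith)
    linarith
  · have := N.E hs0 hs1 hB
    rw [← hs] at this
    rw [sub_self, mul_zero]
    linarith
  · have := N.fin (β2 := bl θ (2 / 5) ^ 2) hs0 hs1 (by rw [← hs]; exact hbl) hE3
    rw [← hs] at this
    rw [sub_self, mul_zero]
    linarith

end

section

variable {Φ : ℂ → ℂ → ℂ} {θ θ' xc xc' b b' μ μ' : ℝ} {w : ℂ}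

theorem Cert22.slideR {r0 : ℝ} (hr0 : 2 / 5 ≤ r0) (hr1 : r0 ≤ 19 / 20) {a0 w0 w1 p0 p1 s0 s1 klo khi x0 D0 D1 e0 e1 : ℝ}
    (C : Cert22 a0 w0 w1 p0 p1 s0 s1 klo khi x0 D0 D1 e0 e1)
    (H : OO Φ θ θ' xc xc' b b' (2 / 5) (2 / 5)) {s0' s1' : ℝ}
    (hs0 : s0 ≤ Real.tan θ ^ 2) (hs1 : Real.tan θ ^ 2 ≤ s1)
    (hs0' : s0' ≤ Real.tan θ ^ 2) (hs1' : Real.tan θ ^ 2 ≤ s1')
    (hp0 : p0 ≤ Real.tan θ' ^ 2) (hp1 : Real.tan θ' ^ 2 ≤ p1)
    (ht : Real.tan θ ^ 2 ≤ 923 / 1000) (ht' : Real.tan θ' ^ 2 ≤ 923 / 1000)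
    (hw : w0 ≤ w.re) (hw' : w.re ≤ w1) (hwl : w.im = bl θ' w.re)
    (ha0 : a0 ≤ 2 / 5) {K E3 h0 B : ℝ}
    (hh : 0 < h0) (hk1 : klo * Real.tan θ ≤ Real.sinh (Real.pi * h0))
    (hk2 : Real.sinh (Real.pi * h0) ≤ khi * Real.tan θ) (hB : 0 ≤ B)
    (hbase : ∀ t ∈ Icc (0 : ℝ) (1 / 2),
      EE (.op (vl θ a0)) (.op ((starRingEnd ℂ) w)) ((t : ℂ) + (h0 : ℂ) * I) <
        LM Φ θ θ' b b' xc xc' (2 / 5) (2 / 5) μ μ' (vl θ a0) w - B)
    (N : NumM s0' s1' a0 x0 D0 D1 e0 e1 K E3)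
    (hE1 : ∀ a ∈ Ioc (29 / 100) (2 / 5),
      rl b (gdv (UU xc θ)) (qq (UU xc θ) (UU xc' (-θ'))) θ a ≤ cE a * S2l θ a)
    (hE3 : μ * bl θ (2 / 5) - B ≤ E3)
    (h3 : Ph3R r0 θ h0 K ((starRingEnd ℂ) w))
    (hEnd : ∀ v : ℂ, v ∈ G0 θ (2 / 5) → 0 ≤ v.re → Real.pi * (v.im + w.im) <
      LM Φ θ θ' b b' xc xc' (2 / 5) (2 / 5) μ μ' v w) :
    ∀ v : ℂ, v ∈ G0 θ (2 / 5) → a0 ≤ v.re → ∃ h : ℝ, |h| ≤ 1 ∧
      (∀ Y ∈ Set.uIcc 0 h, EE (.op (cmp (2 / 5) v)) (.op ((starRingEnd ℂ) w))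
        ((Y : ℂ) * I) < LM Φ θ θ' b b' xc xc' (2 / 5) (2 / 5) μ μ' v w) ∧
      ∀ t ∈ Icc (0 : ℝ) (1 / 2),
        EE (.op (cmp (2 / 5) v)) (.op ((starRingEnd ℂ) w)) ((t : ℂ) + h * I) <
          LM Φ θ θ' b b' xc xc' (2 / 5) (2 / 5) μ μ' v w := by
  have w0' : 0 ≤ w.re := C.hw.trans hw
  have w1' : w.re ≤ a0 := hw'.trans C.hw'
  have w2 : w.re ≤ 2 / 5 := w1'.trans ha0
  have ec : cmp (2 / 5) w = w := if_pos w2
  have htp : 0 < Real.tan θ := Real.tan_pos_of_pos_of_lt_pi_div_two H.hθ.pos H.hθ.lt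
  have htp' : 0 < Real.tan θ' := Real.tan_pos_of_pos_of_lt_pi_div_two H.hθ'.pos H.hθ'.lt
  have hwi : 0 ≤ w.im := by
    rw [hwl]
    exact bl_nonneg H.hθ'.pos.le H.hθ'.lt (by rw [abs_of_nonneg w0']; linarith)
  obtain ⟨P0, hP, hn⟩ := C.P0
  have hk0 := C.k0
  have c1 : klo ^ 2 * Real.tan θ ^ 2 ≤ Real.sinh (Real.pi * h0) ^ 2 := by
    rw [← mul_pow]
    exact pow_le_pow_left₀ (by positivity) hk1 2
  have c2 : Real.sinh (Real.pi * h0) ^ 2 ≤ khi ^ 2 * Real.tan θ ^ 2 := by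
    rw [← mul_pow]
    have hpi := Real.pi_pos
    exact pow_le_pow_left₀ (Real.sinh_nonneg_iff.2 (by positivity)) hk2 2
  obtain ⟨p1, p2, p3, q1, q2, q3⟩ := C.ph H.hθ.pos H.hθ.lt htp'.le hw hw' w2 hwl hwi hp0 hp1
    hs0 hs1 hh c1 c2
  have hG : w ∈ G0 θ' (2 / 5) := Or.inl ⟨by rwa [abs_of_nonneg w0'], hwl⟩
  have key := H.slideMR hr0 hr1 (w := w) (μ := μ) (μ' := μ') hs0' hs1' ht ht' hG w0' (a0 := a0) (x0 := x0)
    (D0 := D0) (D1 := D1) (e0 := e0) (e1 := e1) (K := K) (E3 := E3) (h0 := h0) (k2 := khi)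
    (P0 := P0) (B := B) (by rw [ec]; exact w1') hh C.k1 hk2 hP hn hB (by rw [ec]; exact hbase) N
    (by rw [ec]; exact p1) (by rw [ec]; exact p2) (by rw [ec]; exact p3) (by rw [ec]; exact q1)
    (by rw [ec]; exact q2) (by rw [ec]; exact q3) hE1 hE3 (by rw [ec]; exact h3) hEnd
  rw [ec] at key
  exact key

end

end T2

end Pool.Agent.S3
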